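import Pool.Agent.Lib.CMT.J3.Spec

/-!
# PROJECT CMT, part J3 : algebra of `U(2,1)` on the cone (helper93)

`pGJ`, `pRCS`, `pHhLow`, `pTrans` and small lemmas on `IsG`.
-/

open scoped BigOperators ComplexConjugate ContDiff
open MeasureTheory Matrix

noncomputable section

namespace CMT.J3

/-! ## sesquilinearity -/

theorem hh_cj (Z W : V3) : conj (hh Z W) = hh W Z := by
  simp only [hh, map_sub, map_add, map_mul, Complex.conj_conj]
  ring

theorem hh_sub_l (Z Z' W : V3) : hh (Z - Z') W = hh Z W - hh Z' W := by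
  simp only [hh, Pi.sub_apply]
  ring

theorem hh_sub_r (Z W W' : V3) : hh Z (W - W') = hh Z W - hh Z W' := by
  simp only [hh, Pi.sub_apply, map_sub]
  ring

theorem hh_smul_l (c : ℂ) (Z W : V3) : hh (c • Z) W = c * hh Z W := by
  simp only [hh, Pi.smul_apply, smul_eq_mul]
  ring

theorem hh_smul_r (c : ℂ) (Z W : V3) : hh Z (c • W) = conj c * hh Z W := by
  simp only [hh, Pi.smul_apply, smul_eq_mul, map_mul]
  ring

theorem hh_slf (Z : V3) : hh Z Z = ((-NN Z : ℝ) : ℂ) := by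
  simp only [hh, NN, Complex.mul_conj]
  push_cast
  ring

theorem hh_sum (Z W : V3) : hh Z W = ∑ i, ep i * (Z i * conj (W i)) := by
  simp only [hh, ep, Fin.sum_univ_three]
  simp
  ring

/-! ## `U(2,1)` -/

theorem IsG.one : IsG 1 := by
  intro Z W
  rw [one_mulVec, one_mulVec]

theorem IsG.mul {g h : M3} (hg : IsG g) (hh' : IsG h) : IsG (g * h) := by
  intro Z W
  rw [← mulVec_mulVec, ← mulVec_mulVec, hg, hh']

theorem IsG.nn {g : M3} (hg : IsG g) (Z : V3) : NN (g *ᵥ Z) = NN Z := by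
  have h1 := hg Z Z
  rw [hh_slf, hh_slf] at h1
  have h2 : -NN (g *ᵥ Z) = -NN Z := by exact_mod_cast h1
  linarith

theorem IsG.mem {g : M3} (hg : IsG g) {Z : V3} (hZ : Z ∈ Co) : g *ᵥ Z ∈ Co := by
  show 0 < NN (g *ᵥ Z)
  rw [hg.nn]
  exact hZ

theorem IsG.ttt {g : M3} (hg : IsG g) (Z W : V3) : tt (g *ᵥ Z) (g *ᵥ W) = tt Z W := by
  rw [tt, tt, hg Z W, hg.nn, hg.nn]

theorem ep_mul_ep : (diagonal ep : M3) * diagonal ep = 1 := by
  rw [diagonal_mul_diagonal, ← diagonal_one]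
  congr 1
  funext i
  fin_cases i <;> simp [ep]

theorem det_ep : (diagonal ep : M3).det = -1 := by
  rw [det_diagonal, Fin.prod_univ_three]
  simp [ep]

theorem IsG.gjg {g : M3} (hg : IsG g) : gᴴ * diagonal ep * g = diagonal ep := by
  ext k j
  have h1 := hg (Pi.single j 1) (Pi.single k 1)
  rw [hh_sum, hh_sum, mulVec_single_one, mulVec_single_one] at h1
  rw [mul_apply]
  have h2 : ∀ i, (gᴴ * diagonal ep) k i * g i j = ep i * (g.col j i * conj (g.col k i)) := by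
    intro i
    rw [mul_diagonal, conjTranspose_apply]
    simp only [col_apply]
    rw [show star (g i k) = conj (g i k) from rfl]
    ring
  rw [Finset.sum_congr rfl fun i _ => h2 i, h1, Finset.sum_eq_single k]
  · by_cases hkj : k = j
    · subst hkj
      rw [diagonal_apply_eq, Pi.single_eq_same]
      simp
    · rw [diagonal_apply_ne _ hkj, Pi.single_eq_of_ne hkj]
      simp
  · intro i _ hik
    rw [Pi.single_eq_of_ne (M := fun _ => ℂ) (i := k) hik]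
    simp
  · intro h
    exact absurd (Finset.mem_univ k) h

theorem pGJ : S_GJ := by
  intro g hg
  have h1 := hg.gjg
  have h2 : (diagonal ep * gᴴ * diagonal ep) * g = 1 := by
    rw [Matrix.mul_assoc, Matrix.mul_assoc, ← Matrix.mul_assoc gᴴ, h1, ep_mul_ep]
  have h3 : g * (diagonal ep * gᴴ * diagonal ep) = 1 := mul_eq_one_comm.1 h2
  refine ⟨h1, ?_, ?_⟩
  · have h4 : g * diagonal ep * gᴴ * (diagonal ep * diagonal ep) = diagonal ep := by
      have h5 : g * diagonal ep * gᴴ * (diagonal ep * diagonal ep) =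
          g * (diagonal ep * gᴴ * diagonal ep) * diagonal ep := by
        simp only [Matrix.mul_assoc]
      rw [h5, h3, Matrix.one_mul]
    rwa [ep_mul_ep, Matrix.mul_one] at h4
  · have h4 := congrArg Matrix.det h1
    rw [det_mul, det_mul, det_conjTranspose, det_ep] at h4
    have h5 : conj g.det * g.det = 1 := by
      rw [show conj g.det = star g.det from rfl]
      linear_combination -h4
    rw [mul_comm, Complex.mul_conj] at h5
    exact_mod_cast h5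

theorem IsG.inv {g : M3} (hg : IsG g) :
    IsG (diagonal ep * gᴴ * diagonal ep) ∧ (diagonal ep * gᴴ * diagonal ep) * g = 1 ∧
      g * (diagonal ep * gᴴ * diagonal ep) = 1 := by
  have h2 : (diagonal ep * gᴴ * diagonal ep) * g = 1 := by
    rw [Matrix.mul_assoc, Matrix.mul_assoc, ← Matrix.mul_assoc gᴴ, hg.gjg, ep_mul_ep]
  have h3 : g * (diagonal ep * gᴴ * diagonal ep) = 1 := mul_eq_one_comm.1 h2
  refine ⟨?_, h2, h3⟩
  intro Z W
  rw [← hg, mulVec_mulVec, mulVec_mulVec, h3, one_mulVec, one_mulVec]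

theorem IsG.exists_inv {g : M3} (hg : IsG g) : ∃ g' : M3, IsG g' ∧ g' * g = 1 ∧ g * g' = 1 :=
  ⟨_, hg.inv⟩

/-! ## reverse Cauchy-Schwarz -/

/-- The length of `(Z₀, Z₁)`. -/
def aa (Z : V3) : ℝ := Real.sqrt (Complex.normSq (Z 0) + Complex.normSq (Z 1))

theorem aa_nonneg (Z : V3) : 0 ≤ aa Z := Real.sqrt_nonneg _

theorem aa_sq (Z : V3) : aa Z ^ 2 = Complex.normSq (Z 0) + Complex.normSq (Z 1) :=
  Real.sq_sqrt (add_nonneg (Complex.normSq_nonneg _) (Complex.normSq_nonneg _))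

theorem nn_aa (Z : V3) : NN Z = ‖Z 2‖ ^ 2 - aa Z ^ 2 := by
  rw [aa_sq, NN, Complex.normSq_eq_norm_sq (Z 2)]
  ring

theorem cs_aa (Z W : V3) : ‖Z 0 * conj (W 0) + Z 1 * conj (W 1)‖ ≤ aa Z * aa W := by
  apply abs_le_of_sq_le_sq' _ (mul_nonneg (aa_nonneg Z) (aa_nonneg W)) |>.2
  rw [mul_pow, aa_sq, aa_sq, ← Complex.normSq_eq_norm_sq]
  have h1 : (Complex.normSq (Z 0) + Complex.normSq (Z 1)) *
      (Complex.normSq (W 0) + Complex.normSq (W 1)) =
      Complex.normSq (Z 0 * conj (W 0) + Z 1 * conj (W 1)) +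
        Complex.normSq (Z 0 * W 1 - Z 1 * W 0) := by
    simp only [Complex.normSq_apply, Complex.add_re, Complex.add_im, Complex.sub_re, Complex.sub_im,
      Complex.mul_re, Complex.mul_im, Complex.conj_re, Complex.conj_im]
    ring
  rw [h1]
  linarith [Complex.normSq_nonneg (Z 0 * W 1 - Z 1 * W 0)]

theorem hh_ge (Z W : V3) : ‖Z 2‖ * ‖W 2‖ - aa Z * aa W ≤ ‖hh Z W‖ := by
  have h1 : hh Z W = (Z 0 * conj (W 0) + Z 1 * conj (W 1)) - Z 2 * conj (W 2) := rfl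
  have h2 := norm_sub_norm_le (Z 2 * conj (W 2)) (Z 0 * conj (W 0) + Z 1 * conj (W 1))
  rw [norm_sub_rev, ← h1, norm_mul, RCLike.norm_conj] at h2
  linarith [cs_aa Z W]

theorem aa_le {Z : V3} (hZ : 0 ≤ NN Z) : aa Z ≤ ‖Z 2‖ := by
  rw [nn_aa] at hZ
  exact abs_le_of_sq_le_sq' (by linarith) (norm_nonneg _) |>.2

theorem aa_lt {Z : V3} (hZ : Z ∈ Co) : aa Z < ‖Z 2‖ := by
  have h1 : 0 < NN Z := hZ
  rw [nn_aa] at h1
  exact lt_of_pow_lt_pow_left₀ 2 (norm_nonneg _) (by linarith)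

theorem pRCS : S_RCS := by
  intro Z hZ W hW
  have h1 := hh_ge Z W
  have h2 := aa_lt hZ
  have h3 := aa_lt hW
  have h4 : 0 ≤ ‖Z 2‖ * ‖W 2‖ - aa Z * aa W := by
    have := mul_le_mul h2.le h3.le (aa_nonneg W) (norm_nonneg _)
    linarith
  rw [Complex.normSq_eq_norm_sq, nn_aa, nn_aa]
  calc (‖Z 2‖ ^ 2 - aa Z ^ 2) * (‖W 2‖ ^ 2 - aa W ^ 2)
      ≤ (‖Z 2‖ * ‖W 2‖ - aa Z * aa W) ^ 2 := by
        nlinarith [sq_nonneg (‖Z 2‖ * aa W - aa Z * ‖W 2‖)]
    _ ≤ ‖hh Z W‖ ^ 2 := pow_le_pow_left₀ h4 h1 2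

theorem one_le_tt {Z W : V3} (hZ : Z ∈ Co) (hW : W ∈ Co) : 1 ≤ tt Z W := by
  have h1 : 0 < NN Z := hZ
  have h2 : 0 < NN W := hW
  rw [tt, le_div_iff₀ (mul_pos h1 h2), one_mul]
  exact pRCS Z hZ W hW

theorem pHhLow : S_HhLow := by
  intro C hC hCo
  have hcont : Continuous fun Z : V3 => ‖Z 2‖ - aa Z := by
    unfold aa
    fun_prop
  obtain ⟨δ, hδ, hδC⟩ : ∃ δ : ℝ, 0 < δ ∧ ∀ Z ∈ C, δ ≤ ‖Z 2‖ - aa Z := by
    rcases C.eq_empty_or_nonempty with h | h
    · exact ⟨1, one_pos, fun Z hZ => by rw [h] at hZ; exact absurd hZ (Set.notMem_empty _)⟩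
    · obtain ⟨Z0, hZ0, hmin⟩ := hC.exists_isMinOn h hcont.continuousOn
      exact ⟨‖Z0 2‖ - aa Z0, sub_pos.2 (aa_lt (hCo hZ0)), fun Z hZ => hmin hZ⟩
  refine ⟨δ, hδ, fun Z hZ W hW => ?_⟩
  have h1 := hh_ge Z W
  have h2 := aa_le hW
  have h3 : ‖W‖ ≤ ‖W 2‖ := by
    refine (pi_norm_le_iff_of_nonneg (norm_nonneg _)).2 fun i => ?_
    have h4 : ∀ j : Fin 3, Complex.normSq (W j) ≤ Complex.normSq (W 2) → ‖W j‖ ≤ ‖W 2‖ := by
      intro j hj
      rw [Complex.normSq_eq_norm_sq, Complex.normSq_eq_norm_sq] at hj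
      exact abs_le_of_sq_le_sq' hj (norm_nonneg _) |>.2
    apply h4
    have h5 := hW
    rw [NN] at h5
    have h6 := Complex.normSq_nonneg (W 0)
    have h7 := Complex.normSq_nonneg (W 1)
    fin_cases i
    · show Complex.normSq (W 0) ≤ _
      linarith
    · show Complex.normSq (W 1) ≤ _
      linarith
    · exact le_rfl
  calc δ * ‖W‖ ≤ (‖Z 2‖ - aa Z) * ‖W 2‖ :=
        mul_le_mul (hδC Z hZ) h3 (norm_nonneg _) (hδ.le.trans (hδC Z hZ))
    _ = ‖Z 2‖ * ‖W 2‖ - aa Z * ‖W 2‖ := by ring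
    _ ≤ ‖Z 2‖ * ‖W 2‖ - aa Z * aa W := by
        have := mul_le_mul_of_nonneg_left h2 (aa_nonneg Z)
        linarith
    _ ≤ ‖hh Z W‖ := h1

/-! ## transitivity -/

/-- The reflection in the vector `v`. -/
def rf (v : V3) : M3 := fun i j =>
  (1 : M3) i j - 2 / hh v v * (v i * (ep j * conj (v j)))

theorem rf_mulVec (v x : V3) : rf v *ᵥ x = x - (2 * hh x v / hh v v) • v := by
  funext i
  have h1 : (rf v *ᵥ x) i = ∑ j, ((1 : M3) i j * x j -
      2 / hh v v * v i * (ep j * (x j * conj (v j)))) := by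
    rw [mulVec, dotProduct]
    refine Finset.sum_congr rfl fun j _ => ?_
    rw [rf]
    ring
  rw [h1, Finset.sum_sub_distrib, ← Finset.mul_sum, ← hh_sum]
  have h2 : ∑ j, (1 : M3) i j * x j = x i := by
    have h3 := congrFun (one_mulVec x) i
    rw [mulVec, dotProduct] at h3
    exact h3
  rw [h2, Pi.sub_apply, Pi.smul_apply, smul_eq_mul]
  ring

theorem isG_rf {v : V3} (hv : hh v v ≠ 0) : IsG (rf v) := by
  intro Z W
  have h1 : conj (hh v v) = hh v v := hh_cj v v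
  have h2 : conj (hh W v) = hh v W := hh_cj W v
  rw [rf_mulVec, rf_mulVec, hh_sub_l, hh_sub_r, hh_sub_r, hh_smul_l, hh_smul_r, hh_smul_r,
    hh_smul_l, map_div₀, map_mul, h1, h2, Complex.conj_ofNat]
  field_simp
  ring

theorem pTrans : S_Trans := by
  intro Z hZ
  have hN : 0 < NN Z := hZ
  have h2 : 0 < ‖Z 2‖ := (aa_nonneg Z).trans_lt (aa_lt hZ)
  have hZ2 : Z 2 ≠ 0 := norm_pos_iff.1 h2
  by_cases h0 : Z 0 = 0 ∧ Z 1 = 0
  · refine ⟨1, IsG.one, Z 2, hZ2, ?_⟩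
    rw [one_mulVec]
    funext i
    fin_cases i
    · simp [e3, h0.1]
    · simp [e3, h0.2]
    · simp [e3]
  · have haa : 0 < aa Z := by
      refine Real.sqrt_pos.2 ?_
      by_contra hcon
      push Not at hcon
      have h3 := Complex.normSq_nonneg (Z 0)
      have h4 := Complex.normSq_nonneg (Z 1)
      exact h0 ⟨Complex.normSq_eq_zero.1 (by linarith), Complex.normSq_eq_zero.1 (by linarith)⟩
    set s : ℝ := Real.sqrt (NN Z) with hs
    have hs0 : 0 < s := Real.sqrt_pos.2 hN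
    have hs2 : s ^ 2 = NN Z := Real.sq_sqrt hN.le
    have hlt : s < ‖Z 2‖ := by
      apply lt_of_pow_lt_pow_left₀ 2 (norm_nonneg _)
      rw [hs2, nn_aa]
      have := pow_pos haa 2
      linarith
    set c : ℂ := ((s / ‖Z 2‖ : ℝ) : ℂ) * Z 2 with hc
    have hc0 : c ≠ 0 := mul_ne_zero (by exact_mod_cast (div_pos hs0 h2).ne') hZ2
    have hcc : c * conj c = ((NN Z : ℝ) : ℂ) := by
      rw [hc, map_mul, Complex.conj_ofReal]
      have h3 : Z 2 * conj (Z 2) = ((‖Z 2‖ ^ 2 : ℝ) : ℂ) := by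
        rw [Complex.mul_conj, Complex.normSq_eq_norm_sq]
      have h4 : ((s / ‖Z 2‖ : ℝ) : ℂ) * Z 2 * (((s / ‖Z 2‖ : ℝ) : ℂ) * conj (Z 2)) =
          ((s / ‖Z 2‖ * (s / ‖Z 2‖) * ‖Z 2‖ ^ 2 : ℝ) : ℂ) := by
        push_cast at h3 ⊢
        linear_combination (((s : ℂ) / (‖Z 2‖ : ℂ)) ^ 2) * h3
      rw [h4, ← hs2]
      congr 1
      field_simp
    have hZc : Z 2 * conj c = ((s * ‖Z 2‖ : ℝ) : ℂ) := by
      rw [hc, map_mul, Complex.conj_ofReal]
      have h3 : Z 2 * conj (Z 2) = ((‖Z 2‖ ^ 2 : ℝ) : ℂ) := by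
        rw [Complex.mul_conj, Complex.normSq_eq_norm_sq]
      have h4 : Z 2 * (((s / ‖Z 2‖ : ℝ) : ℂ) * conj (Z 2)) =
          ((s / ‖Z 2‖ * ‖Z 2‖ ^ 2 : ℝ) : ℂ) := by
        push_cast at h3 ⊢
        linear_combination ((s : ℂ) / (‖Z 2‖ : ℂ)) * h3
      rw [h4]
      congr 1
      field_simp
    have he : hh Z (c • e3) = -((s * ‖Z 2‖ : ℝ) : ℂ) := by
      rw [hh_smul_r, ← hZc]
      simp [hh, e3]
      ring
    have hee : hh (c • e3) (c • e3) = -((NN Z : ℝ) : ℂ) := by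
      rw [hh_smul_l, hh_smul_r, ← hcc]
      simp [hh, e3]
      
    have hv : hh (Z - c • e3) (Z - c • e3) = ((2 * (s * ‖Z 2‖ - NN Z) : ℝ) : ℂ) := by
      rw [hh_sub_l, hh_sub_r, hh_sub_r, hee, he, hh_slf, ← hh_cj Z (c • e3), he, map_neg,
        Complex.conj_ofReal]
      push_cast
      ring
    have hv0 : hh (Z - c • e3) (Z - c • e3) ≠ 0 := by
      rw [hv]
      have h5 : 0 < 2 * (s * ‖Z 2‖ - NN Z) := by
        rw [← hs2]
        nlinarith
      exact_mod_cast h5.ne'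
    refine ⟨rf (Z - c • e3), isG_rf hv0, c, hc0, ?_⟩
    have h6 : 2 * hh Z (Z - c • e3) = hh (Z - c • e3) (Z - c • e3) := by
      rw [hv, hh_sub_r, he, hh_slf]
      push_cast
      ring
    rw [rf_mulVec, h6, div_self hv0, one_smul, sub_sub_cancel]

end CMT.J3
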