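import Pool.Agent.Lib.CMT.J3.Defs

/-!
# PROJECT CMT, part J3 : Wirtinger calculus on the cone (helper34)
-/

open scoped BigOperators ComplexConjugate ContDiff
open MeasureTheory Matrix

noncomputable section

namespace CMT.J3

variable {Φ Ψ : V3 → ℂ} {Z : V3}

theorem cont_NN : Continuous NN := by
  unfold NN
  fun_prop

theorem isOpen_Co : IsOpen Co := isOpen_lt continuous_const cont_NN

theorem Sm.at (h : Sm Φ) (hZ : Z ∈ Co) : ContDiffAt ℝ ∞ Φ Z :=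
  ContDiffOn.contDiffAt h (isOpen_Co.mem_nhds hZ)

theorem Sm.of_at (h : ∀ Z ∈ Co, ContDiffAt ℝ ∞ Φ Z) : Sm Φ :=
  fun Z hZ => (h Z hZ).contDiffWithinAt

theorem Sm.diff (h : Sm Φ) (hZ : Z ∈ Co) : DifferentiableAt ℝ Φ Z :=
  (h.at hZ).differentiableAt (by simp)

theorem Sm.cont (h : Sm Φ) : ContinuousOn Φ Co := ContDiffOn.continuousOn h

theorem Sm.fd (h : Sm Φ) : ContDiffOn ℝ ∞ (fderiv ℝ Φ) Co :=
  ContDiffOn.fderiv_of_isOpen h isOpen_Co (by simp)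

theorem Sm.fdv (h : Sm Φ) (v : V3) : Sm (fun Z => fderiv ℝ Φ Z v) :=
  (h.fd).clm_apply contDiffOn_const

theorem Sm.add (h : Sm Φ) (h' : Sm Ψ) : Sm (fun Z => Φ Z + Ψ Z) := ContDiffOn.add h h'

theorem Sm.sub (h : Sm Φ) (h' : Sm Ψ) : Sm (fun Z => Φ Z - Ψ Z) := ContDiffOn.sub h h'

theorem Sm.mul (h : Sm Φ) (h' : Sm Ψ) : Sm (fun Z => Φ Z * Ψ Z) := ContDiffOn.mul h h'

theorem Sm.neg (h : Sm Φ) : Sm (fun Z => -Φ Z) := ContDiffOn.neg h

theorem Sm.const (c : ℂ) : Sm (fun _ => c) := contDiffOn_const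

theorem Sm.cj (h : Sm Φ) : Sm (fun Z => conj (Φ Z)) :=
  Complex.conjCLE.contDiff.comp_contDiffOn h

theorem Sm.coord (i : Fin 3) : Sm (fun Z => Z i) :=
  (ContinuousLinearMap.proj (R := ℝ) (φ := fun _ : Fin 3 => ℂ) i).contDiff.contDiffOn

theorem Sm.ccoord (i : Fin 3) : Sm (fun Z => conj (Z i)) := (Sm.coord i).cj

theorem Sm.sum {Φ : Fin 3 → V3 → ℂ} (h : ∀ i, Sm (Φ i)) : Sm (fun Z => ∑ i, Φ i Z) :=
  ContDiffOn.sum fun i _ => h i

theorem Sm.congr (h : Sm Φ) (he : ∀ Z ∈ Co, Ψ Z = Φ Z) : Sm Ψ := ContDiffOn.congr h he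

theorem Sm.cmul (c : ℂ) (h : Sm Φ) : Sm (fun Z => c * Φ Z) := (Sm.const c).mul h

theorem Sm.dz (h : Sm Φ) (i : Fin 3) : Sm (dz i Φ) := by
  have h1 : Sm (fun Z => (2 : ℂ)⁻¹ * (fderiv ℝ Φ Z (Pi.single i 1) -
      Complex.I * fderiv ℝ Φ Z (Pi.single i Complex.I))) :=
    ((h.fdv _).sub ((h.fdv _).cmul _)).cmul _
  exact h1.congr fun Z _ => by rw [CMT.J3.dz]; ring

theorem Sm.db (h : Sm Φ) (i : Fin 3) : Sm (db i Φ) := by
  have h1 : Sm (fun Z => (2 : ℂ)⁻¹ * (fderiv ℝ Φ Z (Pi.single i 1) +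
      Complex.I * fderiv ℝ Φ Z (Pi.single i Complex.I))) :=
    ((h.fdv _).add ((h.fdv _).cmul _)).cmul _
  exact h1.congr fun Z _ => by rw [CMT.J3.db]; ring

theorem Sm.bx (h : Sm Φ) : Sm (bx Φ) := by
  have h1 : Sm (fun Z => ∑ i, ep i * CMT.J3.dz i (CMT.J3.db i Φ) Z) :=
    Sm.sum fun i => ((h.db i).dz i).cmul _
  exact h1.congr fun Z _ => rfl

theorem NN_eq (Z : V3) : ((NN Z : ℝ) : ℂ) = Z 2 * conj (Z 2) - Z 0 * conj (Z 0) -
    Z 1 * conj (Z 1) := by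
  rw [NN]
  push_cast
  rw [Complex.mul_conj, Complex.mul_conj, Complex.mul_conj]

theorem Sm.nn : Sm (fun Z => ((NN Z : ℝ) : ℂ)) :=
  ((((Sm.coord 2).mul (Sm.ccoord 2)).sub ((Sm.coord 0).mul (Sm.ccoord 0))).sub
    ((Sm.coord 1).mul (Sm.ccoord 1))).congr fun Z _ => NN_eq Z

theorem Sm.div (h : Sm Φ) (h' : Sm Ψ) (hne : ∀ Z ∈ Co, Ψ Z ≠ 0) : Sm (fun Z => Φ Z / Ψ Z) := by
  have h1 : Sm (fun Z => (Ψ Z)⁻¹) := ContDiffOn.inv h' hne
  exact (h.mul h1).congr fun Z _ => div_eq_mul_inv _ _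

theorem nn_ne (hZ : Z ∈ Co) : ((NN Z : ℝ) : ℂ) ≠ 0 := by
  have h : (0 : ℝ) < NN Z := hZ
  exact_mod_cast h.ne'

/-! ## congruence -/

theorem fderiv_congr (h : ∀ Z ∈ Co, Φ Z = Ψ Z) (hZ : Z ∈ Co) : fderiv ℝ Φ Z = fderiv ℝ Ψ Z := by
  apply Filter.EventuallyEq.fderiv_eq
  filter_upwards [isOpen_Co.mem_nhds hZ] with W hW
  exact h W hW

theorem dz_congr (h : ∀ Z ∈ Co, Φ Z = Ψ Z) (hZ : Z ∈ Co) (i : Fin 3) : dz i Φ Z = dz i Ψ Z := by
  rw [dz, dz, fderiv_congr h hZ]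

theorem db_congr (h : ∀ Z ∈ Co, Φ Z = Ψ Z) (hZ : Z ∈ Co) (i : Fin 3) : db i Φ Z = db i Ψ Z := by
  rw [db, db, fderiv_congr h hZ]

theorem bx_congr (h : ∀ Z ∈ Co, Φ Z = Ψ Z) (hZ : Z ∈ Co) : bx Φ Z = bx Ψ Z := by
  unfold bx
  refine Finset.sum_congr rfl fun i _ => ?_
  rw [dz_congr (fun W hW => db_congr h hW i) hZ i]

/-! ## values from a derivative -/

theorem dz_of {L : V3 →L[ℝ] ℂ} (h : HasFDerivAt Φ L Z) (i : Fin 3) :
    dz i Φ Z = (L (Pi.single i 1) - Complex.I * L (Pi.single i Complex.I)) / 2 := by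
  rw [dz, h.fderiv]

theorem db_of {L : V3 →L[ℝ] ℂ} (h : HasFDerivAt Φ L Z) (i : Fin 3) :
    db i Φ Z = (L (Pi.single i 1) + Complex.I * L (Pi.single i Complex.I)) / 2 := by
  rw [db, h.fderiv]

theorem dz_add (h : Sm Φ) (h' : Sm Ψ) (hZ : Z ∈ Co) (i : Fin 3) :
    dz i (fun W => Φ W + Ψ W) Z = dz i Φ Z + dz i Ψ Z := by
  rw [dz_of (Φ := fun W => Φ W + Ψ W) ((h.diff hZ).hasFDerivAt.add (h'.diff hZ).hasFDerivAt), dz, dz]
  simp only [_root_.add_apply]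
  ring

theorem db_add (h : Sm Φ) (h' : Sm Ψ) (hZ : Z ∈ Co) (i : Fin 3) :
    db i (fun W => Φ W + Ψ W) Z = db i Φ Z + db i Ψ Z := by
  rw [db_of (Φ := fun W => Φ W + Ψ W) ((h.diff hZ).hasFDerivAt.add (h'.diff hZ).hasFDerivAt), db, db]
  simp only [_root_.add_apply]
  ring

theorem dz_sub (h : Sm Φ) (h' : Sm Ψ) (hZ : Z ∈ Co) (i : Fin 3) :
    dz i (fun W => Φ W - Ψ W) Z = dz i Φ Z - dz i Ψ Z := by
  rw [dz_of (Φ := fun W => Φ W - Ψ W) ((h.diff hZ).hasFDerivAt.sub (h'.diff hZ).hasFDerivAt), dz, dz]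
  simp only [_root_.sub_apply]
  ring

theorem db_sub (h : Sm Φ) (h' : Sm Ψ) (hZ : Z ∈ Co) (i : Fin 3) :
    db i (fun W => Φ W - Ψ W) Z = db i Φ Z - db i Ψ Z := by
  rw [db_of (Φ := fun W => Φ W - Ψ W) ((h.diff hZ).hasFDerivAt.sub (h'.diff hZ).hasFDerivAt), db, db]
  simp only [_root_.sub_apply]
  ring

theorem dz_neg (h : Sm Φ) (hZ : Z ∈ Co) (i : Fin 3) :
    dz i (fun W => -Φ W) Z = -dz i Φ Z := by
  rw [dz_of (Φ := fun W => -Φ W) ((h.diff hZ).hasFDerivAt.neg), dz]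
  simp only [_root_.neg_apply]
  ring

theorem db_neg (h : Sm Φ) (hZ : Z ∈ Co) (i : Fin 3) :
    db i (fun W => -Φ W) Z = -db i Φ Z := by
  rw [db_of (Φ := fun W => -Φ W) ((h.diff hZ).hasFDerivAt.neg), db]
  simp only [_root_.neg_apply]
  ring

theorem dz_mul (h : Sm Φ) (h' : Sm Ψ) (hZ : Z ∈ Co) (i : Fin 3) :
    dz i (fun W => Φ W * Ψ W) Z = dz i Φ Z * Ψ Z + Φ Z * dz i Ψ Z := by
  rw [dz_of (Φ := fun W => Φ W * Ψ W) ((h.diff hZ).hasFDerivAt.mul (h'.diff hZ).hasFDerivAt), dz, dz]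
  simp only [_root_.add_apply, _root_.smul_apply, smul_eq_mul]
  ring

theorem db_mul (h : Sm Φ) (h' : Sm Ψ) (hZ : Z ∈ Co) (i : Fin 3) :
    db i (fun W => Φ W * Ψ W) Z = db i Φ Z * Ψ Z + Φ Z * db i Ψ Z := by
  rw [db_of (Φ := fun W => Φ W * Ψ W) ((h.diff hZ).hasFDerivAt.mul (h'.diff hZ).hasFDerivAt), db, db]
  simp only [_root_.add_apply, _root_.smul_apply, smul_eq_mul]
  ring

theorem hasFDerivAt_cj (h : Sm Φ) (hZ : Z ∈ Co) :
    HasFDerivAt (fun W => conj (Φ W))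
      ((Complex.conjCLE : ℂ →L[ℝ] ℂ).comp (fderiv ℝ Φ Z)) Z :=
  (Complex.conjCLE : ℂ →L[ℝ] ℂ).hasFDerivAt.comp Z (h.diff hZ).hasFDerivAt

theorem dz_cj (h : Sm Φ) (hZ : Z ∈ Co) (i : Fin 3) :
    dz i (fun W => conj (Φ W)) Z = conj (db i Φ Z) := by
  rw [dz_of (hasFDerivAt_cj h hZ), db]
  simp only [ContinuousLinearMap.comp_apply, ContinuousLinearEquiv.coe_coe, Complex.conjCLE_apply,
    map_div₀, map_add, map_mul, Complex.conj_I, Complex.conj_ofNat]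
  ring

theorem db_cj (h : Sm Φ) (hZ : Z ∈ Co) (i : Fin 3) :
    db i (fun W => conj (Φ W)) Z = conj (dz i Φ Z) := by
  rw [db_of (hasFDerivAt_cj h hZ), dz]
  simp only [ContinuousLinearMap.comp_apply, ContinuousLinearEquiv.coe_coe, Complex.conjCLE_apply,
    map_div₀, map_sub, map_mul, Complex.conj_I, Complex.conj_ofNat]
  ring

theorem dz_const (c : ℂ) (Z : V3) (i : Fin 3) : dz i (fun _ => c) Z = 0 := by
  rw [dz_of (hasFDerivAt_const c Z)]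
  simp

theorem db_const (c : ℂ) (Z : V3) (i : Fin 3) : db i (fun _ => c) Z = 0 := by
  rw [db_of (hasFDerivAt_const c Z)]
  simp

theorem hasFDerivAt_coord (Z : V3) (j : Fin 3) :
    HasFDerivAt (fun W : V3 => W j)
      (ContinuousLinearMap.proj (R := ℝ) (φ := fun _ : Fin 3 => ℂ) j) Z :=
  (ContinuousLinearMap.proj (R := ℝ) (φ := fun _ : Fin 3 => ℂ) j).hasFDerivAt

theorem dz_coord (Z : V3) (i j : Fin 3) :
    dz i (fun W => W j) Z = if i = j then 1 else 0 := by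
  rw [dz_of (hasFDerivAt_coord Z j)]
  simp only [ContinuousLinearMap.proj_apply]
  by_cases h : i = j
  · subst h
    rw [Pi.single_eq_same, Pi.single_eq_same, if_pos rfl, Complex.I_mul_I]
    norm_num
  · rw [Pi.single_eq_of_ne (Ne.symm h), Pi.single_eq_of_ne (Ne.symm h), if_neg h]
    simp

theorem db_coord (Z : V3) (i j : Fin 3) : db i (fun W => W j) Z = 0 := by
  rw [db_of (hasFDerivAt_coord Z j)]
  simp only [ContinuousLinearMap.proj_apply]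
  by_cases h : i = j
  · subst h
    rw [Pi.single_eq_same, Pi.single_eq_same, Complex.I_mul_I]
    norm_num
  · rw [Pi.single_eq_of_ne (Ne.symm h), Pi.single_eq_of_ne (Ne.symm h)]
    simp

theorem dz_ccoord (hZ : Z ∈ Co) (i j : Fin 3) : dz i (fun W => conj (W j)) Z = 0 := by
  rw [dz_cj (Sm.coord j) hZ, db_coord, map_zero]

theorem db_ccoord (hZ : Z ∈ Co) (i j : Fin 3) :
    db i (fun W => conj (W j)) Z = if i = j then 1 else 0 := by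
  rw [db_cj (Sm.coord j) hZ, dz_coord]
  split_ifs <;> simp

theorem dz_cmul (c : ℂ) (h : Sm Φ) (hZ : Z ∈ Co) (i : Fin 3) :
    dz i (fun W => c * Φ W) Z = c * dz i Φ Z := by
  rw [dz_mul (Sm.const c) h hZ, dz_const]
  ring

theorem db_cmul (c : ℂ) (h : Sm Φ) (hZ : Z ∈ Co) (i : Fin 3) :
    db i (fun W => c * Φ W) Z = c * db i Φ Z := by
  rw [db_mul (Sm.const c) h hZ, db_const]
  ring

theorem dz_sum {Φ : Fin 3 → V3 → ℂ} (h : ∀ i, Sm (Φ i)) (hZ : Z ∈ Co) (i : Fin 3) :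
    dz i (fun W => ∑ j, Φ j W) Z = ∑ j, dz i (Φ j) Z := by
  have h1 : dz i (fun W => ∑ j, Φ j W) Z = dz i (fun W => Φ 0 W + Φ 1 W + Φ 2 W) Z :=
    dz_congr (fun W _ => Fin.sum_univ_three _) hZ i
  rw [h1, dz_add ((h 0).add (h 1)) (h 2) hZ, dz_add (h 0) (h 1) hZ, Fin.sum_univ_three]

theorem db_sum {Φ : Fin 3 → V3 → ℂ} (h : ∀ i, Sm (Φ i)) (hZ : Z ∈ Co) (i : Fin 3) :
    db i (fun W => ∑ j, Φ j W) Z = ∑ j, db i (Φ j) Z := by
  have h1 : db i (fun W => ∑ j, Φ j W) Z = db i (fun W => Φ 0 W + Φ 1 W + Φ 2 W) Z :=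
    db_congr (fun W _ => Fin.sum_univ_three _) hZ i
  rw [h1, db_add ((h 0).add (h 1)) (h 2) hZ, db_add (h 0) (h 1) hZ, Fin.sum_univ_three]

theorem dz_nn (hZ : Z ∈ Co) (i : Fin 3) :
    dz i (fun W => ((NN W : ℝ) : ℂ)) Z = -(ep i * conj (Z i)) := by
  have hm : ∀ j, Sm (fun W : V3 => W j * conj (W j)) := fun j => (Sm.coord j).mul (Sm.ccoord j)
  have hd : ∀ j, dz i (fun W : V3 => W j * conj (W j)) Z = if i = j then conj (Z j) else 0 := by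
    intro j
    rw [dz_mul (Sm.coord j) (Sm.ccoord j) hZ, dz_coord, dz_ccoord hZ]
    split_ifs <;> ring
  rw [dz_congr (fun W _ => NN_eq W) hZ i, dz_sub ((hm 2).sub (hm 0)) (hm 1) hZ,
    dz_sub (hm 2) (hm 0) hZ, hd, hd, hd]
  fin_cases i <;> simp [ep]

theorem db_nn (hZ : Z ∈ Co) (i : Fin 3) :
    db i (fun W => ((NN W : ℝ) : ℂ)) Z = -(ep i * Z i) := by
  have hm : ∀ j, Sm (fun W : V3 => W j * conj (W j)) := fun j => (Sm.coord j).mul (Sm.ccoord j)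
  have hd : ∀ j, db i (fun W : V3 => W j * conj (W j)) Z = if i = j then Z j else 0 := by
    intro j
    rw [db_mul (Sm.coord j) (Sm.ccoord j) hZ, db_coord, db_ccoord hZ]
    split_ifs <;> ring
  rw [db_congr (fun W _ => NN_eq W) hZ i, db_sub ((hm 2).sub (hm 0)) (hm 1) hZ,
    db_sub (hm 2) (hm 0) hZ, hd, hd, hd]
  fin_cases i <;> simp [ep]

theorem dz_div (h : Sm Φ) (h' : Sm Ψ) (hne : ∀ Z ∈ Co, Ψ Z ≠ 0) (hZ : Z ∈ Co) (i : Fin 3) :
    dz i (fun W => Φ W / Ψ W) Z = (dz i Φ Z * Ψ Z - Φ Z * dz i Ψ Z) / Ψ Z ^ 2 := by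
  have h1 := dz_mul (h.div h' hne) h' hZ i
  have h2 : dz i (fun W => Φ W / Ψ W * Ψ W) Z = dz i Φ Z :=
    dz_congr (fun W hW => div_mul_cancel₀ _ (hne W hW)) hZ i
  rw [h2] at h1
  have h3 := hne Z hZ
  field_simp at h1 ⊢
  linear_combination -h1

theorem db_div (h : Sm Φ) (h' : Sm Ψ) (hne : ∀ Z ∈ Co, Ψ Z ≠ 0) (hZ : Z ∈ Co) (i : Fin 3) :
    db i (fun W => Φ W / Ψ W) Z = (db i Φ Z * Ψ Z - Φ Z * db i Ψ Z) / Ψ Z ^ 2 := by
  have h1 := db_mul (h.div h' hne) h' hZ i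
  have h2 : db i (fun W => Φ W / Ψ W * Ψ W) Z = db i Φ Z :=
    db_congr (fun W hW => div_mul_cancel₀ _ (hne W hW)) hZ i
  rw [h2] at h1
  have h3 := hne Z hZ
  field_simp at h1 ⊢
  linear_combination -h1

/-! ## the derivative in terms of `dz`, `db` -/

theorem v_eq (v : V3) : v = ∑ i, ((v i).re • (Pi.single i 1 : V3) +
    (v i).im • (Pi.single i Complex.I : V3)) := by
  funext j
  rw [Finset.sum_apply, Finset.sum_eq_single j]
  · simp only [Pi.add_apply, Pi.smul_apply, Pi.single_eq_same, Complex.real_smul, mul_one]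
    exact (Complex.re_add_im (v j)).symm
  · intro i _ hij
    simp [Pi.single_eq_of_ne (Ne.symm hij)]
  · intro h
    exact absurd (Finset.mem_univ j) h

theorem fderiv_eq (Φ : V3 → ℂ) (Z v : V3) :
    fderiv ℝ Φ Z v = ∑ i, (v i * dz i Φ Z + conj (v i) * db i Φ Z) := by
  conv_lhs => rw [v_eq v]
  rw [map_sum]
  refine Finset.sum_congr rfl fun i _ => ?_
  rw [map_add, map_smul, map_smul, dz, db, Complex.real_smul, Complex.real_smul]
  have h1 : v i = (v i).re + (v i).im * Complex.I := (Complex.re_add_im (v i)).symm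
  have h2 : conj (v i) = (v i).re - (v i).im * Complex.I := by
    apply Complex.ext <;> simp
  have hI : Complex.I ^ 2 = -1 := Complex.I_sq
  rw [h2]
  nth_rewrite 3 [h1]
  linear_combination (((v i).im : ℂ) * fderiv ℝ Φ Z (Pi.single i Complex.I)) * hI

/-! ## commutation -/

theorem fd_symm (h : Sm Φ) (hZ : Z ∈ Co) (v w : V3) :
    fderiv ℝ (fun W => fderiv ℝ Φ W v) Z w = fderiv ℝ (fun W => fderiv ℝ Φ W w) Z v := by
  have h1 : DifferentiableAt ℝ (fderiv ℝ Φ) Z :=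
    ((h.fd).contDiffAt (isOpen_Co.mem_nhds hZ)).differentiableAt (by simp)
  have h2 : ∀ u : V3, HasFDerivAt (fun W => fderiv ℝ Φ W u)
      ((ContinuousLinearMap.apply ℝ ℂ u).comp (fderiv ℝ (fderiv ℝ Φ) Z)) Z := by
    intro u
    exact (ContinuousLinearMap.apply ℝ ℂ u).hasFDerivAt.comp Z h1.hasFDerivAt
  rw [(h2 v).fderiv, (h2 w).fderiv]
  have h3 : IsSymmSndFDerivAt ℝ Φ Z := by
    apply ContDiffAt.isSymmSndFDerivAt (n := 2) (contDiffAt_infty.1 (h.at hZ) 2)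
    simp
  exact h3 w v

theorem dz_lin (h : Sm Φ) (h' : Sm Ψ) (c : ℂ) (hZ : Z ∈ Co) (v : V3) :
    fderiv ℝ (fun W => (Φ W + c * Ψ W) / 2) Z v =
      (fderiv ℝ Φ Z v + c * fderiv ℝ Ψ Z v) / 2 := by
  have h1 : HasFDerivAt (fun W => (Φ W + c * Ψ W) * (2 : ℂ)⁻¹)
      ((2 : ℂ)⁻¹ • (fderiv ℝ Φ Z + c • fderiv ℝ Ψ Z)) Z :=
    ((h.diff hZ).hasFDerivAt.add ((h'.diff hZ).hasFDerivAt.const_mul c)).mul_const _
  have h2 : (fun W => (Φ W + c * Ψ W) / 2) = fun W => (Φ W + c * Ψ W) * (2 : ℂ)⁻¹ := by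
    funext W
    ring
  rw [h2, h1.fderiv]
  simp only [_root_.smul_apply, _root_.add_apply, smul_eq_mul]
  ring

theorem fd_dz (h : Sm Φ) (hZ : Z ∈ Co) (i : Fin 3) (v : V3) :
    fderiv ℝ (dz i Φ) Z v = (fderiv ℝ (fun W => fderiv ℝ Φ W (Pi.single i 1)) Z v -
      Complex.I * fderiv ℝ (fun W => fderiv ℝ Φ W (Pi.single i Complex.I)) Z v) / 2 := by
  have h1 := dz_lin (h.fdv (Pi.single i 1)) (h.fdv (Pi.single i Complex.I)) (-Complex.I) hZ v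
  have h2 : dz i Φ = fun W => (fderiv ℝ Φ W (Pi.single i 1) +
      -Complex.I * fderiv ℝ Φ W (Pi.single i Complex.I)) / 2 := by
    funext W
    rw [dz]
    ring
  rw [h2, h1]
  ring

theorem fd_db (h : Sm Φ) (hZ : Z ∈ Co) (i : Fin 3) (v : V3) :
    fderiv ℝ (db i Φ) Z v = (fderiv ℝ (fun W => fderiv ℝ Φ W (Pi.single i 1)) Z v +
      Complex.I * fderiv ℝ (fun W => fderiv ℝ Φ W (Pi.single i Complex.I)) Z v) / 2 := by
  have h1 := dz_lin (h.fdv (Pi.single i 1)) (h.fdv (Pi.single i Complex.I)) Complex.I hZ v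
  have h2 : db i Φ = fun W => (fderiv ℝ Φ W (Pi.single i 1) +
      Complex.I * fderiv ℝ Φ W (Pi.single i Complex.I)) / 2 := by
    funext W
    rw [db]
  rw [h2, h1]

theorem dz_dz (h : Sm Φ) (hZ : Z ∈ Co) (i j : Fin 3) : dz i (dz j Φ) Z = dz j (dz i Φ) Z := by
  have h1 := fun v w => fd_symm h hZ v w
  rw [dz, dz, fd_dz h hZ, fd_dz h hZ, fd_dz h hZ, fd_dz h hZ,
    h1 (Pi.single j 1) (Pi.single i 1), h1 (Pi.single j Complex.I) (Pi.single i 1),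
    h1 (Pi.single j 1) (Pi.single i Complex.I), h1 (Pi.single j Complex.I) (Pi.single i Complex.I)]
  ring

theorem db_db (h : Sm Φ) (hZ : Z ∈ Co) (i j : Fin 3) : db i (db j Φ) Z = db j (db i Φ) Z := by
  have h1 := fun v w => fd_symm h hZ v w
  rw [db, db, fd_db h hZ, fd_db h hZ, fd_db h hZ, fd_db h hZ,
    h1 (Pi.single j 1) (Pi.single i 1), h1 (Pi.single j Complex.I) (Pi.single i 1),
    h1 (Pi.single j 1) (Pi.single i Complex.I), h1 (Pi.single j Complex.I) (Pi.single i Complex.I)]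
  ring

theorem dz_db (h : Sm Φ) (hZ : Z ∈ Co) (i j : Fin 3) : dz i (db j Φ) Z = db j (dz i Φ) Z := by
  have h1 := fun v w => fd_symm h hZ v w
  rw [dz, db, fd_db h hZ, fd_db h hZ, fd_dz h hZ, fd_dz h hZ,
    h1 (Pi.single j 1) (Pi.single i 1), h1 (Pi.single j Complex.I) (Pi.single i 1),
    h1 (Pi.single j 1) (Pi.single i Complex.I), h1 (Pi.single j Complex.I) (Pi.single i Complex.I)]
  ring

/-! ## chain rule -/

/-- Multiplication by a matrix as a real continuous linear map. -/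
def mL (g : M3) : V3 →L[ℝ] V3 := LinearMap.toContinuousLinearMap ((Matrix.mulVecLin g).restrictScalars ℝ)

theorem mL_apply (g : M3) (Z : V3) : mL g Z = g *ᵥ Z := rfl

theorem fderiv_comp_mul (g : M3) (h : Sm Φ) (hZ : g *ᵥ Z ∈ Co) (v : V3) :
    fderiv ℝ (fun W => Φ (g *ᵥ W)) Z v = fderiv ℝ Φ (g *ᵥ Z) (g *ᵥ v) := by
  have h1 : HasFDerivAt (fun W => Φ (mL g W)) ((fderiv ℝ Φ (g *ᵥ Z)).comp (mL g)) Z := by
    apply HasFDerivAt.comp Z _ (mL g).hasFDerivAt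
    rw [mL_apply]
    exact (h.diff hZ).hasFDerivAt
  have h2 : (fun W => Φ (g *ᵥ W)) = fun W => Φ (mL g W) := rfl
  rw [h2, h1.fderiv]
  rfl

theorem mul_single (g : M3) (j : Fin 3) (c : ℂ) (i : Fin 3) :
    (g *ᵥ (Pi.single j c : V3)) i = g i j * c := by
  rw [Matrix.mulVec_single]
  simp

theorem dz_comp (g : M3) (h : Sm Φ) (hZ : g *ᵥ Z ∈ Co) (j : Fin 3) :
    dz j (fun W => Φ (g *ᵥ W)) Z = ∑ i, g i j * dz i Φ (g *ᵥ Z) := by
  rw [dz, fderiv_comp_mul g h hZ, fderiv_comp_mul g h hZ, fderiv_eq, fderiv_eq, Finset.mul_sum,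
    ← Finset.sum_sub_distrib, Finset.sum_div]
  refine Finset.sum_congr rfl fun i _ => ?_
  rw [mul_single, mul_single, map_mul, map_mul, Complex.conj_I, map_one]
  have hI : Complex.I ^ 2 = -1 := Complex.I_sq
  linear_combination (-(g i j * dz i Φ (g *ᵥ Z)) / 2 + conj (g i j) * db i Φ (g *ᵥ Z) / 2) * hI

theorem db_comp (g : M3) (h : Sm Φ) (hZ : g *ᵥ Z ∈ Co) (j : Fin 3) :
    db j (fun W => Φ (g *ᵥ W)) Z = ∑ i, conj (g i j) * db i Φ (g *ᵥ Z) := by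
  rw [db, fderiv_comp_mul g h hZ, fderiv_comp_mul g h hZ, fderiv_eq, fderiv_eq, Finset.mul_sum,
    ← Finset.sum_add_distrib, Finset.sum_div]
  refine Finset.sum_congr rfl fun i _ => ?_
  rw [mul_single, mul_single, map_mul, map_mul, Complex.conj_I, map_one]
  have hI : Complex.I ^ 2 = -1 := Complex.I_sq
  linear_combination ((g i j * dz i Φ (g *ᵥ Z)) / 2 - conj (g i j) * db i Φ (g *ᵥ Z) / 2) * hI

theorem mem_IsG {g : M3} (hg : IsG g) (hZ : Z ∈ Co) : g *ᵥ Z ∈ Co := by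
  have h0 : ∀ W : V3, ((NN W : ℝ) : ℂ) = -hh W W := by
    intro W
    rw [NN_eq, hh]
    ring
  have h1 : ((NN (g *ᵥ Z) : ℝ) : ℂ) = ((NN Z : ℝ) : ℂ) := by
    rw [h0, h0, hg]
  have h2 : NN (g *ᵥ Z) = NN Z := by exact_mod_cast h1
  show 0 < NN (g *ᵥ Z)
  rw [h2]
  exact hZ

theorem Sm.comp {g : M3} (hg : IsG g) (h : Sm Φ) : Sm (fun Z => Φ (g *ᵥ Z)) := by
  have h2 : (fun W => Φ (g *ᵥ W)) = Φ ∘ (mL g) := rfl
  show ContDiffOn ℝ ∞ (fun W => Φ (g *ᵥ W)) Co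
  rw [h2]
  exact ContDiffOn.comp h (mL g).contDiff.contDiffOn fun Z hZ => mem_IsG hg hZ

/-! ## Euler identities -/

theorem NN_smul (c : ℂ) (Z : V3) : NN (c • Z) = Complex.normSq c * NN Z := by
  simp only [NN, Pi.smul_apply, smul_eq_mul, Complex.normSq_mul]
  ring

theorem smul_mem {c : ℂ} (hc : c ≠ 0) (hZ : Z ∈ Co) : c • Z ∈ Co := by
  show 0 < NN (c • Z)
  rw [NN_smul]
  exact mul_pos (Complex.normSq_pos.2 hc) hZ

/-- Derivative of `Φ (c(s) Z)` at a point where `c = 1`. -/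
theorem fderiv_hg {p : ℕ} (h : Sm Φ) (hp : Hg p Φ) (hZ : Z ∈ Co) (a : ℂ) :
    fderiv ℝ Φ Z (a • Z) = a * (p * Φ Z) := by
  have h1 : HasDerivAt (fun s : ℝ => Complex.exp (a * s)) a 0 := by
    have h2 : HasDerivAt (fun s : ℝ => a * (s : ℂ)) a 0 := by
      simpa using (Complex.ofRealCLM.hasDerivAt (x := (0:ℝ))).const_mul a
    simpa using h2.cexp
  have h3 : HasDerivAt (fun s : ℝ => Complex.exp (a * s) • Z) (a • Z) 0 := h1.smul_const Z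
  have h4 : HasDerivAt (fun s : ℝ => Φ (Complex.exp (a * s) • Z)) (fderiv ℝ Φ Z (a • Z)) 0 := by
    have h5 : HasFDerivAt Φ (fderiv ℝ Φ Z) (Complex.exp (a * ((0 : ℝ) : ℂ)) • Z) := by
      simpa using (h.diff hZ).hasFDerivAt
    exact h5.comp_hasDerivAt (0 : ℝ) h3
  have h6 : HasDerivAt (fun s : ℝ => Complex.exp (a * s) ^ p * Φ Z)
      (p * Complex.exp (a * ((0 : ℝ) : ℂ)) ^ (p - 1) * a * Φ Z) 0 := (h1.pow p).mul_const _
  have h7 : (fun s : ℝ => Φ (Complex.exp (a * s) • Z)) =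
      fun s : ℝ => Complex.exp (a * s) ^ p * Φ Z := by
    funext s
    exact hp Z hZ _ (Complex.exp_ne_zero _)
  rw [h7] at h4
  rw [h4.unique h6]
  simp
  ring

theorem euler_z {p : ℕ} (h : Sm Φ) (hp : Hg p Φ) (hZ : Z ∈ Co) :
    ∑ i, Z i * dz i Φ Z = p * Φ Z := by
  have h1 := fderiv_hg h hp hZ 1
  have h2 := fderiv_hg h hp hZ Complex.I
  rw [fderiv_eq] at h1 h2
  simp only [Pi.smul_apply, smul_eq_mul, one_mul, map_mul, Complex.conj_I,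
    Fin.sum_univ_three] at h1 h2 ⊢
  have hI : Complex.I ^ 2 = -1 := Complex.I_sq
  linear_combination h1 / 2 - Complex.I * h2 / 2 + (-(p * Φ Z) / 2 + Z 0 * dz 0 Φ Z / 2 +
    Z 1 * dz 1 Φ Z / 2 + Z 2 * dz 2 Φ Z / 2 - conj (Z 0) * db 0 Φ Z / 2 -
    conj (Z 1) * db 1 Φ Z / 2 - conj (Z 2) * db 2 Φ Z / 2) * hI

theorem euler_b {p : ℕ} (h : Sm Φ) (hp : Hg p Φ) (hZ : Z ∈ Co) :
    ∑ i, conj (Z i) * db i Φ Z = 0 := by
  have h1 := fderiv_hg h hp hZ 1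
  have h3 := euler_z h hp hZ
  rw [fderiv_eq] at h1
  simp only [Pi.smul_apply, smul_eq_mul, one_mul, Fin.sum_univ_three] at h1 h3 ⊢
  linear_combination h1 - h3

end CMT.J3
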