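import Pool.Agent.Lib.CMT.J3.Spec
import Pool.Agent.Lib.CMT.J3.Wirt

/-!
# PROJECT CMT, part J3 : equivariance of the Bochner fields (helper31)
-/

set_option autoImplicit false

open scoped BigOperators ComplexConjugate ContDiff
open MeasureTheory Matrix

noncomputable section

namespace CMT.J3

namespace BE

theorem hh_sum (u v : V3) : hh u v = ∑ i, ep i * (u i * conj (v i)) := by
  rw [Fin.sum_univ_three]
  have e0 : ep 0 = 1 := rfl
  have e1 : ep 1 = 1 := rfl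
  have e2 : ep 2 = -1 := rfl
  rw [e0, e1, e2, hh]
  ring

theorem hh_dot (u v : V3) : hh u v = star v ⬝ᵥ (diagonal ep *ᵥ u) := by
  rw [hh_sum]
  simp only [dotProduct, Matrix.mulVec_diagonal]
  refine Finset.sum_congr rfl fun i _ => ?_
  show ep i * (u i * conj (v i)) = conj (v i) * (ep i * u i)
  ring

theorem hh_gH {g : M3} (h : g * diagonal ep * gᴴ = diagonal ep) (u v : V3) :
    hh (gᴴ *ᵥ u) (gᴴ *ᵥ v) = hh u v := by
  rw [hh_dot, hh_dot, Matrix.star_mulVec, Matrix.conjTranspose_conjTranspose,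
    ← Matrix.dotProduct_mulVec, Matrix.mulVec_mulVec, Matrix.mulVec_mulVec, h]

theorem NN_hh (u : V3) : ((NN u : ℝ) : ℂ) = -hh u u := by
  rw [NN_eq, hh]
  ring

theorem sm_pol {p : ℕ} {l : V3 → ℂ} (h : IsPol p l) : Sm l := by
  rcases h with ⟨-, a, rfl⟩ | ⟨-, v, rfl⟩
  · exact Sm.const a
  · exact Sm.sum fun i => (Sm.coord i).cmul (v i)

theorem db_pol {p : ℕ} {l : V3 → ℂ} (h : IsPol p l) {Z : V3} (hZ : Z ∈ Co) (j : Fin 3) :
    db j l Z = 0 := by
  rcases h with ⟨-, a, rfl⟩ | ⟨-, v, rfl⟩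
  · exact db_const a Z j
  · rw [db_sum (Φ := fun i Z => v i * Z i) (fun i => (Sm.coord i).cmul (v i)) hZ]
    refine Finset.sum_eq_zero fun i _ => ?_
    rw [db_cmul (v i) (Sm.coord i) hZ, db_coord, mul_zero]

section
variable {g : M3} (hg : IsG g) {p : ℕ} {F l : V3 → ℂ} (hF : Sm F) (hl : IsPol p l)
  (hc : ∀ Z ∈ Co, F (g *ᵥ Z) = F Z + l Z)
include hg hF hl hc

theorem dz_eq {Z : V3} (hZ : Z ∈ Co) (j : Fin 3) :
    ∑ k, g k j * dz k F (g *ᵥ Z) = dz j F Z + dz j l Z := by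
  rw [← dz_comp g hF (mem_IsG hg hZ) j, dz_congr hc hZ j, dz_add hF (sm_pol hl) hZ]

theorem db_eq {Z : V3} (hZ : Z ∈ Co) (j : Fin 3) :
    db j F Z = ∑ k, conj (g k j) * db k F (g *ᵥ Z) := by
  rw [← db_comp g hF (mem_IsG hg hZ) j, db_congr hc hZ j, db_add hF (sm_pol hl) hZ,
    db_pol hl hZ, add_zero]

theorem G_eq {Z : V3} (hZ : Z ∈ Co) :
    (fun i => db i F Z) = gᴴ *ᵥ (fun i => db i F (g *ᵥ Z)) := by
  funext j
  rw [db_eq hg hF hl hc hZ j]
  rfl

theorem T_eq {Z : V3} (hZ : Z ∈ Co) (k : Fin 3) :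
    (fun i => dz k (db i F) Z) =
      ∑ m, g m k • (gᴴ *ᵥ (fun i => dz m (db i F) (g *ᵥ Z))) := by
  funext j
  have h1 : dz k (db j F) Z = dz k (fun Z => ∑ i, conj (g i j) * db i F (g *ᵥ Z)) Z :=
    dz_congr (fun W hW => db_eq hg hF hl hc hW j) hZ k
  have hs : ∀ i, Sm (fun Z => db i F (g *ᵥ Z)) := fun i => Sm.comp hg (hF.db i)
  rw [h1, dz_sum (Φ := fun i Z => conj (g i j) * db i F (g *ᵥ Z)) (fun i => (hs i).cmul _) hZ]
  rw [Finset.sum_apply]
  simp only [Pi.smul_apply, smul_eq_mul]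
  have h2 : ∀ i, dz k (fun Z => conj (g i j) * db i F (g *ᵥ Z)) Z =
      ∑ m, g m k * (conj (g i j) * dz m (db i F) (g *ᵥ Z)) := by
    intro i
    rw [dz_cmul _ (hs i) hZ, dz_comp g (hF.db i) (mem_IsG hg hZ) k, Finset.mul_sum]
    refine Finset.sum_congr rfl fun m _ => ?_
    ring
  rw [Finset.sum_congr rfl fun i _ => h2 i, Finset.sum_comm]
  refine Finset.sum_congr rfl fun m _ => ?_
  rw [← Finset.mul_sum]
  rfl

end

end BE

open CMT.J3.BE in
/-- **S_BEq.** -/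
theorem pBEq (hGJ : S_GJ) : S_BEq := by
  intro g hg p F l hF hl hc Z hZ
  obtain ⟨hJ1, hJ2, -⟩ := hGJ g hg
  have hNN : NN (g *ᵥ Z) = NN Z := by
    have h1 : ((NN (g *ᵥ Z) : ℝ) : ℂ) = ((NN Z : ℝ) : ℂ) := by
      rw [NN_hh, NN_hh, hg]
    exact_mod_cast h1
  have hph : ph F (g *ᵥ Z) = ph F Z := by
    unfold ph
    rw [G_eq hg hF hl hc hZ]
    have h1 : ((NN (gᴴ *ᵥ fun i => db i F (g *ᵥ Z)) : ℝ) : ℂ) =
        ((NN (fun i => db i F (g *ᵥ Z)) : ℝ) : ℂ) := by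
      rw [NN_hh, NN_hh, hh_gH hJ2]
    have h2 : NN (gᴴ *ᵥ fun i => db i F (g *ᵥ Z)) = NN (fun i => db i F (g *ᵥ Z)) := by
      exact_mod_cast h1
    rw [h2]
  -- the sum in the Bochner fields
  have hS : ∀ (j : Fin 3), ∑ k, g k j * ∑ i, ep i * (dz k (db i F) (g *ᵥ Z) *
      conj (db i F (g *ᵥ Z))) = ∑ i, ep i * (dz j (db i F) Z * conj (db i F Z)) := by
    intro j
    have e1 : ∀ k, ∑ i, ep i * (dz k (db i F) (g *ᵥ Z) * conj (db i F (g *ᵥ Z))) =
        hh (fun i => dz k (db i F) (g *ᵥ Z)) (fun i => db i F (g *ᵥ Z)) := fun k =>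
      (hh_sum _ _).symm
    have e2 : ∑ i, ep i * (dz j (db i F) Z * conj (db i F Z)) =
        hh (fun i => dz j (db i F) Z) (fun i => db i F Z) := (hh_sum _ _).symm
    rw [e2, T_eq hg hF hl hc hZ j, G_eq hg hF hl hc hZ]
    have e3 : ∀ (v : V3) (u : Fin 3 → V3) (c : Fin 3 → ℂ), hh (∑ m, c m • u m) v =
        ∑ m, c m * hh (u m) v := by
      intro v u c
      simp only [Fin.sum_univ_three, hh, Pi.add_apply, Pi.smul_apply, smul_eq_mul]
      ring
    rw [e3]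
    refine Finset.sum_congr rfl fun m _ => ?_
    rw [e1, hh_gH hJ2]
  have hE : ∀ j : Fin 3, ∑ k, g k j * (ep k * conj ((g *ᵥ Z) k)) = ep j * conj (Z j) := by
    intro j
    have h1 := congrFun (congrArg (fun M : M3 => M *ᵥ Z) hJ1) j
    simp only [← Matrix.mulVec_mulVec] at h1
    have h2 := congrArg conj h1
    have hep : ∀ i, conj (ep i) = ep i := by
      intro i
      fin_cases i <;> simp [ep]
    have h3 : (gᴴ *ᵥ diagonal ep *ᵥ g *ᵥ Z) j = ∑ k, conj (g k j) * (ep k * (g *ᵥ Z) k) := by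
      show ∑ k, gᴴ j k * (diagonal ep *ᵥ g *ᵥ Z) k = _
      refine Finset.sum_congr rfl fun k _ => ?_
      rw [Matrix.mulVec_diagonal]
      rfl
    rw [h3, Matrix.mulVec_diagonal, map_mul, hep, map_sum] at h2
    rw [← h2]
    refine Finset.sum_congr rfl fun k _ => ?_
    rw [map_mul, map_mul, Complex.conj_conj, hep]
  refine ⟨hph, fun j => ?_, fun j => ?_, fun j => dz_eq hg hF hl hc hZ j⟩
  · unfold b1
    simp only [mul_add, Finset.sum_add_distrib]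
    rw [hS j, hph, hNN]
    congr 1
    rw [← hE j, Finset.mul_sum]
    refine Finset.sum_congr rfl fun k _ => ?_
    ring
  · unfold b0
    rw [← hS j, hNN, Finset.mul_sum]
    refine Finset.sum_congr rfl fun k _ => ?_
    ring

end CMT.J3
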