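import Pool.Agent.Lib.CMT.J3.Spec

/-!
# PROJECT CMT, part J3 : the norm of the averaging operator (helper62)

`S_AvBd` and `S_KaLa`.
-/

open scoped BigOperators ComplexConjugate ContDiff
open MeasureTheory Matrix

noncomputable section

namespace CMT.J3

namespace Bd

lemma th_nonneg (x : ℝ) : 0 ≤ th x :=
  mul_nonneg (Real.smoothTransition.nonneg _) (Real.smoothTransition.nonneg _)

lemma kk_nonneg (T t : ℝ) : 0 ≤ kk T t := Real.smoothTransition.nonneg _

lemma th_ne {x : ℝ} (h : th x ≠ 0) : 1 < x ∧ x < 3 := by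
  unfold th at h
  constructor
  · by_contra hx
    apply h
    rw [Real.smoothTransition.zero_of_nonpos (by linarith), zero_mul]
  · by_contra hx
    apply h
    rw [Real.smoothTransition.zero_of_nonpos (x := 3 - x) (by linarith), mul_zero]

lemma th_pos {x : ℝ} (h1 : 1 < x) (h3 : x < 3) : 0 < th x :=
  mul_pos (Real.smoothTransition.pos_of_pos (by linarith))
    (Real.smoothTransition.pos_of_pos (by linarith))

lemma kk_pos {T t : ℝ} (h : t < T) : 0 < kk T t :=
  Real.smoothTransition.pos_of_pos (by linarith)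

lemma hh_self (Z : V3) : hh Z Z = ((-(NN Z) : ℝ) : ℂ) := by
  unfold hh NN
  rw [Complex.mul_conj, Complex.mul_conj, Complex.mul_conj]
  push_cast
  ring

lemma NN_inv {g : M3} (hg : IsG g) (Z : V3) : NN (g *ᵥ Z) = NN Z := by
  have h := hg Z Z
  rw [hh_self, hh_self] at h
  have h2 := Complex.ofReal_injective h
  linarith

lemma tt_inv {g : M3} (hg : IsG g) (Z W : V3) : tt (g *ᵥ Z) (g *ᵥ W) = tt Z W := by
  unfold tt
  rw [hg Z W, NN_inv hg, NN_inv hg]

lemma hh_smul (c : ℂ) (Z W : V3) : hh (c • Z) W = c * hh Z W := by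
  unfold hh
  simp only [Pi.smul_apply, smul_eq_mul]
  ring

lemma NN_smul (c : ℂ) (Z : V3) : NN (c • Z) = Complex.normSq c * NN Z := by
  unfold NN
  simp only [Pi.smul_apply, smul_eq_mul, Complex.normSq_mul]
  ring

lemma tt_smul {c : ℂ} (hc : c ≠ 0) (Z W : V3) : tt (c • Z) W = tt Z W := by
  unfold tt
  rw [hh_smul, NN_smul, Complex.normSq_mul]
  have h : Complex.normSq c ≠ 0 := by
    rwa [Ne, Complex.normSq_eq_zero]
  rw [mul_assoc, mul_div_mul_left _ _ h]

/-- The comparison integrand. -/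
def q (T : ℝ) (p : ℕ) (Z W : V3) : ℝ := Real.sqrt (tt Z W) ^ p * (kk T (tt Z W) * th (NN W))

lemma q_nonneg (T : ℝ) (p : ℕ) (Z W : V3) : 0 ≤ q T p Z W :=
  mul_nonneg (pow_nonneg (Real.sqrt_nonneg _) _) (mul_nonneg (kk_nonneg _ _) (th_nonneg _))

lemma q_int (hM : S_Meas) (hT : S_Trans) (T : ℝ) (p : ℕ) (Z : V3) (hZ : Z ∈ Co) :
    ∫ W, q T p Z W = ka T p := by
  obtain ⟨g, hg, c, hc, hgc⟩ := hT Z hZ
  have h1 := hM g hg (fun W => ((q T p (c • e3) W : ℝ) : ℂ))
  rw [integral_complex_ofReal, integral_complex_ofReal] at h1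
  have h2 := Complex.ofReal_injective h1
  have h3 : ∀ W, q T p (c • e3) (g *ᵥ W) = q T p Z W := by
    intro W
    unfold q
    rw [← hgc, tt_inv hg, NN_inv hg]
  have h4 : ∀ W, q T p (c • e3) W = Real.sqrt (tt e3 W) ^ p * (kk T (tt e3 W) * th (NN W)) := by
    intro W
    unfold q
    rw [tt_smul hc]
  simp only [h3, h4] at h2
  rw [h2]
  rfl

lemma norm_key (p : ℕ) {Z W : V3} (hZ : Z ∈ Co) (hW : W ∈ Co) :
    ‖(-(hh Z W) / ((NN W : ℝ) : ℂ)) ^ p‖ * Real.sqrt (NN W) ^ p =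
      Real.sqrt (tt Z W) ^ p * Real.sqrt (NN Z) ^ p := by
  have hZ' : 0 < NN Z := hZ
  have hW' : 0 < NN W := hW
  rw [norm_pow, ← mul_pow, ← mul_pow]
  congr 1
  rw [norm_div, norm_neg, Complex.norm_real, Real.norm_of_nonneg hW'.le]
  unfold tt
  rw [← Real.sqrt_mul' _ hZ'.le, Complex.normSq_eq_norm_sq]
  have h1 : ‖hh Z W‖ ^ 2 / (NN Z * NN W) * NN Z = (‖hh Z W‖ / NN W * Real.sqrt (NN W)) ^ 2 := by
    rw [mul_pow, div_pow, Real.sq_sqrt hW'.le]
    field_simp
  rw [h1, Real.sqrt_sq]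
  positivity

lemma Ke_norm (T : ℝ) (p : ℕ) {Z : V3} (hZ : Z ∈ Co) (W : V3) :
    ‖Ke T p Z W‖ * Real.sqrt (NN W) ^ p = q T p Z W * Real.sqrt (NN Z) ^ p := by
  by_cases h : th (NN W) = 0
  · unfold Ke q
    rw [h]
    simp
  · have hW : W ∈ Co := lt_trans one_pos (th_ne h).1
    unfold Ke
    rw [norm_mul, Complex.norm_real,
      Real.norm_of_nonneg (mul_nonneg (kk_nonneg _ _) (th_nonneg _))]
    have hk := norm_key p hZ hW
    unfold q
    calc _ = (‖(-(hh Z W) / ((NN W : ℝ) : ℂ)) ^ p‖ * Real.sqrt (NN W) ^ p) *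
          (kk T (tt Z W) * th (NN W)) := by ring
      _ = _ := by rw [hk]; ring

lemma cont_NN : Continuous NN := by
  unfold NN
  fun_prop

lemma q_integrable (hI : S_AvInt) (T : ℝ) (p : ℕ) {Z : V3} (hZ : Z ∈ Co) :
    Integrable (fun W => q T p Z W) := by
  have hZ' : 0 < NN Z := hZ
  have h1 := hI T p (fun W => ((Real.sqrt (NN W) ^ p : ℝ) : ℂ))
    (by
      apply Continuous.continuousOn
      have := cont_NN
      fun_prop) Z hZ
  have h2 := h1.norm
  have h3 : ∀ W, ‖Ke T p Z W * ((Real.sqrt (NN W) ^ p : ℝ) : ℂ)‖ =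
      q T p Z W * Real.sqrt (NN Z) ^ p := by
    intro W
    rw [norm_mul, Complex.norm_real, Real.norm_of_nonneg (pow_nonneg (Real.sqrt_nonneg _) _),
      Ke_norm T p hZ W]
  simp only [h3] at h2
  have h4 : Real.sqrt (NN Z) ^ p ≠ 0 := pow_ne_zero _ (Real.sqrt_pos.mpr hZ').ne'
  have h5 := h2.mul_const ((Real.sqrt (NN Z) ^ p)⁻¹)
  have h6 : ∀ W, q T p Z W * Real.sqrt (NN Z) ^ p * (Real.sqrt (NN Z) ^ p)⁻¹ = q T p Z W := by
    intro W
    rw [mul_assoc, mul_inv_cancel₀ h4, mul_one]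
  simp only [h6] at h5
  exact h5

end Bd

open Bd in
/-- The norm bound. -/
theorem pAvBd (hM : S_Meas) (hT : S_Trans) (hI : S_AvInt) : S_AvBd := by
  intro T p Φ hΦ M hMb Z hZ
  have hZ' : 0 < NN Z := hZ
  have hb : ∀ W, ‖Ke T p Z W * Φ W‖ ≤ M * Real.sqrt (NN Z) ^ p * q T p Z W := by
    intro W
    by_cases h : th (NN W) = 0
    · unfold Ke q
      rw [h]
      simp
    · have hW : W ∈ Co := lt_trans one_pos (th_ne h).1
      rw [norm_mul]
      calc ‖Ke T p Z W‖ * ‖Φ W‖ ≤ ‖Ke T p Z W‖ * (M * Real.sqrt (NN W) ^ p) :=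
            mul_le_mul_of_nonneg_left (hMb W hW) (norm_nonneg _)
        _ = M * (‖Ke T p Z W‖ * Real.sqrt (NN W) ^ p) := by ring
        _ = M * (q T p Z W * Real.sqrt (NN Z) ^ p) := by rw [Ke_norm T p hZ W]
        _ = _ := by ring
  unfold Av
  calc ‖∫ W, Ke T p Z W * Φ W‖ ≤ ∫ W, M * Real.sqrt (NN Z) ^ p * q T p Z W :=
        norm_integral_le_of_norm_le ((q_integrable hI T p hZ).const_mul _)
          (Filter.Eventually.of_forall hb)
    _ = M * Real.sqrt (NN Z) ^ p * ∫ W, q T p Z W := integral_const_mul _ _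
    _ = M * Real.sqrt (NN Z) ^ p * ka T p := by rw [q_int hM hT T p Z hZ]
    _ = M * ka T p * Real.sqrt (NN Z) ^ p := by ring

namespace Bd

lemma e3_Co : e3 ∈ Co := by
  show 0 < NN e3
  unfold NN e3
  simp

lemma NN_e3 : NN e3 = 1 := by
  unfold NN e3
  simp

lemma hh_e3 (W : V3) : hh e3 W = -conj (W 2) := by
  unfold hh e3
  simp

lemma tt_e3 (W : V3) : tt e3 W = Complex.normSq (W 2) / NN W := by
  unfold tt
  rw [hh_e3, NN_e3, one_mul, Complex.normSq_neg, Complex.normSq_conj]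

/-- The test open set. -/
def U : Set V3 := {W | 1 < NN W ∧ NN W < 3 ∧ NN W < Complex.normSq (W 2) ∧
  Complex.normSq (W 2) < 2 * NN W}

lemma U_open : IsOpen U := by
  have h := cont_NN
  have h2 : Continuous (fun W : V3 => Complex.normSq (W 2)) := by fun_prop
  unfold U
  refine (isOpen_lt continuous_const h).inter ((isOpen_lt h continuous_const).inter
    ((isOpen_lt h h2).inter (isOpen_lt h2 (h.const_mul 2))))

lemma U_ne : U.Nonempty := by
  refine ⟨![1, 0, ((Real.sqrt 3 : ℝ) : ℂ)], ?_⟩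
  have h3 : Real.sqrt 3 * Real.sqrt 3 = 3 := Real.mul_self_sqrt (by norm_num)
  have hN : NN ![1, 0, ((Real.sqrt 3 : ℝ) : ℂ)] = 2 := by
    unfold NN
    simp only [Matrix.cons_val_zero, Matrix.cons_val_one, Matrix.cons_val, Complex.normSq_ofReal,
      Complex.normSq_one, Complex.normSq_zero]
    rw [h3]
    norm_num
  have h2 : Complex.normSq ((![1, 0, ((Real.sqrt 3 : ℝ) : ℂ)] : V3) 2) = 3 := by
    simp only [Matrix.cons_val, Complex.normSq_ofReal]
    exact h3
  show 1 < NN _ ∧ NN _ < 3 ∧ NN _ < Complex.normSq _ ∧ Complex.normSq _ < 2 * NN _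
  rw [hN, h2]
  norm_num

lemma U_pos : 0 < volume U := U_open.measure_pos volume U_ne

lemma U_tt {W : V3} (h : W ∈ U) : 1 < tt e3 W ∧ tt e3 W < 2 := by
  obtain ⟨h1, h3, h4, h5⟩ := h
  have hp : 0 < NN W := by linarith
  rw [tt_e3]
  constructor
  · rw [lt_div_iff₀ hp]
    linarith
  · rw [div_lt_iff₀ hp]
    linarith

lemma tt_ge (hR : S_RCS) {W : V3} (hW : W ∈ Co) : 1 ≤ tt e3 W := by
  have hW' : 0 < NN W := hW
  have h := hR e3 e3_Co W hW
  unfold tt
  have hp : 0 < NN e3 * NN W := by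
    rw [NN_e3, one_mul]
    exact hW'
  rw [le_div_iff₀ hp, one_mul]
  exact h

/-- The integrand of `la T 1`. -/
lemma la1_integrable (hI : S_AvInt) (T : ℝ) :
    Integrable (fun W => tt e3 W ^ 1 * (kk T (tt e3 W) * th (NN W))) := by
  have h1 := hI T 1 (fun W => W 2) (by fun_prop) e3 e3_Co
  have h2 := h1.re
  have h3 : ∀ W, RCLike.re (Ke T 1 e3 W * W 2) =
      tt e3 W ^ 1 * (kk T (tt e3 W) * th (NN W)) := by
    intro W
    have h4 : Ke T 1 e3 W * W 2 =
        ((tt e3 W ^ 1 * (kk T (tt e3 W) * th (NN W)) : ℝ) : ℂ) := by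
      unfold Ke
      rw [hh_e3]
      have h5 : ((tt e3 W : ℝ) : ℂ) = conj (W 2) * W 2 / ((NN W : ℝ) : ℂ) := by
        rw [tt_e3, mul_comm, Complex.mul_conj]
        push_cast
        ring
      push_cast
      rw [pow_one, pow_one, h5]
      ring
    rw [h4]
    exact Complex.ofReal_re _
  simp only [h3] at h2
  exact h2

lemma la0_integrable (hI : S_AvInt) (T : ℝ) :
    Integrable (fun W => tt e3 W ^ 0 * (kk T (tt e3 W) * th (NN W))) := by
  have h := q_integrable hI T 0 e3_Co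
  simpa only [q, pow_zero] using h

end Bd

open Bd in
/-- The comparison of the norm and the eigenvalue. -/
theorem pKaLa (hR : S_RCS) (hI : S_AvInt) : S_KaLa := by
  intro T hT
  refine ⟨?_, ?_, ?_⟩
  · exact integral_nonneg (fun W => q_nonneg T 1 e3 W)
  · have hi1 := la1_integrable hI T
    have hi2 : Integrable (fun W => Real.sqrt (tt e3 W) ^ 1 * (kk T (tt e3 W) * th (NN W))) :=
      q_integrable hI T 1 e3_Co
    have hsub : la T 1 - ka T 1 = ∫ W, (tt e3 W ^ 1 * (kk T (tt e3 W) * th (NN W)) -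
        Real.sqrt (tt e3 W) ^ 1 * (kk T (tt e3 W) * th (NN W))) := by
      rw [integral_sub hi1 hi2]
      rfl
    have hpos : 0 < ∫ W, (tt e3 W ^ 1 * (kk T (tt e3 W) * th (NN W)) -
        Real.sqrt (tt e3 W) ^ 1 * (kk T (tt e3 W) * th (NN W))) := by
      have hsi : Integrable (fun W => tt e3 W ^ 1 * (kk T (tt e3 W) * th (NN W)) -
        Real.sqrt (tt e3 W) ^ 1 * (kk T (tt e3 W) * th (NN W))) := hi1.sub hi2
      rw [integral_pos_iff_support_of_nonneg _ hsi]
      · refine lt_of_lt_of_le U_pos (measure_mono ?_)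
        intro W hW
        obtain ⟨h1, h2⟩ := U_tt hW
        have hs : Real.sqrt (tt e3 W) < tt e3 W := by
          rw [Real.sqrt_lt' (by linarith)]
          nlinarith
        have hk := kk_pos (T := T) (t := tt e3 W) (by linarith)
        have ht := th_pos hW.1 hW.2.1
        have hkt := mul_pos hk ht
        show tt e3 W ^ 1 * (kk T (tt e3 W) * th (NN W)) -
          Real.sqrt (tt e3 W) ^ 1 * (kk T (tt e3 W) * th (NN W)) ≠ (0 : ℝ)
        rw [pow_one, pow_one, ← sub_mul]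
        exact (mul_pos (by linarith) hkt).ne'
      · intro W
        show (0 : ℝ) ≤ tt e3 W ^ 1 * (kk T (tt e3 W) * th (NN W)) -
          Real.sqrt (tt e3 W) ^ 1 * (kk T (tt e3 W) * th (NN W))
        rw [pow_one, pow_one, ← sub_mul]
        by_cases h : th (NN W) = 0
        · rw [h]
          simp
        · have hW : W ∈ Co := lt_trans one_pos (th_ne h).1
          have h1 := tt_ge hR hW
          have hs : Real.sqrt (tt e3 W) ≤ tt e3 W := by
            apply Real.sqrt_le_iff.mpr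
            exact ⟨by linarith, by nlinarith⟩
          exact mul_nonneg (by linarith) (mul_nonneg (kk_nonneg _ _) (th_nonneg _))
    linarith
  · have hi := la0_integrable hI T
    show 0 < ∫ W, tt e3 W ^ 0 * (kk T (tt e3 W) * th (NN W))
    rw [integral_pos_iff_support_of_nonneg _ hi]
    · refine lt_of_lt_of_le U_pos (measure_mono ?_)
      intro W hW
      obtain ⟨h1, h2⟩ := U_tt hW
      have hk := kk_pos (T := T) (t := tt e3 W) (by linarith)
      have ht := th_pos hW.1 hW.2.1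
      show tt e3 W ^ 0 * (kk T (tt e3 W) * th (NN W)) ≠ (0 : ℝ)
      rw [pow_zero, one_mul]
      exact (mul_pos hk ht).ne'
    · intro W
      show (0 : ℝ) ≤ tt e3 W ^ 0 * (kk T (tt e3 W) * th (NN W))
      rw [pow_zero, one_mul]
      exact mul_nonneg (kk_nonneg _ _) (th_nonneg _)

end CMT.J3
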