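import Pool.Agent.Lib.CMT.J3.Spec
import Pool.Agent.Lib.CMT.J3.Wirt

/-!
# PROJECT CMT, part J3 : the Bochner identities `S_B1`, `S_B0` (helper11)
-/

set_option autoImplicit false

open scoped BigOperators ComplexConjugate ContDiff
open MeasureTheory Matrix

noncomputable section

namespace CMT.J3

namespace Boch

theorem ep0 : ep 0 = 1 := rfl
theorem ep1 : ep 1 = 1 := rfl
theorem ep2 : ep 2 = -1 := rfl

/-! ### algebra -/

theorem algA (N Ni : ℂ) (Z G Zb Gb : Fin 3 → ℂ) (T Tb : Fin 3 → Fin 3 → ℂ) (hN : N * Ni = 1)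
    (hNN : N = -(∑ k, ep k * (Z k * Zb k))) (h1 : ∀ i, ∑ k, Z k * T k i = G i)
    (h2 : ∀ i, ∑ k, Zb k * Tb k i = Gb i) :
    N * ∑ k, ∑ i, ep k * ep i * ((T k i + ep k * Zb k * G i * Ni) * (Tb k i + ep k * Z k * Gb i * Ni)) =
      N * (∑ k, ∑ i, ep k * ep i * (T k i * Tb k i)) + ∑ i, ep i * (G i * Gb i) := by
  have a0 := h1 0
  have a1 := h1 1
  have a2 := h1 2
  have b0 := h2 0
  have b1 := h2 1
  have b2 := h2 2
  simp only [Fin.sum_univ_three, ep0, ep1, ep2] at hNN a0 a1 a2 b0 b1 b2 ⊢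
  linear_combination (N * Ni * Gb 0) * a0 + (N * Ni * Gb 1) * a1 - (N * Ni * Gb 2) * a2 +
    (N * Ni * G 0) * b0 + (N * Ni * G 1) * b1 - (N * Ni * G 2) * b2 +
    (N * Ni ^ 2 * (G 0 * Gb 0 + G 1 * Gb 1 - G 2 * Gb 2)) * hNN -
    ((N * Ni - 1) * (G 0 * Gb 0 + G 1 * Gb 1 - G 2 * Gb 2)) * hN

theorem algB (N R : ℂ) (Z Zb G Gb r : Fin 3 → ℂ) (T Tb S U : Fin 3 → Fin 3 → ℂ)
    (h4 : ∀ i, ∑ k, ep k * U k i = 0)
    (hr : ∀ k, r k * N + R * (-(ep k * Z k)) = ∑ i, ep i * (S k i * Gb i + G i * Tb k i))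
    (h3 : ∀ i, ∑ k, Zb k * S k i = -G i) (h2 : ∀ i, ∑ k, Zb k * Tb k i = Gb i)
    (hR : R * N = ∑ i, ep i * (G i * Gb i)) (hNN : N = -(∑ k, ep k * (Z k * Zb k))) :
    N * ∑ k, ep k * ((∑ i, ep i * (U k i * Gb i + T k i * Tb k i)) + (r k * (ep k * Zb k) + R * ep k)) =
      N * (∑ k, ∑ i, ep k * ep i * (T k i * Tb k i)) + 2 * ∑ i, ep i * (G i * Gb i) := by
  have a0 := h4 0
  have a1 := h4 1
  have a2 := h4 2
  have b0 := h2 0
  have b1 := h2 1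
  have b2 := h2 2
  have c0 := h3 0
  have c1 := h3 1
  have c2 := h3 2
  have r0 := hr 0
  have r1 := hr 1
  have r2 := hr 2
  simp only [Fin.sum_univ_three, ep0, ep1, ep2] at hNN hR a0 a1 a2 b0 b1 b2 c0 c1 c2 r0 r1 r2 ⊢
  linear_combination (N * Gb 0) * a0 + (N * Gb 1) * a1 - (N * Gb 2) * a2 + Zb 0 * r0 + Zb 1 * r1 + Zb 2 * r2 +
    Gb 0 * c0 + Gb 1 * c1 - Gb 2 * c2 + G 0 * b0 + G 1 * b1 - G 2 * b2 + R * hNN + 2 * hR

theorem algC (N : ℂ) (Z Gb : Fin 3 → ℂ) (T Tb U : Fin 3 → Fin 3 → ℂ)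
    (h4 : ∀ i, ∑ k, ep k * U k i = 0) (h1 : ∀ i, ∑ k, Z k * T k i = 0) :
    N * ∑ k, ep k * (-(ep k * Z k) * (∑ i, ep i * (T k i * Gb i)) +
      N * (∑ i, ep i * (U k i * Gb i + T k i * Tb k i))) =
      N ^ 2 * (∑ k, ∑ i, ep k * ep i * (T k i * Tb k i)) := by
  have a0 := h4 0
  have a1 := h4 1
  have a2 := h4 2
  have b0 := h1 0
  have b1 := h1 1
  have b2 := h1 2
  simp only [Fin.sum_univ_three, ep0, ep1, ep2] at a0 a1 a2 b0 b1 b2 ⊢
  linear_combination (N ^ 2 * Gb 0) * a0 + (N ^ 2 * Gb 1) * a1 - (N ^ 2 * Gb 2) * a2 -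
    (N * Gb 0) * b0 - (N * Gb 1) * b1 + (N * Gb 2) * b2

theorem NNe (v : V3) : ((NN v : ℝ) : ℂ) = -∑ i, ep i * (v i * conj (v i)) := by
  simp only [Fin.sum_univ_three, ep0, ep1, ep2, NN, Complex.mul_conj]
  push_cast
  ring

theorem NN3_eq (A : Fin 3 → V3) : ((NN (A 2) - NN (A 0) - NN (A 1) : ℝ) : ℂ) =
    ∑ k, ∑ i, ep k * ep i * (A k i * conj (A k i)) := by
  rw [Complex.ofReal_sub, Complex.ofReal_sub, NNe, NNe, NNe]
  simp only [Fin.sum_univ_three, ep0, ep1, ep2]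
  ring

theorem ph_eq (F : V3 → ℂ) (Z : V3) : ((ph F Z : ℝ) : ℂ) = ∑ i, ep i * (db i F Z * conj (db i F Z)) := by
  rw [ph, Complex.ofReal_neg, NNe, neg_neg]

/-! ### calculus -/

variable {F Φ : V3 → ℂ} {Z : V3} {p : ℕ}

theorem dz0 (k : Fin 3) : dz k (fun _ => (0 : ℂ)) Z = 0 := by
  simp [dz]

theorem db0 (k : Fin 3) : db k (fun _ => (0 : ℂ)) Z = 0 := by
  simp [db]

theorem dz_cc (h : Sm Φ) (hZ : Z ∈ Co) (k i : Fin 3) :
    dz k (fun W => conj (W i) * Φ W) Z = conj (Z i) * dz k Φ Z := by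
  have h1 := dz_mul (Sm.cj (Sm.coord i)) h hZ k
  rw [h1, dz_ccoord hZ, zero_mul, zero_add]

theorem db_cc (h : Sm Φ) (hZ : Z ∈ Co) (k i : Fin 3) :
    db k (fun W => conj (W i) * Φ W) Z = (if k = i then 1 else 0) * Φ Z + conj (Z i) * db k Φ Z := by
  have h1 := db_mul (Sm.cj (Sm.coord i)) h hZ k
  rw [h1, db_ccoord hZ]

theorem db_c (h : Sm Φ) (hZ : Z ∈ Co) (k i : Fin 3) :
    db k (fun W => W i * Φ W) Z = Z i * db k Φ Z := by
  have h1 := db_mul (Sm.coord i) h hZ k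
  rw [h1, db_coord, zero_mul, zero_add]

theorem cmulSm (c : ℂ) (h : Sm Φ) : Sm (fun W => c * Φ W) := (Sm.const c).mul h

/-- `∑ Z̄_i T_ki = 0` -/
theorem fe1 (hF : Sm F) (hp : Hg p F) (hZ : Z ∈ Co) (k : Fin 3) :
    ∑ i, conj (Z i) * dz k (db i F) Z = 0 := by
  have h := dz_congr (Φ := fun W => ∑ i, conj (W i) * db i F W) (Ψ := fun _ => 0)
    (fun W hW => euler_b hF hp hW) hZ k
  rw [dz0, dz_sum (fun i => (Sm.cj (Sm.coord i)).mul (hF.db i)) hZ k] at h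
  rw [← h]
  exact Finset.sum_congr rfl fun i _ => (dz_cc (hF.db i) hZ k i).symm

/-- `∑ Z_k T_ki = p G_i` -/
theorem fe2 (hF : Sm F) (hp : Hg p F) (hZ : Z ∈ Co) (i : Fin 3) :
    ∑ k, Z k * dz k (db i F) Z = p * db i F Z := by
  have h := db_congr (Φ := fun W => ∑ k, W k * dz k F W) (Ψ := fun W => p * F W)
    (fun W hW => euler_z hF hp hW) hZ i
  rw [db_cmul (p : ℂ) hF hZ i, db_sum (fun k => (Sm.coord k).mul (hF.dz k)) hZ i] at h
  rw [← h]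
  refine Finset.sum_congr rfl fun k _ => ?_
  rw [db_c (hF.dz k) hZ i k, dz_db hF hZ k i]

/-- `∑ Z̄_k ∂̄_k G_i = - G_i` -/
theorem fe3 (hF : Sm F) (hp : Hg p F) (hZ : Z ∈ Co) (i : Fin 3) :
    ∑ k, conj (Z k) * db k (db i F) Z = -db i F Z := by
  have h := db_congr (Φ := fun W => ∑ k, conj (W k) * db k F W) (Ψ := fun _ => 0)
    (fun W hW => euler_b hF hp hW) hZ i
  rw [db0, db_sum (fun k => (Sm.cj (Sm.coord k)).mul (hF.db k)) hZ i] at h
  have h1 : ∀ k, db i (fun W => conj (W k) * db k F W) Z =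
      (if i = k then 1 else 0) * db k F Z + conj (Z k) * db k (db i F) Z := by
    intro k
    rw [db_cc (hF.db k) hZ i k, db_db hF hZ i k]
  rw [Finset.sum_congr rfl fun k _ => h1 k, Finset.sum_add_distrib] at h
  have h2 : ∑ k, (if i = k then (1 : ℂ) else 0) * db k F Z = db i F Z := by
    simp
  rw [h2] at h
  linear_combination h

/-- `∑ ε_k ∂̄_k T_ki = 0` if `□ F = 0` -/
theorem fe4 (hF : Sm F) (hb : ∀ Z ∈ Co, bx F Z = 0) (hZ : Z ∈ Co) (i : Fin 3) :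
    ∑ k, ep k * db k (dz k (db i F)) Z = 0 := by
  have h := db_congr (Φ := fun W => ∑ k, ep k * dz k (db k F) W) (Ψ := fun _ => 0)
    (fun W hW => hb W hW) hZ i
  rw [db0, db_sum (fun k => cmulSm (ep k) ((hF.db k).dz k)) hZ i] at h
  rw [← h]
  refine Finset.sum_congr rfl fun k _ => ?_
  rw [db_cmul (ep k) ((hF.db k).dz k) hZ i, ← dz_db (hF.db i) hZ k k]
  congr 1
  rw [← dz_db (hF.db k) hZ k i]
  exact dz_congr (fun W hW => db_db hF hW k i) hZ k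

theorem phSm (hF : Sm F) : Sm (fun W => ((ph F W : ℝ) : ℂ)) :=
  (Sm.sum fun i => cmulSm (ep i) ((hF.db i).mul (Sm.cj (hF.db i)))).congr fun W _ => ph_eq F W

theorem ne0 (hZ : Z ∈ Co) : ((NN Z : ℝ) : ℂ) ≠ 0 := Complex.ofReal_ne_zero.2 (ne_of_gt hZ)

theorem RSm (hF : Sm F) : Sm (fun W => ((ph F W : ℝ) : ℂ) / ((NN W : ℝ) : ℂ)) :=
  (phSm hF).div Sm.nn fun _ hW => ne0 hW

theorem db_ph (hF : Sm F) (hZ : Z ∈ Co) (k : Fin 3) : db k (fun W => ((ph F W : ℝ) : ℂ)) Z =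
    ∑ i, ep i * (db k (db i F) Z * conj (db i F Z) + db i F Z * conj (dz k (db i F) Z)) := by
  rw [db_congr (Ψ := fun W => ∑ i, ep i * (db i F W * conj (db i F W))) (fun W _ => ph_eq F W) hZ k,
    db_sum (fun i => cmulSm (ep i) ((hF.db i).mul (Sm.cj (hF.db i)))) hZ k]
  refine Finset.sum_congr rfl fun i _ => ?_
  rw [db_cmul (ep i) ((hF.db i).mul (Sm.cj (hF.db i))) hZ k, db_mul (hF.db i) (Sm.cj (hF.db i)) hZ k,
    db_cj (hF.db i) hZ k]

/-- the derivative of `φ / N` -/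
theorem db_R (hF : Sm F) (hZ : Z ∈ Co) (k : Fin 3) :
    db k (fun W => ((ph F W : ℝ) : ℂ) / ((NN W : ℝ) : ℂ)) Z * ((NN Z : ℝ) : ℂ) +
      ((ph F Z : ℝ) : ℂ) / ((NN Z : ℝ) : ℂ) * (-(ep k * Z k)) =
    ∑ i, ep i * (db k (db i F) Z * conj (db i F Z) + db i F Z * conj (dz k (db i F) Z)) := by
  rw [← db_ph hF hZ k, ← db_nn hZ k, ← db_mul (RSm hF) Sm.nn hZ k]
  exact db_congr (fun W hW => div_mul_cancel₀ _ (ne0 hW)) hZ k

theorem mSm (hF : Sm F) (k : Fin 3) :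
    Sm (fun W => ∑ i, ep i * (dz k (db i F) W * conj (db i F W))) :=
  Sm.sum fun i => cmulSm (ep i) (((hF.db i).dz k).mul (Sm.cj (hF.db i)))

theorem db_m (hF : Sm F) (hZ : Z ∈ Co) (k : Fin 3) :
    db k (fun W => ∑ i, ep i * (dz k (db i F) W * conj (db i F W))) Z =
      ∑ i, ep i * (db k (dz k (db i F)) Z * conj (db i F Z) + dz k (db i F) Z * conj (dz k (db i F) Z)) := by
  rw [db_sum (fun i => cmulSm (ep i) (((hF.db i).dz k).mul (Sm.cj (hF.db i)))) hZ k]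
  refine Finset.sum_congr rfl fun i _ => ?_
  rw [db_cmul (ep i) (((hF.db i).dz k).mul (Sm.cj (hF.db i))) hZ k,
    db_mul ((hF.db i).dz k) (Sm.cj (hF.db i)) hZ k, db_cj (hF.db i) hZ k]

theorem db_lin (hZ : Z ∈ Co) (k : Fin 3) : db k (fun W => ep k * conj (W k)) Z = ep k := by
  rw [db_cmul (ep k) (Sm.cj (Sm.coord k)) hZ k, db_ccoord hZ, if_pos rfl, mul_one]

end Boch

open Boch

theorem pB1 : S_B1 := by
  intro F hF hp hb
  have hS : ∀ k, Sm (fun W => ((ph F W : ℝ) : ℂ) / ((NN W : ℝ) : ℂ) * (ep k * conj (W k))) := fun k =>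
    (RSm hF).mul (cmulSm (ep k) (Sm.cj (Sm.coord k)))
  refine ⟨fun k => (mSm hF k).add (hS k), ?_⟩
  intro Z hZ
  have hN0 : ((NN Z : ℝ) : ℂ) ≠ 0 := ne0 hZ
  have hNN : ((NN Z : ℝ) : ℂ) = -∑ k, ep k * (Z k * conj (Z k)) := NNe Z
  have hR : ((ph F Z : ℝ) : ℂ) / ((NN Z : ℝ) : ℂ) * ((NN Z : ℝ) : ℂ) = ((ph F Z : ℝ) : ℂ) :=
    div_mul_cancel₀ _ hN0
  have hph := ph_eq F Z
  have h1 : ∀ i, ∑ k, Z k * dz k (db i F) Z = db i F Z := fun i => by
    rw [fe2 hF hp hZ i, Nat.cast_one, one_mul]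
  have h2 : ∀ i, ∑ k, conj (Z k) * conj (dz k (db i F) Z) = conj (db i F Z) := fun i => by
    rw [← h1 i, map_sum]
    exact Finset.sum_congr rfl fun k _ => (map_mul _ _ _).symm
  refine ⟨?_, euler_b hF hp hZ, ?_, ?_, ?_⟩
  · have a0 := h1 0
    have a1 := h1 1
    have a2 := h1 2
    simp only [b1, Fin.sum_univ_three, ep0, ep1, ep2] at hNN hph a0 a1 a2 ⊢
    have hR' := hR
    rw [hph] at hR'
    rw [hph]
    linear_combination (conj (db 0 F Z)) * a0 + (conj (db 1 F Z)) * a1 - (conj (db 2 F Z)) * a2 -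
      hR' + (((db 0 F Z * conj (db 0 F Z)) + (db 1 F Z * conj (db 1 F Z)) +
        -1 * (db 2 F Z * conj (db 2 F Z))) / ((NN Z : ℝ) : ℂ)) * hNN
  · intro i
    have h : ∀ k, Z k * TP F Z k i = Z k * dz k (db i F) Z +
        ep k * (Z k * conj (Z k)) * (db i F Z / ((NN Z : ℝ) : ℂ)) := by
      intro k
      rw [TP]
      ring
    rw [Finset.sum_congr rfl fun k _ => h k, Finset.sum_add_distrib, h1, ← Finset.sum_mul]
    have h5 : ∑ k, ep k * (Z k * conj (Z k)) = -((NN Z : ℝ) : ℂ) := by rw [hNN, neg_neg]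
    rw [h5]
    field_simp
    ring
  · intro k
    have h : ∀ i, conj (Z i) * TP F Z k i = conj (Z i) * dz k (db i F) Z +
        (conj (Z i) * db i F Z) * (ep k * conj (Z k) / ((NN Z : ℝ) : ℂ)) := by
      intro i
      rw [TP]
      ring
    rw [Finset.sum_congr rfl fun i _ => h i, Finset.sum_add_distrib, fe1 hF hp hZ, ← Finset.sum_mul,
      euler_b hF hp hZ, zero_mul, add_zero]
  · have h6 : ∀ k, db k (b1 F k) Z =
        (∑ i, ep i * (db k (dz k (db i F)) Z * conj (db i F Z) +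
          dz k (db i F) Z * conj (dz k (db i F) Z))) +
        (db k (fun W => ((ph F W : ℝ) : ℂ) / ((NN W : ℝ) : ℂ)) Z * (ep k * conj (Z k)) +
          ((ph F Z : ℝ) : ℂ) / ((NN Z : ℝ) : ℂ) * ep k) := by
      intro k
      have h7 : db k (b1 F k) Z = db k (fun W => (∑ i, ep i * (dz k (db i F) W * conj (db i F W))) +
        ((ph F W : ℝ) : ℂ) / ((NN W : ℝ) : ℂ) * (ep k * conj (W k))) Z := rfl
      rw [h7, db_add (mSm hF k) (hS k) hZ k, db_m hF hZ k,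
        db_mul (RSm hF) (cmulSm (ep k) (Sm.cj (Sm.coord k))) hZ k, db_lin hZ k]
    rw [Finset.sum_congr rfl fun k _ => congrArg (fun t => ep k * t) (h6 k)]
    rw [algB _ _ Z (fun k => conj (Z k)) (fun i => db i F Z) (fun i => conj (db i F Z))
      (fun k => db k (fun W => ((ph F W : ℝ) : ℂ) / ((NN W : ℝ) : ℂ)) Z) (fun k i => dz k (db i F) Z)
      (fun k i => conj (dz k (db i F) Z)) (fun k i => db k (db i F) Z) (fun k i => db k (dz k (db i F)) Z)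
      (fe4 hF hb hZ) (db_R hF hZ) (fe3 hF hp hZ) h2 (by rw [hR, hph]) hNN]
    have hA := algA ((NN Z : ℝ) : ℂ) (((NN Z : ℝ) : ℂ)⁻¹) Z (fun i => db i F Z) (fun k => conj (Z k))
      (fun i => conj (db i F Z)) (fun k i => dz k (db i F) Z) (fun k i => conj (dz k (db i F) Z))
      (mul_inv_cancel₀ hN0) hNN h1 h2
    have h8 : ∀ k i, (dz k (db i F) Z + ep k * conj (Z k) * db i F Z * (((NN Z : ℝ) : ℂ)⁻¹)) *
        (conj (dz k (db i F) Z) + ep k * Z k * conj (db i F Z) * (((NN Z : ℝ) : ℂ)⁻¹)) =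
        TP F Z k i * conj (TP F Z k i) := by
      intro k i
      have h9 : conj (ep k) = ep k := by
        fin_cases k <;> simp [ep]
      rw [TP, map_add, map_div₀, map_mul, map_mul, Complex.conj_conj, Complex.conj_ofReal, h9,
        div_eq_mul_inv, div_eq_mul_inv]
    rw [Complex.ofReal_add, Complex.ofReal_mul, NN3_eq (TP F Z), hph]
    simp only [h8] at hA
    rw [hA]
    ring

theorem pB0 : S_B0 := by
  intro F hF hp hb
  refine ⟨fun k => Sm.nn.mul (mSm hF k), ?_⟩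
  intro Z hZ
  have h1 : ∀ i, ∑ k, Z k * dz k (db i F) Z = 0 := fun i => by
    rw [fe2 hF hp hZ i, Nat.cast_zero, zero_mul]
  refine ⟨?_, h1, fe1 hF hp hZ, ?_⟩
  · have a0 := h1 0
    have a1 := h1 1
    have a2 := h1 2
    simp only [b0, Fin.sum_univ_three, ep0, ep1, ep2] at a0 a1 a2 ⊢
    linear_combination (((NN Z : ℝ) : ℂ) * conj (db 0 F Z)) * a0 +
      (((NN Z : ℝ) : ℂ) * conj (db 1 F Z)) * a1 - (((NN Z : ℝ) : ℂ) * conj (db 2 F Z)) * a2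
  · have h6 : ∀ k, db k (b0 F k) Z =
        -(ep k * Z k) * (∑ i, ep i * (dz k (db i F) Z * conj (db i F Z))) +
        ((NN Z : ℝ) : ℂ) * (∑ i, ep i * (db k (dz k (db i F)) Z * conj (db i F Z) +
          dz k (db i F) Z * conj (dz k (db i F) Z))) := by
      intro k
      have h7 : db k (b0 F k) Z = db k (fun W => ((NN W : ℝ) : ℂ) *
        (∑ i, ep i * (dz k (db i F) W * conj (db i F W)))) Z := rfl
      rw [h7, db_mul Sm.nn (mSm hF k) hZ k, db_m hF hZ k, db_nn hZ]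
    rw [Finset.sum_congr rfl fun k _ => congrArg (fun t => ep k * t) (h6 k)]
    rw [algC _ Z (fun i => conj (db i F Z)) (fun k i => dz k (db i F) Z)
      (fun k i => conj (dz k (db i F) Z)) (fun k i => db k (dz k (db i F)) Z) (fe4 hF hb hZ) h1]
    rw [Complex.ofReal_mul, Complex.ofReal_pow, NN3_eq (TT F Z)]
    rfl

end CMT.J3
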