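import Pool.Agent.Lib.CMT.J3.Spec
import Pool.Agent.Lib.CMT.J3.Wirt

/-!
# PROJECT CMT, part J3 : `□` commutes with `U(2,1)` (helper34)
-/

open scoped BigOperators ComplexConjugate ContDiff
open MeasureTheory Matrix

noncomputable section

namespace CMT.J3

variable {Φ : V3 → ℂ} {Z : V3}

/-- The chain rule for the mixed second derivative, any matrix `g` mapping `Co` to `Co`. -/
theorem dzdb_comp (g : M3) (hm : ∀ W ∈ Co, g *ᵥ W ∈ Co) (h : Sm Φ) (hZ : Z ∈ Co) (k i : Fin 3) :
    dz k (db i (fun W => Φ (g *ᵥ W))) Z =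
      ∑ j, conj (g j i) * ∑ l, g l k * dz l (db j Φ) (g *ᵥ Z) := by
  have hsm : ∀ j, Sm (fun W => db j Φ (g *ᵥ W)) := by
    intro j
    have h2 : (fun W => db j Φ (g *ᵥ W)) = (db j Φ) ∘ (mL g) := rfl
    show ContDiffOn ℝ ∞ (fun W => db j Φ (g *ᵥ W)) Co
    rw [h2]
    exact ContDiffOn.comp (h.db j) (mL g).contDiff.contDiffOn fun W hW => hm W hW
  rw [dz_congr (fun W hW => db_comp g h (hm W hW) i) hZ k,
    dz_sum (fun j => (hsm j).cmul (conj (g j i))) hZ k]
  refine Finset.sum_congr rfl fun j _ => ?_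
  rw [dz_cmul _ (hsm j) hZ k, dz_comp g (h.db j) (hm Z hZ) k]

theorem pBxG (hJ : S_GJ) : S_BxG := by
  constructor
  · intro g hg Φ h Z hZ
    have hJ2 := (hJ g hg).2.1
    have hent : ∀ l j, ∑ i, g l i * ep i * conj (g j i) = if l = j then ep l else 0 := by
      intro l j
      have h1 := congrFun (congrFun hJ2 l) j
      rw [Matrix.mul_apply] at h1
      simp only [Matrix.mul_diagonal, Matrix.conjTranspose_apply, Matrix.diagonal_apply] at h1
      exact h1
    have hL : bx (fun W => Φ (g *ᵥ W)) Z =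
        ∑ j, ∑ l, (∑ i, g l i * ep i * conj (g j i)) * dz l (db j Φ) (g *ᵥ Z) := by
      unfold bx
      simp only [dzdb_comp g (fun W hW => mem_IsG hg hW) h hZ, Fin.sum_univ_three]
      ring
    rw [hL, bx]
    refine Finset.sum_congr rfl fun j _ => ?_
    rw [Finset.sum_eq_single j]
    · rw [hent, if_pos rfl]
    · intro l _ hl
      rw [hent, if_neg hl, zero_mul]
    · intro h
      exact absurd (Finset.mem_univ j) h
  · intro p Φ h hp Z hZ c hc
    have hcn : (Complex.normSq c : ℂ) = c * conj c := (Complex.mul_conj c).symm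
    have hcc : conj c ≠ 0 := (map_ne_zero _).2 hc
    have hmv : ∀ W : V3, ((c • (1 : M3)) *ᵥ W) = c • W := by
      intro W
      rw [Matrix.smul_mulVec, Matrix.one_mulVec]
    have hm : ∀ W ∈ Co, (c • (1 : M3)) *ᵥ W ∈ Co := by
      intro W hW
      rw [hmv]
      exact smul_mem hc hW
    have h1 : bx (fun W => Φ ((c • (1 : M3)) *ᵥ W)) Z = c * conj c * bx Φ (c • Z) := by
      unfold bx
      rw [Finset.mul_sum]
      refine Finset.sum_congr rfl fun i _ => ?_
      rw [dzdb_comp (c • (1 : M3)) hm h hZ, hmv, Finset.sum_eq_single i]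
      · rw [Finset.sum_eq_single i]
        · simp
          ring
        · intro l _ hl
          simp [Matrix.one_apply_ne hl]
        · intro h
          exact absurd (Finset.mem_univ i) h
      · intro j _ hj
        simp [Matrix.one_apply_ne hj]
      · intro h
        exact absurd (Finset.mem_univ i) h
    have h2 : bx (fun W => Φ ((c • (1 : M3)) *ᵥ W)) Z = c ^ p * bx Φ Z := by
      have h3 : bx (fun W => Φ ((c • (1 : M3)) *ᵥ W)) Z = bx (fun W => c ^ p * Φ W) Z := by
        refine bx_congr (fun W hW => ?_) hZ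
        rw [hmv, hp W hW c hc]
      rw [h3]
      unfold bx
      rw [Finset.mul_sum]
      refine Finset.sum_congr rfl fun i _ => ?_
      rw [dz_congr (fun W hW => db_cmul (c ^ p) h hW i) hZ i, dz_cmul _ (h.db i) hZ i]
      ring
    have h4 : ((NN (c • Z) : ℝ) : ℂ) = c * conj c * ((NN Z : ℝ) : ℂ) := by
      rw [NN_smul, Complex.ofReal_mul, hcn]
    show ((NN (c • Z) : ℝ) : ℂ) * bx Φ (c • Z) = c ^ p * (((NN Z : ℝ) : ℂ) * bx Φ Z)
    rw [h4]
    have h5 : c * conj c * bx Φ (c • Z) = c ^ p * bx Φ Z := by rw [← h1, h2]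
    linear_combination ((NN Z : ℝ) : ℂ) * h5

end CMT.J3
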