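import Pool.Agent.Lib.CMT.J3.Spec

/-!
# PROJECT CMT, part J3 : the averaging operator commutes with `U(2,1)`; polynomials are eigenfunctions

`pAvG`, `pAvHg`, `pEig`; also `Av_add`, `Av_sub`, `Av_smul`, `Av_neg`, `Av_sum`, `Av_congr`.
-/

open scoped BigOperators ComplexConjugate ContDiff
open MeasureTheory Matrix

noncomputable section

namespace CMT.J3

/-! ## Elementary facts -/

/-- `hh Z Z = - NN Z`. -/
private theorem hh_self (Z : V3) : hh Z Z = ((-NN Z : ℝ) : ℂ) := by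
  unfold hh NN
  rw [Complex.mul_conj, Complex.mul_conj, Complex.mul_conj]
  push_cast
  ring

/-- `NN` is invariant. -/
theorem NN_of_isG {g : M3} (hg : IsG g) (Z : V3) : NN (g *ᵥ Z) = NN Z := by
  have h := hg Z Z
  rw [hh_self, hh_self] at h
  have h2 := Complex.ofReal_injective h
  linarith

/-- `tt` is invariant. -/
theorem tt_of_isG {g : M3} (hg : IsG g) (Z W : V3) : tt (g *ᵥ Z) (g *ᵥ W) = tt Z W := by
  unfold tt
  rw [hg Z W, NN_of_isG hg, NN_of_isG hg]

/-- The kernel is invariant. -/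
theorem Ke_of_isG (T : ℝ) (p : ℕ) {g : M3} (hg : IsG g) (Z W : V3) :
    Ke T p (g *ᵥ Z) (g *ᵥ W) = Ke T p Z W := by
  unfold Ke
  rw [hg Z W, NN_of_isG hg, tt_of_isG hg]

/-- `NN` is homogeneous. -/
private theorem NN_smul (c : ℂ) (Z : V3) : NN (c • Z) = Complex.normSq c * NN Z := by
  unfold NN
  simp only [Pi.smul_apply, smul_eq_mul, Complex.normSq_mul]
  ring

/-- `hh` is linear in the first argument. -/
theorem hh_smul_left (c : ℂ) (Z W : V3) : hh (c • Z) W = c * hh Z W := by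
  unfold hh
  simp only [Pi.smul_apply, smul_eq_mul]
  ring

/-- `tt` is homogeneous of degree `0` in the first argument. -/
theorem tt_smul_left {c : ℂ} (hc : c ≠ 0) (Z W : V3) : tt (c • Z) W = tt Z W := by
  unfold tt
  rw [hh_smul_left, NN_smul, Complex.normSq_mul]
  have h : Complex.normSq c ≠ 0 := by
    rw [Ne, Complex.normSq_eq_zero]
    exact hc
  rw [mul_assoc (Complex.normSq c) (NN Z) (NN W), mul_div_mul_left _ _ h]

/-- The kernel is homogeneous of degree `p` in the first argument. -/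
theorem Ke_smul_left (T : ℝ) (p : ℕ) {c : ℂ} (hc : c ≠ 0) (Z W : V3) :
    Ke T p (c • Z) W = c ^ p * Ke T p Z W := by
  unfold Ke
  rw [tt_smul_left hc, hh_smul_left, ← mul_assoc, ← mul_pow]
  congr 2
  ring

/-- The cutoff vanishes off the cone. -/
theorem th_off {W : V3} (hW : W ∉ Co) : th (NN W) = 0 := by
  have h : NN W ≤ 0 := not_lt.1 hW
  unfold th
  rw [Real.smoothTransition.zero_of_nonpos (by linarith), zero_mul]

/-- The kernel vanishes off the cone. -/
theorem Ke_off (T : ℝ) (p : ℕ) (Z : V3) {W : V3} (hW : W ∉ Co) : Ke T p Z W = 0 := by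
  unfold Ke
  rw [th_off hW, mul_zero, Complex.ofReal_zero, mul_zero]

/-! ## Linearity -/

/-- `Av` only depends on the values on the cone. -/
theorem Av_congr (T : ℝ) (p : ℕ) {Φ Ψ : V3 → ℂ} (h : ∀ W ∈ Co, Φ W = Ψ W) (Z : V3) :
    Av T p Φ Z = Av T p Ψ Z := by
  unfold Av
  congr 1
  funext W
  by_cases hW : W ∈ Co
  · rw [h W hW]
  · rw [Ke_off T p Z hW, zero_mul, zero_mul]

/-- Scalars. -/
theorem Av_smul (T : ℝ) (p : ℕ) (c : ℂ) (Φ : V3 → ℂ) (Z : V3) :
    Av T p (fun W => c * Φ W) Z = c * Av T p Φ Z := by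
  unfold Av
  rw [← integral_const_mul]
  congr 1
  funext W
  ring

/-- Negation. -/
theorem Av_neg (T : ℝ) (p : ℕ) (Φ : V3 → ℂ) (Z : V3) :
    Av T p (fun W => - Φ W) Z = - Av T p Φ Z := by
  have h := Av_smul T p (-1) Φ Z
  simp only [neg_mul, one_mul] at h
  exact h

/-- Additivity. -/
theorem Av_add (hI : S_AvInt) (T : ℝ) (p : ℕ) {Φ Ψ : V3 → ℂ} (hΦ : ContinuousOn Φ Co)
    (hΨ : ContinuousOn Ψ Co) {Z : V3} (hZ : Z ∈ Co) :
    Av T p (fun W => Φ W + Ψ W) Z = Av T p Φ Z + Av T p Ψ Z := by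
  unfold Av
  rw [← integral_add (hI T p Φ hΦ Z hZ) (hI T p Ψ hΨ Z hZ)]
  congr 1
  funext W
  ring

/-- Subtraction. -/
theorem Av_sub (hI : S_AvInt) (T : ℝ) (p : ℕ) {Φ Ψ : V3 → ℂ} (hΦ : ContinuousOn Φ Co)
    (hΨ : ContinuousOn Ψ Co) {Z : V3} (hZ : Z ∈ Co) :
    Av T p (fun W => Φ W - Ψ W) Z = Av T p Φ Z - Av T p Ψ Z := by
  unfold Av
  rw [← integral_sub (hI T p Φ hΦ Z hZ) (hI T p Ψ hΨ Z hZ)]
  congr 1
  funext W
  ring

/-- Finite sums. -/
theorem Av_sum (hI : S_AvInt) (T : ℝ) (p : ℕ) {ι : Type*} (s : Finset ι) {Φ : ι → V3 → ℂ}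
    (hΦ : ∀ i ∈ s, ContinuousOn (Φ i) Co) {Z : V3} (hZ : Z ∈ Co) :
    Av T p (fun W => ∑ i ∈ s, Φ i W) Z = ∑ i ∈ s, Av T p (Φ i) Z := by
  unfold Av
  rw [← integral_finset_sum s (fun i hi => hI T p (Φ i) (hΦ i hi) Z hZ)]
  congr 1
  funext W
  rw [Finset.mul_sum]

/-! ## The statements -/

/-- **`Av` commutes with `U(2,1)`.** -/
theorem pAvG (hM : S_Meas) : S_AvG := by
  intro T p g hg Φ Z
  have h := hM g hg (fun W => Ke T p (g *ᵥ Z) W * Φ W)
  unfold Av
  rw [← h]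
  congr 1
  funext W
  rw [Ke_of_isG T p hg]

/-- Homogeneity of averages, without the condition on `Z`. -/
theorem Av_hg (T : ℝ) (p : ℕ) (Φ : V3 → ℂ) (Z : V3) {c : ℂ} (hc : c ≠ 0) :
    Av T p Φ (c • Z) = c ^ p * Av T p Φ Z := by
  unfold Av
  rw [← integral_const_mul]
  congr 1
  funext W
  rw [Ke_smul_left T p hc, mul_assoc]

/-- **Averages are homogeneous.** -/
theorem pAvHg : S_AvHg := by
  intro T p Φ Z _ c hc
  exact Av_hg T p Φ Z hc

/-- Coordinates are continuous. -/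
theorem continuousOn_coord (i : Fin 3) : ContinuousOn (fun W : V3 => W i) Co :=
  (continuous_apply i).continuousOn

/-- Elements of `U(2,1)` are injective. -/
theorem isG_inj {g : M3} (hg : IsG g) {x y : V3} (h : g *ᵥ x = g *ᵥ y) : x = y := by
  have key : ∀ i : Fin 3, hh x (Pi.single i 1) = hh y (Pi.single i 1) := by
    intro i
    rw [← hg x, ← hg y, h]
  funext i
  have h0 := key 0
  have h1 := key 1
  have h2 := key 2
  unfold hh at h0 h1 h2
  simp at h0 h1 h2
  fin_cases i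
  · exact h0
  · exact h1
  · exact h2

/-- Diagonal sign matrices. -/
def sgm (i : Fin 3) : M3 := diagonal (fun j => if j = i then -1 else 1)

theorem sgm_mulVec (i : Fin 3) (Z : V3) (j : Fin 3) :
    (sgm i *ᵥ Z) j = (if j = i then -1 else 1) * Z j := by
  unfold sgm
  rw [mulVec_diagonal]

theorem isG_sgm (i : Fin 3) : IsG (sgm i) := by
  intro Z W
  unfold hh
  simp only [sgm_mulVec, map_mul]
  fin_cases i <;> simp

/-- `V(e3)_i = 0` for `i ≠ 2`. -/
theorem Av_e3_coord (hM : S_Meas) (T : ℝ) {i : Fin 3} (hi : i ≠ 2) :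
    Av T 1 (fun W => W i) e3 = 0 := by
  have h := pAvG hM T 1 (sgm i) (isG_sgm i) (fun W => W i) e3
  have h1 : (fun W : V3 => (sgm i *ᵥ W) i) = fun W => - (W i) := by
    funext W
    rw [sgm_mulVec]
    simp
  have h2 : sgm i *ᵥ e3 = e3 := by
    funext j
    rw [sgm_mulVec]
    fin_cases i <;> fin_cases j <;> simp_all [e3]
  rw [h1, h2, Av_neg] at h
  have h3 : (2 : ℂ) * Av T 1 (fun W => W i) e3 = 0 := by
    linear_combination -h
  rcases mul_eq_zero.1 h3 with h4 | h4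
  · norm_num at h4
  · exact h4

private theorem NN_e3 : NN e3 = 1 := by
  unfold NN e3
  simp

private theorem hh_e3 (W : V3) : hh e3 W = - conj (W 2) := by
  unfold hh e3
  simp

private theorem tt_e3 (W : V3) : tt e3 W = Complex.normSq (W 2) / NN W := by
  unfold tt
  rw [hh_e3, NN_e3, one_mul, Complex.normSq_neg, Complex.normSq_conj]

/-- `V(e3)_2 = la`. -/
theorem Av_e3_two (T : ℝ) : Av T 1 (fun W => W 2) e3 = ((la T 1 : ℝ) : ℂ) := by
  unfold Av la
  rw [← integral_complex_ofReal]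
  congr 1
  funext W
  unfold Ke
  rw [tt_e3, hh_e3, pow_one, pow_one, neg_neg]
  have h : conj (W 2) * W 2 = ((Complex.normSq (W 2) : ℝ) : ℂ) := by
    rw [mul_comm, Complex.mul_conj]
  push_cast
  rw [← h]
  ring

/-- Constants at `e3`. -/
theorem Av_e3_zero (T : ℝ) : Av T 0 (fun _ => 1) e3 = ((la T 0 : ℝ) : ℂ) := by
  unfold Av la
  rw [← integral_complex_ofReal]
  congr 1
  funext W
  unfold Ke
  rw [pow_zero, pow_zero, one_mul, one_mul, mul_one]

/-- `V(Z) = la Z`. -/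
theorem Av_coord (hM : S_Meas) (hT : S_Trans) (hI : S_AvInt) (T : ℝ) {Z : V3} (hZ : Z ∈ Co)
    (i : Fin 3) : Av T 1 (fun W => W i) Z = ((la T 1 : ℝ) : ℂ) * Z i := by
  obtain ⟨g, hg, c, hc, hgZ⟩ := hT Z hZ
  have hV : ∀ i, Av T 1 (fun W => W i) (g *ᵥ Z) = ∑ j, g i j * Av T 1 (fun W => W j) Z := by
    intro i
    rw [← pAvG hM T 1 g hg (fun W => W i) Z]
    have h1 : (fun W : V3 => (g *ᵥ W) i) = fun W => ∑ j, g i j * W j := by
      funext W
      rfl
    rw [h1, Av_sum hI T 1 Finset.univ (Φ := fun j W => g i j * W j)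
      (fun j _ => continuousOn_const.mul (continuousOn_coord j)) hZ]
    refine Finset.sum_congr rfl fun j _ => ?_
    exact Av_smul T 1 (g i j) (fun W => W j) Z
  have hE : ∀ i, Av T 1 (fun W => W i) (c • e3) = ((la T 1 : ℝ) : ℂ) * (c • e3) i := by
    intro i
    rw [Av_hg T 1 _ e3 hc, pow_one]
    fin_cases i
    · show c * Av T 1 (fun W => W 0) e3 = _
      rw [Av_e3_coord hM T (by decide)]
      simp [e3]
    · show c * Av T 1 (fun W => W 1) e3 = _
      rw [Av_e3_coord hM T (by decide)]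
      simp [e3]
    · show c * Av T 1 (fun W => W 2) e3 = _
      rw [Av_e3_two]
      simp [e3]
      ring
  have hfin : g *ᵥ (fun j => Av T 1 (fun W => W j) Z) = g *ᵥ (((la T 1 : ℝ) : ℂ) • Z) := by
    rw [mulVec_smul]
    funext i
    have h2 := hV i
    rw [hgZ, hE i, ← hgZ] at h2
    exact h2.symm
  have := congrFun (isG_inj hg hfin) i
  simpa using this

/-- **Polynomials are eigenfunctions.** -/
theorem pEig (hM : S_Meas) (hT : S_Trans) (hI : S_AvInt) : S_Eig := by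
  intro T p l hl Z hZ
  rcases hl with ⟨rfl, a, rfl⟩ | ⟨rfl, v, rfl⟩
  · obtain ⟨g, hg, c, hc, hgZ⟩ := hT Z hZ
    have h1 := pAvG hM T 0 g hg (fun _ => 1) Z
    rw [hgZ, Av_hg T 0 _ e3 hc, pow_zero, one_mul, Av_e3_zero] at h1
    have h2 := Av_smul T 0 a (fun _ => 1) Z
    simp only [mul_one] at h2
    rw [h2, h1]
    ring
  · rw [Av_sum hI T 1 Finset.univ (Φ := fun j W => v j * W j)
      (fun j _ => continuousOn_const.mul (continuousOn_coord j)) hZ, Finset.mul_sum]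
    refine Finset.sum_congr rfl fun j _ => ?_
    rw [Av_smul T 1 (v j) (fun W => W j) Z, Av_coord hM hT hI T hZ j]
    ring

end CMT.J3
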