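import Pool.Agent.Lib.CMT.J3.Spec
import Pool.Agent.Lib.CMT.J3.Wirt
import Pool.Agent.Lib.CMT.J3.Eig

/-!
# PROJECT CMT, part J3 : the Casimir identity (helper58)

`pCas : S_Cas` and `pBxAv : S_BxAv` (from `S_Comm`, `S_AvHg`, `S_AvSm`, `S_AvInt`).
-/

open scoped BigOperators ComplexConjugate ContDiff
open MeasureTheory Matrix

noncomputable section

namespace CMT.J3

namespace CasAux

variable {Φ : V3 → ℂ} {Z : V3}

/-- A coordinate of `X W`. -/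
theorem mv (X : M3) (W : V3) (i : Fin 3) : (X *ᵥ W) i = ∑ k, X i k * W k := rfl

theorem sm_mv (X : M3) (i : Fin 3) : Sm (fun W => (X *ᵥ W) i) :=
  Sm.congr (Sm.sum (Φ := fun k W => X i k * W k) fun k => (Sm.coord k).cmul _) fun _ _ => rfl

theorem dz_mv (X : M3) (hZ : Z ∈ Co) (j i : Fin 3) : dz j (fun W => (X *ᵥ W) i) Z = X i j := by
  have h : dz j (fun W => ∑ k, X i k * W k) Z = ∑ k, dz j (fun W => X i k * W k) Z :=
    dz_sum (Φ := fun k W => X i k * W k) (fun k => (Sm.coord k).cmul _) hZ j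
  rw [dz_congr (fun W _ => mv X W i) hZ j, h]
  rw [Finset.sum_congr rfl fun k _ => dz_cmul (X i k) (Sm.coord k) hZ j]
  simp only [dz_coord]
  simp

theorem db_mv (X : M3) (hZ : Z ∈ Co) (j i : Fin 3) : db j (fun W => (X *ᵥ W) i) Z = 0 := by
  have h : db j (fun W => ∑ k, X i k * W k) Z = ∑ k, db j (fun W => X i k * W k) Z :=
    db_sum (Φ := fun k W => X i k * W k) (fun k => (Sm.coord k).cmul _) hZ j
  rw [db_congr (fun W _ => mv X W i) hZ j, h]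
  rw [Finset.sum_congr rfl fun k _ => db_cmul (X i k) (Sm.coord k) hZ j]
  simp only [db_coord]
  simp

theorem dz_cmv (X : M3) (hZ : Z ∈ Co) (j i : Fin 3) :
    dz j (fun W => conj ((X *ᵥ W) i)) Z = 0 := by
  rw [dz_cj (sm_mv X i) hZ, db_mv X hZ, map_zero]

theorem db_cmv (X : M3) (hZ : Z ∈ Co) (j i : Fin 3) :
    db j (fun W => conj ((X *ᵥ W) i)) Z = conj (X i j) := by
  rw [db_cj (sm_mv X i) hZ, dz_mv X hZ]

/-- `dX` in terms of Wirtinger derivatives. -/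
theorem dX_eq (X : M3) (Φ : V3 → ℂ) (W : V3) :
    dX X Φ W = ∑ i, ((X *ᵥ W) i * dz i Φ W + conj ((X *ᵥ W) i) * db i Φ W) := by
  rw [dX, fderiv_eq]

theorem sm_term (h : Sm Φ) (X : M3) (i : Fin 3) :
    Sm (fun W => (X *ᵥ W) i * dz i Φ W + conj ((X *ᵥ W) i) * db i Φ W) :=
  ((sm_mv X i).mul (h.dz i)).add (((sm_mv X i).cj).mul (h.db i))

theorem sm_dX (h : Sm Φ) (X : M3) : Sm (dX X Φ) :=
  Sm.congr (Sm.sum (Φ := fun i W => (X *ᵥ W) i * dz i Φ W + conj ((X *ᵥ W) i) * db i Φ W)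
    (sm_term h X)) fun W _ => dX_eq X Φ W

theorem dz_dX (h : Sm Φ) (X : M3) (hZ : Z ∈ Co) (j : Fin 3) :
    dz j (dX X Φ) Z = ∑ i, (X i j * dz i Φ Z + (X *ᵥ Z) i * dz j (dz i Φ) Z +
      conj ((X *ᵥ Z) i) * dz j (db i Φ) Z) := by
  rw [dz_congr (fun W _ => dX_eq X Φ W) hZ j,
    dz_sum (Φ := fun i W => (X *ᵥ W) i * dz i Φ W + conj ((X *ᵥ W) i) * db i Φ W)
      (sm_term h X) hZ j]
  refine Finset.sum_congr rfl fun i _ => ?_
  rw [dz_add ((sm_mv X i).mul (h.dz i)) (((sm_mv X i).cj).mul (h.db i)) hZ,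
    dz_mul (sm_mv X i) (h.dz i) hZ, dz_mul ((sm_mv X i).cj) (h.db i) hZ, dz_mv X hZ,
    dz_cmv X hZ]
  ring

theorem db_dX (h : Sm Φ) (X : M3) (hZ : Z ∈ Co) (j : Fin 3) :
    db j (dX X Φ) Z = ∑ i, ((X *ᵥ Z) i * dz i (db j Φ) Z + conj (X i j) * db i Φ Z +
      conj ((X *ᵥ Z) i) * db j (db i Φ) Z) := by
  rw [db_congr (fun W _ => dX_eq X Φ W) hZ j,
    db_sum (Φ := fun i W => (X *ᵥ W) i * dz i Φ W + conj ((X *ᵥ W) i) * db i Φ W)
      (sm_term h X) hZ j]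
  refine Finset.sum_congr rfl fun i _ => ?_
  rw [db_add ((sm_mv X i).mul (h.dz i)) (((sm_mv X i).cj).mul (h.db i)) hZ,
    db_mul (sm_mv X i) (h.dz i) hZ, db_mul ((sm_mv X i).cj) (h.db i) hZ, db_mv X hZ,
    db_cmv X hZ, dz_db h hZ i j]
  ring

/-- The second derivative along `X`. -/
theorem dXX (h : Sm Φ) (X : M3) (hZ : Z ∈ Co) :
    dX X (dX X Φ) Z = ∑ j, ((X *ᵥ Z) j * ∑ i, (X i j * dz i Φ Z +
      (X *ᵥ Z) i * dz j (dz i Φ) Z + conj ((X *ᵥ Z) i) * dz j (db i Φ) Z) +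
      conj ((X *ᵥ Z) j) * ∑ i, ((X *ᵥ Z) i * dz i (db j Φ) Z + conj (X i j) * db i Φ Z +
      conj ((X *ᵥ Z) i) * db j (db i Φ) Z)) := by
  rw [dX_eq]
  refine Finset.sum_congr rfl fun j _ => ?_
  rw [dz_dX h X hZ, db_dX h X hZ]

/-- Derivative of the Euler identity in `Z`. -/
theorem euler_zz {p : ℕ} (h : Sm Φ) (hp : Hg p Φ) (hZ : Z ∈ Co) (j : Fin 3) :
    dz j Φ Z + ∑ i, Z i * dz j (dz i Φ) Z = p * dz j Φ Z := by
  have h1 : dz j (fun W => ∑ i, W i * dz i Φ W) Z = dz j (fun W => (p : ℂ) * Φ W) Z :=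
    dz_congr (fun W hW => euler_z h hp hW) hZ j
  rw [dz_cmul _ h hZ, dz_sum (Φ := fun i W => W i * dz i Φ W)
    (fun i => (Sm.coord i).mul (h.dz i)) hZ j,
    Finset.sum_congr rfl fun i _ => dz_mul (Sm.coord i) (h.dz i) hZ j,
    Finset.sum_add_distrib] at h1
  rw [← h1]
  simp only [dz_coord]
  simp

/-- Derivative of the Euler identity in `conj Z`. -/
theorem euler_bb {p : ℕ} (h : Sm Φ) (hp : Hg p Φ) (hZ : Z ∈ Co) (j : Fin 3) :
    db j Φ Z + ∑ i, conj (Z i) * db j (db i Φ) Z = 0 := by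
  have h1 : db j (fun W => ∑ i, conj (W i) * db i Φ W) Z = db j (fun _ => (0 : ℂ)) Z :=
    db_congr (fun W hW => euler_b h hp hW) hZ j
  rw [db_const, db_sum (Φ := fun i W => conj (W i) * db i Φ W)
    (fun i => (Sm.ccoord i).mul (h.db i)) hZ j,
    Finset.sum_congr rfl fun i _ => db_mul (Sm.ccoord i) (h.db i) hZ j,
    Finset.sum_add_distrib] at h1
  rw [← h1]
  simp only [db_ccoord hZ]
  simp

/-! ## The generators -/

theorem gXn0 : Xn 0 = !![0, 0, 1; 0, 0, 0; 1, 0, 0] := by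
  ext i j
  fin_cases i <;> fin_cases j <;> simp [Xn, Eu, Matrix.single_apply]

theorem gXn1 : Xn 1 = !![0, 0, Complex.I; 0, 0, 0; -Complex.I, 0, 0] := by
  ext i j
  fin_cases i <;> fin_cases j <;> simp [Xn, Eu, Matrix.single_apply]

theorem gXn2 : Xn 2 = !![0, 0, 0; 0, 0, 1; 0, 1, 0] := by
  ext i j
  fin_cases i <;> fin_cases j <;> simp [Xn, Eu, Matrix.single_apply]

theorem gXn3 : Xn 3 = !![0, 0, 0; 0, 0, Complex.I; 0, -Complex.I, 0] := by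
  ext i j
  fin_cases i <;> fin_cases j <;> simp [Xn, Eu, Matrix.single_apply]

theorem gYo0 : Yo 0 = !![0, 1, 0; -1, 0, 0; 0, 0, 0] := by
  ext i j
  fin_cases i <;> fin_cases j <;> simp [Yo, Eu, Matrix.single_apply]

theorem gYo1 : Yo 1 = !![0, Complex.I, 0; Complex.I, 0, 0; 0, 0, 0] := by
  ext i j
  fin_cases i <;> fin_cases j <;> simp [Yo, Eu, Matrix.single_apply]

theorem gYd0 : Yd 0 = !![Complex.I, 0, 0; 0, 0, 0; 0, 0, 0] := by
  ext i j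
  fin_cases i <;> fin_cases j <;> simp [Yd, Eu, Matrix.single_apply]

theorem gYd1 : Yd 1 = !![0, 0, 0; 0, Complex.I, 0; 0, 0, 0] := by
  ext i j
  fin_cases i <;> fin_cases j <;> simp [Yd, Eu, Matrix.single_apply]

theorem gYd2 : Yd 2 = !![0, 0, 0; 0, 0, 0; 0, 0, Complex.I] := by
  ext i j
  fin_cases i <;> fin_cases j <;> simp [Yd, Eu, Matrix.single_apply]

/-- The second derivative along `X` in terms of the Wirtinger derivatives of order `1` and `2`. -/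
def FF (Z : V3) (P Q : Fin 3 → ℂ) (A C B : Fin 3 → Fin 3 → ℂ) (X : M3) : ℂ :=
  ∑ j, ((X *ᵥ Z) j * ∑ i, (X i j * P i + (X *ᵥ Z) i * A j i + conj ((X *ᵥ Z) i) * C j i) +
      conj ((X *ᵥ Z) j) * ∑ i, ((X *ᵥ Z) i * C i j + conj (X i j) * Q i +
      conj ((X *ᵥ Z) i) * B j i))

theorem fXn (Z : V3) (P Q : Fin 3 → ℂ) (A C B : Fin 3 → Fin 3 → ℂ) :
    FF Z P Q A C B (Xn 0) + FF Z P Q A C B (Xn 1) =
      2 * (Z 0 * P 0 + Z 2 * P 2 + conj (Z 0) * Q 0 + conj (Z 2) * Q 2 +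
        Z 0 * Z 2 * (A 0 2 + A 2 0) + conj (Z 0) * conj (Z 2) * (B 0 2 + B 2 0) +
        2 * (Z 2 * conj (Z 2) * C 0 0 + Z 0 * conj (Z 0) * C 2 2)) := by
  rw [gXn0, gXn1]
  have hI : Complex.I ^ 2 = -1 := Complex.I_sq
  simp [FF, Matrix.mulVec, dotProduct, Fin.sum_univ_three]
  ring_nf
  simp only [Complex.I_sq]
  ring

theorem fXn' (Z : V3) (P Q : Fin 3 → ℂ) (A C B : Fin 3 → Fin 3 → ℂ) :
    FF Z P Q A C B (Xn 2) + FF Z P Q A C B (Xn 3) =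
      2 * (Z 1 * P 1 + Z 2 * P 2 + conj (Z 1) * Q 1 + conj (Z 2) * Q 2 +
        Z 1 * Z 2 * (A 1 2 + A 2 1) + conj (Z 1) * conj (Z 2) * (B 1 2 + B 2 1) +
        2 * (Z 2 * conj (Z 2) * C 1 1 + Z 1 * conj (Z 1) * C 2 2)) := by
  rw [gXn2, gXn3]
  simp [FF, Matrix.mulVec, dotProduct, Fin.sum_univ_three]
  ring_nf
  simp only [Complex.I_sq]
  ring

theorem fYo (Z : V3) (P Q : Fin 3 → ℂ) (A C B : Fin 3 → Fin 3 → ℂ) :
    FF Z P Q A C B (Yo 0) + FF Z P Q A C B (Yo 1) =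
      2 * (-(Z 0 * P 0 + Z 1 * P 1 + conj (Z 0) * Q 0 + conj (Z 1) * Q 1) -
        Z 0 * Z 1 * (A 0 1 + A 1 0) - conj (Z 0) * conj (Z 1) * (B 0 1 + B 1 0) +
        2 * (Z 1 * conj (Z 1) * C 0 0 + Z 0 * conj (Z 0) * C 1 1)) := by
  rw [gYo0, gYo1]
  simp [FF, Matrix.mulVec, dotProduct, Fin.sum_univ_three]
  ring_nf
  simp only [Complex.I_sq]
  ring

theorem fYd (Z : V3) (P Q : Fin 3 → ℂ) (A C B : Fin 3 → Fin 3 → ℂ) :
    FF Z P Q A C B (Yd 0) + FF Z P Q A C B (Yd 1) + FF Z P Q A C B (Yd 2) =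
      -(Z 0 * P 0 + Z 1 * P 1 + Z 2 * P 2 +
        conj (Z 0) * Q 0 + conj (Z 1) * Q 1 + conj (Z 2) * Q 2) -
        (Z 0 * Z 0 * A 0 0 + Z 1 * Z 1 * A 1 1 + Z 2 * Z 2 * A 2 2) -
        (conj (Z 0) * conj (Z 0) * B 0 0 + conj (Z 1) * conj (Z 1) * B 1 1 +
          conj (Z 2) * conj (Z 2) * B 2 2) +
        2 * (Z 0 * conj (Z 0) * C 0 0 + Z 1 * conj (Z 1) * C 1 1 +
          Z 2 * conj (Z 2) * C 2 2) := by
  rw [gYd0, gYd1, gYd2]
  simp [FF, Matrix.mulVec, dotProduct, Fin.sum_univ_three]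
  ring_nf
  simp only [Complex.I_sq]
  ring

end CasAux

open CasAux in
/-- **The Casimir identity.** -/
theorem pCas : S_Cas := by
  intro p Φ h hp Z hZ
  have e1 := euler_z h hp hZ
  have e2 := euler_b h hp hZ
  have e3 := euler_zz h hp hZ
  have e4 := euler_bb h hp hZ
  have hF : ∀ X : M3, dX X (dX X Φ) Z = FF Z (fun i => dz i Φ Z) (fun i => db i Φ Z)
      (fun j i => dz j (dz i Φ) Z) (fun j i => dz j (db i Φ) Z)
      (fun j i => db j (db i Φ) Z) X := fun X => dXX h X hZ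
  have x1 := fXn Z (fun i => dz i Φ Z) (fun i => db i Φ Z)
      (fun j i => dz j (dz i Φ) Z) (fun j i => dz j (db i Φ) Z)
      (fun j i => db j (db i Φ) Z)
  have x2 := fXn' Z (fun i => dz i Φ Z) (fun i => db i Φ Z)
      (fun j i => dz j (dz i Φ) Z) (fun j i => dz j (db i Φ) Z)
      (fun j i => db j (db i Φ) Z)
  have x3 := fYo Z (fun i => dz i Φ Z) (fun i => db i Φ Z)
      (fun j i => dz j (dz i Φ) Z) (fun j i => dz j (db i Φ) Z)
      (fun j i => db j (db i Φ) Z)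
  have x4 := fYd Z (fun i => dz i Φ Z) (fun i => db i Φ Z)
      (fun j i => dz j (dz i Φ) Z) (fun j i => dz j (db i Φ) Z)
      (fun j i => db j (db i Φ) Z)
  unfold Cas
  rw [NN_eq, bx]
  simp only [Fin.sum_univ_three, Fin.sum_univ_four, Fin.sum_univ_two] at e1 e2 e3 e4 ⊢
  rw [← hF, ← hF] at x1 x2 x3
  rw [← hF, ← hF, ← hF] at x4
  have h0 : ep 0 = 1 := rfl
  have h1 : ep 1 = 1 := rfl
  have h2 : ep 2 = -1 := rfl
  rw [h0, h1, h2]
  linear_combination x1 / 2 + x2 / 2 - x3 / 2 - x4 + ((p : ℂ) + 2) * e1 + 2 * e2 + Z 0 * e3 0 +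
    Z 1 * e3 1 + Z 2 * e3 2 + conj (Z 0) * e4 0 + conj (Z 1) * e4 1 + conj (Z 2) * e4 2

namespace CasAux

theorem isLie_Xn0 : IsLie (Xn 0) := by
  rw [gXn0]
  refine ⟨fun Z W => ?_, Or.inl ?_⟩
  · simp [hh, Matrix.mulVec, dotProduct, Fin.sum_univ_three]
  · ext i j
    fin_cases i <;> fin_cases j <;> simp [Matrix.mul_apply, Fin.sum_univ_three]

theorem isLie_Xn1 : IsLie (Xn 1) := by
  rw [gXn1]
  refine ⟨fun Z W => ?_, Or.inl ?_⟩
  · simp [hh, Matrix.mulVec, dotProduct, Fin.sum_univ_three]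
    ring
  · ext i j
    fin_cases i <;> fin_cases j <;> simp [Matrix.mul_apply, Fin.sum_univ_three]

theorem isLie_Xn2 : IsLie (Xn 2) := by
  rw [gXn2]
  refine ⟨fun Z W => ?_, Or.inl ?_⟩
  · simp [hh, Matrix.mulVec, dotProduct, Fin.sum_univ_three]
  · ext i j
    fin_cases i <;> fin_cases j <;> simp [Matrix.mul_apply, Fin.sum_univ_three]

theorem isLie_Xn3 : IsLie (Xn 3) := by
  rw [gXn3]
  refine ⟨fun Z W => ?_, Or.inl ?_⟩
  · simp [hh, Matrix.mulVec, dotProduct, Fin.sum_univ_three]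
    ring
  · ext i j
    fin_cases i <;> fin_cases j <;> simp [Matrix.mul_apply, Fin.sum_univ_three]

theorem isLie_Yo0 : IsLie (Yo 0) := by
  rw [gYo0]
  refine ⟨fun Z W => ?_, Or.inr ?_⟩
  · simp [hh, Matrix.mulVec, dotProduct, Fin.sum_univ_three]
  · ext i j
    fin_cases i <;> fin_cases j <;> simp [Matrix.mul_apply, Fin.sum_univ_three]

theorem isLie_Yo1 : IsLie (Yo 1) := by
  rw [gYo1]
  refine ⟨fun Z W => ?_, Or.inr ?_⟩
  · simp [hh, Matrix.mulVec, dotProduct, Fin.sum_univ_three]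
    ring
  · ext i j
    fin_cases i <;> fin_cases j <;> simp [Matrix.mul_apply, Fin.sum_univ_three]

theorem isLie_Yd0 : IsLie (Yd 0) := by
  rw [gYd0]
  refine ⟨fun Z W => ?_, Or.inr ?_⟩
  · simp [hh, Matrix.mulVec, dotProduct, Fin.sum_univ_three]
    ring
  · ext i j
    fin_cases i <;> fin_cases j <;> simp [Matrix.mul_apply, Fin.sum_univ_three]

theorem isLie_Yd1 : IsLie (Yd 1) := by
  rw [gYd1]
  refine ⟨fun Z W => ?_, Or.inr ?_⟩
  · simp [hh, Matrix.mulVec, dotProduct, Fin.sum_univ_three]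
    ring
  · ext i j
    fin_cases i <;> fin_cases j <;> simp [Matrix.mul_apply, Fin.sum_univ_three]

theorem isLie_Yd2 : IsLie (Yd 2) := by
  rw [gYd2]
  refine ⟨fun Z W => ?_, Or.inr ?_⟩
  · simp [hh, Matrix.mulVec, dotProduct, Fin.sum_univ_three]
    ring
  · ext i j
    fin_cases i <;> fin_cases j <;> simp [Matrix.mul_apply, Fin.sum_univ_three]

theorem isLie_Xn (i : Fin 4) : IsLie (Xn i) := by
  fin_cases i
  exacts [isLie_Xn0, isLie_Xn1, isLie_Xn2, isLie_Xn3]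

theorem isLie_Yo (i : Fin 2) : IsLie (Yo i) := by
  fin_cases i
  exacts [isLie_Yo0, isLie_Yo1]

theorem isLie_Yd (i : Fin 3) : IsLie (Yd i) := by
  fin_cases i
  exacts [isLie_Yd0, isLie_Yd1, isLie_Yd2]

/-- `S_Comm` twice. -/
theorem comm2 (hC : S_Comm) {T : ℝ} {p : ℕ} {X : M3} (hX : IsLie X) {Φ : V3 → ℂ} (h : Sm Φ)
    {Z : V3} (hZ : Z ∈ Co) :
    dX X (dX X (Av T p Φ)) Z = Av T p (dX X (dX X Φ)) Z := by
  rw [← hC T p X hX (dX X Φ) (sm_dX h X) Z hZ]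
  show fderiv ℝ (dX X (Av T p Φ)) Z (X *ᵥ Z) = fderiv ℝ (Av T p (dX X Φ)) Z (X *ᵥ Z)
  rw [fderiv_congr (fun W hW => hC T p X hX Φ h W hW) hZ]

/-- `Av` commutes with the Casimir operator. -/
theorem cas_av (hC : S_Comm) (hI : S_AvInt) (T : ℝ) (p : ℕ) {Φ : V3 → ℂ} (h : Sm Φ)
    {Z : V3} (hZ : Z ∈ Co) : Cas (Av T p Φ) Z = Av T p (Cas Φ) Z := by
  have c : ∀ X : M3, ContinuousOn (dX X (dX X Φ)) Co := fun X => (sm_dX (sm_dX h X) X).cont
  have c1 : ContinuousOn (fun W => ∑ i, dX (Xn i) (dX (Xn i) Φ) W) Co :=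
    continuousOn_finset_sum _ fun i _ => c _
  have c2 : ContinuousOn (fun W => ∑ i, dX (Yo i) (dX (Yo i) Φ) W) Co :=
    continuousOn_finset_sum _ fun i _ => c _
  have c3 : ContinuousOn (fun W => ∑ i, dX (Yd i) (dX (Yd i) Φ) W) Co :=
    continuousOn_finset_sum _ fun i _ => c _
  have d1 : ContinuousOn (fun W => (2 : ℂ)⁻¹ * ∑ i, dX (Xn i) (dX (Xn i) Φ) W) Co :=
    continuousOn_const.mul c1
  have d2 : ContinuousOn (fun W => (2 : ℂ)⁻¹ * ∑ i, dX (Yo i) (dX (Yo i) Φ) W) Co :=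
    continuousOn_const.mul c2
  have d3 : ContinuousOn (fun W => (2 : ℂ)⁻¹ * ∑ i, dX (Xn i) (dX (Xn i) Φ) W -
      (2 : ℂ)⁻¹ * ∑ i, dX (Yo i) (dX (Yo i) Φ) W) Co := d1.sub d2
  have e1 : Av T p (Cas Φ) Z = Av T p (fun W => ((2 : ℂ)⁻¹ * ∑ i, dX (Xn i) (dX (Xn i) Φ) W -
      (2 : ℂ)⁻¹ * ∑ i, dX (Yo i) (dX (Yo i) Φ) W) - ∑ i, dX (Yd i) (dX (Yd i) Φ) W) Z := by
    refine Av_congr T p (fun W _ => ?_) Z
    rw [Cas]
    ring
  rw [e1, Av_sub hI T p d3 c3 hZ, Av_sub hI T p d1 d2 hZ, Av_smul, Av_smul,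
    Av_sum hI T p _ (fun i _ => c (Xn i)) hZ, Av_sum hI T p _ (fun i _ => c (Yo i)) hZ,
    Av_sum hI T p _ (fun i _ => c (Yd i)) hZ, Cas]
  rw [Finset.sum_congr rfl fun i _ => comm2 hC (isLie_Xn i) h hZ,
    Finset.sum_congr rfl fun i _ => comm2 hC (isLie_Yo i) h hZ,
    Finset.sum_congr rfl fun i _ => comm2 hC (isLie_Yd i) h hZ]
  ring

end CasAux

open CasAux in
/-- **`N □` commutes with the averages.** -/
theorem pBxAv (hC : S_Comm) (hH : S_AvHg) (hS : S_AvSm) (hI : S_AvInt) : S_BxAv := by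
  intro T p Φ h hp Z hZ
  have hs : Sm (Av T p Φ) := hS T p Φ h.cont
  have h1 := pCas p (Av T p Φ) hs (hH T p Φ) Z hZ
  have h2 : Av T p (Cas Φ) Z = Av T p (fun W => (p : ℂ) * (p + 2) * Φ W +
      2 * (((NN W : ℝ) : ℂ) * bx Φ W)) Z := by
    refine Av_congr T p (fun W hW => ?_) Z
    rw [pCas p Φ h hp W hW]
    ring
  have c1 : ContinuousOn (fun W => (p : ℂ) * (p + 2) * Φ W) Co := (h.cmul _).cont
  have c2 : ContinuousOn (fun W => 2 * (((NN W : ℝ) : ℂ) * bx Φ W)) Co :=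
    ((Sm.nn.mul h.bx).cmul 2).cont
  rw [Av_add hI T p c1 c2 hZ, Av_smul, Av_smul, ← cas_av hC hI T p h hZ, h1] at h2
  linear_combination h2 / 2

end CMT.J3
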