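import Pool.Agent.Lib.CMT.J3.Spec

/-!
# PROJECT CMT, part J3: the averaging operators commute with the vector fields (helper61)

`pComm : S_AvG → S_KeCpt → S_AvSm → S_AvInt → S_Comm`.

For `X` in the Lie algebra of `U(2,1)` with `X³ = ± X` the matrices
`g s = 1 + sinh s X + (cosh s - 1) X²` (resp. `1 + sin s X + (1 - cos s) X²`) are in `U(2,1)` and
`d/ds (g s W) = X (g s W)`.  Differentiate `Av Φ (g s Z) = Av (Φ ∘ g s) Z` at `s = 0`.
-/

set_option autoImplicit false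

open scoped BigOperators ComplexConjugate ContDiff Topology
open MeasureTheory Matrix

noncomputable section

namespace CMT.J3

/-! ## 1. the form -/

private theorem cm_hh_add_left (Z Z' W : V3) : hh (Z + Z') W = hh Z W + hh Z' W := by
  simp only [hh, Pi.add_apply]
  ring

private theorem cm_hh_add_right (Z W W' : V3) : hh Z (W + W') = hh Z W + hh Z W' := by
  simp only [hh, Pi.add_apply, map_add]
  ring

private theorem cm_hh_smul_left (c : ℝ) (Z W : V3) : hh ((c : ℂ) • Z) W = (c : ℂ) * hh Z W := by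
  simp only [hh, Pi.smul_apply, smul_eq_mul]
  ring

private theorem cm_hh_smul_right (c : ℝ) (Z W : V3) : hh Z ((c : ℂ) • W) = (c : ℂ) * hh Z W := by
  simp only [hh, Pi.smul_apply, smul_eq_mul, map_mul, Complex.conj_ofReal]
  ring

private theorem cm_NN_eq (W : V3) : NN W = -(hh W W).re := by
  simp only [hh, NN, Complex.mul_conj, Complex.sub_re, Complex.add_re, Complex.ofReal_re]
  ring

private theorem cm_NN_G {g : M3} (hg : IsG g) (W : V3) : NN (g *ᵥ W) = NN W := by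
  rw [cm_NN_eq, cm_NN_eq, hg]

private theorem cm_Co_G {g : M3} (hg : IsG g) {W : V3} (hW : W ∈ Co) : g *ᵥ W ∈ Co := by
  show 0 < NN (g *ᵥ W)
  rw [cm_NN_G hg]
  exact hW

private theorem cm_continuous_NN : Continuous NN := by
  have h : ∀ i : Fin 3, Continuous fun Z : V3 => Complex.normSq (Z i) := fun i =>
    Complex.continuous_normSq.comp (continuous_apply i)
  exact ((h 2).sub (h 0)).sub (h 1)

private theorem cm_isOpen_Co : IsOpen Co := isOpen_lt continuous_const cm_continuous_NN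

/-! ## 2. the one-parameter groups -/

private def cmG (X : M3) (a b : ℝ) : M3 := 1 + (a : ℂ) • X + (b : ℂ) • (X * X)

private theorem cmG_mulVec (X : M3) (a b : ℝ) (W : V3) :
    cmG X a b *ᵥ W = W + (a : ℂ) • (X *ᵥ W) + (b : ℂ) • (X *ᵥ (X *ᵥ W)) := by
  rw [cmG, Matrix.add_mulVec, Matrix.add_mulVec, Matrix.one_mulVec, Matrix.smul_mulVec,
    Matrix.smul_mulVec, Matrix.mulVec_mulVec]

private theorem cmG_isG {X : M3} (h : ∀ Z W : V3, hh (X *ᵥ Z) W + hh Z (X *ᵥ W) = 0) {ε a b : ℝ}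
    (hX : X * X * X = (ε : ℂ) • X) (hab : 2 * b - a ^ 2 + ε * b ^ 2 = 0) : IsG (cmG X a b) := by
  intro Z W
  have h3 : X *ᵥ (X *ᵥ (X *ᵥ W)) = (ε : ℂ) • (X *ᵥ W) := by
    rw [Matrix.mulVec_mulVec, Matrix.mulVec_mulVec, hX, Matrix.smul_mulVec]
  have habC : 2 * (b : ℂ) - (a : ℂ) ^ 2 + (ε : ℂ) * (b : ℂ) ^ 2 = 0 := by exact_mod_cast hab
  have e1 := h Z W
  have e2 := h Z (X *ᵥ W)
  have e3 := h (X *ᵥ Z) W
  have e4 := h (X *ᵥ Z) (X *ᵥ W)
  have e5 := h (X *ᵥ Z) (X *ᵥ (X *ᵥ W))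
  rw [h3, cm_hh_smul_right] at e5
  rw [cmG_mulVec, cmG_mulVec]
  simp only [cm_hh_add_left, cm_hh_add_right, cm_hh_smul_left, cm_hh_smul_right]
  linear_combination (a : ℂ) * e1 + (b : ℂ) * e2 + (b : ℂ) * e3 + (a : ℂ) * (b : ℂ) * e4 +
    (b : ℂ) ^ 2 * e5 - hh (X *ᵥ Z) (X *ᵥ W) * habC

/-- The data of a one-parameter group of `U(2,1)` with generator `X`. -/
private structure CmFlow (X : M3) where
  a : ℝ → ℝ
  b : ℝ → ℝ
  ca : Continuous a
  cb : Continuous b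
  a0 : a 0 = 0
  b0 : b 0 = 0
  isg : ∀ s, IsG (cmG X (a s) (b s))
  der : ∀ s (W : V3), HasDerivAt (fun s => cmG X (a s) (b s) *ᵥ W)
    (X *ᵥ (cmG X (a s) (b s) *ᵥ W)) s

private theorem cm_der {X : M3} {ε : ℝ} (hX : X * X * X = (ε : ℂ) • X) {a b : ℝ → ℝ} {s a' b' : ℝ}
    (ha : HasDerivAt a a' s) (hb : HasDerivAt b b' s) (h1 : a' = 1 + ε * b s) (h2 : b' = a s)
    (W : V3) : HasDerivAt (fun s => cmG X (a s) (b s) *ᵥ W)
      (X *ᵥ (cmG X (a s) (b s) *ᵥ W)) s := by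
  have h3 : X *ᵥ (X *ᵥ (X *ᵥ W)) = (ε : ℂ) • (X *ᵥ W) := by
    rw [Matrix.mulVec_mulVec, Matrix.mulVec_mulVec, hX, Matrix.smul_mulVec]
  have hd : HasDerivAt (fun s => W + (a s : ℂ) • (X *ᵥ W) + (b s : ℂ) • (X *ᵥ (X *ᵥ W)))
      ((a' : ℂ) • (X *ᵥ W) + (b' : ℂ) • (X *ᵥ (X *ᵥ W))) s := by
    have hA : HasDerivAt (fun s => W + (a s : ℂ) • (X *ᵥ W)) ((a' : ℂ) • (X *ᵥ W)) s :=
      (ha.ofReal_comp.smul_const (X *ᵥ W)).const_add W
    exact hA.add (hb.ofReal_comp.smul_const (X *ᵥ (X *ᵥ W)))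
  have he : X *ᵥ (cmG X (a s) (b s) *ᵥ W) = (a' : ℂ) • (X *ᵥ W) + (b' : ℂ) • (X *ᵥ (X *ᵥ W)) := by
    rw [cmG_mulVec, Matrix.mulVec_add, Matrix.mulVec_add, Matrix.mulVec_smul, Matrix.mulVec_smul, h3,
      h1, h2]
    push_cast
    module
  rw [he]
  refine hd.congr_of_eventuallyEq ?_
  exact Filter.Eventually.of_forall fun s => cmG_mulVec X (a s) (b s) W

private theorem cm_flow {X : M3} (hX : IsLie X) : Nonempty (CmFlow X) := by
  obtain ⟨h, h1 | h1⟩ := hX
  · have hX3 : X * X * X = ((1 : ℝ) : ℂ) • X := by rw [h1, Complex.ofReal_one, one_smul]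
    refine ⟨⟨Real.sinh, fun s => Real.cosh s - 1, Real.continuous_sinh,
      Real.continuous_cosh.sub continuous_const, Real.sinh_zero, ?_, ?_, ?_⟩⟩
    · show Real.cosh 0 - 1 = 0
      rw [Real.cosh_zero, sub_self]
    · intro s
      refine cmG_isG h hX3 ?_
      have := Real.cosh_sq s
      linear_combination this
    · intro s W
      refine cm_der hX3 (Real.hasDerivAt_sinh s) ((Real.hasDerivAt_cosh s).sub_const 1) ?_ rfl W
      ring
  · have hX3 : X * X * X = ((-1 : ℝ) : ℂ) • X := by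
      rw [h1, Complex.ofReal_neg, Complex.ofReal_one, neg_smul, one_smul]
    refine ⟨⟨Real.sin, fun s => 1 - Real.cos s, Real.continuous_sin,
      continuous_const.sub Real.continuous_cos, Real.sin_zero, ?_, ?_, ?_⟩⟩
    · show 1 - Real.cos 0 = 0
      rw [Real.cos_zero, sub_self]
    · intro s
      refine cmG_isG h hX3 ?_
      have := Real.sin_sq_add_cos_sq s
      linear_combination -this
    · intro s W
      refine cm_der hX3 (Real.hasDerivAt_sin s) ((Real.hasDerivAt_cos s).const_sub 1) ?_ ?_ W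
      · ring
      · ring

private theorem CmFlow.zero {X : M3} (f : CmFlow X) (W : V3) : cmG X (f.a 0) (f.b 0) *ᵥ W = W := by
  rw [f.a0, f.b0, cmG_mulVec, Complex.ofReal_zero, zero_smul, zero_smul, add_zero, add_zero]

private theorem cm_continuous_mulVec (X : M3) : Continuous fun W : V3 => X *ᵥ W :=
  (Matrix.mulVecLin X).continuous_of_finiteDimensional

private theorem CmFlow.cont {X : M3} (f : CmFlow X) :
    Continuous fun q : ℝ × V3 => cmG X (f.a q.1) (f.b q.1) *ᵥ q.2 := by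
  simp only [cmG_mulVec]
  have h1 : Continuous fun q : ℝ × V3 => (f.a q.1 : ℂ) :=
    Complex.continuous_ofReal.comp (f.ca.comp continuous_fst)
  have h2 : Continuous fun q : ℝ × V3 => (f.b q.1 : ℂ) :=
    Complex.continuous_ofReal.comp (f.cb.comp continuous_fst)
  have h3 : Continuous fun q : ℝ × V3 => X *ᵥ q.2 := (cm_continuous_mulVec X).comp continuous_snd
  have h4 : Continuous fun q : ℝ × V3 => X *ᵥ (X *ᵥ q.2) := (cm_continuous_mulVec X).comp h3
  exact (continuous_snd.add (h1.smul h3)).add (h2.smul h4)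

/-! ## 3. the commutation -/

private theorem cm_cont_dX {X : M3} {Φ : V3 → ℂ} (h : Sm Φ) : ContinuousOn (dX X Φ) Co := by
  have h1 : ContinuousOn (fun Z => fderiv ℝ Φ Z) Co :=
    ContDiffOn.continuousOn_fderiv_of_isOpen h cm_isOpen_Co (by simp)
  exact h1.clm_apply (cm_continuous_mulVec X).continuousOn

private theorem cm_hasFDerivAt {Φ : V3 → ℂ} (h : Sm Φ) {Z : V3} (hZ : Z ∈ Co) :
    HasFDerivAt Φ (fderiv ℝ Φ Z) Z :=
  ((h.contDiffAt (cm_isOpen_Co.mem_nhds hZ)).differentiableAt (by simp)).hasFDerivAt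

/-- **Commutation of the averaging operators with the vector fields of `U(2,1)`.** -/
theorem pComm (hG : S_AvG) (hC : S_KeCpt) (hS : S_AvSm) (hI : S_AvInt) : S_Comm := by
  intro T p X hX Φ hΦ Z hZ
  obtain ⟨f⟩ := cm_flow hX
  set g : ℝ → M3 := fun s => cmG X (f.a s) (f.b s) with hg
  have hg0 : ∀ W : V3, g 0 *ᵥ W = W := f.zero
  have hgG : ∀ s, IsG (g s) := f.isg
  have hgd : ∀ s (W : V3), HasDerivAt (fun s => g s *ᵥ W) (X *ᵥ (g s *ᵥ W)) s := f.der
  have hgc : Continuous fun q : ℝ × V3 => g q.1 *ᵥ q.2 := f.cont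
  have hΦc : ContinuousOn Φ Co := hΦ.continuousOn
  have hint : ∀ s, Integrable fun W => Ke T p Z W * Φ (g s *ᵥ W) := by
    intro s
    refine hI T p (fun W => Φ (g s *ᵥ W)) ?_ Z hZ
    exact hΦc.comp (cm_continuous_mulVec (g s)).continuousOn fun W hW => cm_Co_G (hgG s) hW
  -- the left side
  have hL : HasDerivAt (fun s => Av T p Φ (g s *ᵥ Z)) (dX X (Av T p Φ) Z) 0 := by
    have h1 : HasFDerivAt (Av T p Φ) (fderiv ℝ (Av T p Φ) Z) (g 0 *ᵥ Z) := by
      rw [hg0]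
      exact cm_hasFDerivAt (hS T p Φ hΦc) hZ
    have h2 := h1.comp_hasDerivAt (0 : ℝ) (hgd 0 Z)
    rw [hg0] at h2
    exact h2
  -- the right side
  obtain ⟨C', hC'c, hC'C, hC'0⟩ := hC T p {Z} isCompact_singleton (Set.singleton_subset_iff.2 hZ)
  have hK0 : ∀ W, W ∉ C' → Ke T p Z W = 0 := fun W hW => hC'0 Z rfl W hW
  set K : Set V3 := (fun q : ℝ × V3 => g q.1 *ᵥ q.2) '' (Set.Icc (-1) 1 ×ˢ C') with hK
  have hKc : IsCompact K := (isCompact_Icc.prod hC'c).image hgc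
  have hKC : K ⊆ Co := by
    rintro _ ⟨⟨s, W⟩, hq, rfl⟩
    exact cm_Co_G (hgG s) (hC'C hq.2)
  obtain ⟨M, hM⟩ := hKc.exists_bound_of_continuousOn ((cm_cont_dX (X := X) hΦ).mono hKC)
  have hbI : Integrable fun W => ‖Ke T p Z W‖ * M := by
    have h1 := hI T p (fun _ => 1) continuousOn_const Z hZ
    simp only [mul_one] at h1
    exact h1.norm.mul_const M
  have hF' : AEStronglyMeasurable (fun W => Ke T p Z W * dX X Φ (g 0 *ᵥ W)) volume := by
    have h1 := (hI T p (dX X Φ) (cm_cont_dX hΦ) Z hZ).aestronglyMeasurable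
    refine h1.congr (Filter.Eventually.of_forall fun W => ?_)
    show Ke T p Z W * dX X Φ W = Ke T p Z W * dX X Φ (g 0 *ᵥ W)
    rw [hg0]
  have hR := (hasDerivAt_integral_of_dominated_loc_of_deriv_le (μ := volume)
    (F := fun s W => Ke T p Z W * Φ (g s *ᵥ W))
    (F' := fun s W => Ke T p Z W * dX X Φ (g s *ᵥ W)) (x₀ := (0 : ℝ)) (s := Set.Icc (-1) 1)
    (bound := fun W => ‖Ke T p Z W‖ * M) (Icc_mem_nhds (by norm_num) (by norm_num))
    (Filter.Eventually.of_forall fun s => (hint s).aestronglyMeasurable) (hint 0) hF'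
    (Filter.Eventually.of_forall fun W s hs => ?_) hbI
    (Filter.Eventually.of_forall fun W s hs => ?_)).2
  · have hLR : (fun s => Av T p Φ (g s *ᵥ Z)) = fun s => ∫ W, Ke T p Z W * Φ (g s *ᵥ W) := by
      funext s
      exact (hG T p (g s) (hgG s) Φ Z).symm
    rw [hLR] at hL
    have h := hL.unique hR
    rw [h]
    show _ = ∫ W, Ke T p Z W * dX X Φ W
    simp only [hg0]
  · show ‖Ke T p Z W * dX X Φ (g s *ᵥ W)‖ ≤ ‖Ke T p Z W‖ * M
    by_cases hW : W ∈ C'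
    · rw [norm_mul]
      exact mul_le_mul_of_nonneg_left (hM _ ⟨(s, W), ⟨hs, hW⟩, rfl⟩) (norm_nonneg _)
    · rw [hK0 W hW, zero_mul, norm_zero, zero_mul]
  · show HasDerivAt (fun s => Ke T p Z W * Φ (g s *ᵥ W)) (Ke T p Z W * dX X Φ (g s *ᵥ W)) s
    by_cases hW : W ∈ C'
    · have h1 : HasFDerivAt Φ (fderiv ℝ Φ (g s *ᵥ W)) (g s *ᵥ W) :=
        cm_hasFDerivAt hΦ (cm_Co_G (hgG s) (hC'C hW))
      exact (h1.comp_hasDerivAt s (hgd s W)).const_mul (Ke T p Z W)
    · simp only [hK0 W hW, zero_mul]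
      exact hasDerivAt_const s 0

end CMT.J3
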