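import Mathlib

/-!
# PROJECT CMT, part J3 : harmonic representatives on the cone (definitions, helper34)

Everything lives on `V3 = ℂ³` with Lebesgue measure and the hermitian form
`hh Z W = Z₀W̄₀ + Z₁W̄₁ - Z₂W̄₂`, `NN Z = -hh Z Z`, the cone `Co = {NN > 0}`.

* `Ke T p`, `Av T p` : the averaging kernel and operator (degree `p = 0, 1`), eigenvalue `la T p`,
  norm `ka T p`.
* `dz`, `db` : Wirtinger derivatives; `bx = ∂₀∂̄₀ + ∂₁∂̄₁ - ∂₂∂̄₂`; `dX X` the derivative along the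
  linear vector field `X`; `Cas` the Casimir operator.
* `Lat ρ` : a group acting properly discontinuously and cocompactly on the ball (the projectivised
  cone); `Wei ρ χ` a smooth weight; `Sec ρ p u` continuous invariant sections of degree `p`;
  `Cyc ρ p l` cocycles of homogeneous polynomials of degree `p ≤ 1`.
-/

open scoped BigOperators ComplexConjugate ContDiff
open MeasureTheory Matrix

noncomputable section

namespace CMT.J3

/-- The space `ℂ³`. -/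
abbrev V3 : Type := Fin 3 → ℂ

/-- Complex `3 × 3` matrices. -/
abbrev M3 : Type := Matrix (Fin 3) (Fin 3) ℂ

/-- The signs `1, 1, -1`. -/
def ep : Fin 3 → ℂ := ![1, 1, -1]

/-- The hermitian form. -/
def hh (Z W : V3) : ℂ := Z 0 * conj (W 0) + Z 1 * conj (W 1) - Z 2 * conj (W 2)

/-- The bilinear form. -/
def bb (Z W : V3) : ℂ := Z 0 * W 0 + Z 1 * W 1 - Z 2 * W 2

/-- `NN Z = - hh Z Z`. -/
def NN (Z : V3) : ℝ := Complex.normSq (Z 2) - Complex.normSq (Z 0) - Complex.normSq (Z 1)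

/-- The cone of negative vectors. -/
def Co : Set V3 := {Z | 0 < NN Z}

/-- `g` is in `U(2,1)`. -/
def IsG (g : M3) : Prop := ∀ Z W : V3, hh (g *ᵥ Z) (g *ᵥ W) = hh Z W

/-- `cosh²` of the distance. -/
def tt (Z W : V3) : ℝ := Complex.normSq (hh Z W) / (NN Z * NN W)

/-- The radial cutoff: smooth, `> 0` exactly on `1 < x < 3`. -/
def th (x : ℝ) : ℝ := Real.smoothTransition (x - 1) * Real.smoothTransition (3 - x)

/-- The cutoff in the distance: `1` for `t ≤ T - 1`, `0` for `t ≥ T`, positive for `t < T`. -/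
def kk (T t : ℝ) : ℝ := Real.smoothTransition (T - t)

/-- The kernel. -/
def Ke (T : ℝ) (p : ℕ) (Z W : V3) : ℂ :=
  (-(hh Z W) / ((NN W : ℝ) : ℂ)) ^ p * ((kk T (tt Z W) * th (NN W) : ℝ) : ℂ)

/-- The averaging operator. -/
def Av (T : ℝ) (p : ℕ) (Φ : V3 → ℂ) (Z : V3) : ℂ := ∫ W, Ke T p Z W * Φ W

/-- The base point. -/
def e3 : V3 := ![0, 0, 1]

/-- The eigenvalue of `Av T p` on polynomials of degree `p`. -/
def la (T : ℝ) (p : ℕ) : ℝ := ∫ W, tt e3 W ^ p * (kk T (tt e3 W) * th (NN W))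

/-- The norm of `Av T p` on sections of degree `p`. -/
def ka (T : ℝ) (p : ℕ) : ℝ := ∫ W, Real.sqrt (tt e3 W) ^ p * (kk T (tt e3 W) * th (NN W))

/-- Smooth functions on the cone. -/
def Sm (Φ : V3 → ℂ) : Prop := ContDiffOn ℝ ∞ Φ Co

/-- Homogeneity of degree `(p, 0)`. -/
def Hg (p : ℕ) (Φ : V3 → ℂ) : Prop := ∀ Z ∈ Co, ∀ c : ℂ, c ≠ 0 → Φ (c • Z) = c ^ p * Φ Z

/-- The Wirtinger derivative `∂_i`. -/
def dz (i : Fin 3) (Φ : V3 → ℂ) (Z : V3) : ℂ :=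
  (fderiv ℝ Φ Z (Pi.single i 1) - Complex.I * fderiv ℝ Φ Z (Pi.single i Complex.I)) / 2

/-- The Wirtinger derivative `∂̄_i`. -/
def db (i : Fin 3) (Φ : V3 → ℂ) (Z : V3) : ℂ :=
  (fderiv ℝ Φ Z (Pi.single i 1) + Complex.I * fderiv ℝ Φ Z (Pi.single i Complex.I)) / 2

/-- `∂₀∂̄₀ + ∂₁∂̄₁ - ∂₂∂̄₂`. -/
def bx (Φ : V3 → ℂ) (Z : V3) : ℂ := ∑ i, ep i * dz i (db i Φ) Z

/-- The derivative along the linear vector field `X`. -/
def dX (X : M3) (Φ : V3 → ℂ) (Z : V3) : ℂ := fderiv ℝ Φ Z (X *ᵥ Z)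

/-- `X` is in the Lie algebra `u(2,1)` and `X³ = ± X`: its one-parameter group is
`1 + sinh s X + (cosh s - 1) X²` or `1 + sin s X + (1 - cos s) X²`. -/
def IsLie (X : M3) : Prop :=
  (∀ Z W : V3, hh (X *ᵥ Z) W + hh Z (X *ᵥ W) = 0) ∧ (X * X * X = X ∨ X * X * X = -X)

/-- Matrix units, scaled. -/
def Eu (i j : Fin 3) (c : ℂ) : M3 := Matrix.single i j c

/-- The four noncompact generators. -/
def Xn : Fin 4 → M3 := ![Eu 0 2 1 + Eu 2 0 1, Eu 0 2 Complex.I + Eu 2 0 (-Complex.I),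
  Eu 1 2 1 + Eu 2 1 1, Eu 1 2 Complex.I + Eu 2 1 (-Complex.I)]

/-- The two compact off-diagonal generators. -/
def Yo : Fin 2 → M3 := ![Eu 0 1 1 + Eu 1 0 (-1), Eu 0 1 Complex.I + Eu 1 0 Complex.I]

/-- The three diagonal generators. -/
def Yd (i : Fin 3) : M3 := Eu i i Complex.I

/-- The Casimir operator. -/
def Cas (Φ : V3 → ℂ) (Z : V3) : ℂ :=
  (∑ i, dX (Xn i) (dX (Xn i) Φ) Z) / 2 - (∑ i, dX (Yo i) (dX (Yo i) Φ) Z) / 2 -
    ∑ i, dX (Yd i) (dX (Yd i) Φ) Z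

/-- A group acting on the ball (projectivised cone), properly discontinuously and cocompactly. -/
structure Lat {G : Type*} [Group G] (ρ : G →* M3) : Prop where
  isg : ∀ g, IsG (ρ g)
  pd : ∀ C : Set V3, IsCompact C → C ⊆ Co → {g : G | ∃ Z ∈ C, ρ g *ᵥ Z ∈ C}.Finite
  cc : ∃ C : Set V3, IsCompact C ∧ C ⊆ Co ∧
    ∀ Z ∈ Co, ∃ g : G, ∃ c : ℂ, c ≠ 0 ∧ c • (ρ g *ᵥ Z) ∈ C

/-- A smooth weight, homogeneous of degree `0`. -/
structure Wei {G : Type*} [Group G] (ρ : G →* M3) (χ : V3 → ℝ) : Prop where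
  sm : ContDiffOn ℝ ∞ χ Co
  nn : ∀ Z, 0 ≤ χ Z
  hg : ∀ Z ∈ Co, ∀ c : ℂ, c ≠ 0 → χ (c • Z) = χ Z
  cpt : ∃ C : Set V3, IsCompact C ∧ C ⊆ Co ∧
    ∀ Z ∈ Co, 1 ≤ NN Z → NN Z ≤ 3 → χ Z ≠ 0 → Z ∈ C
  sum : ∀ Z ∈ Co, HasSum (fun g : G => χ (ρ g *ᵥ Z)) 1

/-- Continuous invariant sections of degree `p`. -/
structure Sec {G : Type*} [Group G] (ρ : G →* M3) (p : ℕ) (u : V3 → ℂ) : Prop where
  cont : ContinuousOn u Co
  hg : Hg p u
  inv : ∀ g, ∀ Z ∈ Co, u (ρ g *ᵥ Z) = u Z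

/-- Homogeneous polynomials of degree `p ≤ 1`. -/
def IsPol (p : ℕ) (l : V3 → ℂ) : Prop :=
  (p = 0 ∧ ∃ a : ℂ, l = fun _ => a) ∨ (p = 1 ∧ ∃ v : V3, l = fun Z => ∑ i, v i * Z i)

/-- Cocycles of polynomials of degree `p ≤ 1`. -/
structure Cyc {G : Type*} [Group G] (ρ : G →* M3) (p : ℕ) (l : G → V3 → ℂ) : Prop where
  pol : ∀ g, IsPol p (l g)
  coc : ∀ g h Z, l (g * h) Z = l g (ρ h *ᵥ Z) + l h Z

end CMT.J3
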