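import Pool.Agent.Lib.CMT.J3.Spec

/-!
# J3 : Lebesgue measure on `ℂ³` is invariant under `U(2,1)`

`normSq_det` : `|det g|² = 1` (no hypothesis), `pMeas : S_Meas`, `mpG`, `eqG`, `integrable_comp`,
`integral_comp`, `integral_comp_real`, `lintegral_comp`.
-/

open scoped BigOperators ComplexConjugate ContDiff
open MeasureTheory Matrix

noncomputable section

namespace CMT.J3

/-- The real linear map of a complex matrix. -/
def rl (g : M3) : V3 →ₗ[ℝ] V3 := (Matrix.toLin' g).restrictScalars ℝ

theorem rl_apply (g : M3) (W : V3) : rl g W = g *ᵥ W := rfl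

theorem det_rl (g : M3) : LinearMap.det (rl g) = Complex.normSq g.det := by
  have h : LinearMap.det (rl g) = LinearMap.det ((Matrix.toLin' g).restrictScalars ℝ) := rfl
  rw [h, LinearMap.det_restrictScalars, LinearMap.det_toLin', Algebra.norm_complex_eq]
  rfl

/-- `gᴴ J g = J`. -/
theorem conj_ep_mul (g : M3) (hg : IsG g) : gᴴ * diagonal ep * g = diagonal ep := by
  ext i j
  have h := hg (Pi.single j 1) (Pi.single i 1)
  rw [Matrix.mulVec_single_one, Matrix.mulVec_single_one] at h
  have e1 : (gᴴ * diagonal ep * g) i j = hh (g.col j) (g.col i) := by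
    rw [Matrix.mul_apply, Fin.sum_univ_three, Matrix.mul_diagonal, Matrix.mul_diagonal,
      Matrix.mul_diagonal]
    simp only [Matrix.conjTranspose_apply, hh, ep, Matrix.col_apply, RCLike.star_def,
      Matrix.cons_val_zero, Matrix.cons_val_one, Matrix.cons_val]
    ring
  rw [e1, h]
  fin_cases i <;> fin_cases j <;> simp [hh, ep]

/-- `|det g|² = 1`. -/
theorem normSq_det (g : M3) (hg : IsG g) : Complex.normSq g.det = 1 := by
  have h := congrArg Matrix.det (conj_ep_mul g hg)
  rw [Matrix.det_mul, Matrix.det_mul, Matrix.det_conjTranspose, Matrix.det_diagonal,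
    Fin.prod_univ_three] at h
  have h2 : ep 0 * ep 1 * ep 2 = -1 := by simp [ep]
  rw [h2] at h
  have h3 : star g.det * g.det = 1 := by linear_combination -h
  have h4 : ((Complex.normSq g.det : ℝ) : ℂ) = ((1 : ℝ) : ℂ) := by
    rw [Complex.normSq_eq_conj_mul_self, Complex.ofReal_one]
    exact h3
  exact_mod_cast h4

theorem det_rl_one (g : M3) (hg : IsG g) : LinearMap.det (rl g) = 1 := by
  rw [det_rl, normSq_det g hg]

/-- Elements of `U(2,1)` are invertible. -/
theorem isUnit_det (g : M3) (hg : IsG g) : IsUnit g.det := by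
  rw [isUnit_iff_ne_zero]
  intro h
  have := normSq_det g hg
  rw [h, map_zero] at this
  exact zero_ne_one this

theorem map_rl (g : M3) (hg : IsG g) :
    Measure.map (rl g) (volume : Measure V3) = volume := by
  rw [Measure.map_linearMap_addHaar_eq_smul_addHaar volume
    (by rw [det_rl_one g hg]; exact one_ne_zero), det_rl_one g hg]
  simp

/-- `W ↦ g W` preserves the measure. -/
theorem mpG (g : M3) (hg : IsG g) :
    MeasurePreserving (fun W : V3 => g *ᵥ W) volume volume :=
  ⟨(rl g).continuous_of_finiteDimensional.measurable, map_rl g hg⟩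

theorem mul_inv_mulVec (g : M3) (hg : IsG g) (W : V3) : g *ᵥ (g⁻¹ *ᵥ W) = W := by
  rw [Matrix.mulVec_mulVec, Matrix.mul_nonsing_inv g (isUnit_det g hg), Matrix.one_mulVec]

theorem inv_mul_mulVec (g : M3) (hg : IsG g) (W : V3) : g⁻¹ *ᵥ (g *ᵥ W) = W := by
  rw [Matrix.mulVec_mulVec, Matrix.nonsing_inv_mul g (isUnit_det g hg), Matrix.one_mulVec]

/-- The homeomorphism `W ↦ g W`. -/
def hoG (g : M3) (hg : IsG g) : V3 ≃ₜ V3 where
  toFun W := g *ᵥ W
  invFun W := g⁻¹ *ᵥ W
  left_inv W := inv_mul_mulVec g hg W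
  right_inv W := mul_inv_mulVec g hg W
  continuous_toFun := (rl g).continuous_of_finiteDimensional
  continuous_invFun := (rl g⁻¹).continuous_of_finiteDimensional

/-- The measurable equivalence `W ↦ g W`. -/
def eqG (g : M3) (hg : IsG g) : V3 ≃ᵐ V3 := (hoG g hg).toMeasurableEquiv

theorem eqG_apply (g : M3) (hg : IsG g) (W : V3) : eqG g hg W = g *ᵥ W := rfl

theorem meG (g : M3) (hg : IsG g) : MeasurableEmbedding (fun W : V3 => g *ᵥ W) :=
  (eqG g hg).measurableEmbedding

/-- Invariance of integrals, values in a Banach space. -/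
theorem integral_comp {E : Type*} [NormedAddCommGroup E] [NormedSpace ℝ E] (g : M3) (hg : IsG g)
    (I : V3 → E) : ∫ W, I (g *ᵥ W) = ∫ W, I W :=
  (mpG g hg).integral_comp (meG g hg) I

/-- Invariance of integrals of real valued functions. -/
theorem integral_comp_real (g : M3) (hg : IsG g) (I : V3 → ℝ) :
    ∫ W, I (g *ᵥ W) = ∫ W, I W := integral_comp g hg I

/-- Invariance of integrability. -/
theorem integrable_comp {E : Type*} [NormedAddCommGroup E] (g : M3) (hg : IsG g)
    (I : V3 → E) : Integrable (fun W => I (g *ᵥ W)) ↔ Integrable I :=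
  (mpG g hg).integrable_comp_emb (meG g hg)

theorem lintegral_comp (g : M3) (hg : IsG g) (I : V3 → ENNReal) :
    ∫⁻ W, I (g *ᵥ W) = ∫⁻ W, I W :=
  (mpG g hg).lintegral_comp_emb (meG g hg) I

/-- Integrals over a set. -/
theorem setIntegral_comp {E : Type*} [NormedAddCommGroup E] [NormedSpace ℝ E] (g : M3)
    (hg : IsG g) (I : V3 → E) (s : Set V3) :
    ∫ W in (fun W : V3 => g *ᵥ W) ⁻¹' s, I (g *ᵥ W) = ∫ W in s, I W :=
  (mpG g hg).setIntegral_preimage_emb (meG g hg) I s

theorem pMeas : S_Meas := fun g hg I => integral_comp g hg I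

end CMT.J3
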