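import Pool.Agent.Lib.CMT.J3.Defs

/-!
# PROJECT CMT, part J3 : smooth weights exist

`rr Z = (|Z₀|² + |Z₁|²) / |Z₂|²` is smooth and homogeneous of degree `0` on the cone, `< 1` there;
`ff R = smoothTransition (R - rr)` has support in `rr < R`, `SS = ∑ ff R ∘ g` is locally finite and
positive, `χ = ff R / SS`.
-/

set_option autoImplicit false

open scoped BigOperators ComplexConjugate ContDiff Topology
open MeasureTheory Matrix

noncomputable section

namespace CMT.J3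

namespace WeiExAux

/-- `|Z₀|² + |Z₁|²`. -/
def qq (Z : V3) : ℝ := Complex.normSq (Z 0) + Complex.normSq (Z 1)

/-- `(|Z₀|² + |Z₁|²) / |Z₂|²`. -/
def rr (Z : V3) : ℝ := qq Z / Complex.normSq (Z 2)

/-- The bump. -/
def ff (R : ℝ) (Z : V3) : ℝ := Real.smoothTransition (R - rr Z)

/-- The sum over the group. -/
def SS {G : Type} [Group G] (ρ : G →* M3) (R : ℝ) (Z : V3) : ℝ := ∑' g : G, ff R (ρ g *ᵥ Z)

theorem NN_eq (Z : V3) : NN Z = Complex.normSq (Z 2) - qq Z := by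
  unfold NN qq
  ring

theorem qq_nonneg (Z : V3) : 0 ≤ qq Z := add_nonneg (Complex.normSq_nonneg _) (Complex.normSq_nonneg _)

theorem z2_pos {Z : V3} (hZ : Z ∈ Co) : 0 < Complex.normSq (Z 2) := by
  have h1 : 0 < NN Z := hZ
  rw [NN_eq] at h1
  have h2 := qq_nonneg Z
  linarith

theorem NN_g {g : M3} (hg : IsG g) (Z : V3) : NN (g *ᵥ Z) = NN Z := by
  have h : ∀ W : V3, hh W W = ((-(NN W) : ℝ) : ℂ) := by
    intro W
    unfold hh NN
    rw [Complex.mul_conj, Complex.mul_conj, Complex.mul_conj]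
    push_cast
    ring
  have h1 := hg Z Z
  rw [h, h] at h1
  have h2 := Complex.ofReal_injective h1
  linarith

theorem g_mem {g : M3} (hg : IsG g) {Z : V3} (hZ : Z ∈ Co) : g *ᵥ Z ∈ Co := by
  change 0 < NN (g *ᵥ Z)
  rw [NN_g hg]
  exact hZ

theorem qq_smul (c : ℂ) (Z : V3) : qq (c • Z) = Complex.normSq c * qq Z := by
  unfold qq
  simp only [Pi.smul_apply, smul_eq_mul, Complex.normSq_mul]
  ring

theorem rr_smul {c : ℂ} (hc : c ≠ 0) (Z : V3) : rr (c • Z) = rr Z := by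
  unfold rr
  rw [qq_smul]
  simp only [Pi.smul_apply, smul_eq_mul, Complex.normSq_mul]
  exact mul_div_mul_left _ _ (by simpa using hc)

theorem ff_smul (R : ℝ) {c : ℂ} (hc : c ≠ 0) (Z : V3) : ff R (c • Z) = ff R Z := by
  unfold ff
  rw [rr_smul hc]

theorem NN_smul (c : ℂ) (Z : V3) : NN (c • Z) = Complex.normSq c * NN Z := by
  rw [NN_eq, NN_eq, qq_smul]
  simp only [Pi.smul_apply, smul_eq_mul, Complex.normSq_mul]
  ring

theorem smul_mem {c : ℂ} (hc : c ≠ 0) {Z : V3} (hZ : Z ∈ Co) : c • Z ∈ Co := by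
  change 0 < NN (c • Z)
  rw [NN_smul]
  exact mul_pos (Complex.normSq_pos.2 hc) hZ

theorem smooth_sq (i : Fin 3) : ContDiff ℝ ∞ (fun Z : V3 => Complex.normSq (Z i)) := by
  have hz : ContDiff ℝ ∞ (fun Z : V3 => Z i) := contDiff_apply ℝ ℂ i
  have hr : ContDiff ℝ ∞ (fun Z : V3 => (Z i).re) := Complex.reCLM.contDiff.comp hz
  have hi : ContDiff ℝ ∞ (fun Z : V3 => (Z i).im) := Complex.imCLM.contDiff.comp hz
  simp only [Complex.normSq_apply]
  exact (hr.mul hr).add (hi.mul hi)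

theorem smooth_qq : ContDiff ℝ ∞ qq := (smooth_sq 0).add (smooth_sq 1)

theorem cont_NN : Continuous NN := by
  have h : NN = fun Z : V3 => Complex.normSq (Z 2) - qq Z := funext NN_eq
  rw [h]
  exact ((smooth_sq 2).sub smooth_qq).continuous

theorem open_Co : IsOpen Co := isOpen_lt continuous_const cont_NN

theorem smooth_rr : ContDiffOn ℝ ∞ rr Co :=
  smooth_qq.contDiffOn.div (smooth_sq 2).contDiffOn fun _ hZ => (z2_pos hZ).ne'

theorem smooth_ff (R : ℝ) : ContDiffOn ℝ ∞ (ff R) Co :=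
  Real.smoothTransition.contDiff.comp_contDiffOn (contDiffOn_const.sub smooth_rr)

theorem smooth_ffg (R : ℝ) {g : M3} (hg : IsG g) : ContDiffOn ℝ ∞ (fun Z => ff R (g *ᵥ Z)) Co := by
  have h1 : ContDiff ℝ ∞ (fun Z : V3 => g *ᵥ Z) := by
    have h2 : (fun Z : V3 => g *ᵥ Z) =
        ⇑((Matrix.mulVecLin g).restrictScalars ℝ).toContinuousLinearMap := by
      ext Z
      simp
    rw [h2]
    exact ContinuousLinearMap.contDiff _
  exact (smooth_ff R).comp h1.contDiffOn fun Z hZ => g_mem hg hZ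

theorem ff_nonneg (R : ℝ) (Z : V3) : 0 ≤ ff R Z := Real.smoothTransition.nonneg _

theorem lt_of_ff {R : ℝ} {Z : V3} (h : ff R Z ≠ 0) : rr Z < R := by
  by_contra h1
  push Not at h1
  exact h (Real.smoothTransition.zero_of_nonpos (by linarith))

theorem qq_le_of_ff {R : ℝ} {Z : V3} (hZ : Z ∈ Co) (h : ff R Z ≠ 0) :
    qq Z ≤ R * Complex.normSq (Z 2) := by
  have h1 := lt_of_ff h
  unfold rr at h1
  rw [div_lt_iff₀ (z2_pos hZ)] at h1
  exact h1.le

/-- A compact piece of the cone. -/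
def KK (a b R : ℝ) : Set V3 := {W | a ≤ NN W ∧ NN W ≤ b ∧ qq W ≤ R * Complex.normSq (W 2)}

theorem KK_sub {a b R : ℝ} (ha : 0 < a) : KK a b R ⊆ Co := fun W hW => lt_of_lt_of_le ha hW.1

theorem KK_compact {a b R : ℝ} (hR : R < 1) : IsCompact (KK a b R) := by
  apply Metric.isCompact_of_isClosed_isBounded
  · refine (isClosed_le continuous_const cont_NN).inter ((isClosed_le cont_NN continuous_const).inter
      (isClosed_le smooth_qq.continuous ?_))
    exact continuous_const.mul (smooth_sq 2).continuous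
  · rw [isBounded_iff_forall_norm_le]
    refine ⟨Real.sqrt (b / (1 - R)), ?_⟩
    rintro W ⟨-, hb, hq⟩
    have h1 : (0 : ℝ) < 1 - R := by linarith
    have h2 : Complex.normSq (W 2) ≤ b / (1 - R) := by
      rw [le_div_iff₀ h1]
      rw [NN_eq] at hb
      nlinarith
    have h3 : qq W ≤ b / (1 - R) := by
      refine hq.trans (le_trans ?_ h2)
      nlinarith [Complex.normSq_nonneg (W 2)]
    have h4 : ∀ i, Complex.normSq (W i) ≤ b / (1 - R) := by
      intro i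
      unfold qq at h3
      have e0 := Complex.normSq_nonneg (W 0)
      have e1 := Complex.normSq_nonneg (W 1)
      fin_cases i
      · change Complex.normSq (W 0) ≤ _
        linarith
      · change Complex.normSq (W 1) ≤ _
        linarith
      · exact h2
    rw [pi_norm_le_iff_of_nonneg (Real.sqrt_nonneg _)]
    intro i
    apply Real.le_sqrt_of_sq_le
    rw [← Complex.normSq_eq_norm_sq]
    exact h4 i

/-- Local finiteness. -/
theorem fin {G : Type} [Group G] {ρ : G →* M3} (h : Lat ρ) {R : ℝ} (hR : R < 1) {K : Set V3}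
    (hK : IsCompact K) (hKC : K ⊆ Co) : {g : G | ∃ Z ∈ K, ff R (ρ g *ᵥ Z) ≠ 0}.Finite := by
  rcases K.eq_empty_or_nonempty with h0 | hne
  · subst h0
    simp
  obtain ⟨Z1, hZ1, h1⟩ := hK.exists_isMinOn hne cont_NN.continuousOn
  obtain ⟨Z2, -, h2⟩ := hK.exists_isMaxOn hne cont_NN.continuousOn
  have ha : 0 < NN Z1 := hKC hZ1
  have hc : IsCompact (K ∪ KK (NN Z1) (NN Z2) R) := hK.union (KK_compact hR)
  refine (h.pd _ hc (Set.union_subset hKC (KK_sub ha))).subset ?_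
  rintro g ⟨Z, hZ, hg⟩
  refine ⟨Z, Or.inl hZ, Or.inr ⟨?_, ?_, ?_⟩⟩
  · rw [NN_g (h.isg g)]
    exact h1 hZ
  · rw [NN_g (h.isg g)]
    exact h2 hZ
  · exact qq_le_of_ff (g_mem (h.isg g) (hKC hZ)) hg

theorem fin_pt {G : Type} [Group G] {ρ : G →* M3} (h : Lat ρ) {R : ℝ} (hR : R < 1) {Z : V3}
    (hZ : Z ∈ Co) : (Function.support fun g : G => ff R (ρ g *ᵥ Z)).Finite := by
  refine (fin h hR (isCompact_singleton (x := Z)) (by simpa using hZ)).subset ?_
  intro g hg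
  exact ⟨Z, rfl, hg⟩

theorem summ {G : Type} [Group G] {ρ : G →* M3} (h : Lat ρ) {R : ℝ} (hR : R < 1) {Z : V3}
    (hZ : Z ∈ Co) : Summable fun g : G => ff R (ρ g *ᵥ Z) :=
  summable_of_finite_support (fin_pt h hR hZ)

theorem smooth_SS {G : Type} [Group G] {ρ : G →* M3} (h : Lat ρ) {R : ℝ} (hR : R < 1) :
    ContDiffOn ℝ ∞ (SS ρ R) Co := by
  intro Z hZ
  obtain ⟨V, hV, hZV, hVU⟩ := exists_compact_subset open_Co hZ
  have hf := fin h hR hV hVU
  have hon : ContDiffOn ℝ ∞ (fun W => ∑ g ∈ hf.toFinset, ff R (ρ g *ᵥ W)) Co :=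
    ContDiffOn.sum fun g _ => smooth_ffg R (h.isg g)
  have he : ∀ W ∈ V, SS ρ R W = ∑ g ∈ hf.toFinset, ff R (ρ g *ᵥ W) := by
    intro W hW
    unfold SS
    apply tsum_eq_sum
    intro g hg
    by_contra h1
    exact hg (hf.mem_toFinset.2 ⟨W, hW, h1⟩)
  have hev : SS ρ R =ᶠ[𝓝 Z] fun W => ∑ g ∈ hf.toFinset, ff R (ρ g *ᵥ W) := by
    filter_upwards [isOpen_interior.mem_nhds hZV] with W hW
    exact he W (interior_subset hW)
  exact ((hon.contDiffAt (open_Co.mem_nhds hZ)).congr_of_eventuallyEq hev).contDiffWithinAt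

theorem SS_g {G : Type} [Group G] (ρ : G →* M3) (R : ℝ) (h : G) (Z : V3) :
    SS ρ R (ρ h *ᵥ Z) = SS ρ R Z := by
  unfold SS
  rw [← (Equiv.mulRight h).tsum_eq (fun g : G => ff R (ρ g *ᵥ Z))]
  refine tsum_congr fun g => ?_
  rw [Equiv.coe_mulRight, map_mul, Matrix.mulVec_mulVec]

theorem SS_smul {G : Type} [Group G] (ρ : G →* M3) (R : ℝ) {c : ℂ} (hc : c ≠ 0) (Z : V3) :
    SS ρ R (c • Z) = SS ρ R Z := by
  unfold SS
  refine tsum_congr fun g => ?_
  rw [Matrix.mulVec_smul, ff_smul R hc]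

theorem exists_R {G : Type} [Group G] {ρ : G →* M3} (h : Lat ρ) :
    ∃ R : ℝ, R < 1 ∧ ∀ Z ∈ Co, ∃ g : G, rr (ρ g *ᵥ Z) < R := by
  obtain ⟨C, hC, hCC, hcc⟩ := h.cc
  rcases C.eq_empty_or_nonempty with h0 | hne
  · refine ⟨0, one_pos, fun Z hZ => ?_⟩
    obtain ⟨g, c, -, h1⟩ := hcc Z hZ
    rw [h0] at h1
    exact absurd h1 (Set.notMem_empty _)
  obtain ⟨Z1, hZ1, h1⟩ := hC.exists_isMaxOn hne (smooth_rr.continuousOn.mono hCC)
  have h2 : rr Z1 < 1 := by
    unfold rr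
    rw [div_lt_one (z2_pos (hCC hZ1))]
    have h3 : 0 < NN Z1 := hCC hZ1
    rw [NN_eq] at h3
    linarith
  refine ⟨(rr Z1 + 1) / 2, by linarith, fun Z hZ => ?_⟩
  obtain ⟨g, c, hc, h3⟩ := hcc Z hZ
  refine ⟨g, ?_⟩
  have h4 : rr (c • (ρ g *ᵥ Z)) ≤ rr Z1 := h1 h3
  rw [rr_smul hc] at h4
  linarith

theorem SS_pos {G : Type} [Group G] {ρ : G →* M3} (h : Lat ρ) {R : ℝ} (hR : R < 1)
    (hc : ∀ Z ∈ Co, ∃ g : G, rr (ρ g *ᵥ Z) < R) {Z : V3} (hZ : Z ∈ Co) : 0 < SS ρ R Z := by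
  obtain ⟨g, hg⟩ := hc Z hZ
  unfold SS
  refine (summ h hR hZ).tsum_pos (fun g => ff_nonneg R _) g ?_
  exact Real.smoothTransition.pos_of_pos (by linarith)

end WeiExAux

open WeiExAux

/-- **Smooth weights exist.** -/
theorem pWeiEx : ∀ (G : Type) [Group G] (ρ : G →* M3), Lat ρ → ∃ χ : V3 → ℝ, Wei ρ χ := by
  intro G _ ρ h
  obtain ⟨R, hR, hc⟩ := exists_R h
  refine ⟨fun Z => ff R Z / SS ρ R Z, ?_, ?_, ?_, ?_, ?_⟩
  · exact (smooth_ff R).div (smooth_SS h hR) fun Z hZ => (SS_pos h hR hc hZ).ne'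
  · intro Z
    exact div_nonneg (ff_nonneg R Z) (tsum_nonneg fun g => ff_nonneg R _)
  · intro Z _ c hc0
    simp only [ff_smul R hc0, SS_smul ρ R hc0]
  · refine ⟨KK 1 3 R, KK_compact hR, KK_sub one_pos, ?_⟩
    intro Z hZ h1 h3 hne
    refine ⟨h1, h3, qq_le_of_ff hZ ?_⟩
    intro h0
    exact hne (by simp only [h0, zero_div])
  · intro Z hZ
    have h1 : HasSum (fun g : G => ff R (ρ g *ᵥ Z) / SS ρ R Z) (SS ρ R Z / SS ρ R Z) :=
      (summ h hR hZ).hasSum.div_const _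
    rw [div_self (SS_pos h hR hc hZ).ne'] at h1
    have h2 : (fun g : G => ff R (ρ g *ᵥ Z) / SS ρ R (ρ g *ᵥ Z)) =
        fun g : G => ff R (ρ g *ᵥ Z) / SS ρ R Z := by
      funext g
      rw [SS_g]
    exact h2 ▸ h1

end CMT.J3
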