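import Pool.Agent.Lib.CMT.J3.Spec
import Pool.Agent.Lib.CMT.J3.Wirt
import Pool.Agent.Lib.CMT.J3.Meas
import Pool.Agent.Lib.CMT.J3.WeiEx

/-!
# PROJECT CMT, part J3 : the divergence theorem on the cone

`ct χ = χ ψ(NN)`, `ψ = 1` on `[1,3]`: smooth with compact support in `Co`, equal to `χ` where
`th (NN) ≠ 0`.
-/

set_option autoImplicit false

open scoped BigOperators ComplexConjugate ContDiff Topology
open MeasureTheory Matrix

noncomputable section

namespace CMT.J3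

namespace DivAux

/-- The cutoff: `1` on `[1,3]`, `0` outside `(1/2,4)`. -/
def ps (x : ℝ) : ℝ := Real.smoothTransition (2 * x - 1) * Real.smoothTransition (4 - x)

theorem ps_smooth : ContDiff ℝ ∞ ps := by
  unfold ps
  exact (Real.smoothTransition.contDiff.comp (by fun_prop)).mul (Real.smoothTransition.contDiff.comp (by fun_prop))

theorem ps_one {x : ℝ} (h1 : 1 ≤ x) (h3 : x ≤ 3) : ps x = 1 := by
  unfold ps
  rw [Real.smoothTransition.one_of_one_le (by linarith), Real.smoothTransition.one_of_one_le (by linarith), mul_one]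

theorem ps_low {x : ℝ} (h : x ≤ 1 / 2) : ps x = 0 := by
  unfold ps
  rw [Real.smoothTransition.zero_of_nonpos (by linarith), zero_mul]

theorem ps_high {x : ℝ} (h : 4 ≤ x) : ps x = 0 := by
  unfold ps
  rw [Real.smoothTransition.zero_of_nonpos (x := 4 - x) (by linarith), mul_zero]

open Classical in
/-- The cut off weight. -/
def ct (χ : V3 → ℝ) (Z : V3) : ℝ := if Z ∈ Co then χ Z * ps (NN Z) else 0

variable {χ : V3 → ℝ}

theorem smooth_NN : ContDiff ℝ ∞ NN := by
  have h := ((WeiExAux.smooth_sq 2).sub (WeiExAux.smooth_sq 0)).sub (WeiExAux.smooth_sq 1)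
  exact h

theorem ct_smooth (h : ContDiffOn ℝ ∞ χ Co) : ContDiff ℝ ∞ (ct χ) := by
  rw [contDiff_iff_contDiffAt]
  intro Z
  by_cases hZ : Z ∈ Co
  · have h1 : ct χ =ᶠ[𝓝 Z] fun W => χ W * ps (NN W) := by
      filter_upwards [isOpen_Co.mem_nhds hZ] with W hW
      exact if_pos hW
    have h2 : ContDiffAt ℝ ∞ (fun W => χ W * ps (NN W)) Z :=
      (h.contDiffAt (isOpen_Co.mem_nhds hZ)).mul (ps_smooth.comp smooth_NN).contDiffAt
    exact h2.congr_of_eventuallyEq h1
  · have h0 : NN Z ≤ 0 := not_lt.1 hZ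
    have h1 : ct χ =ᶠ[𝓝 Z] fun _ => 0 := by
      have h3 : ∀ᶠ W in 𝓝 Z, NN W < 1 / 2 := cont_NN.continuousAt.eventually_lt_const (by linarith)
      filter_upwards [h3] with W hW
      unfold ct
      split_ifs
      · rw [ps_low hW.le, mul_zero]
      · rfl
    exact contDiffAt_const.congr_of_eventuallyEq h1

theorem ct_eq {Z : V3} (h1 : 1 ≤ NN Z) (h3 : NN Z ≤ 3) : ct χ Z = χ Z := by
  have hZ : Z ∈ Co := by
    show 0 < NN Z
    linarith
  unfold ct
  rw [if_pos hZ, ps_one h1 h3, mul_one]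

/-- The support. -/
theorem ct_supp {G : Type} [Group G] {ρ : G →* M3} (h : Wei ρ χ) :
    ∃ K : Set V3, IsCompact K ∧ K ⊆ Co ∧ ∀ Z, ct χ Z ≠ 0 → Z ∈ K := by
  obtain ⟨C, hC, hCo, hc⟩ := h.cpt
  -- K = {t • W : t ∈ [1/2, 2], W ∈ C}
  refine ⟨(fun q : ℝ × V3 => ((q.1 : ℝ) : ℂ) • q.2) '' (Set.Icc (1 / 2) 2 ×ˢ C), ?_, ?_, ?_⟩
  · refine (isCompact_Icc.prod hC).image ?_
    exact (Complex.continuous_ofReal.comp continuous_fst).smul continuous_snd
  · rintro _ ⟨⟨t, W⟩, ⟨ht, hW⟩, rfl⟩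
    have ht0 : (t : ℂ) ≠ 0 := by
      have : (0 : ℝ) < t := lt_of_lt_of_le (by norm_num) ht.1
      exact_mod_cast this.ne'
    exact smul_mem ht0 (hCo hW)
  · intro Z hZ
    have hZo : Z ∈ Co := by
      by_contra h1
      exact hZ (if_neg h1)
    have hZ' : χ Z * ps (NN Z) ≠ 0 := by
      unfold ct at hZ
      rwa [if_pos hZo] at hZ
    have hχ : χ Z ≠ 0 := left_ne_zero_of_mul hZ'
    have hp : ps (NN Z) ≠ 0 := right_ne_zero_of_mul hZ'
    have hl : 1 / 2 < NN Z := by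
      by_contra h1
      exact hp (ps_low (not_lt.1 h1))
    have hu : NN Z < 4 := by
      by_contra h1
      exact hp (ps_high (not_lt.1 h1))
    -- t = sqrt (NN Z / 2)
    have hN : 0 < NN Z := by linarith
    set t : ℝ := Real.sqrt (NN Z / 2) with ht
    have ht2 : t ^ 2 = NN Z / 2 := Real.sq_sqrt (by positivity)
    have htp : 0 < t := Real.sqrt_pos.2 (by positivity)
    have ht1 : 1 / 2 ≤ t := by nlinarith
    have ht3 : t ≤ 2 := by nlinarith
    have htc : ((t : ℝ) : ℂ) ≠ 0 := by exact_mod_cast htp.ne'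
    refine ⟨(t, ((t : ℝ) : ℂ)⁻¹ • Z), ⟨⟨ht1, ht3⟩, ?_⟩, ?_⟩
    · have hn : NN (((t : ℝ) : ℂ)⁻¹ • Z) = 2 := by
        rw [NN_smul, map_inv₀, Complex.normSq_ofReal, ← pow_two, ht2]
        field_simp
      refine hc _ (smul_mem (inv_ne_zero htc) hZo) ?_ ?_ ?_
      · rw [hn]; norm_num
      · rw [hn]; norm_num
      · rw [h.hg Z hZo _ (inv_ne_zero htc)]
        exact hχ
    · show ((t : ℝ) : ℂ) • (((t : ℝ) : ℂ)⁻¹ • Z) = Z
      rw [smul_smul, mul_inv_cancel₀ htc, one_smul]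

/-- Chain rule for a function of `NN`. -/
theorem db_fn {φ : ℝ → ℝ} {φ' : ℝ} {Z : V3} (hφ : HasDerivAt φ φ' (NN Z)) (hZ : Z ∈ Co) (i : Fin 3) :
    db i (fun W => ((φ (NN W) : ℝ) : ℂ)) Z = -((φ' : ℂ) * (ep i * Z i)) := by
  have h0 : HasFDerivAt NN (fderiv ℝ NN Z) Z := (smooth_NN.differentiable (by simp) Z).hasFDerivAt
  have h1 : HasFDerivAt (fun W => φ (NN W)) (φ' • fderiv ℝ NN Z) Z := hφ.comp_hasFDerivAt Z h0
  have h2 : HasFDerivAt (fun W => ((φ (NN W) : ℝ) : ℂ)) (Complex.ofRealCLM.comp (φ' • fderiv ℝ NN Z)) Z :=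
    Complex.ofRealCLM.hasFDerivAt.comp Z h1
  have h3 : HasFDerivAt (fun W => ((NN W : ℝ) : ℂ)) (Complex.ofRealCLM.comp (fderiv ℝ NN Z)) Z :=
    Complex.ofRealCLM.hasFDerivAt.comp Z h0
  have h4 := db_nn hZ i
  rw [db_of h3 i] at h4
  rw [db_of h2 i]
  have h5 : ∀ v, (Complex.ofRealCLM.comp (φ' • fderiv ℝ NN Z)) v =
      (φ' : ℂ) * (Complex.ofRealCLM.comp (fderiv ℝ NN Z)) v := by
    intro v
    show ((φ' * fderiv ℝ NN Z v : ℝ) : ℂ) = _
    push_cast
    rfl
  rw [h5, h5]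
  linear_combination (φ' : ℂ) * h4

/-- The integral of a derivative. -/
theorem int_fd {f : V3 → ℂ} (hf : ContDiff ℝ 1 f) (hc : HasCompactSupport f) (v : V3) :
    ∫ W, fderiv ℝ f W v = 0 := by
  have hdc : Continuous (fun z => fderiv ℝ f z v) := (hf.continuous_fderiv one_ne_zero).clm_apply continuous_const
  have hds : HasCompactSupport (fun z => fderiv ℝ f z v) := by
    refine HasCompactSupport.of_support_subset_isCompact hc ?_
    intro z hz
    by_contra h1
    rw [Function.mem_support] at hz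
    apply hz
    rw [fderiv_of_notMem_tsupport (𝕜 := ℝ) h1]
    rfl
  have h := integral_smul_fderiv_eq_neg_fderiv_smul_of_integrable (𝕜 := ℝ) (μ := (volume : Measure V3)) (v := v)
    (f := fun _ : V3 => (1 : ℝ)) (g := f) ?_ ?_ ?_ ?_ ?_
  · simpa using h
  · simp
  · simpa using hdc.integrable_of_hasCompactSupport hds
  · simpa using hf.continuous.integrable_of_hasCompactSupport hc
  · exact fun x _ => differentiableAt_const _
  · exact fun x _ => hf.differentiable one_ne_zero x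

theorem int_db {f : V3 → ℂ} (hf : ContDiff ℝ 1 f) (hc : HasCompactSupport f) (k : Fin 3) :
    ∫ W, db k f W = 0 := by
  have hdc : ∀ v, Continuous (fun z => fderiv ℝ f z v) := fun v =>
    (hf.continuous_fderiv one_ne_zero).clm_apply continuous_const
  have hds : ∀ v, HasCompactSupport (fun z => fderiv ℝ f z v) := by
    intro v
    refine HasCompactSupport.of_support_subset_isCompact hc ?_
    intro z hz
    by_contra h1
    rw [Function.mem_support] at hz
    apply hz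
    rw [fderiv_of_notMem_tsupport (𝕜 := ℝ) h1]
    rfl
  have hi : ∀ v, Integrable (fun z => fderiv ℝ f z v) := fun v => (hdc v).integrable_of_hasCompactSupport (hds v)
  unfold db
  rw [integral_div, integral_add (hi _) ((hi _).const_mul _), integral_const_mul, int_fd hf hc, int_fd hf hc]
  simp

theorem db_integrable {f : V3 → ℂ} (hf : ContDiff ℝ 1 f) (hc : HasCompactSupport f) (k : Fin 3) :
    Integrable (db k f) := by
  have hdc : ∀ v, Continuous (fun z => fderiv ℝ f z v) := fun v =>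
    (hf.continuous_fderiv one_ne_zero).clm_apply continuous_const
  have hds : ∀ v, HasCompactSupport (fun z => fderiv ℝ f z v) := by
    intro v
    refine HasCompactSupport.of_support_subset_isCompact hc ?_
    intro z hz
    by_contra h1
    rw [Function.mem_support] at hz
    apply hz
    rw [fderiv_of_notMem_tsupport (𝕜 := ℝ) h1]
    rfl
  have hi : ∀ v, Integrable (fun z => fderiv ℝ f z v) := fun v => (hdc v).integrable_of_hasCompactSupport (hds v)
  exact ((hi _).add ((hi _).const_mul _)).div_const _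

theorem db_zero {f : V3 → ℂ} {W : V3} (h : f =ᶠ[𝓝 W] fun _ => 0) (k : Fin 3) : db k f W = 0 := by
  unfold db
  rw [h.fderiv_eq]
  simp

theorem db_one {f : V3 → ℂ} {W : V3} (h : f =ᶠ[𝓝 W] fun _ => 1) (k : Fin 3) : db k f W = 0 := by
  unfold db
  rw [h.fderiv_eq]
  simp

theorem db_finsum {ι : Type*} (S : Finset ι) (f : ι → V3 → ℂ) {W : V3}
    (h : ∀ g ∈ S, DifferentiableAt ℝ (f g) W) (k : Fin 3) :
    db k (fun w => ∑ g ∈ S, f g w) W = ∑ g ∈ S, db k (f g) W := by
  have h1 : HasFDerivAt (fun w => ∑ g ∈ S, f g w) (∑ g ∈ S, fderiv ℝ (f g) W) W :=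
    HasFDerivAt.fun_sum fun g hg => (h g hg).hasFDerivAt
  rw [db_of h1 k]
  simp only [db, _root_.sum_apply, Finset.mul_sum]
  rw [← Finset.sum_add_distrib, Finset.sum_div]

/-- The radial factor. -/
def fr (x : ℝ) : ℝ := th x * x

theorem th_smooth : ContDiff ℝ ∞ th := by
  unfold th
  exact (Real.smoothTransition.contDiff.comp (by fun_prop)).mul (Real.smoothTransition.contDiff.comp (by fun_prop))

theorem th_ne {x : ℝ} (h : th x ≠ 0) : 1 < x ∧ x < 3 := by
  constructor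
  · by_contra h1
    apply h
    unfold th
    rw [Real.smoothTransition.zero_of_nonpos (by linarith), zero_mul]
  · by_contra h1
    apply h
    unfold th
    rw [Real.smoothTransition.zero_of_nonpos (x := 3 - x) (by linarith), mul_zero]

/-- The field. -/
def ga (b : Fin 3 → V3 → ℂ) (k : Fin 3) (W : V3) : ℂ := ((fr (NN W) : ℝ) : ℂ) * (ep k * b k W)

/-- The derivation. -/
def Q (b : Fin 3 → V3 → ℂ) (f : V3 → ℂ) (W : V3) : ℂ := ∑ k, db k f W * ga b k W

variable {b : Fin 3 → V3 → ℂ}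

theorem fr_sm : Sm (fun W => ((fr (NN W) : ℝ) : ℂ)) := by
  have h1 : ContDiff ℝ ∞ (fun W => fr (NN W)) := (th_smooth.mul contDiff_id).comp smooth_NN
  exact (Complex.ofRealCLM.contDiff.comp h1).contDiffOn

theorem ga_sm (hb : ∀ k, Sm (b k)) (k : Fin 3) : Sm (ga b k) := fr_sm.mul (Sm.cmul _ (hb k))

theorem div_ga (hb : ∀ k, Sm (b k)) {Z : V3} (hZ : Z ∈ Co) (ht : ∑ k, Z k * b k Z = 0) :
    ∑ k, db k (ga b k) Z = ((th (NN Z) * NN Z : ℝ) : ℂ) * ∑ k, ep k * db k (b k) Z := by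
  have hφ : HasDerivAt fr (deriv fr (NN Z)) (NN Z) := by
    have h1 : Differentiable ℝ fr := (th_smooth.mul contDiff_id).differentiable (by simp)
    exact (h1 (NN Z)).hasDerivAt
  have h1 : ∀ k, db k (ga b k) Z = -(((deriv fr (NN Z) : ℝ) : ℂ) * (ep k * Z k)) * (ep k * b k Z) +
      ((fr (NN Z) : ℝ) : ℂ) * (ep k * db k (b k) Z) := by
    intro k
    have h2 := db_mul fr_sm (Sm.cmul (ep k) (hb k)) hZ k
    have h3 := db_fn hφ hZ k
    have h4 := db_cmul (ep k) (hb k) hZ k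
    rw [h3, h4] at h2
    exact h2
  simp_rw [h1]
  have he : ∀ k : Fin 3, ep k * ep k = 1 := by
    intro k
    fin_cases k <;> simp [ep]
  rw [Finset.sum_add_distrib, ← Finset.mul_sum]
  have h5 : ∑ k, -(((deriv fr (NN Z) : ℝ) : ℂ) * (ep k * Z k)) * (ep k * b k Z) =
      -((deriv fr (NN Z) : ℝ) : ℂ) * ∑ k, Z k * b k Z := by
    rw [Finset.mul_sum]
    refine Finset.sum_congr rfl fun k _ => ?_
    linear_combination (-(((deriv fr (NN Z) : ℝ) : ℂ) * Z k * b k Z)) * he k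
  rw [h5, ht, mul_zero, zero_add]
  rfl

/-- `g J gᴴ = J`. -/
theorem gjg {g : M3} (hg : IsG g) : g * diagonal ep * gᴴ = diagonal ep := by
  have h1 := conj_ep_mul g hg
  have hJ : (diagonal ep : M3) * diagonal ep = 1 := by
    rw [diagonal_mul_diagonal, ← diagonal_one]
    congr 1
    funext k
    fin_cases k <;> simp [ep]
  have h2 : (diagonal ep * gᴴ * diagonal ep) * g = 1 := by
    rw [Matrix.mul_assoc, Matrix.mul_assoc, ← Matrix.mul_assoc gᴴ, h1, hJ]
  have h3 := mul_eq_one_comm.1 h2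
  calc g * diagonal ep * gᴴ = g * diagonal ep * gᴴ * (diagonal ep * diagonal ep) := by rw [hJ, Matrix.mul_one]
    _ = (g * (diagonal ep * gᴴ * diagonal ep)) * diagonal ep := by simp only [Matrix.mul_assoc]
    _ = diagonal ep := by rw [h3, Matrix.one_mul]

theorem Q_comp {g : M3} (hg : IsG g) {f : V3 → ℂ} (hf : Sm f) {Z : V3} (hZ : Z ∈ Co)
    (hl : ∀ j, ∑ k, g k j * b k (g *ᵥ Z) = b j Z) :
    Q b (fun W => f (g *ᵥ W)) Z = Q b f (g *ᵥ Z) := by
  have hgZ := mem_IsG hg hZ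
  have hE : ∀ l i, g l 0 * ep 0 * conj (g i 0) + g l 1 * ep 1 * conj (g i 1) + g l 2 * ep 2 * conj (g i 2) =
      (diagonal ep : M3) l i := by
    intro l i
    have h1 := congrFun (congrFun (gjg hg) l) i
    rw [← h1, Matrix.mul_apply, Fin.sum_univ_three, Matrix.mul_diagonal, Matrix.mul_diagonal, Matrix.mul_diagonal]
    rfl
  have hdb : ∀ k, db k (fun W => f (g *ᵥ W)) Z = ∑ i, conj (g i k) * db i f (g *ᵥ Z) := fun k => db_comp g hf hgZ k
  have hga : ∀ k, ga b k Z = ((fr (NN (g *ᵥ Z)) : ℝ) : ℂ) * (ep k * ∑ l, g l k * b l (g *ᵥ Z)) := by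
    intro k
    rw [hl k, WeiExAux.NN_g hg]
    rfl
  unfold Q
  simp_rw [hdb, hga]
  unfold ga
  have e00 := hE 0 0
  have e01 := hE 0 1
  have e02 := hE 0 2
  have e10 := hE 1 0
  have e11 := hE 1 1
  have e12 := hE 1 2
  have e20 := hE 2 0
  have e21 := hE 2 1
  have e22 := hE 2 2
  rw [diagonal_apply_eq] at e00 e11 e22
  rw [diagonal_apply_ne _ (by decide)] at e01 e02 e10 e12 e20 e21
  simp only [Fin.sum_univ_three]
  set c := ((fr (NN (g *ᵥ Z)) : ℝ) : ℂ)
  linear_combination c * (db 0 f (g *ᵥ Z) * (b 0 (g *ᵥ Z) * e00 + b 1 (g *ᵥ Z) * e10 + b 2 (g *ᵥ Z) * e20) +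
    db 1 f (g *ᵥ Z) * (b 0 (g *ᵥ Z) * e01 + b 1 (g *ᵥ Z) * e11 + b 2 (g *ᵥ Z) * e21) +
    db 2 f (g *ᵥ Z) * (b 0 (g *ᵥ Z) * e02 + b 1 (g *ᵥ Z) * e12 + b 2 (g *ᵥ Z) * e22))

theorem int_of {K : Set V3} {f : V3 → ℂ} (hK : IsCompact K) (hf : ContinuousOn f K) (h0 : ∀ W, W ∉ K → f W = 0) :
    Integrable f := by
  refine (integrableOn_iff_integrable_of_support_subset ?_).1 (hf.integrableOn_compact hK)
  intro z hz
  by_contra h7
  exact hz (h0 z h7)

end DivAux

open DivAux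

/-- **The divergence theorem.** -/
theorem pDiv : S_Div := by
  classical
  intro G _ ρ hL χ hW b hb htan hequ
  obtain ⟨K, hK, hKo, hKs⟩ := ct_supp hW
  set u : V3 → ℝ := ct χ with hu
  have hus : ContDiff ℝ ∞ u := ct_smooth hW.sm
  have htK : tsupport u ⊆ K := closure_minimal (fun Z hZ => hKs Z hZ) hK.isClosed
  have hcs : HasCompactSupport u := hK.of_isClosed_subset (isClosed_tsupport u) htK
  set uc : V3 → ℂ := fun W => ((u W : ℝ) : ℂ) with huc
  have hucs : ContDiff ℝ ∞ uc := Complex.ofRealCLM.contDiff.comp hus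
  have huSm : Sm uc := hucs.contDiffOn
  have hn : ∀ W, W ∉ K → u =ᶠ[𝓝 W] fun _ => 0 := by
    intro W hW1
    filter_upwards [hK.isClosed.isOpen_compl.mem_nhds hW1] with w hw
    by_contra h1
    exact hw (hKs w h1)
  have hnc : ∀ W, W ∉ K → uc =ᶠ[𝓝 W] fun _ => 0 := by
    intro W hW1
    filter_upwards [hn W hW1] with w hw
    show ((u w : ℝ) : ℂ) = 0
    rw [hw, Complex.ofReal_zero]
  have hu0 : ∀ W, W ∉ K → u W = 0 := fun W h => (hn W h).self_of_nhds
  have hthK : ∀ W, W ∉ Co → th (NN W) = 0 := by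
    intro W hW1
    by_contra h1
    exact hW1 (show 0 < NN W by linarith [(th_ne h1).1])
  -- step 0
  have h0 : ∀ W, ((χ W * th (NN W) : ℝ) : ℂ) * (((NN W : ℝ) : ℂ) * ∑ k, ep k * db k (b k) W) =
      uc W * ∑ k, db k (ga b k) W := by
    intro W
    by_cases hWo : W ∈ Co
    · rw [div_ga hb hWo (htan W hWo)]
      by_cases ht : th (NN W) = 0
      · rw [ht]; simp
      · have h2 := th_ne ht
        have h3 : uc W = ((χ W : ℝ) : ℂ) := by
          show ((ct χ W : ℝ) : ℂ) = _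
          rw [ct_eq h2.1.le h2.2.le]
        rw [h3]
        push_cast
        ring
    · rw [hthK W hWo]
      have h3 : uc W = 0 := by
        show ((u W : ℝ) : ℂ) = 0
        rw [hu0 W fun h => hWo (hKo h), Complex.ofReal_zero]
      rw [h3]
      simp
  simp_rw [h0]
  -- step 1
  have hv : ∀ k, ContDiff ℝ 1 (fun W => uc W * ga b k W) := by
    intro k
    rw [contDiff_iff_contDiffAt]
    intro W
    by_cases hWK : W ∈ K
    · exact (hucs.contDiffAt.mul ((ga_sm hb k).at (hKo hWK))).of_le (by simp)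
    · have h2 : (fun W => uc W * ga b k W) =ᶠ[𝓝 W] fun _ => 0 := by
        filter_upwards [hnc W hWK] with w hw
        rw [hw, zero_mul]
      exact contDiffAt_const.congr_of_eventuallyEq h2
  have hvc : ∀ k, HasCompactSupport (fun W => uc W * ga b k W) := by
    intro k
    refine HasCompactSupport.of_support_subset_isCompact hK ?_
    intro W hW1
    by_contra h2
    apply hW1
    show uc W * ga b k W = 0
    rw [(hnc W h2).self_of_nhds, zero_mul]
  have hQ0 : ∀ W, W ∉ K → Q b uc W = 0 := by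
    intro W hW1
    unfold Q
    refine Finset.sum_eq_zero fun k _ => ?_
    rw [db_zero (hnc W hW1), zero_mul]
  have hQc : ∀ f : V3 → ℂ, Sm f → ContinuousOn (Q b f) Co := by
    intro f hf
    unfold Q
    exact continuousOn_finsetSum _ fun k _ => (hf.db k).cont.mul (ga_sm hb k).cont
  have h1 : ∀ W, uc W * ∑ k, db k (ga b k) W = (∑ k, db k (fun W => uc W * ga b k W) W) - Q b uc W := by
    intro W
    by_cases hWK : W ∈ K
    · have h2 : ∀ k, db k (fun W => uc W * ga b k W) W = db k uc W * ga b k W + uc W * db k (ga b k) W :=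
        fun k => db_mul huSm (ga_sm hb k) (hKo hWK) k
      simp_rw [h2]
      rw [Finset.sum_add_distrib, ← Finset.mul_sum]
      unfold Q
      ring
    · rw [hQ0 W hWK, (hnc W hWK).self_of_nhds, zero_mul, sub_zero]
      refine (Finset.sum_eq_zero fun k _ => db_zero ?_ k).symm
      filter_upwards [hnc W hWK] with w hw
      rw [hw, zero_mul]
  simp_rw [h1]
  have hQi : Integrable (Q b uc) := int_of hK ((hQc uc huSm).mono hKo) hQ0
  rw [integral_sub (integrable_finsetSum _ fun k _ => db_integrable (hv k) (hvc k) k) hQi,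
    integral_finsetSum _ fun k _ => db_integrable (hv k) (hvc k) k,
    Finset.sum_eq_zero fun k _ => int_db (hv k) (hvc k) k, zero_sub, neg_eq_zero]
  -- step 2
  have hfin := hL.pd K hK hKo
  set S := hfin.toFinset with hS
  have hmem : ∀ g, g ∈ S ↔ ∃ Z ∈ K, ρ g *ᵥ Z ∈ K := fun g => by
    rw [hS, Set.Finite.mem_toFinset]
    rfl
  have hinv : ∀ g Z, ρ g⁻¹ *ᵥ (ρ g *ᵥ Z) = Z := by
    intro g Z
    rw [Matrix.mulVec_mulVec, ← map_mul, inv_mul_cancel, map_one, Matrix.one_mulVec]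
  have hinv' : ∀ g Z, ρ g *ᵥ (ρ g⁻¹ *ᵥ Z) = Z := by
    intro g Z
    rw [Matrix.mulVec_mulVec, ← map_mul, mul_inv_cancel, map_one, Matrix.one_mulVec]
  have hinvS : ∀ g, g ∈ S → g⁻¹ ∈ S := by
    intro g hg
    obtain ⟨Z, hZ, hgZ⟩ := (hmem g).1 hg
    refine (hmem _).2 ⟨ρ g *ᵥ Z, hgZ, ?_⟩
    rw [hinv]
    exact hZ
  have hsum : ∀ Z ∈ K, 1 < NN Z → NN Z < 3 → ∑ g ∈ S, u (ρ g *ᵥ Z) = 1 := by
    intro Z hZ hl hr
    have h2 : ∀ g, u (ρ g *ᵥ Z) = χ (ρ g *ᵥ Z) := by
      intro g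
      have h3 : NN (ρ g *ᵥ Z) = NN Z := WeiExAux.NN_g (hL.isg g) Z
      exact ct_eq (by rw [h3]; exact hl.le) (by rw [h3]; exact hr.le)
    have h4 : HasSum (fun g : G => u (ρ g *ᵥ Z)) 1 := by
      simp_rw [h2]
      exact hW.sum Z (hKo hZ)
    refine (hasSum_sum_of_ne_finset_zero ?_).unique h4
    intro g hg
    by_contra h5
    exact hg ((hmem g).2 ⟨Z, hZ, hKs _ h5⟩)
  have hsum' : ∀ Z ∈ K, 1 < NN Z → NN Z < 3 → ∑ g ∈ S, u (ρ g⁻¹ *ᵥ Z) = 1 := by
    intro Z hZ hl hr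
    rw [← hsum Z hZ hl hr]
    refine Finset.sum_bij' (fun g _ => g⁻¹) (fun g _ => g⁻¹) (fun g hg => hinvS g hg) (fun g hg => hinvS g hg) ?_ ?_ ?_
    · intro g _; exact inv_inv g
    · intro g _; exact inv_inv g
    · intro g _; rfl
  have hga0 : ∀ W, th (NN W) = 0 → ∀ k, ga b k W = 0 := by
    intro W ht k
    unfold ga fr
    rw [ht]
    simp
  have hcont : ∀ g, ContinuousOn (fun W => uc (ρ g *ᵥ W) * Q b uc W) K := by
    intro g
    refine ContinuousOn.mul ?_ ((hQc uc huSm).mono hKo)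
    exact (hucs.continuous.comp (mL (ρ g)).continuous).continuousOn
  have hti : ∀ g, Integrable (fun W => uc (ρ g *ᵥ W) * Q b uc W) := fun g =>
    int_of hK (hcont g) fun W hW1 => by rw [hQ0 W hW1, mul_zero]
  have h2 : ∫ W, Q b uc W = ∑ g ∈ S, ∫ W, uc (ρ g *ᵥ W) * Q b uc W := by
    rw [← integral_finsetSum _ fun g _ => hti g]
    refine integral_congr_ae (Filter.Eventually.of_forall fun W => ?_)
    show Q b uc W = ∑ g ∈ S, uc (ρ g *ᵥ W) * Q b uc W
    rw [← Finset.sum_mul]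
    by_cases hWK : W ∈ K
    · by_cases ht : th (NN W) = 0
      · have h3 : Q b uc W = 0 := by
          unfold Q
          exact Finset.sum_eq_zero fun k _ => by rw [hga0 W ht, mul_zero]
        rw [h3, mul_zero]
      · have h4 := hsum W hWK (th_ne ht).1 (th_ne ht).2
        have h5 : ∑ g ∈ S, uc (ρ g *ᵥ W) = 1 := by
          have h6 := congrArg (fun x : ℝ => (x : ℂ)) h4
          simp only [Complex.ofReal_sum, Complex.ofReal_one] at h6
          exact h6
        rw [h5, one_mul]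
    · rw [hQ0 W hWK, mul_zero]
  have h45 : ∀ g W, uc (ρ g *ᵥ (ρ g⁻¹ *ᵥ W)) * Q b uc (ρ g⁻¹ *ᵥ W) = uc W * Q b (fun w => uc (ρ g⁻¹ *ᵥ w)) W := by
    intro g W
    rw [hinv']
    by_cases hWK : W ∈ K
    · rw [Q_comp (hL.isg g⁻¹) huSm (hKo hWK) (hequ g⁻¹ W (hKo hWK))]
    · rw [(hnc W hWK).self_of_nhds, zero_mul, zero_mul]
  have h4 : ∀ g, ∫ W, uc (ρ g *ᵥ W) * Q b uc W = ∫ W, uc W * Q b (fun w => uc (ρ g⁻¹ *ᵥ w)) W := by
    intro g
    rw [← integral_comp (ρ g⁻¹) (hL.isg g⁻¹) (fun W => uc (ρ g *ᵥ W) * Q b uc W)]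
    exact integral_congr_ae (Filter.Eventually.of_forall fun W => h45 g W)
  have hti' : ∀ g, Integrable (fun W => uc W * Q b (fun w => uc (ρ g⁻¹ *ᵥ w)) W) := by
    intro g
    have h5 := (integrable_comp (ρ g⁻¹) (hL.isg g⁻¹) (fun W => uc (ρ g *ᵥ W) * Q b uc W)).2 (hti g)
    exact h5.congr (Filter.Eventually.of_forall fun W => h45 g W)
  rw [h2, Finset.sum_congr rfl fun g _ => h4 g, ← integral_finsetSum _ fun g _ => hti' g]
  have h6 : ∀ W, ∑ g ∈ S, uc W * Q b (fun w => uc (ρ g⁻¹ *ᵥ w)) W = 0 := by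
    intro W
    rw [← Finset.mul_sum]
    by_cases hu1 : u W = 0
    · have h7 : uc W = 0 := by
        show ((u W : ℝ) : ℂ) = 0
        rw [hu1, Complex.ofReal_zero]
      rw [h7, zero_mul]
    · have hWK := hKs W hu1
      have h8 : ∑ g ∈ S, Q b (fun w => uc (ρ g⁻¹ *ᵥ w)) W = 0 := by
        unfold Q
        rw [Finset.sum_comm]
        refine Finset.sum_eq_zero fun k _ => ?_
        rw [← Finset.sum_mul]
        by_cases ht : th (NN W) = 0
        · rw [hga0 W ht, mul_zero]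
        · rw [← db_finsum S (fun g w => uc (ρ g⁻¹ *ᵥ w)) (fun g _ =>
            (huSm.comp (hL.isg g⁻¹)).diff (hKo hWK)) k, db_one ?_ k, zero_mul]
          have h9 : ∀ᶠ w in 𝓝 W, u w ≠ 0 := hus.continuous.continuousAt.eventually_ne hu1
          have h10 : ∀ᶠ w in 𝓝 W, 1 < NN w := cont_NN.continuousAt.eventually_const_lt (th_ne ht).1
          have h11 : ∀ᶠ w in 𝓝 W, NN w < 3 := cont_NN.continuousAt.eventually_lt_const (th_ne ht).2
          filter_upwards [h9, h10, h11] with w hw9 hw10 hw11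
          have h12 := congrArg (fun x : ℝ => (x : ℂ)) (hsum' w (hKs w hw9) hw10 hw11)
          simp only [Complex.ofReal_sum, Complex.ofReal_one] at h12
          exact h12
      rw [h8, mul_zero]
  simp_rw [h6]
  simp

end CMT.J3
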