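import Pool.Agent.Lib.CMT.J3.Spec

/-!
# PROJECT CMT, part J3 : the Doeblin condition, degree `0` (helper2)

`pDoe : S_Doe` from `S_AvG`, `S_AvHg`, `S_AvInt`, `S_AvBd`.
-/

open scoped BigOperators ComplexConjugate ContDiff Topology
open MeasureTheory Matrix

noncomputable section

namespace CMT.J3

private theorem doeNN : Continuous NN := by
  unfold NN
  exact ((Complex.continuous_normSq.comp (continuous_apply 2)).sub
    (Complex.continuous_normSq.comp (continuous_apply 0))).sub
    (Complex.continuous_normSq.comp (continuous_apply 1))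

private theorem doeOpen : IsOpen Co := isOpen_lt continuous_const doeNN

private theorem doeTh : Continuous th := by
  unfold th
  exact (Real.smoothTransition.continuous.comp (continuous_id.sub continuous_const)).mul
    (Real.smoothTransition.continuous.comp (continuous_const.sub continuous_id))

private theorem doeTh0 {x : ℝ} (h : x ≤ 1) : th x = 0 := by
  unfold th
  rw [Real.smoothTransition.zero_of_nonpos (sub_nonpos.2 h), zero_mul]

private theorem doeTh3 {x : ℝ} (h : 3 ≤ x) : th x = 0 := by
  unfold th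
  rw [Real.smoothTransition.zero_of_nonpos (sub_nonpos.2 h), mul_zero]

private theorem doeThN (x : ℝ) : 0 ≤ th x :=
  mul_nonneg (Real.smoothTransition.nonneg _) (Real.smoothTransition.nonneg _)

private theorem doeTh2 : th 2 = 1 := by
  unfold th
  rw [Real.smoothTransition.one_of_one_le (by norm_num), Real.smoothTransition.one_of_one_le
    (by norm_num), one_mul]

/-- `th(NN) φ` is continuous if `φ` is continuous on the cone. -/
private theorem doeC {E : Type*} [NormedAddCommGroup E] [NormedSpace ℝ E] {φ : V3 → E}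
    (hφ : ContinuousOn φ Co) : Continuous (fun W => th (NN W) • φ W) := by
  rw [continuous_iff_continuousAt]
  intro W
  by_cases h : NN W < 1
  · have h1 : (fun W => th (NN W) • φ W) =ᶠ[𝓝 W] fun _ => 0 := by
      filter_upwards [(isOpen_lt doeNN continuous_const).mem_nhds h] with V hV
      rw [doeTh0 (le_of_lt hV), zero_smul]
    exact continuousAt_const.congr h1.symm
  · have h1 : W ∈ Co := lt_of_lt_of_le one_pos (not_lt.1 h)
    exact ((doeTh.comp doeNN).continuousAt).smul (hφ.continuousAt (doeOpen.mem_nhds h1))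

private theorem doeI {E : Type*} [NormedAddCommGroup E] [NormedSpace ℝ E] {φ : V3 → E}
    (hφ : ContinuousOn φ Co) {C : Set V3} (hC : IsCompact C)
    (h : ∀ W ∈ Co, 1 ≤ NN W → NN W ≤ 3 → φ W ≠ 0 → W ∈ C) :
    HasCompactSupport (fun W => th (NN W) • φ W) ∧ Integrable (fun W => th (NN W) • φ W) := by
  have h1 : HasCompactSupport (fun W => th (NN W) • φ W) := by
    refine HasCompactSupport.of_support_subset_isCompact hC ?_
    intro W hW
    rw [Function.mem_support] at hW
    have h2 : th (NN W) ≠ 0 := fun h3 => hW (by rw [h3, zero_smul])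
    have h3 : φ W ≠ 0 := fun h4 => hW (by rw [h4, smul_zero])
    have h4 : 1 < NN W := by
      by_contra h5
      exact h2 (doeTh0 (not_lt.1 h5))
    have h5 : NN W < 3 := by
      by_contra h6
      exact h2 (doeTh3 (not_lt.1 h6))
    exact h W (lt_trans one_pos h4) h4.le h5.le h3
  exact ⟨h1, (doeC hφ).integrable_of_hasCompactSupport h1⟩

private theorem doeNh (Z : V3) : NN Z = -(hh Z Z).re := by
  unfold NN hh
  simp only [Complex.sub_re, Complex.add_re, Complex.mul_conj, Complex.ofReal_re]
  ring

private theorem doeNG {g : M3} (hg : IsG g) (Z : V3) : NN (g *ᵥ Z) = NN Z := by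
  rw [doeNh, doeNh, hg Z Z]

private theorem doeTt {C D : Set V3} (hC : C ⊆ Co) (hD : D ⊆ Co) :
    ContinuousOn (fun q : V3 × V3 => tt q.1 q.2) (C ×ˢ D) := by
  unfold tt
  refine ContinuousOn.div ?_ ?_ ?_
  · refine Continuous.continuousOn (Complex.continuous_normSq.comp ?_)
    unfold hh
    fun_prop
  · exact ((doeNN.comp continuous_fst).mul (doeNN.comp continuous_snd)).continuousOn
  · rintro ⟨Z, W⟩ ⟨hZ, hW⟩
    exact (mul_pos (hC hZ) (hD hW)).ne'

/-- The Doeblin condition. -/
theorem pDoe (hG : S_AvG) (hH : S_AvHg) (hI : S_AvInt) (hB : S_AvBd) : S_Doe := by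
  intro G _ ρ hL χ hχ
  obtain ⟨C2, hC2, hC2o, hC2s⟩ := hχ.cpt
  obtain ⟨C1, hC1, hC1o, hC1s⟩ := hL.cc
  have hχc : ContinuousOn χ Co := hχ.sm.continuousOn
  obtain ⟨hcs, hint2'⟩ := doeI hχc hC2 hC2s
  have ecm : (fun W => th (NN W) • χ W) = fun W => χ W * th (NN W) := by
    funext W
    rw [smul_eq_mul, mul_comm]
  have hint2 : Integrable (fun W => χ W * th (NN W)) := by
    rw [← ecm]
    exact hint2'
  have hC1' : ContinuousOn (fun q : V3 × V3 => tt q.1 q.2) (C1 ×ˢ C2) := doeTt hC1o hC2o
  obtain ⟨S, hS⟩ := (hC1.prod hC2).exists_bound_of_continuousOn hC1'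
  have hle1 : ∀ W ∈ Co, χ W ≤ 1 := by
    intro W hW
    have h1 := le_hasSum (hχ.sum W hW) 1 (fun g _ => hχ.nn _)
    simpa using h1
  constructor
  · -- positivity
    rw [← ecm]
    obtain ⟨Z0, hZ0⟩ : ∃ Z0 : V3, NN Z0 = 2 := by
      refine ⟨![0, 0, ((Real.sqrt 2 : ℝ) : ℂ)], ?_⟩
      unfold NN
      simp [Complex.normSq_ofReal]
    have hZ0o : Z0 ∈ Co := by
      show 0 < NN Z0
      rw [hZ0]
      norm_num
    obtain ⟨g, hg⟩ : ∃ g : G, χ (ρ g *ᵥ Z0) ≠ 0 := by
      by_contra hne
      push Not at hne
      have h1 := hχ.sum Z0 hZ0o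
      simp only [hne] at h1
      exact zero_ne_one (hasSum_zero.unique h1)
    refine (doeC hχc).integral_pos_of_hasCompactSupport_nonneg_nonzero hcs
      (fun W => ?_) (x := ρ g *ᵥ Z0) ?_
    · exact mul_nonneg (doeThN _) (hχ.nn _)
    · rw [doeNG (hL.isg g), hZ0, doeTh2, one_smul]
      exact hg
  · refine ⟨2 + max S 0, by linarith [le_max_right S 0], ?_⟩
    intro u hu M hM
    set T : ℝ := 2 + max S 0 with hT
    -- the case of a point of the compact set
    have key : ∀ Z ∈ C1, ‖Av T 0 u Z - ∫ W, ((χ W * th (NN W) : ℝ) : ℂ) * u W‖ ≤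
        (la T 0 - ∫ W, χ W * th (NN W)) * M := by
      intro Z hZ
      have hZo : Z ∈ Co := hC1o hZ
      have hM0 : 0 ≤ M := (norm_nonneg _).trans (hM Z hZo)
      have hth : ∀ W, W ∉ Co → th (NN W) = 0 := by
        intro W hW
        refine doeTh0 ?_
        have : NN W ≤ 0 := not_lt.1 hW
        linarith
      have hk1 : ∀ W, χ W * th (NN W) ≤ kk T (tt Z W) * th (NN W) := by
        intro W
        by_cases h1 : th (NN W) = 0
        · rw [h1, mul_zero, mul_zero]
        refine mul_le_mul_of_nonneg_right ?_ (doeThN _)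
        by_cases h2 : χ W = 0
        · rw [h2]
          exact Real.smoothTransition.nonneg _
        have hWo : W ∈ Co := by
          by_contra h3
          exact h1 (hth W h3)
        have h3 : 1 ≤ NN W := by
          by_contra h5
          exact h1 (doeTh0 (not_le.1 h5).le)
        have h4 : NN W ≤ 3 := by
          by_contra h5
          exact h1 (doeTh3 (not_le.1 h5).le)
        have hW2 : W ∈ C2 := hC2s W hWo h3 h4 h2
        have h5 : tt Z W ≤ S := (le_abs_self _).trans (hS (Z, W) ⟨hZ, hW2⟩)
        have h6 : kk T (tt Z W) = 1 := by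
          unfold kk
          refine Real.smoothTransition.one_of_one_le ?_
          have := le_max_left S 0
          rw [hT]
          linarith
        rw [h6]
        exact hle1 W hWo
      have hKe : ∀ W, Ke T 0 Z W = ((kk T (tt Z W) * th (NN W) : ℝ) : ℂ) := by
        intro W
        unfold Ke
        rw [pow_zero, one_mul]
      have hiC : Integrable (fun W => ((kk T (tt Z W) * th (NN W) : ℝ) : ℂ)) := by
        have := hI T 0 (fun _ => 1) continuousOn_const Z hZo
        simpa only [hKe, mul_one] using this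
      have hint1 : Integrable (fun W => kk T (tt Z W) * th (NN W)) := by
        have := hiC.re
        simpa only [RCLike.re_eq_complex_re, Complex.ofReal_re] using this
      have hi1 : Integrable (fun W => Ke T 0 Z W * u W) := hI T 0 u hu.cont Z hZo
      have hi2 : Integrable (fun W => ((χ W * th (NN W) : ℝ) : ℂ) * u W) := by
        have h1 : ContinuousOn (fun W => ((χ W : ℝ) : ℂ) * u W) Co :=
          (Complex.continuous_ofReal.comp_continuousOn hχc).mul hu.cont
        have h2 := (doeI h1 hC2 (fun W hW h3 h4 h5 => hC2s W hW h3 h4 (fun h6 => h5 (by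
          rw [h6, Complex.ofReal_zero, zero_mul])))).2
        refine h2.congr (Filter.Eventually.of_forall fun W => ?_)
        show th (NN W) • (((χ W : ℝ) : ℂ) * u W) = ((χ W * th (NN W) : ℝ) : ℂ) * u W
        rw [Complex.real_smul, Complex.ofReal_mul]
        ring
      have e1 : Av T 0 u Z - ∫ W, ((χ W * th (NN W) : ℝ) : ℂ) * u W =
          ∫ W, ((kk T (tt Z W) * th (NN W) - χ W * th (NN W) : ℝ) : ℂ) * u W := by
        unfold Av
        rw [← integral_sub hi1 hi2]
        refine integral_congr_ae (Filter.Eventually.of_forall fun W => ?_)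
        show Ke T 0 Z W * u W - ((χ W * th (NN W) : ℝ) : ℂ) * u W = _
        rw [hKe, ← sub_mul, ← Complex.ofReal_sub]
      have hla : ∫ W, kk T (tt Z W) * th (NN W) ≤ la T 0 := by
        have h1 := hB T 0 (fun _ => 1) continuousOn_const 1 (fun W _ => by simp) Z hZo
        have h2 : Av T 0 (fun _ => 1) Z = ((∫ W, kk T (tt Z W) * th (NN W) : ℝ) : ℂ) := by
          unfold Av
          simp only [hKe, mul_one]
          exact integral_ofReal
        have h3 : ka T 0 = la T 0 := by
          unfold ka la
          simp only [pow_zero]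
        rw [h2, Complex.norm_real, pow_zero, mul_one, one_mul, h3] at h1
        exact (le_abs_self _).trans h1
      rw [e1]
      have e2 : ∫ W, (kk T (tt Z W) * th (NN W) - χ W * th (NN W)) * M =
          ((∫ W, kk T (tt Z W) * th (NN W)) - ∫ W, χ W * th (NN W)) * M := by
        rw [integral_mul_const, integral_sub hint1 hint2]
      refine (norm_integral_le_of_norm_le ((hint1.sub hint2).mul_const M)
        (Filter.Eventually.of_forall fun W => ?_)).trans ?_
      · show ‖((kk T (tt Z W) * th (NN W) - χ W * th (NN W) : ℝ) : ℂ) * u W‖ ≤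
          (kk T (tt Z W) * th (NN W) - χ W * th (NN W)) * M
        rw [norm_mul, Complex.norm_real, Real.norm_of_nonneg (sub_nonneg.2 (hk1 W))]
        by_cases hW : W ∈ Co
        · exact mul_le_mul_of_nonneg_left (hM W hW) (sub_nonneg.2 (hk1 W))
        · rw [hth W hW, mul_zero, mul_zero, sub_zero, zero_mul, zero_mul]
      · refine (le_of_eq e2).trans ?_
        exact mul_le_mul_of_nonneg_right (sub_le_sub_right hla _) hM0
    intro Z hZ
    obtain ⟨g, c, hc, hgc⟩ := hC1s Z hZ
    have h1 := key _ hgc
    have hgo : ρ g *ᵥ Z ∈ Co := by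
      show 0 < NN (ρ g *ᵥ Z)
      rw [doeNG (hL.isg g)]
      exact hZ
    have h2 : Av T 0 u (c • (ρ g *ᵥ Z)) = Av T 0 u Z := by
      rw [hH T 0 u _ hgo c hc, pow_zero, one_mul, ← hG T 0 (ρ g) (hL.isg g) u Z]
      unfold Av
      refine integral_congr_ae (Filter.Eventually.of_forall fun W => ?_)
      show Ke T 0 Z W * u (ρ g *ᵥ W) = Ke T 0 Z W * u W
      by_cases hW : W ∈ Co
      · rw [hu.inv g W hW]
      · have h3 : th (NN W) = 0 := by
          refine doeTh0 ?_
          have : NN W ≤ 0 := not_lt.1 hW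
          linarith
        unfold Ke
        rw [h3, mul_zero, Complex.ofReal_zero, mul_zero, zero_mul, zero_mul]
    rwa [h2] at h1

end CMT.J3
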