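import Pool.Agent.Lib.CMT.J3.Spec

/-!
# PROJECT CMT, part J3 : existence of `F` (`S_Ex1`, `S_Ex0`)
-/

open scoped BigOperators ComplexConjugate ContDiff
open MeasureTheory Matrix

noncomputable section

namespace CMT.J3

namespace ExAux

theorem nn_cont : Continuous NN := by
  unfold NN
  exact ((Complex.continuous_normSq.comp (continuous_apply 2)).sub
    (Complex.continuous_normSq.comp (continuous_apply 0))).sub
    (Complex.continuous_normSq.comp (continuous_apply 1))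

theorem co_open : IsOpen Co := isOpen_lt continuous_const nn_cont

theorem th_zero {x : ℝ} (h : x ≤ 1) : th x = 0 := by
  unfold th
  rw [Real.smoothTransition.zero_of_nonpos (by linarith), zero_mul]

theorem th_zero' {x : ℝ} (h : 3 ≤ x) : th x = 0 := by
  unfold th
  rw [Real.smoothTransition.zero_of_nonpos (x := 3 - x) (by linarith), mul_zero]

theorem ke_zero (T : ℝ) (p : ℕ) (Z W : V3) (h : W ∉ Co) : Ke T p Z W = 0 := by
  have h1 : NN W ≤ 0 := not_lt.mp h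
  unfold Ke
  rw [th_zero (by linarith)]
  simp

theorem av_congr {T : ℝ} {p : ℕ} {Φ Ψ : V3 → ℂ} (h : ∀ W ∈ Co, Φ W = Ψ W) (Z : V3) :
    Av T p Φ Z = Av T p Ψ Z := by
  unfold Av
  congr 1
  ext W
  by_cases hW : W ∈ Co
  · rw [h W hW]
  · rw [ke_zero T p Z W hW, zero_mul, zero_mul]

theorem av_add (hI : S_AvInt) {T : ℝ} {p : ℕ} {Φ Ψ : V3 → ℂ} (h1 : ContinuousOn Φ Co)
    (h2 : ContinuousOn Ψ Co) {Z : V3} (hZ : Z ∈ Co) :
    Av T p (fun W => Φ W + Ψ W) Z = Av T p Φ Z + Av T p Ψ Z := by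
  unfold Av
  rw [← integral_add (hI T p Φ h1 Z hZ) (hI T p Ψ h2 Z hZ)]
  congr 1
  ext W
  ring

theorem nn_inv {g : M3} (hg : IsG g) (Z : V3) : NN (g *ᵥ Z) = NN Z := by
  have h := congrArg Complex.re (hg Z Z)
  simp only [hh, Complex.sub_re, Complex.add_re, Complex.mul_re, Complex.conj_re,
    Complex.conj_im] at h
  simp only [NN, Complex.normSq_apply]
  linarith

theorem co_inv {g : M3} (hg : IsG g) {Z : V3} (hZ : Z ∈ Co) : g *ᵥ Z ∈ Co := by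
  show 0 < NN (g *ᵥ Z)
  rw [nn_inv hg]
  exact hZ

/-! ### calculus -/

theorem sm_fd {Φ : V3 → ℂ} (h : Sm Φ) (v : V3) : Sm (fun Z => fderiv ℝ Φ Z v) :=
  (((contDiffOn_infty_iff_fderiv_of_isOpen co_open).1 h).2).clm_apply contDiffOn_const

theorem sm_dz {Φ : V3 → ℂ} (h : Sm Φ) (i : Fin 3) : Sm (dz i Φ) :=
  ((sm_fd h _).sub (contDiffOn_const.mul (sm_fd h _))).div_const 2

theorem sm_db {Φ : V3 → ℂ} (h : Sm Φ) (i : Fin 3) : Sm (db i Φ) :=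
  ((sm_fd h _).add (contDiffOn_const.mul (sm_fd h _))).div_const 2

theorem sm_bx {Φ : V3 → ℂ} (h : Sm Φ) : Sm (bx Φ) := by
  have h1 : Sm (fun Z => ∑ i, ep i * dz i (db i Φ) Z) :=
    ContDiffOn.sum fun i _ => contDiffOn_const.mul (sm_dz (sm_db h i) i)
  exact h1

theorem sm_da {Φ : V3 → ℂ} (h : Sm Φ) {Z : V3} (hZ : Z ∈ Co) : DifferentiableAt ℝ Φ Z :=
  ((h.differentiableOn (by simp)) Z hZ).differentiableAt (co_open.mem_nhds hZ)

theorem db_congr {Φ Ψ : V3 → ℂ} (h : ∀ W ∈ Co, Φ W = Ψ W) (i : Fin 3) {Z : V3} (hZ : Z ∈ Co) :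
    db i Φ Z = db i Ψ Z := by
  have h1 : Φ =ᶠ[nhds Z] Ψ := by
    filter_upwards [co_open.mem_nhds hZ] with W hW using h W hW
  unfold db
  rw [h1.fderiv_eq]

theorem dz_congr {Φ Ψ : V3 → ℂ} (h : ∀ W ∈ Co, Φ W = Ψ W) (i : Fin 3) {Z : V3} (hZ : Z ∈ Co) :
    dz i Φ Z = dz i Ψ Z := by
  have h1 : Φ =ᶠ[nhds Z] Ψ := by
    filter_upwards [co_open.mem_nhds hZ] with W hW using h W hW
  unfold dz
  rw [h1.fderiv_eq]

theorem bx_congr {Φ Ψ : V3 → ℂ} (h : ∀ W ∈ Co, Φ W = Ψ W) {Z : V3} (hZ : Z ∈ Co) :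
    bx Φ Z = bx Ψ Z := by
  unfold bx
  refine Finset.sum_congr rfl fun i _ => ?_
  rw [dz_congr (fun W hW => db_congr h i hW) i hZ]

theorem pol_cont {p : ℕ} {l : V3 → ℂ} (h : IsPol p l) : Continuous l := by
  rcases h with ⟨_, a, rfl⟩ | ⟨_, v, rfl⟩
  · exact continuous_const
  · exact continuous_finsetSum _ fun i _ => continuous_const.mul (continuous_apply i)

theorem pol_clm {p : ℕ} {l : V3 → ℂ} (h : IsPol p l) :
    ∃ v : V3, ∀ Z : V3, DifferentiableAt ℝ l Z ∧ ∀ w : V3, fderiv ℝ l Z w = ∑ i, v i * w i := by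
  rcases h with ⟨_, a, rfl⟩ | ⟨_, v, rfl⟩
  · refine ⟨0, fun Z => ⟨differentiableAt_const _, fun w => ?_⟩⟩
    simp
  · refine ⟨v, fun Z => ?_⟩
    let L : V3 →L[ℝ] ℂ := ∑ i, v i • (ContinuousLinearMap.proj i : V3 →L[ℝ] ℂ)
    have hL : (fun Z : V3 => ∑ i, v i * Z i) = L := by
      ext Z
      simp [L]
    rw [hL]
    refine ⟨L.differentiableAt, fun w => ?_⟩
    rw [L.fderiv]
    simp [L]

theorem db_pol {p : ℕ} {l : V3 → ℂ} (h : IsPol p l) (i : Fin 3) (Z : V3) : db i l Z = 0 := by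
  obtain ⟨v, hv⟩ := pol_clm h
  unfold db
  rw [(hv Z).2, (hv Z).2]
  simp only [Pi.single_apply, mul_ite, mul_zero, Finset.sum_ite_eq',
    Finset.mem_univ, if_true, mul_one]
  have : v i + Complex.I * (v i * Complex.I) = v i + (Complex.I * Complex.I) * v i := by ring
  rw [this, Complex.I_mul_I]
  ring

theorem db_aff {F : V3 → ℂ} (hF : Sm F) {p : ℕ} {l : V3 → ℂ} (h : IsPol p l) (c : ℂ) (i : Fin 3)
    {Z : V3} (hZ : Z ∈ Co) : db i (fun W => c * F W + l W) Z = c * db i F Z := by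
  obtain ⟨v, hv⟩ := pol_clm h
  have h0 := db_pol h i Z
  have h1 : fderiv ℝ (fun W => c * F W + l W) Z = c • fderiv ℝ F Z + fderiv ℝ l Z :=
    (((sm_da hF hZ).hasFDerivAt.const_mul c).add (hv Z).1.hasFDerivAt).fderiv
  unfold db at h0 ⊢
  rw [h1]
  simp only [_root_.add_apply, _root_.smul_apply, smul_eq_mul]
  linear_combination h0

theorem dz_mul {F : V3 → ℂ} (hF : Sm F) (c : ℂ) (i : Fin 3)
    {Z : V3} (hZ : Z ∈ Co) : dz i (fun W => c * F W) Z = c * dz i F Z := by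
  have h1 : fderiv ℝ (fun W => c * F W) Z = c • fderiv ℝ F Z :=
    ((sm_da hF hZ).hasFDerivAt.const_mul c).fderiv
  unfold dz
  rw [h1]
  simp only [_root_.smul_apply, smul_eq_mul]
  ring

theorem bx_aff {F : V3 → ℂ} (hF : Sm F) {p : ℕ} {l : V3 → ℂ} (h : IsPol p l) (c : ℂ)
    {Z : V3} (hZ : Z ∈ Co) : bx (fun W => c * F W + l W) Z = c * bx F Z := by
  unfold bx
  rw [Finset.mul_sum]
  refine Finset.sum_congr rfl fun i _ => ?_
  rw [dz_congr (fun W hW => db_aff hF h c i hW) i hZ, dz_mul (sm_db hF i) c i hZ]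
  ring

theorem iter {f : V3 → ℂ} {q M : ℝ} {w : V3 → ℝ} (hq0 : 0 ≤ q) (hq : q < 1)
    (hs : ∀ M : ℝ, (∀ Z ∈ Co, ‖f Z‖ ≤ M * w Z) → ∀ Z ∈ Co, ‖f Z‖ ≤ q * M * w Z)
    (hM : ∀ Z ∈ Co, ‖f Z‖ ≤ M * w Z) : ∀ Z ∈ Co, f Z = 0 := by
  have h1 : ∀ n : ℕ, ∀ Z ∈ Co, ‖f Z‖ ≤ (q ^ n * M) * w Z := by
    intro n
    induction n with
    | zero => intro Z hZ; simpa using hM Z hZ
    | succ n ih =>
      intro Z hZ
      have := hs _ ih Z hZ
      rwa [← mul_assoc q, ← pow_succ'] at this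
  intro Z hZ
  have h2 : Filter.Tendsto (fun n : ℕ => (q ^ n * M) * w Z) Filter.atTop (nhds ((0 * M) * w Z)) :=
    ((tendsto_pow_atTop_nhds_zero_of_lt_one hq0 hq).mul_const M).mul_const (w Z)
  have h3 : ‖f Z‖ ≤ (0 * M) * w Z := ge_of_tendsto' h2 fun n => h1 n Z hZ
  rw [zero_mul, zero_mul] at h3
  exact norm_le_zero_iff.1 h3

/-! ### sections -/

variable {G : Type} [Group G] {ρ : G →* M3}

theorem av_sec (hG : S_AvG) (hHg : S_AvHg) (hSm : S_AvSm) (hL : Lat ρ) (T : ℝ) {p : ℕ}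
    {u : V3 → ℂ} (hu : Sec ρ p u) : Sec ρ p (Av T p u) where
  cont := (hSm T p u hu.cont).continuousOn
  hg := hHg T p u
  inv := by
    intro g Z hZ
    rw [← hG T p (ρ g) (hL.isg g) u Z]
    exact av_congr (fun W hW => hu.inv g W hW) Z

theorem sec_const_mul {p : ℕ} {u : V3 → ℂ} (hu : Sec ρ p u) (c : ℂ) :
    Sec ρ p (fun Z => c * u Z) where
  cont := continuousOn_const.mul hu.cont
  hg := by
    intro Z hZ a ha
    simp only []
    rw [hu.hg Z hZ a ha]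
    ring
  inv := by
    intro g Z hZ
    rw [hu.inv g Z hZ]

theorem sec_add {p : ℕ} {u v : V3 → ℂ} (hu : Sec ρ p u) (hv : Sec ρ p v) :
    Sec ρ p (fun Z => u Z + v Z) where
  cont := hu.cont.add hv.cont
  hg := by
    intro Z hZ a ha
    simp only []
    rw [hu.hg Z hZ a ha, hv.hg Z hZ a ha]
    ring
  inv := by
    intro g Z hZ
    rw [hu.inv g Z hZ, hv.inv g Z hZ]

theorem sec_const (a : ℂ) : Sec ρ 0 (fun _ => a) where
  cont := continuousOn_const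
  hg := by
    intro Z hZ c hc
    simp
  inv := by
    intro g Z hZ
    rfl

theorem isPol_const (a : ℂ) : IsPol 0 (fun _ => a) := Or.inl ⟨rfl, a, rfl⟩

/-- `u0 = Av F0 / la - F0` is a section. -/
theorem u0_sec (hG : S_AvG) (hHg : S_AvHg) (hSm : S_AvSm) (hI : S_AvInt) (hE : S_Eig)
    (hL : Lat ρ) (T : ℝ) {p : ℕ} {l : G → V3 → ℂ} (hl : Cyc ρ p l) {F0 : V3 → ℂ}
    (h0c : ContinuousOn F0 Co) (h0h : Hg p F0)
    (h0 : ∀ g, ∀ Z ∈ Co, F0 (ρ g *ᵥ Z) = F0 Z + l g Z) (hla : (la T p : ℂ) ≠ 0) :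
    Sec ρ p (fun Z => (la T p : ℂ)⁻¹ * Av T p F0 Z - F0 Z) where
  cont := (continuousOn_const.mul (hSm T p F0 h0c).continuousOn).sub h0c
  hg := by
    intro Z hZ a ha
    simp only []
    rw [hHg T p F0 Z hZ a ha, h0h Z hZ a ha]
    ring
  inv := by
    intro g Z hZ
    rw [← hG T p (ρ g) (hL.isg g) F0 Z, h0 g Z hZ,
      av_congr (Ψ := fun W => F0 W + l g W) (fun W hW => h0 g W hW) Z,
      av_add hI h0c (pol_cont (hl.pol g)).continuousOn hZ, hE T p (l g) (hl.pol g) Z hZ]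
    field_simp
    ring

/-- `Psi = NN * bx F` is a section. -/
theorem psi_sec (hBG : S_BxG) (hL : Lat ρ) {p : ℕ} {l : G → V3 → ℂ} (hl : Cyc ρ p l)
    {F : V3 → ℂ} (hF : Sm F) (hFh : Hg p F) (hFl : ∀ g, ∀ Z ∈ Co, F (ρ g *ᵥ Z) = F Z + l g Z) :
    Sec ρ p (fun Z => ((NN Z : ℝ) : ℂ) * bx F Z) where
  cont := (Complex.continuous_ofReal.comp nn_cont).continuousOn.mul (sm_bx hF).continuousOn
  hg := hBG.2 p F hF hFh
  inv := by
    intro g Z hZ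
    show ((NN (ρ g *ᵥ Z) : ℝ) : ℂ) * bx F (ρ g *ᵥ Z) = ((NN Z : ℝ) : ℂ) * bx F Z
    rw [nn_inv (hL.isg g), ← hBG.1 (ρ g) (hL.isg g) F hF Z hZ,
      bx_congr (Ψ := fun W => 1 * F W + l g W) (fun W hW => by rw [hFl g W hW, one_mul]) hZ,
      bx_aff hF (hl.pol g) 1 hZ, one_mul]

end ExAux

open ExAux

theorem pEx1 (hG : S_AvG) (hHg : S_AvHg) (hSm : S_AvSm) (hI : S_AvInt) (hE : S_Eig)
    (hBd : S_AvBd) (hKL : S_KaLa) (hN : S_Neu) (hB : S_Bdd) (hF0 : S_F0) (hBA : S_BxAv)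
    (hBG : S_BxG) : S_Ex1 := by
  intro G _ ρ hL ⟨χ, hχ⟩ l hl
  obtain ⟨hk0, hkl, -⟩ := hKL 2 le_rfl
  have hla : 0 < la 2 1 := lt_of_le_of_lt hk0 hkl
  have hla' : (la 2 1 : ℂ) ≠ 0 := by exact_mod_cast hla.ne'
  obtain ⟨F0, h0c, h0h, h0⟩ := hF0 G ρ hL χ hχ 1 l hl
  have hq0 : 0 ≤ ka 2 1 / la 2 1 := div_nonneg hk0 hla.le
  have hq1 : ka 2 1 / la 2 1 < 1 := (div_lt_one hla).2 hkl
  have hbd : ∀ u : V3 → ℂ, ContinuousOn u Co → ∀ M : ℝ,
      (∀ Z ∈ Co, ‖u Z‖ ≤ M * Real.sqrt (NN Z) ^ 1) →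
      ∀ Z ∈ Co, ‖(la 2 1 : ℂ)⁻¹ * Av 2 1 u Z‖ ≤ ka 2 1 / la 2 1 * M * Real.sqrt (NN Z) ^ 1 := by
    intro u hu M hM Z hZ
    have h1 := hBd 2 1 u hu M hM Z hZ
    rw [norm_mul, norm_inv, Complex.norm_real, Real.norm_of_nonneg hla.le]
    calc (la 2 1)⁻¹ * ‖Av 2 1 u Z‖ ≤ (la 2 1)⁻¹ * (M * ka 2 1 * Real.sqrt (NN Z) ^ 1) :=
          mul_le_mul_of_nonneg_left h1 (inv_nonneg.2 hla.le)
      _ = ka 2 1 / la 2 1 * M * Real.sqrt (NN Z) ^ 1 := by ring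
  have hu0 := u0_sec hG hHg hSm hI hE hL 2 hl h0c h0h h0 hla'
  obtain ⟨u, hus, -, hu⟩ := hN G ρ 1 (fun u Z => (la 2 1 : ℂ)⁻¹ * Av 2 1 u Z)
    (ka 2 1 / la 2 1) hq0 hq1
    (fun u hu => sec_const_mul (av_sec hG hHg hSm hL 2 hu) _)
    (fun u v hu hv Z hZ => by
      show (la 2 1 : ℂ)⁻¹ * Av 2 1 (fun W => u W + v W) Z = _
      rw [av_add hI hu.cont hv.cont hZ]
      ring)
    (fun u hu M hM Z hZ => hbd u hu.cont M hM Z hZ)
    _ hu0 (hB G ρ hL 1 _ hu0)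
  have hFc : ContinuousOn (fun Z => F0 Z + u Z) Co := h0c.add hus.cont
  -- `Av F = la F`
  have hAv : ∀ Z ∈ Co, Av 2 1 (fun Z => F0 Z + u Z) Z = (la 2 1 : ℂ) * (F0 Z + u Z) := by
    intro Z hZ
    rw [av_add hI h0c hus.cont hZ]
    have h1 := hu Z hZ
    field_simp at h1
    linear_combination (-1 : ℂ) * h1
  have hFs : Sm (fun Z => F0 Z + u Z) := by
    have h1 : Sm (fun Z => (la 2 1 : ℂ)⁻¹ * Av 2 1 (fun Z => F0 Z + u Z) Z) :=
      contDiffOn_const.mul (hSm 2 1 _ hFc)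
    refine ContDiffOn.congr h1 fun Z hZ => ?_
    rw [hAv Z hZ, inv_mul_cancel_left₀ hla']
  have hFh : Hg 1 (fun Z => F0 Z + u Z) := by
    intro Z hZ c hc
    show F0 (c • Z) + u (c • Z) = c ^ 1 * (F0 Z + u Z)
    rw [h0h Z hZ c hc, hus.hg Z hZ c hc]
    ring
  have hFl : ∀ g, ∀ Z ∈ Co, F0 (ρ g *ᵥ Z) + u (ρ g *ᵥ Z) = (F0 Z + u Z) + l g Z := by
    intro g Z hZ
    rw [h0 g Z hZ, hus.inv g Z hZ]
    ring
  refine ⟨fun Z => F0 Z + u Z, hFs, hFh, hFl, ?_⟩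
  have hΨ := psi_sec hBG hL hl hFs hFh hFl
  -- `Av Psi = la Psi`
  have hAΨ : ∀ Z ∈ Co, Av 2 1 (fun Z => ((NN Z : ℝ) : ℂ) * bx (fun Z => F0 Z + u Z) Z) Z =
      (la 2 1 : ℂ) * (((NN Z : ℝ) : ℂ) * bx (fun Z => F0 Z + u Z) Z) := by
    intro Z hZ
    rw [← hBA 2 1 (fun Z => F0 Z + u Z) hFs hFh Z hZ,
      bx_congr (Ψ := fun W => (la 2 1 : ℂ) * (fun Z => F0 Z + u Z) W + (fun _ => (0 : ℂ)) W)
        (fun W hW => by rw [hAv W hW]; ring) hZ,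
      bx_aff hFs (isPol_const 0) _ hZ]
    ring
  obtain ⟨M, hM⟩ := hB G ρ hL 1 _ hΨ
  have hz := iter (f := fun Z => ((NN Z : ℝ) : ℂ) * bx (fun Z => F0 Z + u Z) Z)
    (w := fun Z => Real.sqrt (NN Z) ^ 1) hq0 hq1 (fun M hM Z hZ => by
      have h1 := hbd _ hΨ.cont M hM Z hZ
      rwa [hAΨ Z hZ, inv_mul_cancel_left₀ hla'] at h1) hM
  intro Z hZ
  have h2 : ((NN Z : ℝ) : ℂ) ≠ 0 := by
    have : 0 < NN Z := hZ
    exact_mod_cast this.ne'
  rcases mul_eq_zero.1 (hz Z hZ) with h3 | h3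
  · exact absurd h3 h2
  · exact h3

theorem chi_int {G : Type} [Group G] {ρ : G →* M3} {χ : V3 → ℝ} (hχ : Wei ρ χ) {u : V3 → ℂ}
    (hu : ContinuousOn u Co) :
    Integrable (fun W => ((χ W * th (NN W) : ℝ) : ℂ) * u W) := by
  obtain ⟨C, hC, hCC, hc⟩ := hχ.cpt
  have hz : ∀ W, W ∉ C → ((χ W * th (NN W) : ℝ) : ℂ) * u W = 0 := by
    intro W hW
    by_cases h1 : NN W ≤ 1
    · rw [th_zero h1]; simp
    by_cases h3 : 3 ≤ NN W
    · rw [th_zero' h3]; simp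
    push Not at h1 h3
    have h4 : χ W = 0 := by
      by_contra h
      exact hW (hc W (show 0 < NN W by linarith) h1.le h3.le h)
    rw [h4]; simp
  have hthc : Continuous th := by
    unfold th
    exact (Real.smoothTransition.continuous.comp (continuous_id.sub continuous_const)).mul
      (Real.smoothTransition.continuous.comp (continuous_const.sub continuous_id))
  have hcont : ContinuousOn (fun W => ((χ W * th (NN W) : ℝ) : ℂ) * u W) C := by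
    refine ContinuousOn.mul ?_ (hu.mono hCC)
    refine Complex.continuous_ofReal.comp_continuousOn ?_
    exact (hχ.sm.continuousOn.mono hCC).mul (hthc.comp nn_cont).continuousOn
  have h5 : IntegrableOn (fun W => ((χ W * th (NN W) : ℝ) : ℂ) * u W) C :=
    hcont.integrableOn_compact hC
  exact (integrableOn_iff_integrable_of_support_subset (fun W hW => by
    by_contra h
    exact hW (hz W h))).1 h5

theorem pEx0 (hG : S_AvG) (hHg : S_AvHg) (hSm : S_AvSm) (hI : S_AvInt) (hE : S_Eig)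
    (hKL : S_KaLa) (hD : S_Doe) (hN : S_Neu) (hB : S_Bdd) (hF0 : S_F0) (hBA : S_BxAv)
    (hBG : S_BxG) : S_Ex0 := by
  intro G _ ρ hL ⟨χ, hχ⟩ l hl
  obtain ⟨hc0, T, hT, hDo⟩ := hD G ρ hL χ hχ
  obtain ⟨-, -, hla⟩ := hKL T hT
  have hla' : (la T 0 : ℂ) ≠ 0 := by exact_mod_cast hla.ne'
  obtain ⟨F0, h0c, h0h, h0⟩ := hF0 G ρ hL χ hχ 0 l hl
  -- abbreviations
  let I : (V3 → ℂ) → ℂ := fun u => ∫ W, ((χ W * th (NN W) : ℝ) : ℂ) * u W
  let c0 : ℝ := ∫ W, χ W * th (NN W)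
  have hcl : c0 ≤ la T 0 := by
    have h1 := hDo (fun _ => 1) (sec_const 1) 1 (fun Z _ => by simp)
    have h2 : e3 ∈ Co := by
      show 0 < NN e3
      simp [NN, e3]
    have h3 := (norm_nonneg _).trans (h1 e3 h2)
    linarith
  have hIadd : ∀ u v : V3 → ℂ, ContinuousOn u Co → ContinuousOn v Co →
      I (fun W => u W + v W) = I u + I v := by
    intro u v hu hv
    show (∫ W, ((χ W * th (NN W) : ℝ) : ℂ) * (u W + v W)) = _
    simp only [I]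
    rw [← integral_add (chi_int hχ hu) (chi_int hχ hv)]
    congr 1
    ext W
    ring
  have hIc : ∀ a : ℂ, I (fun _ => a) = (c0 : ℂ) * a := by
    intro a
    have h1 : (∫ W, ((χ W * th (NN W) : ℝ) : ℂ)) = (c0 : ℂ) := integral_ofReal
    simp only [I]
    rw [integral_mul_const, h1]
  have hq0 : 0 ≤ 1 - c0 / la T 0 := by
    rw [sub_nonneg, div_le_one hla]
    exact hcl
  have hq1 : 1 - c0 / la T 0 < 1 := by
    have : 0 < c0 / la T 0 := div_pos hc0 hla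
    linarith
  have hbd : ∀ u : V3 → ℂ, Sec ρ 0 u → ∀ M : ℝ,
      (∀ Z ∈ Co, ‖u Z‖ ≤ M * Real.sqrt (NN Z) ^ 0) →
      ∀ Z ∈ Co, ‖(la T 0 : ℂ)⁻¹ * (Av T 0 u Z + -I u)‖ ≤
        (1 - c0 / la T 0) * M * Real.sqrt (NN Z) ^ 0 := by
    intro u hu M hM Z hZ
    have h1 := hDo u hu M (fun Z hZ => by simpa using hM Z hZ) Z hZ
    rw [norm_mul, norm_inv, Complex.norm_real, Real.norm_of_nonneg hla.le, ← sub_eq_add_neg]
    calc (la T 0)⁻¹ * ‖Av T 0 u Z - I u‖ ≤ (la T 0)⁻¹ * ((la T 0 - c0) * M) :=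
          mul_le_mul_of_nonneg_left h1 (inv_nonneg.2 hla.le)
      _ = (1 - c0 / la T 0) * M * Real.sqrt (NN Z) ^ 0 := by
          field_simp
  have hu0 := u0_sec hG hHg hSm hI hE hL T hl h0c h0h h0 hla'
  obtain ⟨u, hus, -, hu⟩ := hN G ρ 0 (fun u Z => (la T 0 : ℂ)⁻¹ * (Av T 0 u Z + -I u))
    (1 - c0 / la T 0) hq0 hq1
    (fun u hu => sec_const_mul (sec_add (av_sec hG hHg hSm hL T hu) (sec_const _)) _)
    (fun u v hu hv Z hZ => by
      show (la T 0 : ℂ)⁻¹ * (Av T 0 (fun W => u W + v W) Z + -I (fun W => u W + v W)) = _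
      rw [av_add hI hu.cont hv.cont hZ, hIadd u v hu.cont hv.cont]
      ring)
    (fun u hu M hM Z hZ => hbd u hu M hM Z hZ)
    _ hu0 (hB G ρ hL 0 _ hu0)
  have hFc : ContinuousOn (fun Z => F0 Z + u Z) Co := h0c.add hus.cont
  have hAv : ∀ Z ∈ Co, Av T 0 (fun Z => F0 Z + u Z) Z =
      (la T 0 : ℂ) * (F0 Z + u Z) + I u := by
    intro Z hZ
    rw [av_add hI h0c hus.cont hZ]
    have h1 := hu Z hZ
    field_simp at h1
    linear_combination (-1 : ℂ) * h1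
  have hFs : Sm (fun Z => F0 Z + u Z) := by
    have h1 : Sm (fun Z => (la T 0 : ℂ)⁻¹ * (Av T 0 (fun Z => F0 Z + u Z) Z - I u)) :=
      contDiffOn_const.mul ((hSm T 0 _ hFc).sub contDiffOn_const)
    refine ContDiffOn.congr h1 fun Z hZ => ?_
    rw [hAv Z hZ, add_sub_cancel_right, inv_mul_cancel_left₀ hla']
  have hFh : Hg 0 (fun Z => F0 Z + u Z) := by
    intro Z hZ c hc
    show F0 (c • Z) + u (c • Z) = c ^ 0 * (F0 Z + u Z)
    rw [h0h Z hZ c hc, hus.hg Z hZ c hc]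
    ring
  have hFl : ∀ g, ∀ Z ∈ Co, F0 (ρ g *ᵥ Z) + u (ρ g *ᵥ Z) = (F0 Z + u Z) + l g Z := by
    intro g Z hZ
    rw [h0 g Z hZ, hus.inv g Z hZ]
    ring
  refine ⟨fun Z => F0 Z + u Z, hFs, hFh, hFl, ?_⟩
  have hΨ := psi_sec hBG hL hl hFs hFh hFl
  have hAΨ : ∀ Z ∈ Co, Av T 0 (fun Z => ((NN Z : ℝ) : ℂ) * bx (fun Z => F0 Z + u Z) Z) Z =
      (la T 0 : ℂ) * (((NN Z : ℝ) : ℂ) * bx (fun Z => F0 Z + u Z) Z) := by
    intro Z hZ
    rw [← hBA T 0 (fun Z => F0 Z + u Z) hFs hFh Z hZ,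
      bx_congr (Ψ := fun W => (la T 0 : ℂ) * (fun Z => F0 Z + u Z) W + (fun _ => I u) W)
        (fun W hW => by rw [hAv W hW]) hZ,
      bx_aff hFs (isPol_const (I u)) _ hZ]
    ring
  -- subtract the mean
  let Ψ : V3 → ℂ := fun Z => ((NN Z : ℝ) : ℂ) * bx (fun Z => F0 Z + u Z) Z
  let m : ℂ := (c0 : ℂ)⁻¹ * I Ψ
  have hc0' : (c0 : ℂ) ≠ 0 := by exact_mod_cast hc0.ne'
  have hv : Sec ρ 0 (fun Z => Ψ Z + -m) := sec_add hΨ (sec_const _)
  have hAvv : ∀ Z ∈ Co, Av T 0 (fun Z => Ψ Z + -m) Z = (la T 0 : ℂ) * (Ψ Z + -m) := by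
    intro Z hZ
    rw [av_add hI hΨ.cont continuousOn_const hZ, hE T 0 _ (isPol_const (-m)) Z hZ]
    have := hAΨ Z hZ
    simp only [Ψ]
    rw [this]
    ring
  have hIv : I (fun Z => Ψ Z + -m) = 0 := by
    rw [hIadd _ _ hΨ.cont continuousOn_const, hIc]
    simp only [m]
    field_simp
    ring
  obtain ⟨M, hM⟩ := hB G ρ hL 0 _ hv
  have hz := iter (f := fun Z => Ψ Z + -m)
    (w := fun Z => Real.sqrt (NN Z) ^ 0) hq0 hq1 (fun M hM Z hZ => by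
      have h1 := hbd _ hv M hM Z hZ
      rwa [hAvv Z hZ, hIv, neg_zero, add_zero, inv_mul_cancel_left₀ hla'] at h1) hM
  refine ⟨m, fun Z hZ => ?_⟩
  have := hz Z hZ
  simp only [Ψ] at this
  linear_combination this

end CMT.J3
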