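import Pool.Agent.Lib.CMT.J3.Spec

/-!
# PROJECT CMT, part J3 : bounded sections and the initial section (helper72)

`pBdd : S_Bdd`, `pF0 : S_F0`; also `F0.chi_le_one` (`χ ≤ 1` on the cone), `F0.locfin` (local
finiteness: near a point of the cone only finitely many `g` have `χ (g Z) ≠ 0`).
-/

open scoped BigOperators ComplexConjugate ContDiff Topology
open MeasureTheory Matrix

noncomputable section

namespace CMT.J3

namespace F0

theorem NN_eq (Z : V3) : (NN Z : ℝ) = -(hh Z Z).re := by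
  simp only [NN, hh, Complex.mul_conj]
  simp
  ring

theorem NN_g {g : M3} (h : IsG g) (Z : V3) : NN (g *ᵥ Z) = NN Z := by
  rw [NN_eq, NN_eq, h Z Z]

theorem NN_smul (c : ℂ) (Z : V3) : NN (c • Z) = Complex.normSq c * NN Z := by
  simp only [NN, Pi.smul_apply, smul_eq_mul, Complex.normSq_mul]
  ring

theorem Co_g {g : M3} (h : IsG g) {Z : V3} (hZ : Z ∈ Co) : g *ᵥ Z ∈ Co := by
  show 0 < NN (g *ᵥ Z)
  rw [NN_g h]
  exact hZ

theorem Co_smul {c : ℂ} (hc : c ≠ 0) {Z : V3} (hZ : Z ∈ Co) : c • Z ∈ Co := by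
  show 0 < NN (c • Z)
  rw [NN_smul]
  exact mul_pos (Complex.normSq_pos.2 hc) hZ

theorem NN_cont : Continuous NN := by
  unfold NN
  exact ((Complex.continuous_normSq.comp (continuous_apply 2)).sub
    (Complex.continuous_normSq.comp (continuous_apply 0))).sub
    (Complex.continuous_normSq.comp (continuous_apply 1))

theorem Co_open : IsOpen Co := isOpen_lt continuous_const NN_cont

theorem mulVec_cont (g : M3) : Continuous fun Z : V3 => g *ᵥ Z :=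
  continuous_const.matrix_mulVec continuous_id

theorem sqrt_smul (c : ℂ) (Z : V3) :
    Real.sqrt (NN (c • Z)) = ‖c‖ * Real.sqrt (NN Z) := by
  rw [NN_smul, Real.sqrt_mul (Complex.normSq_nonneg c), Complex.normSq_eq_norm_sq,
    Real.sqrt_sq (norm_nonneg c)]

end F0

open F0

/-- Sections are bounded. -/
theorem pBdd : S_Bdd := by
  intro G _ ρ hL p u hu
  obtain ⟨C, hC, hCo, hcc⟩ := hL.cc
  have hc : ContinuousOn (fun Z => ‖u Z‖ / Real.sqrt (NN Z) ^ p) C := by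
    refine ContinuousOn.div ((hu.cont.mono hCo).norm)
      (((Real.continuous_sqrt.comp NN_cont).pow p).continuousOn) fun Z hZ => ?_
    exact pow_ne_zero _ (Real.sqrt_pos.2 (hCo hZ)).ne'
  obtain ⟨M, hM⟩ := hC.bddAbove_image hc
  refine ⟨M, fun Z hZ => ?_⟩
  obtain ⟨g, c, hc0, hgc⟩ := hcc Z hZ
  have h1 : ‖u (c • (ρ g *ᵥ Z))‖ / Real.sqrt (NN (c • (ρ g *ᵥ Z))) ^ p ≤ M :=
    hM ⟨_, hgc, rfl⟩
  have hgZ : ρ g *ᵥ Z ∈ Co := Co_g (hL.isg g) hZ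
  have hpos : 0 < Real.sqrt (NN Z) ^ p := pow_pos (Real.sqrt_pos.2 hZ) p
  have hcp : 0 < ‖c‖ ^ p := pow_pos (norm_pos_iff.2 hc0) p
  rw [hu.hg _ hgZ c hc0, hu.inv g Z hZ, sqrt_smul, NN_g (hL.isg g), norm_mul, norm_pow, mul_pow,
    mul_div_mul_left _ _ hcp.ne', div_le_iff₀ hpos] at h1
  exact h1

namespace F0

variable {G : Type*} [Group G] {ρ : G →* M3} {χ : V3 → ℝ}

theorem chi_le_one (hχ : Wei ρ χ) {Z : V3} (hZ : Z ∈ Co) : χ Z ≤ 1 := by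
  have h := le_hasSum (hχ.sum Z hZ) 1 fun g _ => hχ.nn _
  simpa using h

/-- Local finiteness. -/
theorem locfin (hL : Lat ρ) (hχ : Wei ρ χ) {Z0 : V3} (hZ0 : Z0 ∈ Co) :
    ∃ U : Set V3, IsOpen U ∧ Z0 ∈ U ∧ ∃ S : Finset G, ∀ Z ∈ U, Z ∈ Co ∧
      ∀ g, χ (ρ g *ᵥ Z) ≠ 0 → g ∈ S := by
  have hN : 0 < NN Z0 := hZ0
  obtain ⟨C', hC', hCo', hcpt⟩ := hχ.cpt
  set r : ℝ := Real.sqrt (2 / NN Z0) with hr
  have hrpos : 0 < r := Real.sqrt_pos.2 (div_pos two_pos hN)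
  have hr0 : (r : ℂ) ≠ 0 := Complex.ofReal_ne_zero.2 hrpos.ne'
  have hN2 : NN ((r : ℂ) • Z0) = 2 := by
    rw [NN_smul, Complex.normSq_ofReal, hr, Real.mul_self_sqrt (div_pos two_pos hN).le]
    field_simp
  have hopen : IsOpen {Z : V3 | 1 < NN Z ∧ NN Z < 3} :=
    (isOpen_lt continuous_const NN_cont).inter (isOpen_lt NN_cont continuous_const)
  obtain ⟨K, hK, hKi, hKs⟩ := exists_compact_subset hopen
    (show (r : ℂ) • Z0 ∈ {Z : V3 | 1 < NN Z ∧ NN Z < 3} by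
      show 1 < NN _ ∧ NN _ < 3
      rw [hN2]
      norm_num)
  have hfin := hL.pd (K ∪ C') (hK.union hC') (Set.union_subset
    (fun Z hZ => lt_trans one_pos (hKs hZ).1) hCo')
  refine ⟨(fun Z : V3 => (r : ℂ) • Z) ⁻¹' interior K,
    isOpen_interior.preimage (continuous_const_smul (r : ℂ)), hKi, hfin.toFinset, fun Z hZ => ?_⟩
  have hZK : (r : ℂ) • Z ∈ K := interior_subset hZ
  have hZC : Z ∈ Co := by
    have h1 : 1 < NN ((r : ℂ) • Z) := (hKs hZK).1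
    rw [NN_smul, Complex.normSq_ofReal] at h1
    by_contra h2
    have h3 : NN Z ≤ 0 := not_lt.1 h2
    have h4 : r * r * NN Z ≤ 0 := mul_nonpos_of_nonneg_of_nonpos (mul_self_nonneg r) h3
    linarith
  refine ⟨hZC, fun g hg => ?_⟩
  rw [Set.Finite.mem_toFinset]
  refine ⟨(r : ℂ) • Z, Or.inl hZK, Or.inr ?_⟩
  have h1 : ρ g *ᵥ ((r : ℂ) • Z) = (r : ℂ) • (ρ g *ᵥ Z) := Matrix.mulVec_smul _ _ _
  have h2 : NN (ρ g *ᵥ ((r : ℂ) • Z)) = NN ((r : ℂ) • Z) := NN_g (hL.isg g) _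
  refine hcpt _ (Co_g (hL.isg g) (Co_smul hr0 hZC)) ?_ ?_ ?_
  · rw [h2]; exact (hKs hZK).1.le
  · rw [h2]; exact (hKs hZK).2.le
  · rw [h1, hχ.hg _ (Co_g (hL.isg g) hZC) _ hr0]
    exact hg

theorem pol_cont {p : ℕ} {l : V3 → ℂ} (h : IsPol p l) : Continuous l := by
  rcases h with ⟨_, a, rfl⟩ | ⟨_, v, rfl⟩
  · exact continuous_const
  · exact continuous_finset_sum _ fun i _ => continuous_const.mul (continuous_apply i)

theorem pol_smul {p : ℕ} {l : V3 → ℂ} (h : IsPol p l) (c : ℂ) (Z : V3) :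
    l (c • Z) = c ^ p * l Z := by
  rcases h with ⟨rfl, a, rfl⟩ | ⟨rfl, v, rfl⟩
  · simp
  · simp only [Pi.smul_apply, smul_eq_mul, pow_one, Finset.mul_sum]
    exact Finset.sum_congr rfl fun i _ => by ring

end F0

/-- The initial section. -/
theorem pF0 : S_F0 := by
  intro G _ ρ hL χ hχ p l hl
  have hfs : ∀ Z ∈ Co, ∃ S : Finset G, ∀ g, χ (ρ g *ᵥ Z) ≠ 0 → g ∈ S := fun Z hZ => by
    obtain ⟨U, _, hZU, S, hS⟩ := locfin hL hχ hZ
    exact ⟨S, (hS Z hZU).2⟩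
  have hsum : ∀ Z ∈ Co, ∀ a : G → ℂ, Summable fun g => ((χ (ρ g *ᵥ Z) : ℝ) : ℂ) * a g := by
    intro Z hZ a
    obtain ⟨S, hS⟩ := hfs Z hZ
    refine summable_of_ne_finset_zero (s := S) fun g hg => ?_
    have : χ (ρ g *ᵥ Z) = 0 := by
      by_contra h
      exact hg (hS g h)
    rw [this]
    simp
  refine ⟨fun Z => -∑' g, ((χ (ρ g *ᵥ Z) : ℝ) : ℂ) * l g Z, ?_, ?_, ?_⟩
  · -- continuity
    intro Z0 hZ0
    obtain ⟨U, hU, hZU, S, hS⟩ := locfin hL hχ hZ0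
    refine ContinuousWithinAt.neg ?_
    have h1 : ContinuousOn (fun Z => ∑ g ∈ S, ((χ (ρ g *ᵥ Z) : ℝ) : ℂ) * l g Z) Co := by
      refine continuousOn_finset_sum _ fun g _ => ?_
      refine ContinuousOn.mul ?_ (pol_cont (hl.pol g)).continuousOn
      refine Complex.continuous_ofReal.comp_continuousOn ?_
      exact hχ.sm.continuousOn.comp (mulVec_cont (ρ g)).continuousOn
        fun Z hZ => Co_g (hL.isg g) hZ
    refine (h1 Z0 hZ0).congr_of_eventuallyEq ?_ ?_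
    · refine Filter.mem_of_superset (mem_nhdsWithin_of_mem_nhds (hU.mem_nhds hZU)) fun Z hZ => ?_
      refine tsum_eq_sum fun g hg => ?_
      have : χ (ρ g *ᵥ Z) = 0 := by
        by_contra h
        exact hg ((hS Z hZ).2 g h)
      rw [this]
      simp
    · refine tsum_eq_sum fun g hg => ?_
      have : χ (ρ g *ᵥ Z0) = 0 := by
        by_contra h
        exact hg ((hS Z0 hZU).2 g h)
      rw [this]
      simp
  · -- homogeneity
    intro Z hZ c hc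
    show -∑' g, ((χ (ρ g *ᵥ (c • Z)) : ℝ) : ℂ) * l g (c • Z) =
      c ^ p * -∑' g, ((χ (ρ g *ᵥ Z) : ℝ) : ℂ) * l g Z
    rw [mul_neg, ← tsum_mul_left]
    congr 1
    refine tsum_congr fun g => ?_
    rw [Matrix.mulVec_smul, hχ.hg _ (Co_g (hL.isg g) hZ) c hc, pol_smul (hl.pol g)]
    ring
  · -- the cocycle
    intro h Z hZ
    have h1 : ∀ g, ((χ (ρ g *ᵥ (ρ h *ᵥ Z)) : ℝ) : ℂ) * l g (ρ h *ᵥ Z) =
        ((χ (ρ (g * h) *ᵥ Z) : ℝ) : ℂ) * l (g * h) Z -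
          ((χ (ρ (g * h) *ᵥ Z) : ℝ) : ℂ) * l h Z := by
      intro g
      rw [hl.coc g h Z, map_mul, Matrix.mulVec_mulVec]
      ring
    have h2 : ∑' g, ((χ (ρ g *ᵥ (ρ h *ᵥ Z)) : ℝ) : ℂ) * l g (ρ h *ᵥ Z) =
        ∑' g, (((χ (ρ g *ᵥ Z) : ℝ) : ℂ) * l g Z - ((χ (ρ g *ᵥ Z) : ℝ) : ℂ) * l h Z) := by
      rw [tsum_congr h1]
      exact (Equiv.mulRight h).tsum_eq
        (fun g => ((χ (ρ g *ᵥ Z) : ℝ) : ℂ) * l g Z - ((χ (ρ g *ᵥ Z) : ℝ) : ℂ) * l h Z)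
    have h3 : ∑' g, ((χ (ρ g *ᵥ Z) : ℝ) : ℂ) * l h Z = l h Z := by
      rw [tsum_mul_right]
      have h4 : HasSum (fun g : G => ((χ (ρ g *ᵥ Z) : ℝ) : ℂ)) ((1 : ℝ) : ℂ) :=
        Complex.hasSum_ofReal.2 (hχ.sum Z hZ)
      rw [h4.tsum_eq]
      simp
    show -∑' g, ((χ (ρ g *ᵥ (ρ h *ᵥ Z)) : ℝ) : ℂ) * l g (ρ h *ᵥ Z) =
      -∑' g, ((χ (ρ g *ᵥ Z) : ℝ) : ℂ) * l g Z + l h Z
    rw [h2, (hsum Z hZ (fun g => l g Z)).tsum_sub (hsum Z hZ (fun _ => l h Z)), h3]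
    ring

end CMT.J3
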