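import Pool.Agent.Lib.CMT.J3.Spec
import Pool.Agent.Lib.CMT.J3.Wirt
import Pool.Agent.Lib.CMT.J3.BxG

/-!
# PROJECT CMT, part J3 : the theorems on the cone (helper20)

`pH2c`, `pH1c`: the statements `S_H2c`, `S_H1c` from existence (`S_Ex1`, `S_Ex0`), the divergence
theorem (`S_Div`), the Bochner identities (`S_B1`, `S_B0`), equivariance (`S_BEq`) and the
positivity statements (`S_Pos1`, `S_Pos2`, `S_Doe`).
-/

open scoped BigOperators ComplexConjugate ContDiff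
open MeasureTheory Matrix

noncomputable section

namespace CMT.J3

/-! ## the cutoff -/

theorem fin_th_zero {x : ℝ} (h : x ≤ 1 ∨ 3 ≤ x) : th x = 0 := by
  unfold th
  rcases h with h | h
  · rw [Real.smoothTransition.zero_of_nonpos (by linarith : x - 1 ≤ 0), zero_mul]
  · rw [Real.smoothTransition.zero_of_nonpos (by linarith : 3 - x ≤ 0), mul_zero]

theorem fin_th_nonneg (x : ℝ) : 0 ≤ th x :=
  mul_nonneg (Real.smoothTransition.nonneg _) (Real.smoothTransition.nonneg _)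

theorem fin_th_pos {x : ℝ} (h1 : 1 < x) (h3 : x < 3) : 0 < th x :=
  mul_pos (Real.smoothTransition.pos_of_pos (by linarith))
    (Real.smoothTransition.pos_of_pos (by linarith))

theorem fin_th_cont : Continuous th := by
  unfold th
  exact (Real.smoothTransition.continuous.comp (continuous_id.sub continuous_const)).mul
    (Real.smoothTransition.continuous.comp (continuous_const.sub continuous_id))

theorem fin_th_off {W : V3} (hW : W ∉ Co) : th (NN W) = 0 := by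
  have h : ¬ (0 < NN W) := hW
  exact fin_th_zero (Or.inl (by linarith))

variable {G : Type} [Group G] {ρ : G →* M3} {χ : V3 → ℝ}

/-- A nonnegative continuous function on the cone whose weighted integral vanishes is zero where
the weight is positive. -/
theorem fin_zero (hχ : Wei ρ χ) {r : V3 → ℝ} (hr : ContinuousOn r Co) (h0 : ∀ Z ∈ Co, 0 ≤ r Z)
    (hI : ∫ W, χ W * th (NN W) * r W = 0) {Z : V3} (hc : χ Z ≠ 0)
    (h1 : 1 < NN Z) (h3 : NN Z < 3) : r Z = 0 := by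
  have hcont : Continuous (fun W => χ W * th (NN W) * r W) := by
    rw [continuous_iff_continuousAt]
    intro W
    by_cases hW : W ∈ Co
    · have hn : Co ∈ nhds W := isOpen_Co.mem_nhds hW
      exact ((hχ.sm.continuousOn.continuousAt hn).mul
        (fin_th_cont.comp cont_NN).continuousAt).mul (hr.continuousAt hn)
    · have hW' : ¬ (0 < NN W) := hW
      have hn : {V : V3 | NN V < 1} ∈ nhds W :=
        (isOpen_lt cont_NN continuous_const).mem_nhds (show NN W < 1 by linarith)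
      have he : (fun _ : V3 => (0 : ℝ)) =ᶠ[nhds W] (fun W => χ W * th (NN W) * r W) := by
        filter_upwards [hn] with V hV
        have hV' : NN V < 1 := hV
        rw [fin_th_zero (Or.inl hV'.le), mul_zero, zero_mul]
      exact continuousAt_const.congr he
  obtain ⟨C, hC, hCc, hCm⟩ := hχ.cpt
  have hcs : HasCompactSupport (fun W => χ W * th (NN W) * r W) := by
    refine HasCompactSupport.intro hC fun W hW => ?_
    by_contra hne
    have hth : th (NN W) ≠ 0 := fun h => hne (by rw [h, mul_zero, zero_mul])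
    have hch : χ W ≠ 0 := fun h => hne (by rw [h, zero_mul, zero_mul])
    have ha : 1 < NN W := by
      by_contra h
      exact hth (fin_th_zero (Or.inl (not_lt.1 h)))
    have hb : NN W < 3 := by
      by_contra h
      exact hth (fin_th_zero (Or.inr (not_lt.1 h)))
    exact hW (hCm W (show 0 < NN W by linarith) ha.le hb.le hch)
  have hnn : 0 ≤ (fun W => χ W * th (NN W) * r W) := by
    intro W
    show 0 ≤ χ W * th (NN W) * r W
    by_cases hW : W ∈ Co
    · exact mul_nonneg (mul_nonneg (hχ.nn W) (fin_th_nonneg _)) (h0 W hW)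
    · rw [fin_th_off hW, mul_zero, zero_mul]
  by_contra hne
  have hx : (fun W => χ W * th (NN W) * r W) Z ≠ 0 :=
    mul_ne_zero (mul_ne_zero hc (fin_th_pos h1 h3).ne') hne
  have hpos := hcont.integral_pos_of_hasCompactSupport_nonneg_nonzero
    (μ := (volume : Measure V3)) hcs hnn hx
  exact hpos.ne' hI

/-- The same with the complex integral of the divergence theorem. -/
theorem fin_zero' (hχ : Wei ρ χ) {r : V3 → ℝ} (hr : ContinuousOn r Co) (h0 : ∀ Z ∈ Co, 0 ≤ r Z)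
    {q : V3 → ℂ} (hq : ∀ Z ∈ Co, q Z = ((r Z : ℝ) : ℂ))
    (hI : ∫ W, ((χ W * th (NN W) : ℝ) : ℂ) * q W = 0) {Z : V3} (hc : χ Z ≠ 0)
    (h1 : 1 < NN Z) (h3 : NN Z < 3) : r Z = 0 := by
  have he : (fun W => ((χ W * th (NN W) : ℝ) : ℂ) * q W) =
      fun W => ((χ W * th (NN W) * r W : ℝ) : ℂ) := by
    funext W
    by_cases hW : W ∈ Co
    · rw [hq W hW]
      push_cast
      ring
    · rw [fin_th_off hW]
      simp
  rw [he, integral_complex_ofReal] at hI
  exact fin_zero hχ hr h0 (by exact_mod_cast hI) hc h1 h3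

/-- Every orbit meets the set where the weight is positive. -/
theorem fin_ex (hL : Lat ρ) (hχ : Wei ρ χ) {Z : V3} (hZ : Z ∈ Co) :
    ∃ g : G, ∃ c : ℂ, c ≠ 0 ∧ ρ g *ᵥ Z ∈ Co ∧ c • (ρ g *ᵥ Z) ∈ Co ∧
      χ (c • (ρ g *ᵥ Z)) ≠ 0 ∧ 1 < NN (c • (ρ g *ᵥ Z)) ∧ NN (c • (ρ g *ᵥ Z)) < 3 := by
  have hex : ∃ g : G, χ (ρ g *ᵥ Z) ≠ 0 := by
    by_contra hno
    push Not at hno
    have h1 := hχ.sum Z hZ
    have h2 : (fun g : G => χ (ρ g *ᵥ Z)) = fun _ => 0 := funext hno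
    rw [h2] at h1
    exact zero_ne_one (hasSum_zero.unique h1)
  obtain ⟨g, hg⟩ := hex
  have hW : ρ g *ᵥ Z ∈ Co := mem_IsG (hL.isg g) hZ
  have hW' : 0 < NN (ρ g *ᵥ Z) := hW
  have hs : 0 < Real.sqrt (2 / NN (ρ g *ᵥ Z)) := Real.sqrt_pos.2 (by positivity)
  have hc : ((Real.sqrt (2 / NN (ρ g *ᵥ Z)) : ℝ) : ℂ) ≠ 0 := by exact_mod_cast hs.ne'
  have hN : NN (((Real.sqrt (2 / NN (ρ g *ᵥ Z)) : ℝ) : ℂ) • (ρ g *ᵥ Z)) = 2 := by
    rw [NN_smul, Complex.normSq_ofReal, Real.mul_self_sqrt (by positivity)]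
    field_simp
  refine ⟨g, _, hc, hW, smul_mem hc hW, ?_, ?_, ?_⟩
  · rw [hχ.hg _ hW _ hc]
    exact hg
  · rw [hN]
    norm_num
  · rw [hN]
    norm_num

theorem fin_mv (c : ℂ) (W : V3) : ((c • (1 : M3)) *ᵥ W) = c • W := by
  rw [Matrix.smul_mulVec, Matrix.one_mulVec]

/-- `db F` vanishes at `Z` if it vanishes at `c Z`, for homogeneous `F`. -/
theorem fin_db_hg {p : ℕ} {F : V3 → ℂ} (hF : Sm F) (hp : Hg p F) {Z : V3} (hZ : Z ∈ Co) {c : ℂ}
    (hc : c ≠ 0) (h : ∀ i, db i F (c • Z) = 0) (i : Fin 3) : db i F Z = 0 := by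
  have h1 := db_comp (c • (1 : M3)) hF (Z := Z) (by rw [fin_mv]; exact smul_mem hc hZ) i
  rw [fin_mv] at h1
  simp only [h, mul_zero, Finset.sum_const_zero] at h1
  have h2 : db i (fun W => F ((c • (1 : M3)) *ᵥ W)) Z = db i (fun W => c ^ p * F W) Z := by
    refine db_congr (fun W hW => ?_) hZ i
    rw [fin_mv, hp W hW c hc]
  rw [h2, db_cmul _ hF hZ] at h1
  exact (mul_eq_zero.1 h1).resolve_left (pow_ne_zero _ hc)

/-- `dz db F` vanishes at `Z` if it vanishes at `c Z`, for homogeneous `F`. -/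
theorem fin_dd_hg {p : ℕ} {F : V3 → ℂ} (hF : Sm F) (hp : Hg p F) {Z : V3} (hZ : Z ∈ Co) {c : ℂ}
    (hc : c ≠ 0) (h : ∀ k i, dz k (db i F) (c • Z) = 0) (k i : Fin 3) :
    dz k (db i F) Z = 0 := by
  have hm : ∀ W ∈ Co, (c • (1 : M3)) *ᵥ W ∈ Co := by
    intro W hW
    rw [fin_mv]
    exact smul_mem hc hW
  have h1 := dzdb_comp (c • (1 : M3)) hm hF hZ k i
  rw [fin_mv] at h1
  simp only [h, mul_zero, Finset.sum_const_zero] at h1
  have h3 : dz k (db i (fun W => F ((c • (1 : M3)) *ᵥ W))) Z = c ^ p * dz k (db i F) Z := by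
    rw [← dz_cmul (c ^ p) (hF.db i) hZ k]
    refine dz_congr (fun W hW => ?_) hZ k
    rw [← db_cmul (c ^ p) hF hW i]
    refine db_congr (fun V hV => ?_) hW i
    rw [fin_mv, hp V hV c hc]
  rw [h3] at h1
  exact (mul_eq_zero.1 h1).resolve_left (pow_ne_zero _ hc)

theorem fin_NN_cont {u : V3 → V3} (h : ∀ i, ContinuousOn (fun Z => u Z i) Co) :
    ContinuousOn (fun Z => NN (u Z)) Co :=
  cont_NN.comp_continuousOn (continuousOn_pi.2 h)

/-- **(H2) on the cone.** -/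
theorem pH2c (hEx : S_Ex1) (hDiv : S_Div) (hBEq : S_BEq) (hB1 : S_B1) (hP1 : S_Pos1)
    (hP2 : S_Pos2) : S_H2c := by
  intro G _ ρ hL hχe l hl
  obtain ⟨F, hF, hFh, hFc, hFb⟩ := hEx G ρ hL hχe l hl
  obtain ⟨χ, hχ⟩ := hχe
  refine ⟨F, hF, hFh, hFc, ?_⟩
  obtain ⟨hS, hB⟩ := hB1 F hF hFh hFb
  have hE := fun g => hBEq (ρ g) (hL.isg g) 1 F (l g) hF (hl.pol g) (hFc g)
  have hD := hDiv G ρ hL χ hχ (b1 F) hS (fun Z hZ => (hB Z hZ).1)
    (fun g Z hZ j => (hE g Z hZ).2.1 j)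
  have hph : ∀ Z ∈ Co, 0 ≤ ph F Z ∧ (ph F Z = 0 → ∀ i, db i F Z = 0) := by
    intro Z hZ
    obtain ⟨ha, hb⟩ := hP1 Z hZ (fun i => db i F Z) (hB Z hZ).2.1
    refine ⟨?_, fun h0 i => ?_⟩
    · unfold ph
      linarith
    · exact congrFun (hb (by unfold ph at h0; linarith)) i
  have hTP : ∀ Z ∈ Co, 0 ≤ NN (TP F Z 2) - NN (TP F Z 0) - NN (TP F Z 1) := by
    intro Z hZ
    exact (hP2 Z hZ (TP F Z) (hB Z hZ).2.2.1 (hB Z hZ).2.2.2.1).1
  have hTPc : ∀ k, ContinuousOn (fun Z => NN (TP F Z k)) Co := by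
    intro k
    refine fin_NN_cont fun i => ?_
    exact (((hF.db i).dz k).add ((((Sm.const (ep k)).mul (Sm.ccoord k)).mul (hF.db i)).div
      Sm.nn fun Z hZ => nn_ne hZ)).cont
  have hphc : ContinuousOn (ph F) Co := by
    have h1 : ContinuousOn (fun Z => NN (fun i => db i F Z)) Co :=
      fin_NN_cont fun i => (hF.db i).cont
    exact h1.neg
  have hr : ContinuousOn
      (fun Z => NN Z * (NN (TP F Z 2) - NN (TP F Z 0) - NN (TP F Z 1)) + ph F Z) Co :=
    ((cont_NN.continuousOn).mul (((hTPc 2).sub (hTPc 0)).sub (hTPc 1))).add hphc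
  have hr0 : ∀ Z ∈ Co,
      0 ≤ NN Z * (NN (TP F Z 2) - NN (TP F Z 0) - NN (TP F Z 1)) + ph F Z := by
    intro Z hZ
    have hN : 0 < NN Z := hZ
    exact add_nonneg (mul_nonneg hN.le (hTP Z hZ)) (hph Z hZ).1
  intro Z hZ
  obtain ⟨g, c, hc, hW, hcW, hx, h1, h3⟩ := fin_ex hL hχ hZ
  have hz := fin_zero' hχ hr hr0 (fun Z hZ => (hB Z hZ).2.2.2.2) hD hx h1 h3
  have hphW : ph F (c • (ρ g *ᵥ Z)) = 0 := by
    have hN : 0 < NN (c • (ρ g *ᵥ Z)) := hcW
    have ha := mul_nonneg hN.le (hTP _ hcW)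
    have hb := (hph _ hcW).1
    linarith
  have hdW := fin_db_hg hF hFh hW hc ((hph _ hcW).2 hphW)
  have hphg : ph F (ρ g *ᵥ Z) = 0 := by
    unfold ph
    have h4 : (fun i => db i F (ρ g *ᵥ Z)) = fun _ => 0 := funext hdW
    rw [h4]
    simp [NN]
  rw [(hE g Z hZ).1] at hphg
  exact (hph Z hZ).2 hphg

/-- **(H1) on the cone.** -/
theorem pH1c (hEx : S_Ex0) (hDiv : S_Div) (hBEq : S_BEq) (hB0 : S_B0) (hP2 : S_Pos2)
    (hDoe : S_Doe) : S_H1c := by
  intro G _ ρ hL hχe l hl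
  obtain ⟨F, hF, hFh, hFc, a, ha⟩ := hEx G ρ hL hχe l hl
  obtain ⟨χ, hχ⟩ := hχe
  refine ⟨F, hF, hFh, hFc, ?_⟩
  have hE := fun g => hBEq (ρ g) (hL.isg g) 0 F (l g) hF (hl.pol g) (hFc g)
  have hlc : ∀ g, ∃ b : ℂ, l g = fun _ => b := by
    intro g
    rcases hl.pol g with ⟨_, b, hb⟩ | ⟨h, _⟩
    · exact ⟨b, hb⟩
    · exact absurd h (by norm_num)
  have hD1 := hDiv G ρ hL χ hχ (fun k => dz k F) (fun k => hF.dz k)
    (fun Z hZ => by
      have h1 := euler_z hF hFh hZ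
      rw [Nat.cast_zero, zero_mul] at h1
      exact h1)
    (fun g Z hZ j => by
      obtain ⟨b, hb⟩ := hlc g
      have h1 := (hE g Z hZ).2.2.2 j
      rw [hb, dz_const, add_zero] at h1
      exact h1)
  have ha0 : a = 0 := by
    have he : (fun W => ((χ W * th (NN W) : ℝ) : ℂ) *
        (((NN W : ℝ) : ℂ) * ∑ k, ep k * db k (dz k F) W)) =
        fun W => ((χ W * th (NN W) : ℝ) : ℂ) * a := by
      funext W
      by_cases hW : W ∈ Co
      · have h1 : ∑ k, ep k * db k (dz k F) W = bx F W := by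
          unfold bx
          refine Finset.sum_congr rfl fun k _ => ?_
          rw [dz_db hF hW]
        rw [h1, ha W hW]
      · rw [fin_th_off hW]
        simp
    have hD1' : ∫ W, ((χ W * th (NN W) : ℝ) : ℂ) *
        (((NN W : ℝ) : ℂ) * ∑ k, ep k * db k (dz k F) W) = 0 := hD1
    rw [he, integral_mul_const, integral_complex_ofReal] at hD1'
    rcases mul_eq_zero.1 hD1' with h | h
    · have hp := (hDoe G ρ hL χ hχ).1
      have h' : ∫ W, χ W * th (NN W) = 0 := by exact_mod_cast h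
      exact absurd h' hp.ne'
    · exact h
  have hFb : ∀ Z ∈ Co, bx F Z = 0 := by
    intro Z hZ
    have h1 := ha Z hZ
    rw [ha0] at h1
    exact (mul_eq_zero.1 h1).resolve_left (nn_ne hZ)
  obtain ⟨hS, hB⟩ := hB0 F hF hFh hFb
  have hD := hDiv G ρ hL χ hχ (b0 F) hS (fun Z hZ => (hB Z hZ).1)
    (fun g Z hZ j => (hE g Z hZ).2.2.1 j)
  have hTT : ∀ Z ∈ Co, 0 ≤ NN (TT F Z 2) - NN (TT F Z 0) - NN (TT F Z 1) ∧
      (NN (TT F Z 2) - NN (TT F Z 0) - NN (TT F Z 1) = 0 → TT F Z = 0) := by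
    intro Z hZ
    exact hP2 Z hZ (TT F Z) (hB Z hZ).2.1 (hB Z hZ).2.2.1
  have hTTc : ∀ k, ContinuousOn (fun Z => NN (TT F Z k)) Co := by
    intro k
    exact fin_NN_cont fun i => ((hF.db i).dz k).cont
  have hr : ContinuousOn
      (fun Z => NN Z ^ 2 * (NN (TT F Z 2) - NN (TT F Z 0) - NN (TT F Z 1))) Co :=
    ((cont_NN.pow 2).continuousOn).mul (((hTTc 2).sub (hTTc 0)).sub (hTTc 1))
  have hr0 : ∀ Z ∈ Co,
      0 ≤ NN Z ^ 2 * (NN (TT F Z 2) - NN (TT F Z 0) - NN (TT F Z 1)) := by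
    intro Z hZ
    exact mul_nonneg (sq_nonneg _) (hTT Z hZ).1
  intro Z hZ
  obtain ⟨g, c, hc, hW, hcW, hx, h1, h3⟩ := fin_ex hL hχ hZ
  have hz := fin_zero' hχ hr hr0 (fun Z hZ => (hB Z hZ).2.2.2) hD hx h1 h3
  have hTW : TT F (c • (ρ g *ᵥ Z)) = 0 := by
    have hN : 0 < NN (c • (ρ g *ᵥ Z)) := hcW
    refine (hTT _ hcW).2 ?_
    exact (mul_eq_zero.1 hz).resolve_left (pow_ne_zero 2 hN.ne')
  have hdW := fin_dd_hg hF hFh hW hc (fun k i => congrFun (congrFun hTW k) i)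
  intro k i
  have h4 := dzdb_comp (ρ g) (fun W hW => mem_IsG (hL.isg g) hW) hF hZ k i
  simp only [hdW, mul_zero, Finset.sum_const_zero] at h4
  obtain ⟨b, hb⟩ := hlc g
  have h5 : dz k (db i (fun W => F (ρ g *ᵥ W))) Z = dz k (db i F) Z := by
    refine dz_congr (fun W hW => ?_) hZ k
    have h6 : db i (fun W => F (ρ g *ᵥ W)) W = db i (fun W => F W + b) W := by
      refine db_congr (fun V hV => ?_) hW i
      rw [hFc g V hV, hb]
    rw [h6, db_add hF (Sm.const b) hW, db_const, add_zero]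
  rw [← h5]
  exact h4

end CMT.J3
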