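import Mathlib

/-!
PROJECT CMT, part J3 (helper45): abstract fixed point lemmas for the averaging operator.
-/

open Filter Topology

namespace CMT.J3

variable {X : Type*} [TopologicalSpace X]

/-- Convergence of a telescoping series with weight. -/
theorem tele {B : Set X} {w : X → ℝ} (hw : ContinuousOn w B) (hw0 : ∀ z ∈ B, 0 < w z)
    {q C : ℝ} (hq0 : 0 ≤ q) (hq1 : q < 1) (F : ℕ → X → ℂ) (hF : ∀ n, ContinuousOn (F n) B)
    (hd : ∀ n, ∀ z ∈ B, ‖F (n + 1) z - F n z‖ ≤ C * q ^ n * w z) :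
    ∃ U : X → ℂ, ContinuousOn U B ∧ (∀ z ∈ B, Tendsto (fun n => F n z) atTop (𝓝 (U z))) ∧
      ∀ n, ∀ z ∈ B, ‖U z - F n z‖ ≤ C / (1 - q) * q ^ n * w z := by
  have hs : Summable fun n : ℕ => C * q ^ n := (summable_geometric_of_lt_one hq0 hq1).mul_left C
  have hb : ∀ n, ∀ z ∈ B, ‖(F (n + 1) z - F n z) / (w z : ℂ)‖ ≤ C * q ^ n := by
    intro n z hz
    rw [norm_div, Complex.norm_real, Real.norm_eq_abs, abs_of_pos (hw0 z hz),
      div_le_iff₀ (hw0 z hz)]
    exact hd n z hz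
  have hwC : ContinuousOn (fun z => (w z : ℂ)) B := Complex.continuous_ofReal.comp_continuousOn hw
  have hne : ∀ z ∈ B, (w z : ℂ) ≠ 0 := fun z hz => Complex.ofReal_ne_zero.2 (hw0 z hz).ne'
  have hc : ContinuousOn (fun z => ∑' n, (F (n + 1) z - F n z) / (w z : ℂ)) B :=
    continuousOn_tsum (fun n => ((hF (n + 1)).sub (hF n)).div hwC hne) hs hb
  refine ⟨fun z => F 0 z + (∑' n, (F (n + 1) z - F n z) / (w z : ℂ)) * (w z : ℂ),
    (hF 0).add (hc.mul hwC), ?_, ?_⟩
  · intro z hz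
    have hsum : Summable fun n => (F (n + 1) z - F n z) / (w z : ℂ) :=
      Summable.of_norm_bounded hs fun n => hb n z hz
    have h1 := hsum.hasSum.tendsto_sum_nat
    have h2 : ∀ n, ∑ i ∈ Finset.range n, (F (i + 1) z - F i z) / (w z : ℂ) =
        (F n z - F 0 z) / (w z : ℂ) := by
      intro n
      rw [← Finset.sum_div, Finset.sum_range_sub (fun n => F n z) n]
    simp only [h2] at h1
    have h3 := (h1.mul_const (w z : ℂ)).const_add (F 0 z)
    refine h3.congr fun n => ?_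
    rw [div_mul_cancel₀ _ (hne z hz)]
    ring
  · intro n z hz
    have hsum : Summable fun n => (F (n + 1) z - F n z) / (w z : ℂ) :=
      Summable.of_norm_bounded hs fun n => hb n z hz
    have h4 := hsum.sum_add_tsum_nat_add n
    have h2 : ∑ i ∈ Finset.range n, (F (i + 1) z - F i z) / (w z : ℂ) =
        (F n z - F 0 z) / (w z : ℂ) := by
      rw [← Finset.sum_div, Finset.sum_range_sub (fun n => F n z) n]
    have h5 : F 0 z + (∑' n, (F (n + 1) z - F n z) / (w z : ℂ)) * (w z : ℂ) - F n z =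
        (∑' i, (F (i + n + 1) z - F (i + n) z) / (w z : ℂ)) * (w z : ℂ) := by
      rw [← h4, h2, add_mul, div_mul_cancel₀ _ (hne z hz)]
      ring
    rw [h5, norm_mul, Complex.norm_real, Real.norm_eq_abs, abs_of_pos (hw0 z hz)]
    refine mul_le_mul_of_nonneg_right ?_ (hw0 z hz).le
    have h6 : HasSum (fun i : ℕ => C * q ^ (i + n)) (C / (1 - q) * q ^ n) := by
      have := ((hasSum_geometric_of_lt_one hq0 hq1).mul_left C).mul_right (q ^ n)
      have e : C * (1 - q)⁻¹ * q ^ n = C / (1 - q) * q ^ n := by rw [div_eq_mul_inv]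
      rw [e] at this
      refine this.congr_fun fun i => ?_
      rw [pow_add]; ring
    exact tsum_of_norm_bounded h6 fun i => hb (i + n) z hz

/-- The fixed point, contraction case. `T` is linear on the continuous functions and contracts the
weighted sup norm by `q < 1`; `T U0 - U0` is bounded. -/
theorem fix_one {B : Set X} {w : X → ℝ} (hw : ContinuousOn w B) (hw0 : ∀ z ∈ B, 0 < w z)
    (T : (X → ℂ) → X → ℂ) {q : ℝ} (hq0 : 0 ≤ q) (hq1 : q < 1)
    (hTc : ∀ F, ContinuousOn F B → ContinuousOn (T F) B)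
    (hTs : ∀ F G, ContinuousOn F B → ContinuousOn G B → ∀ z ∈ B, T (F - G) z = T F z - T G z)
    (hTb : ∀ G, ContinuousOn G B → ∀ M, (∀ z ∈ B, ‖G z‖ ≤ M * w z) →
      ∀ z ∈ B, ‖T G z‖ ≤ q * M * w z)
    {U0 : X → ℂ} (hU0 : ContinuousOn U0 B) {M : ℝ}
    (hM : ∀ z ∈ B, ‖T U0 z - U0 z‖ ≤ M * w z) :
    ∃ U : X → ℂ, ContinuousOn U B ∧ (∀ z ∈ B, T U z = U z) ∧
      (∀ z ∈ B, Tendsto (fun n => T^[n] U0 z) atTop (𝓝 (U z))) := by
  have hcont : ∀ n, ContinuousOn (T^[n] U0) B := by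
    intro n
    induction n with
    | zero => exact hU0
    | succ n ih => rw [Function.iterate_succ_apply']; exact hTc _ ih
  have hd : ∀ n, ∀ z ∈ B, ‖T^[n + 1] U0 z - T^[n] U0 z‖ ≤ M * q ^ n * w z := by
    intro n
    induction n with
    | zero =>
      intro z hz
      simpa using hM z hz
    | succ n ih =>
      intro z hz
      have h1 := hTb (T^[n + 1] U0 - T^[n] U0) ((hcont (n + 1)).sub (hcont n)) (M * q ^ n) ih z hz
      rw [hTs _ _ (hcont (n + 1)) (hcont n) z hz] at h1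
      rw [Function.iterate_succ_apply' T (n + 1), Function.iterate_succ_apply' T n]
      rw [Function.iterate_succ_apply' T n] at h1
      refine h1.trans_eq ?_
      ring
  obtain ⟨U, hU, hlim, hest⟩ := tele hw hw0 hq0 hq1 (fun n => T^[n] U0) hcont hd
  refine ⟨U, hU, fun z hz => ?_, hlim⟩
  -- `T U - T^(n+1) U0` tends to zero
  have h1 : ∀ n, ‖T U z - T^[n + 1] U0 z‖ ≤ q * (M / (1 - q) * q ^ n) * w z := by
    intro n
    have h2 := hTb (U - T^[n] U0) (hU.sub (hcont n)) (M / (1 - q) * q ^ n)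
      (fun z hz => hest n z hz) z hz
    rw [hTs _ _ hU (hcont n) z hz] at h2
    rw [Function.iterate_succ_apply' T n]
    exact h2
  have h3 : Tendsto (fun n => T^[n + 1] U0 z) atTop (𝓝 (T U z)) := by
    rw [tendsto_iff_norm_sub_tendsto_zero]
    have h4 : Tendsto (fun n : ℕ => q * (M / (1 - q) * q ^ n) * w z) atTop (𝓝 0) := by
      have := (((tendsto_pow_atTop_nhds_zero_of_lt_one hq0 hq1).const_mul (M / (1 - q))).const_mul
        q).mul_const (w z)
      simpa using this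
    refine squeeze_zero (fun _ => norm_nonneg _) (fun n => ?_) h4
    rw [norm_sub_rev]
    exact h1 n
  exact tendsto_nhds_unique h3 ((tendsto_add_atTop_iff_nat 1).2 (hlim z hz))

/-- The fixed point up to a constant, Doeblin case. `T` is linear on a class `I` of functions,
contracts the oscillation on `J ⊆ I` by `q < 1`, and preserves constants. -/
theorem fix_zero {B : Set X} {z0 : X} (hz0 : z0 ∈ B)
    (T : (X → ℂ) → X → ℂ) {q : ℝ} (hq0 : 0 ≤ q) (hq1 : q < 1)
    (hTc : ∀ F, ContinuousOn F B → ContinuousOn (T F) B)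
    (hTs : ∀ F G, ContinuousOn F B → ContinuousOn G B → ∀ z ∈ B, T (F - G) z = T F z - T G z)
    (hTb : ∀ G, ContinuousOn G B → ∀ M, (∀ z ∈ B, ‖G z‖ ≤ M) → ∀ z ∈ B, ‖T G z‖ ≤ M)
    (hT1 : ∀ c : ℂ, ∀ z ∈ B, T (fun _ => c) z = c)
    (J : (X → ℂ) → Prop) (hJT : ∀ G, J G → J (T G))
    (hosc : ∀ G, J G → ∀ M, (∀ z ∈ B, ∀ z' ∈ B, ‖G z - G z'‖ ≤ M) →
      ∀ z ∈ B, ∀ z' ∈ B, ‖T G z - T G z'‖ ≤ q * M)
    {U0 D0 : X → ℂ} (hU0 : ContinuousOn U0 B) (hJ0 : J D0)
    (hD0 : ∀ n, ∀ z ∈ B, T^[n + 1] U0 z - T^[n] U0 z = T^[n] D0 z)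
    {M : ℝ} (hM : ∀ z ∈ B, ∀ z' ∈ B, ‖D0 z - D0 z'‖ ≤ M) :
    ∃ (U : X → ℂ) (κ : ℂ), ContinuousOn U B ∧ (∀ z ∈ B, T U z = U z + κ) ∧
      (∀ z ∈ B, Tendsto (fun n => T^[n] U0 z - T^[n] U0 z0) atTop (𝓝 (U z))) := by
  have hcont : ∀ n, ContinuousOn (T^[n] U0) B := by
    intro n
    induction n with
    | zero => exact hU0
    | succ n ih => rw [Function.iterate_succ_apply']; exact hTc _ ih
  have hJn : ∀ n, J (T^[n] D0) := by
    intro n
    induction n with
    | zero => exact hJ0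
    | succ n ih => rw [Function.iterate_succ_apply']; exact hJT _ ih
  have ho : ∀ n, ∀ z ∈ B, ∀ z' ∈ B, ‖T^[n] D0 z - T^[n] D0 z'‖ ≤ M * q ^ n := by
    intro n
    induction n with
    | zero =>
      intro z hz z' hz'
      simpa using hM z hz z' hz'
    | succ n ih =>
      intro z hz z' hz'
      have h1 := hosc _ (hJn n) (M * q ^ n) ih z hz z' hz'
      rw [Function.iterate_succ_apply' T n]
      refine h1.trans_eq ?_
      ring
  obtain ⟨U, hU, hlim, hest⟩ := tele (B := B) (w := fun _ => 1) continuousOn_const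
    (fun _ _ => one_pos) hq0 hq1 (C := M) (fun n z => T^[n] U0 z - T^[n] U0 z0)
    (fun n => (hcont n).sub continuousOn_const) (fun n z hz => by
      have e : T^[n + 1] U0 z - T^[n + 1] U0 z0 - (T^[n] U0 z - T^[n] U0 z0) =
          T^[n] D0 z - T^[n] D0 z0 := by
        rw [← hD0 n z hz, ← hD0 n z0 hz0]; ring
      show ‖T^[n + 1] U0 z - T^[n + 1] U0 z0 - (T^[n] U0 z - T^[n] U0 z0)‖ ≤ _
      rw [e, mul_one]
      exact ho n z hz z0 hz0)
  -- `T` of the approximants
  have hTn : ∀ n, ∀ z ∈ B, T (fun z => T^[n] U0 z - T^[n] U0 z0) z =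
      T^[n + 1] U0 z - T^[n] U0 z0 := by
    intro n z hz
    have h1 := hTs (T^[n] U0) (fun _ => T^[n] U0 z0) (hcont n) continuousOn_const z hz
    rw [hT1 _ z hz, ← Function.iterate_succ_apply' T n] at h1
    exact h1
  have hTlim : ∀ z ∈ B, Tendsto (fun n => T^[n + 1] U0 z - T^[n] U0 z0) atTop (𝓝 (T U z)) := by
    intro z hz
    have h1 : ∀ n, ‖T U z - (T^[n + 1] U0 z - T^[n] U0 z0)‖ ≤ M / (1 - q) * q ^ n := by
      intro n
      have hc : ContinuousOn (fun z => T^[n] U0 z - T^[n] U0 z0) B :=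
        (hcont n).sub continuousOn_const
      have h2 := hTb (U - fun z => T^[n] U0 z - T^[n] U0 z0) (hU.sub hc) (M / (1 - q) * q ^ n)
        (fun z hz => by
          have := hest n z hz
          rw [mul_one] at this
          exact this) z hz
      rw [hTs _ _ hU hc z hz, hTn n z hz] at h2
      exact h2
    rw [tendsto_iff_norm_sub_tendsto_zero]
    have h4 : Tendsto (fun n : ℕ => M / (1 - q) * q ^ n) atTop (𝓝 0) := by
      have := (tendsto_pow_atTop_nhds_zero_of_lt_one hq0 hq1).const_mul (M / (1 - q))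
      simpa using this
    refine squeeze_zero (fun _ => norm_nonneg _) (fun n => ?_) h4
    rw [norm_sub_rev]
    exact h1 n
  have hU0' : U z0 = 0 := by
    have h1 := hlim z0 hz0
    simp only [sub_self] at h1
    exact (tendsto_nhds_unique h1 tendsto_const_nhds)
  refine ⟨U, T U z0, hU, fun z hz => ?_, hlim⟩
  have h1 := (hTlim z hz).sub (hTlim z0 hz0)
  have h2 : Tendsto (fun n => T^[n + 1] U0 z - T^[n + 1] U0 z0) atTop (𝓝 (U z)) :=
    (tendsto_add_atTop_iff_nat 1).2 (hlim z hz)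
  have h3 := tendsto_nhds_unique (h1.congr fun n => by ring) h2
  rw [← h3]
  ring

end CMT.J3
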