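import Pool.Agent.Lib.CMT.J3.Defs

/-!
# PROJECT CMT, part J3 : interfaces (helper34)

Target: `S_H1`, `S_H2` of `CMT/J/Iface.lean` (note 4367, (H1) and (H2)).

STRATEGY.  All functions live on the cone `Co ⊂ ℂ³`.  `Av T p` commutes with `U(2,1)` (`S_AvG`),
hence with the vector fields `dX X` (`S_Comm`), hence with the Casimir operator, hence
`N □ (Av Φ) = Av (N □ Φ)` for `Φ` of degree `p` (`S_Cas`, `S_BxAv`).  Polynomials are eigenfunctions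
(`S_Eig`), on sections `Av` is smaller than its eigenvalue (`S_AvBd`, `S_KaLa`, `S_Doe`), so a
Neumann series corrects `F0 = -∑ χ(gZ) l_g(Z)` to `F` with `Av F = la F` (`+ const` if `p = 0`),
`F(gZ) = F(Z) + l_g(Z)`; `F` is smooth (`S_AvSm`); `N □ F` is an invariant section fixed by
`Av / la`, so `0` (constant if `p = 0`).  Divergence theorem `S_Div`, Bochner identities `S_B1`,
`S_B0`: `∂̄F = 0` if `p = 1`, `∂∂̄F = 0` if `p = 0`.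

Derivatives on `Co` (open): the calculus is in `J3/Wirt.lean` (names listed there).
-/

open scoped BigOperators ComplexConjugate ContDiff
open MeasureTheory Matrix

noncomputable section

namespace CMT.J3

/-! ## A. algebra (`J3/Alg.lean`) -/

/-- `gᴴ J g = J`, `g J gᴴ = J`, `|det g| = 1`. -/
def S_GJ : Prop := ∀ g : M3, IsG g → gᴴ * diagonal ep * g = diagonal ep ∧
  g * diagonal ep * gᴴ = diagonal ep ∧ Complex.normSq g.det = 1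

/-- Reverse Cauchy-Schwarz. -/
def S_RCS : Prop := ∀ Z ∈ Co, ∀ W ∈ Co, NN Z * NN W ≤ Complex.normSq (hh Z W)

/-- `|hh Z W| ≥ |W₂| (|Z₂| - √(|Z₀|²+|Z₁|²))` if `NN W ≥ 0`; minimum over a compact set. -/
def S_HhLow : Prop := ∀ C : Set V3, IsCompact C → C ⊆ Co →
  ∃ δ : ℝ, 0 < δ ∧ ∀ Z ∈ C, ∀ W : V3, 0 ≤ NN W → δ * ‖W‖ ≤ ‖hh Z W‖

/-- Transitivity.  `z = u Z/√N` with a phase `u` such that `z₂ > 0` (so `z₂ ≥ 1`); if `z = e3` take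
a scalar; otherwise the reflection `x ↦ x - 2 hh(x,v)/hh(v,v) v`, `v = z - e3`,
`hh(v,v) = 2(z₂ - 1) > 0`, maps `z` to `e3`. -/
def S_Trans : Prop := ∀ Z ∈ Co, ∃ g : M3, IsG g ∧ ∃ c : ℂ, c ≠ 0 ∧ g *ᵥ Z = c • e3

/-- Vectors orthogonal to a negative vector are positive (`(u₀,u₁,-u₂) ⊥ Z`). -/
def S_Pos1 : Prop := ∀ Z ∈ Co, ∀ u : V3, ∑ i, conj (Z i) * u i = 0 →
  NN u ≤ 0 ∧ (NN u = 0 → u = 0)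

/-- The same for tensors: rows `τ_k = A k`, all `⊥ Z` in the sense of `S_Pos1`, and
`Z₀τ₀ + Z₁τ₁ + Z₂τ₂ = 0`.  With `h = -NN` (a semi inner product on `U = {u : ∑ Z̄_i u_i = 0}`):
`|Z₂|² (h τ₀ + h τ₁ - h τ₂) = |Z₂|²(h τ₀ + h τ₁) - h(Z₀τ₀ + Z₁τ₁)
  = NN Z (h τ₀ + h τ₁) + h(Z̄₁τ₀ - Z̄₀τ₁)`. -/
def S_Pos2 : Prop := ∀ Z ∈ Co, ∀ A : M3, (∀ i, ∑ k, Z k * A k i = 0) →
  (∀ k, ∑ i, conj (Z i) * A k i = 0) →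
  0 ≤ NN (A 2) - NN (A 0) - NN (A 1) ∧ (NN (A 2) - NN (A 0) - NN (A 1) = 0 → A = 0)

/-! ## B. measure (`J3/Meas.lean`) -/

/-- Invariance of Lebesgue measure: the real determinant of `g` is `|det g|² = 1`
(`LinearMap.det_restrictScalars`-type lemma, or an invariant Haar measure argument:
`g` and `g⁻¹`-orbits; `J gᴴ J = g⁻¹` and `det_ℝ gᴴ = det_ℝ g`). -/
def S_Meas : Prop := ∀ g : M3, IsG g → ∀ I : V3 → ℂ, ∫ W, I (g *ᵥ W) = ∫ W, I W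

/-! ## C. the kernel (`J3/Ker.lean`) -/

/-- `Ke Z W ≠ 0` implies `1 ≤ NN W ≤ 3` and `|hh Z W|² ≤ 3 T NN Z`; by `S_HhLow` `‖W‖ ≤ R`. -/
def S_KeCpt : Prop := ∀ (T : ℝ) (p : ℕ) (C : Set V3), IsCompact C → C ⊆ Co →
  ∃ C' : Set V3, IsCompact C' ∧ C' ⊆ Co ∧ ∀ Z ∈ C, ∀ W, W ∉ C' → Ke T p Z W = 0

/-- The kernel is smooth on `Co ×ˢ univ` (near `NN W < 1` it vanishes). -/
def S_KeSm : Prop := ∀ (T : ℝ) (p : ℕ),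
  ContDiffOn ℝ ∞ (fun q : V3 × V3 => Ke T p q.1 q.2) (Co ×ˢ Set.univ)

/-- Integrability. -/
def S_AvInt : Prop := ∀ (T : ℝ) (p : ℕ) (Φ : V3 → ℂ), ContinuousOn Φ Co → ∀ Z ∈ Co,
  Integrable (fun W => Ke T p Z W * Φ W)

/-- Smoothness of averages: locally near `Z₀` (compact neighbourhood `C`, `S_KeCpt`) apply
`contDiffOn_convolution_right_with_param` to `f = indicator of C' times Φ` and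
`g Z x = Ke T p Z (-x)`, at the point `0`. -/
def S_AvSm : Prop := ∀ (T : ℝ) (p : ℕ) (Φ : V3 → ℂ), ContinuousOn Φ Co → Sm (Av T p Φ)

/-! ## D. eigenvalues and bounds (`J3/Eig.lean`) -/

/-- `Ke (gZ) (gW) = Ke Z W` and `S_Meas`. -/
def S_AvG : Prop := ∀ (T : ℝ) (p : ℕ) (g : M3), IsG g → ∀ (Φ : V3 → ℂ) (Z : V3),
  Av T p (fun W => Φ (g *ᵥ W)) Z = Av T p Φ (g *ᵥ Z)

/-- Averages are homogeneous of degree `p`. -/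
def S_AvHg : Prop := ∀ (T : ℝ) (p : ℕ) (Φ : V3 → ℂ), Hg p (Av T p Φ)

/-- Polynomials are eigenfunctions.  `p = 1`: `V(Z)_i = Av (W ↦ W_i) Z` satisfies
`V(gZ) = g V(Z)`, `V(cZ) = c V(Z)`; `V(e3) = (0,0,la)` by the changes of variables
`W₀ ↦ -W₀` and `W₁ ↦ -W₁` (they are in `U(2,1)`) and `tt e3 W = |W₂|²/NN W`; conclude by
`S_Trans`. -/
def S_Eig : Prop := ∀ (T : ℝ) (p : ℕ) (l : V3 → ℂ), IsPol p l → ∀ Z ∈ Co,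
  Av T p l Z = ((la T p : ℝ) : ℂ) * l Z

/-- `‖Ke Z W‖ √(NN W)^p = √(tt Z W)^p √(NN Z)^p kk th`, and the integral of
`√(tt Z W)^p kk(tt Z W) th(NN W)` is independent of `Z` (`S_Trans`, `S_Meas`). -/
def S_AvBd : Prop := ∀ (T : ℝ) (p : ℕ) (Φ : V3 → ℂ), ContinuousOn Φ Co → ∀ M : ℝ,
  (∀ Z ∈ Co, ‖Φ Z‖ ≤ M * Real.sqrt (NN Z) ^ p) →
  ∀ Z ∈ Co, ‖Av T p Φ Z‖ ≤ M * ka T p * Real.sqrt (NN Z) ^ p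

/-- `tt > 1` on an open set where the cutoffs are positive (near `W = (1,0,√3)`, `tt = 3/2`). -/
def S_KaLa : Prop := ∀ T : ℝ, 2 ≤ T → 0 ≤ ka T 1 ∧ ka T 1 < la T 1 ∧ 0 < la T 0

/-- Doeblin condition, `p = 0`.  Let `C` be compact, containing the compact sets of `Lat.cc` and
`Wei.cpt`, `T₀ = 1 + max(2, sup_{C × C} tt)`.  For `Z ∈ Co` there are `g, c` with `c • gZ ∈ C`, and
`Av u Z = Av u (c • gZ)`, so let `Z ∈ C`.  Then `kk T (tt Z W) = 1 ≥ χ(W)` wherever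
`χ(W) th(NN W) ≠ 0` (`χ ≤ 1` by `Wei.sum`), and
`Av u Z - ∫ χ th u = ∫ (kk - χ) th u`, `∫ (kk - χ) th = la T 0 - ∫ χ th`. -/
def S_Doe : Prop := ∀ (G : Type) [Group G] (ρ : G →* M3), Lat ρ → ∀ χ : V3 → ℝ, Wei ρ χ →
  0 < ∫ W, χ W * th (NN W) ∧
  ∃ T : ℝ, 2 ≤ T ∧ ∀ u : V3 → ℂ, Sec ρ 0 u → ∀ M : ℝ, (∀ Z ∈ Co, ‖u Z‖ ≤ M) → ∀ Z ∈ Co,
    ‖Av T 0 u Z - ∫ W, ((χ W * th (NN W) : ℝ) : ℂ) * u W‖ ≤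
      (la T 0 - ∫ W, χ W * th (NN W)) * M

/-! ## E. commutation (`J3/Comm.lean`, `J3/Cas.lean`) -/

/-- `g_s = 1 + a(s) X + b(s) X²` is in `U(2,1)`, `g_0 = 1`, `g_0' = X`
(`a, b = sinh, cosh - 1` or `sin, 1 - cos`; `2b - a² ± b² = 0`).
Differentiate `Av Φ (g_s Z) = Av (Φ ∘ g_s) (Z)` at `s = 0`; under the integral by
`hasDerivAt_integral_of_dominated_loc_of_deriv_le`, the bound from compactness of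
`{g_s W : |s| ≤ 1, W ∈ C'} ⊂ Co`, `C'` from `S_KeCpt` for `C = {Z}`. -/
def S_Comm : Prop := ∀ (T : ℝ) (p : ℕ) (X : M3), IsLie X → ∀ Φ : V3 → ℂ, Sm Φ → ∀ Z ∈ Co,
  dX X (Av T p Φ) Z = Av T p (dX X Φ) Z

/-- Casimir identity.  `dX X (dX X Φ) W = B(XW,XW) + L(X²W)`, `B = D²Φ(W)` symmetric real
bilinear, `L = DΦ(W)`.  `∑ X²`-part: `½ ∑ Xn² - ½ ∑ Yo² - ∑ Yd² = 3`.  `B`-part: polynomial
identity `½ ∑ B(Xn W,Xn W) - ½ ∑ B(Yo W,Yo W) - ∑ B(Yd W,Yd W) =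
  ½ NN W ∑ ε_i (B(e_i,e_i) + B(ie_i,ie_i)) + ½ (B(W,W) - B(iW,iW))`.
Homogeneity: `L(W) = pΦ`, `L(iW) = ipΦ`, `B(W,W) = p(p-1)Φ`, `B(iW,iW) = (p - p²)Φ`. -/
def S_Cas : Prop := ∀ (p : ℕ) (Φ : V3 → ℂ), Sm Φ → Hg p Φ → ∀ Z ∈ Co,
  Cas Φ Z = (p : ℂ) * (p + 2) * Φ Z + 2 * ((NN Z : ℝ) : ℂ) * bx Φ Z

/-- From `S_Comm` (nine times, twice each), `S_Cas` for `Φ` and `Av Φ`. -/
def S_BxAv : Prop := ∀ (T : ℝ) (p : ℕ) (Φ : V3 → ℂ), Sm Φ → Hg p Φ → ∀ Z ∈ Co,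
  ((NN Z : ℝ) : ℂ) * bx (Av T p Φ) Z = Av T p (fun W => ((NN W : ℝ) : ℂ) * bx Φ W) Z

/-- `□` commutes with `U(2,1)` (chain rule twice, `g J gᴴ = J`) and with scalars (`|c|²`). -/
def S_BxG : Prop := (∀ g : M3, IsG g → ∀ Φ : V3 → ℂ, Sm Φ → ∀ Z ∈ Co,
    bx (fun W => Φ (g *ᵥ W)) Z = bx Φ (g *ᵥ Z)) ∧
  ∀ (p : ℕ) (Φ : V3 → ℂ), Sm Φ → Hg p Φ → Hg p (fun Z => ((NN Z : ℝ) : ℂ) * bx Φ Z)

/-! ## F. existence (`J3/Neu.lean`, `J3/F0.lean`, `J3/Ex.lean`) -/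

/-- Neumann series in the space of sections (explicit series `∑ A^j u₀`, locally uniformly
convergent: divide by `√(NN Z)^p`). -/
def S_Neu : Prop := ∀ (G : Type) [Group G] (ρ : G →* M3) (p : ℕ) (A : (V3 → ℂ) → V3 → ℂ) (q : ℝ),
  0 ≤ q → q < 1 → (∀ u, Sec ρ p u → Sec ρ p (A u)) →
  (∀ u v, Sec ρ p u → Sec ρ p v → ∀ Z ∈ Co, A (fun W => u W + v W) Z = A u Z + A v Z) →
  (∀ u, Sec ρ p u → ∀ M : ℝ, (∀ Z ∈ Co, ‖u Z‖ ≤ M * Real.sqrt (NN Z) ^ p) →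
    ∀ Z ∈ Co, ‖A u Z‖ ≤ q * M * Real.sqrt (NN Z) ^ p) →
  ∀ u0 : V3 → ℂ, Sec ρ p u0 → (∃ M : ℝ, ∀ Z ∈ Co, ‖u0 Z‖ ≤ M * Real.sqrt (NN Z) ^ p) →
  ∃ u, Sec ρ p u ∧ (∃ M : ℝ, ∀ Z ∈ Co, ‖u Z‖ ≤ M * Real.sqrt (NN Z) ^ p) ∧
    ∀ Z ∈ Co, u Z = A u Z + u0 Z

/-- Sections are bounded (cocompactness). -/
def S_Bdd : Prop := ∀ (G : Type) [Group G] (ρ : G →* M3), Lat ρ → ∀ (p : ℕ) (u : V3 → ℂ),
  Sec ρ p u → ∃ M : ℝ, ∀ Z ∈ Co, ‖u Z‖ ≤ M * Real.sqrt (NN Z) ^ p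

/-- `F0 Z = -∑_g χ(gZ) l_g(Z)` (locally finite by `Lat.pd`, `Wei.cpt`, homogeneity). -/
def S_F0 : Prop := ∀ (G : Type) [Group G] (ρ : G →* M3), Lat ρ → ∀ χ : V3 → ℝ, Wei ρ χ →
  ∀ (p : ℕ) (l : G → V3 → ℂ), Cyc ρ p l → ∃ F0 : V3 → ℂ, ContinuousOn F0 Co ∧ Hg p F0 ∧
    ∀ g, ∀ Z ∈ Co, F0 (ρ g *ᵥ Z) = F0 Z + l g Z

/-- Existence, `p = 1`. -/
def S_Ex1 : Prop := ∀ (G : Type) [Group G] (ρ : G →* M3), Lat ρ → (∃ χ : V3 → ℝ, Wei ρ χ) →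
  ∀ l : G → V3 → ℂ, Cyc ρ 1 l → ∃ F : V3 → ℂ, Sm F ∧ Hg 1 F ∧
    (∀ g, ∀ Z ∈ Co, F (ρ g *ᵥ Z) = F Z + l g Z) ∧ ∀ Z ∈ Co, bx F Z = 0

/-- Existence, `p = 0`, up to the constant `N □ F = a`. -/
def S_Ex0 : Prop := ∀ (G : Type) [Group G] (ρ : G →* M3), Lat ρ → (∃ χ : V3 → ℝ, Wei ρ χ) →
  ∀ l : G → V3 → ℂ, Cyc ρ 0 l → ∃ F : V3 → ℂ, Sm F ∧ Hg 0 F ∧
    (∀ g, ∀ Z ∈ Co, F (ρ g *ᵥ Z) = F Z + l g Z) ∧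
    ∃ a : ℂ, ∀ Z ∈ Co, ((NN Z : ℝ) : ℂ) * bx F Z = a

/-! ## G. divergence theorem and Bochner identities -/

/-- Divergence theorem (`J3/Div.lean`).  Integration by parts: `χ th(NN) b_k` has compact support
in `Co`; `∂̄_k (N th(N)) = (N th)'(N) (-ε_k Z_k)` gives `0` by `∑ Z_k b_k = 0`.  So the integral is
`- ∫ P(χ) th`, `P(χ) = N ∑ ε_k (∂̄_k χ) b_k`, `P(χ)(gZ) = P(χ ∘ g)(Z)` (`S_GJ`), and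
`∫ P(χ) th = ∫ (∑_g χ∘g) P(χ) th = ∑_g ∫ χ P(χ∘g⁻¹) th = ∫ χ P(1) th = 0` (finite sums on a compact
neighbourhood of the support, `Lat.pd`). -/
def S_Div : Prop := ∀ (G : Type) [Group G] (ρ : G →* M3), Lat ρ → ∀ χ : V3 → ℝ, Wei ρ χ →
  ∀ b : Fin 3 → V3 → ℂ, (∀ k, Sm (b k)) → (∀ Z ∈ Co, ∑ k, Z k * b k Z = 0) →
  (∀ g, ∀ Z ∈ Co, ∀ j, ∑ k, ρ g k j * b k (ρ g *ᵥ Z) = b j Z) →
  ∫ W, ((χ W * th (NN W) : ℝ) : ℂ) * (((NN W : ℝ) : ℂ) * ∑ k, ep k * db k (b k) W) = 0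

/-- `φ = ∑ ε_i |∂̄_i F|²`. -/
def ph (F : V3 → ℂ) (Z : V3) : ℝ := -NN (fun i => db i F Z)

/-- The Bochner field for `p = 1`. -/
def b1 (F : V3 → ℂ) (k : Fin 3) (Z : V3) : ℂ :=
  ∑ i, ep i * (dz k (db i F) Z * conj (db i F Z)) +
    ((ph F Z : ℝ) : ℂ) / ((NN Z : ℝ) : ℂ) * (ep k * conj (Z k))

/-- The Bochner field for `p = 0`. -/
def b0 (F : V3 → ℂ) (k : Fin 3) (Z : V3) : ℂ :=
  ((NN Z : ℝ) : ℂ) * ∑ i, ep i * (dz k (db i F) Z * conj (db i F Z))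

/-- `T_{ki} = ∂_k ∂̄_i F`. -/
def TT (F : V3 → ℂ) (Z : V3) : M3 := fun k i => dz k (db i F) Z

/-- `T⊥_{ki} = T_{ki} + ε_k Z̄_k G_i / N`. -/
def TP (F : V3 → ℂ) (Z : V3) : M3 := fun k i =>
  dz k (db i F) Z + ep k * conj (Z k) * db i F Z / ((NN Z : ℝ) : ℂ)

/-- `φ` is invariant, `b1` and `b0` are equivariant: `T(Z)_{ki} = ∑ g_{lk} ḡ_{ji} T(gZ)_{lj}`,
`G(Z)_i = ∑ ḡ_{ji} G(gZ)_j` (chain rule and `db i l = 0`), and `g J gᴴ = J`, `gᵀ J ḡ = J`. -/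
def S_BEq : Prop := ∀ g : M3, IsG g → ∀ (p : ℕ) (F l : V3 → ℂ), Sm F → IsPol p l →
  (∀ Z ∈ Co, F (g *ᵥ Z) = F Z + l Z) → ∀ Z ∈ Co, ph F (g *ᵥ Z) = ph F Z ∧
  (∀ j, ∑ k, g k j * b1 F k (g *ᵥ Z) = b1 F j Z) ∧
  (∀ j, ∑ k, g k j * b0 F k (g *ᵥ Z) = b0 F j Z) ∧
  (∀ j, ∑ k, g k j * dz k F (g *ᵥ Z) = dz j F Z + dz j l Z)

/-- Bochner identity, `p = 1`.  Euler: `∑ Z_i ∂_i F = F`, `∑ Z̄_i ∂̄_i F = 0`; their derivatives: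
`∑ Z_k T_ki = G_i`, `∑_i Z̄_i T_ki = 0`, `∑_k Z̄_k ∂̄_k G_i = -G_i`, so `∑ Z̄_k ∂̄_k φ = 0`.
`∑ ε_k ∂̄_k (∑ ε_i T_ki Ḡ_i) = ∑ ε_i ∂̄_i(□F) Ḡ_i + ∑ ε_k ε_i |T_ki|²`,
`∑ ∂̄_k (φ Z̄_k / N) = 3φ/N - φ/N`, and `∑ εε |T|² = ∑ εε |T⊥|² - φ/N`. -/
def S_B1 : Prop := ∀ F : V3 → ℂ, Sm F → Hg 1 F → (∀ Z ∈ Co, bx F Z = 0) →
  (∀ k, Sm (b1 F k)) ∧ ∀ Z ∈ Co, ∑ k, Z k * b1 F k Z = 0 ∧
  ∑ i, conj (Z i) * db i F Z = 0 ∧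
  (∀ i, ∑ k, Z k * TP F Z k i = 0) ∧ (∀ k, ∑ i, conj (Z i) * TP F Z k i = 0) ∧
  ((NN Z : ℝ) : ℂ) * ∑ k, ep k * db k (b1 F k) Z =
    ((NN Z * (NN (TP F Z 2) - NN (TP F Z 0) - NN (TP F Z 1)) + ph F Z : ℝ) : ℂ)

/-- Bochner identity, `p = 0`. -/
def S_B0 : Prop := ∀ F : V3 → ℂ, Sm F → Hg 0 F → (∀ Z ∈ Co, bx F Z = 0) →
  (∀ k, Sm (b0 F k)) ∧ ∀ Z ∈ Co, ∑ k, Z k * b0 F k Z = 0 ∧
  (∀ i, ∑ k, Z k * TT F Z k i = 0) ∧ (∀ k, ∑ i, conj (Z i) * TT F Z k i = 0) ∧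
  ((NN Z : ℝ) : ℂ) * ∑ k, ep k * db k (b0 F k) Z =
    ((NN Z ^ 2 * (NN (TT F Z 2) - NN (TT F Z 0) - NN (TT F Z 1)) : ℝ) : ℂ)

/-! ## H. the theorems on the cone (`J3/Fin.lean`) -/

/-- **(H2) on the cone.** -/
def S_H2c : Prop := ∀ (G : Type) [Group G] (ρ : G →* M3), Lat ρ → (∃ χ : V3 → ℝ, Wei ρ χ) →
  ∀ l : G → V3 → ℂ, Cyc ρ 1 l → ∃ F : V3 → ℂ, Sm F ∧ Hg 1 F ∧
    (∀ g, ∀ Z ∈ Co, F (ρ g *ᵥ Z) = F Z + l g Z) ∧ ∀ Z ∈ Co, ∀ i, db i F Z = 0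

/-- **(H1) on the cone.** -/
def S_H1c : Prop := ∀ (G : Type) [Group G] (ρ : G →* M3), Lat ρ → (∃ χ : V3 → ℝ, Wei ρ χ) →
  ∀ l : G → V3 → ℂ, Cyc ρ 0 l → ∃ F : V3 → ℂ, Sm F ∧ Hg 0 F ∧
    (∀ g, ∀ Z ∈ Co, F (ρ g *ᵥ Z) = F Z + l g Z) ∧ ∀ Z ∈ Co, ∀ k i, dz k (db i F) Z = 0

end CMT.J3
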