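import Pool.Agent.Lib.CMT.J3.Defs
import Pool.Agent.Lib.CMT.Iface

/-!
# PROJECT CMT, part J3 : transfer between the ball and the cone (definitions, helper24)

`b = t0 β`.  `sc b = diag (√b, √b, 1)`, `sci b` its inverse, `rho D G g = sci b * (g at t0) * sc b`,
`hz b z = (z₁/√b, z₂/√b, 1)`.  Dictionary: `hz b z ∈ Co ↔ z ∈ Ball D`,
`rho D G g *ᵥ hz b z = (num D g z 2) • hz b (act D g z)`.
-/

open scoped BigOperators ComplexConjugate ContDiff
open MeasureTheory Matrix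

noncomputable section

namespace CMT.J3

open CMT

variable {F : Type} [Field F] [NumberField F]

/-- `diag (√b, √b, 1)`. -/
def sc (b : ℝ) : M3 := diagonal ![((Real.sqrt b : ℝ) : ℂ), ((Real.sqrt b : ℝ) : ℂ), 1]

/-- `diag (1/√b, 1/√b, 1)`. -/
def sci (b : ℝ) : M3 := diagonal ![((Real.sqrt b : ℝ) : ℂ)⁻¹, ((Real.sqrt b : ℝ) : ℂ)⁻¹, 1]

theorem sqb_ne {b : ℝ} (hb : 0 < b) : ((Real.sqrt b : ℝ) : ℂ) ≠ 0 := by
  exact_mod_cast (Real.sqrt_pos.mpr hb).ne'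

theorem sc_sci {b : ℝ} (hb : 0 < b) : sc b * sci b = 1 := by
  have h := sqb_ne hb
  rw [sc, sci, diagonal_mul_diagonal, ← diagonal_one]
  congr 1
  funext i
  fin_cases i <;> simp [h]

theorem sci_sc {b : ℝ} (hb : 0 < b) : sci b * sc b = 1 := by
  have h := sqb_ne hb
  rw [sc, sci, diagonal_mul_diagonal, ← diagonal_one]
  congr 1
  funext i
  fin_cases i <;> simp [h]

theorem mt_one (D : Dat F) (t : F →+* ℝ) : mt D t 1 = 1 := by
  exact Matrix.map_one (ev D t) (map_zero (ev D t)) (map_one (ev D t)) (n := Fin 3)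

theorem mt_mul (D : Dat F) (t : F →+* ℝ) (g k : SG D) : mt D t (g * k) = mt D t g * mt D t k := by
  exact Matrix.map_mul (L := g.1) (M := k.1) (f := ev D t)

theorem bpos (D : Dat F) : 0 < D.t0 D.bet := D.bet_pos

/-- The action on the cone. -/
def rho (D : Dat F) (G : Subgroup (SG D)) : G →* M3 where
  toFun g := sci (D.t0 D.bet) * mt D D.t0 g.1 * sc (D.t0 D.bet)
  map_one' := by
    rw [OneMemClass.coe_one, mt_one, Matrix.mul_one, sci_sc D.bet_pos]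
  map_mul' g k := by
    rw [Subgroup.coe_mul, mt_mul]
    have h := sc_sci D.bet_pos
    calc sci (D.t0 D.bet) * (mt D D.t0 g.1 * mt D D.t0 k.1) * sc (D.t0 D.bet)
        = sci (D.t0 D.bet) * mt D D.t0 g.1 * 1 * mt D D.t0 k.1 * sc (D.t0 D.bet) := by
          simp only [Matrix.mul_one, Matrix.mul_assoc]
      _ = sci (D.t0 D.bet) * mt D D.t0 g.1 * (sc (D.t0 D.bet) * sci (D.t0 D.bet)) *
            mt D D.t0 k.1 * sc (D.t0 D.bet) := by rw [h]
      _ = _ := by simp only [Matrix.mul_assoc]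

theorem rho_apply (D : Dat F) (G : Subgroup (SG D)) (g : G) :
    rho D G g = sci (D.t0 D.bet) * mt D D.t0 g.1 * sc (D.t0 D.bet) := rfl

/-- The point of the cone over `z`. -/
def hz (b : ℝ) (z : ℂ × ℂ) : V3 := ![z.1 / ((Real.sqrt b : ℝ) : ℂ), z.2 / ((Real.sqrt b : ℝ) : ℂ), 1]

theorem sci_hat (b : ℝ) (z : ℂ × ℂ) : sci b *ᵥ hat z = hz b z := by
  funext i
  rw [sci, mulVec_diagonal]
  fin_cases i
  · simp [hat, hz, div_eq_mul_inv, mul_comm]
  · simp [hat, hz, div_eq_mul_inv, mul_comm]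
  · simp [hat, hz]

theorem sc_hz {b : ℝ} (hb : 0 < b) (z : ℂ × ℂ) : sc b *ᵥ hz b z = hat z := by
  rw [← sci_hat, mulVec_mulVec, sc_sci hb, one_mulVec]

theorem NN_hz {b : ℝ} (hb : 0 < b) (z : ℂ × ℂ) :
    NN (hz b z) = 1 - (‖z.1‖ ^ 2 + ‖z.2‖ ^ 2) / b := by
  have h0 : Complex.normSq ((Real.sqrt b : ℝ) : ℂ) = b := by
    rw [Complex.normSq_ofReal, Real.mul_self_sqrt hb.le]
  have h1 : NN (hz b z) = Complex.normSq 1 - Complex.normSq (z.1 / ((Real.sqrt b : ℝ) : ℂ)) -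
      Complex.normSq (z.2 / ((Real.sqrt b : ℝ) : ℂ)) := rfl
  rw [h1, map_one, Complex.normSq_div, Complex.normSq_div, h0, Complex.normSq_eq_norm_sq,
    Complex.normSq_eq_norm_sq]
  ring

theorem hz_mem_Co {b : ℝ} (hb : 0 < b) (z : ℂ × ℂ) :
    hz b z ∈ Co ↔ ‖z.1‖ ^ 2 + ‖z.2‖ ^ 2 < b := by
  have h1 : hz b z ∈ Co ↔ 0 < NN (hz b z) := Iff.rfl
  rw [h1, NN_hz hb, sub_pos, div_lt_one hb]

theorem hz_mem (D : Dat F) (z : ℂ × ℂ) : hz (D.t0 D.bet) z ∈ Co ↔ z ∈ Ball D :=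
  hz_mem_Co D.bet_pos z

theorem num_eq (D : Dat F) (g : SG D) (z : ℂ × ℂ) (h2 : num D g z 2 ≠ 0) :
    num D g z = num D g z 2 • hat (act D g z) := by
  funext i
  fin_cases i
  · change num D g z 0 = num D g z 2 * (num D g z 0 / num D g z 2)
    rw [mul_div_cancel₀ _ h2]
  · change num D g z 1 = num D g z 2 * (num D g z 1 / num D g z 2)
    rw [mul_div_cancel₀ _ h2]
  · change num D g z 2 = num D g z 2 * 1
    rw [mul_one]

/-- The dictionary. -/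
theorem rho_hz (D : Dat F) (G : Subgroup (SG D)) (g : G) (z : ℂ × ℂ)
    (h2 : num D g.1 z 2 ≠ 0) :
    rho D G g *ᵥ hz (D.t0 D.bet) z = num D g.1 z 2 • hz (D.t0 D.bet) (act D g.1 z) := by
  rw [rho_apply, ← mulVec_mulVec, sc_hz D.bet_pos, ← mulVec_mulVec]
  change sci (D.t0 D.bet) *ᵥ num D g.1 z = _
  rw [num_eq D g.1 z h2, mulVec_smul, sci_hat]
  congr 1
  have h3 : (num D g.1 z 2 • hat (act D g.1 z)) 2 = num D g.1 z 2 := by
    rw [← num_eq D g.1 z h2]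
  exact h3.symm

end CMT.J3
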