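import Pool.Agent.Lib.CMT.J3.Spec
import Pool.Agent.Lib.CMT.J3.TrDef
import Pool.Agent.Lib.CMT.D.Cpt
import Pool.Agent.Lib.CMT.D.Pd

/-!
# PROJECT CMT, part J3, module Tr (helper26): from the ball to the cone

`rho D G g = sci b * mt D t0 g * sc b`, `b = t0 β` (`TrDef.lean`, helper24).
`pr b : V3 → ℂ × ℂ` (`Co → Ball`), `lf b = hz b : ℂ × ℂ → V3` (`Ball → Co`).  Main result: `lat_rho : Lat (rho D G)`.
-/

open scoped BigOperators ComplexConjugate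
open MeasureTheory Matrix

noncomputable section

namespace CMT.J3

variable {F : Type} [Field F] [NumberField F]

/-- `√b` for the given data. -/
def sb (D : Dat F) : ℂ := ((Real.sqrt (D.t0 D.bet) : ℝ) : ℂ)

theorem sb_ne (D : Dat F) : sb D ≠ 0 :=
  Complex.ofReal_ne_zero.2 (Real.sqrt_ne_zero'.2 D.bet_pos)

theorem sqrt_ne {b : ℝ} (hb : 0 < b) : ((Real.sqrt b : ℝ) : ℂ) ≠ 0 :=
  Complex.ofReal_ne_zero.2 (Real.sqrt_ne_zero'.2 hb)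

theorem sc_mul_sci {b : ℝ} (hb : 0 < b) : sc b * sci b = 1 := sc_sci hb

theorem sc_mulVec (b : ℝ) (Z : V3) :
    sc b *ᵥ Z = ![((Real.sqrt b : ℝ) : ℂ) * Z 0, ((Real.sqrt b : ℝ) : ℂ) * Z 1, Z 2] := by
  unfold sc
  funext i
  rw [mulVec_diagonal]
  fin_cases i
  · rfl
  · rfl
  · exact one_mul _

theorem sci_mulVec (b : ℝ) (Z : V3) :
    sci b *ᵥ Z = ![((Real.sqrt b : ℝ) : ℂ)⁻¹ * Z 0, ((Real.sqrt b : ℝ) : ℂ)⁻¹ * Z 1, Z 2] := by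
  unfold sci
  funext i
  rw [mulVec_diagonal]
  fin_cases i
  · rfl
  · rfl
  · exact one_mul _

/-- The projection of the cone to the ball. -/
def pr (b : ℝ) (Z : V3) : ℂ × ℂ :=
  (((Real.sqrt b : ℝ) : ℂ) * Z 0 / Z 2, ((Real.sqrt b : ℝ) : ℂ) * Z 1 / Z 2)

/-- The section of the projection (`hz` of `TrDef`). -/
abbrev lf (b : ℝ) (z : ℂ × ℂ) : V3 := hz b z

theorem Co_ne {Z : V3} (hZ : Z ∈ Co) : Z 2 ≠ 0 := by
  have h : 0 < NN Z := hZ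
  intro hc
  unfold NN at h
  rw [hc, map_zero] at h
  have h0 := Complex.normSq_nonneg (Z 0)
  have h1 := Complex.normSq_nonneg (Z 1)
  linarith

theorem sc_mulVec_pr (b : ℝ) {Z : V3} (hZ : Z 2 ≠ 0) : sc b *ᵥ Z = Z 2 • hat (pr b Z) := by
  rw [sc_mulVec]
  funext i
  fin_cases i
  · show ((Real.sqrt b : ℝ) : ℂ) * Z 0 = Z 2 * (((Real.sqrt b : ℝ) : ℂ) * Z 0 / Z 2)
    field_simp
  · show ((Real.sqrt b : ℝ) : ℂ) * Z 1 = Z 2 * (((Real.sqrt b : ℝ) : ℂ) * Z 1 / Z 2)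
    field_simp
  · show Z 2 = Z 2 * 1
    rw [mul_one]

theorem pr_lf {b : ℝ} (hb : 0 < b) (z : ℂ × ℂ) : pr b (lf b z) = z := by
  have h := sqrt_ne hb
  apply Prod.ext
  · show ((Real.sqrt b : ℝ) : ℂ) * (z.1 / ((Real.sqrt b : ℝ) : ℂ)) / 1 = z.1
    field_simp
  · show ((Real.sqrt b : ℝ) : ℂ) * (z.2 / ((Real.sqrt b : ℝ) : ℂ)) / 1 = z.2
    field_simp

theorem lf_pr {b : ℝ} (hb : 0 < b) {Z : V3} (hZ : Z 2 ≠ 0) : Z = Z 2 • lf b (pr b Z) := by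
  have h := sqrt_ne hb
  funext i
  fin_cases i
  · show Z 0 = Z 2 * (((Real.sqrt b : ℝ) : ℂ) * Z 0 / Z 2 / ((Real.sqrt b : ℝ) : ℂ))
    field_simp
  · show Z 1 = Z 2 * (((Real.sqrt b : ℝ) : ℂ) * Z 1 / Z 2 / ((Real.sqrt b : ℝ) : ℂ))
    field_simp
  · show Z 2 = Z 2 * 1
    rw [mul_one]

theorem pr_smul (b : ℝ) {c : ℂ} (hc : c ≠ 0) (Z : V3) : pr b (c • Z) = pr b Z := by
  apply Prod.ext
  · show ((Real.sqrt b : ℝ) : ℂ) * (c * Z 0) / (c * Z 2) = ((Real.sqrt b : ℝ) : ℂ) * Z 0 / Z 2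
    rw [mul_left_comm, mul_div_mul_left _ _ hc]
  · show ((Real.sqrt b : ℝ) : ℂ) * (c * Z 1) / (c * Z 2) = ((Real.sqrt b : ℝ) : ℂ) * Z 1 / Z 2
    rw [mul_left_comm, mul_div_mul_left _ _ hc]

theorem sqrt_normSq {b : ℝ} (hb : 0 < b) : Complex.normSq ((Real.sqrt b : ℝ) : ℂ) = b := by
  rw [Complex.normSq_ofReal, Real.mul_self_sqrt hb.le]

theorem lf_mem_iff {b : ℝ} (hb : 0 < b) (z : ℂ × ℂ) :
    lf b z ∈ Co ↔ ‖z.1‖ ^ 2 + ‖z.2‖ ^ 2 < b := by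
  show 0 < Complex.normSq 1 - Complex.normSq (z.1 / ((Real.sqrt b : ℝ) : ℂ)) -
    Complex.normSq (z.2 / ((Real.sqrt b : ℝ) : ℂ)) ↔ _
  rw [Complex.normSq_div, Complex.normSq_div, sqrt_normSq hb, map_one, Complex.normSq_eq_norm_sq,
    Complex.normSq_eq_norm_sq]
  constructor
  · intro h
    have h1 : (‖z.1‖ ^ 2 + ‖z.2‖ ^ 2) / b < 1 := by
      rw [add_div]
      linarith
    rwa [div_lt_one hb] at h1
  · intro h
    rw [← div_lt_one hb, add_div] at h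
    linarith

theorem smul_mem_Co {c : ℂ} (hc : c ≠ 0) {Z : V3} : c • Z ∈ Co ↔ Z ∈ Co := by
  have h : NN (c • Z) = Complex.normSq c * NN Z := by
    unfold NN
    simp only [Pi.smul_apply, smul_eq_mul, Complex.normSq_mul]
    ring
  show 0 < NN (c • Z) ↔ 0 < NN Z
  rw [h]
  exact mul_pos_iff_of_pos_left (Complex.normSq_pos.2 hc)

theorem pr_mem {b : ℝ} (hb : 0 < b) {Z : V3} (hZ : Z ∈ Co) :
    ‖(pr b Z).1‖ ^ 2 + ‖(pr b Z).2‖ ^ 2 < b := by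
  have h2 := Co_ne hZ
  rw [← lf_mem_iff hb, ← smul_mem_Co h2, ← lf_pr hb h2]
  exact hZ

theorem lf_mem_Co (D : Dat F) (z : ℂ × ℂ) : lf (D.t0 D.bet) z ∈ Co ↔ z ∈ Ball D :=
  lf_mem_iff D.bet_pos z

theorem pr_mem_Ball (D : Dat F) {Z : V3} (hZ : Z ∈ Co) : pr (D.t0 D.bet) Z ∈ Ball D :=
  pr_mem D.bet_pos hZ

theorem continuousOn_pr (b : ℝ) : ContinuousOn (pr b) Co := by
  unfold pr
  refine ContinuousOn.prodMk ?_ ?_
  · exact ContinuousOn.div (by fun_prop) (by fun_prop) fun Z hZ => Co_ne hZ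
  · exact ContinuousOn.div (by fun_prop) (by fun_prop) fun Z hZ => Co_ne hZ

theorem continuous_lf (b : ℝ) : Continuous (lf b) := by
  show Continuous (hz b)
  unfold hz
  refine continuous_pi fun i => ?_
  fin_cases i
  · show Continuous fun z : ℂ × ℂ => z.1 / ((Real.sqrt b : ℝ) : ℂ)
    exact continuous_fst.div_const _
  · show Continuous fun z : ℂ × ℂ => z.2 / ((Real.sqrt b : ℝ) : ℂ)
    exact continuous_snd.div_const _
  · exact continuous_const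

/-- `rho` and the projection. -/
theorem sc_rho (D : Dat F) (G : Subgroup (SG D)) (g : G) (Z : V3) :
    sc (D.t0 D.bet) *ᵥ (rho D G g *ᵥ Z) = mt D D.t0 g.1 *ᵥ (sc (D.t0 D.bet) *ᵥ Z) := by
  rw [rho_apply, mulVec_mulVec, ← Matrix.mul_assoc, ← Matrix.mul_assoc, sc_mul_sci D.bet_pos,
    Matrix.one_mul, ← mulVec_mulVec]

theorem rho_two (D : Dat F) (G : Subgroup (SG D)) (g : G) {Z : V3} (hZ : Z 2 ≠ 0) :
    (rho D G g *ᵥ Z) 2 = Z 2 * num D g.1 (pr (D.t0 D.bet) Z) 2 := by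
  have h := congrFun (sc_rho D G g Z) 2
  rw [sc_mulVec_pr _ hZ, mulVec_smul] at h
  rw [sc_mulVec] at h
  exact h

/-- **The projection is equivariant.** -/
theorem pr_rho (D : Dat F) (G : Subgroup (SG D)) (g : G) {Z : V3} (hZ : Z 2 ≠ 0) :
    pr (D.t0 D.bet) (rho D G g *ᵥ Z) = act D g.1 (pr (D.t0 D.bet) Z) := by
  have h := sc_rho D G g Z
  rw [sc_mulVec_pr _ hZ, mulVec_smul] at h
  rw [sc_mulVec] at h
  have h0 : ((Real.sqrt (D.t0 D.bet) : ℝ) : ℂ) * (rho D G g *ᵥ Z) 0 =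
      Z 2 * num D g.1 (pr (D.t0 D.bet) Z) 0 := congrFun h 0
  have h1 : ((Real.sqrt (D.t0 D.bet) : ℝ) : ℂ) * (rho D G g *ᵥ Z) 1 =
      Z 2 * num D g.1 (pr (D.t0 D.bet) Z) 1 := congrFun h 1
  have h2 := rho_two D G g hZ
  apply Prod.ext
  · show ((Real.sqrt (D.t0 D.bet) : ℝ) : ℂ) * (rho D G g *ᵥ Z) 0 / (rho D G g *ᵥ Z) 2 = _ / _
    rw [h0, h2, mul_div_mul_left _ _ hZ]
  · show ((Real.sqrt (D.t0 D.bet) : ℝ) : ℂ) * (rho D G g *ᵥ Z) 1 / (rho D G g *ᵥ Z) 2 = _ / _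
    rw [h1, h2, mul_div_mul_left _ _ hZ]

/-- **Dictionary**: `rho g (z/√b, 1) = w₂ · (act g z / √b, 1)`, `w₂ = num g z 2`. -/
theorem rho_lf (D : Dat F) (G : Subgroup (SG D)) (g : G) (hg : IsIso D g.1) {z : ℂ × ℂ}
    (hz : z ∈ Ball D) : rho D G g *ᵥ lf (D.t0 D.bet) z =
      num D g.1 z 2 • lf (D.t0 D.bet) (act D g.1 z) := by
  have h1 : (lf (D.t0 D.bet) z) 2 ≠ 0 := one_ne_zero
  have h2 := rho_two D G g h1
  have h3 : (lf (D.t0 D.bet) z) 2 = 1 := rfl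
  rw [pr_lf D.bet_pos, h3, one_mul] at h2
  have h4 := pr_rho D G g h1
  rw [pr_lf D.bet_pos] at h4
  have h5 : (rho D G g *ᵥ lf (D.t0 D.bet) z) 2 ≠ 0 := by
    rw [h2]
    exact B.num_two_ne_zero D hg hz
  have h6 := lf_pr D.bet_pos h5
  rw [h4, h2] at h6
  exact h6

theorem hh_sc (b : ℝ) (hb : 0 < b) (Z W : V3) :
    ∑ i, ((![1, 1, -b] i : ℝ) : ℂ) * (sc b *ᵥ Z) i * conj ((sc b *ᵥ W) i) = (b : ℂ) * hh Z W := by
  have hbb : ((Real.sqrt b : ℝ) : ℂ) * ((Real.sqrt b : ℝ) : ℂ) = (b : ℂ) := by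
    rw [← Complex.ofReal_mul, Real.mul_self_sqrt hb.le]
  rw [Fin.sum_univ_three, sc_mulVec, sc_mulVec]
  show ((1 : ℝ) : ℂ) * (((Real.sqrt b : ℝ) : ℂ) * Z 0) * conj (((Real.sqrt b : ℝ) : ℂ) * W 0) +
    ((1 : ℝ) : ℂ) * (((Real.sqrt b : ℝ) : ℂ) * Z 1) * conj (((Real.sqrt b : ℝ) : ℂ) * W 1) +
    ((-b : ℝ) : ℂ) * Z 2 * conj (W 2) = (b : ℂ) * (Z 0 * conj (W 0) + Z 1 * conj (W 1) - Z 2 * conj (W 2))
  rw [map_mul, map_mul, Complex.conj_ofReal, Complex.ofReal_one, Complex.ofReal_neg]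
  linear_combination (Z 0 * conj (W 0) + Z 1 * conj (W 1)) * hbb

theorem isG_rho (D : Dat F) (G : Subgroup (SG D)) (g : G) (hg : IsIso D g.1) : IsG (rho D G g) := by
  intro Z W
  have hb : ((D.t0 D.bet : ℝ) : ℂ) ≠ 0 := Complex.ofReal_ne_zero.2 D.bet_pos.ne'
  apply mul_left_cancel₀ hb
  rw [← hh_sc _ D.bet_pos, ← hh_sc _ D.bet_pos, sc_rho, sc_rho]
  exact B.isU_sesq (B.mt_t0_isU D hg) _ _

/-- **The group acts on the cone properly discontinuously and cocompactly.** -/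
theorem lat_rho [NumberField.IsTotallyReal F] (h2 : 2 ≤ Module.finrank ℚ F) (D : Dat F)
    (G : Subgroup (SG D)) (hG : IsArith D G) : Lat (rho D G) := by
  have hG1 : G ≤ Gam D 1 := by
    intro g hg
    have h3 := hG.1 hg
    refine ⟨h3.1, ?_⟩
    obtain ⟨X, hX, hgX⟩ := h3.2
    refine ⟨(3 : KD D) • X, ?_, ?_⟩
    · intro i j
      rw [Matrix.smul_apply, smul_eq_mul]
      have h3 : (3 : KD D) ∈ RR D := by
        exact_mod_cast natCast_mem (RR D) 3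
      exact (RR D).mul_mem h3 (hX i j)
    · rw [hgX]; simp
  have hiso : ∀ g : G, IsIso D g.1 := fun g => (hG.1 g.2).1
  refine ⟨fun g => isG_rho D G g (hiso g), ?_, ?_⟩
  · intro C hC hCo
    have hC' : IsCompact (pr (D.t0 D.bet) '' C) := hC.image_of_continuousOn
      ((continuousOn_pr _).mono hCo)
    have hB : pr (D.t0 D.bet) '' C ⊆ Ball D := by
      rintro _ ⟨Z, hZ, rfl⟩
      exact pr_mem_Ball D (hCo hZ)
    have hfin := CMT.D.pd_Gam D 1 _ hC' hB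
    refine Set.Finite.subset (hfin.preimage (f := fun g : G => (g : SG D))
      Subtype.val_injective.injOn) ?_
    rintro g ⟨Z, hZ, hgZ⟩
    refine ⟨hG1 g.2, pr (D.t0 D.bet) Z, ⟨Z, hZ, rfl⟩, ?_⟩
    rw [← pr_rho D G g (Co_ne (hCo hZ))]
    exact ⟨_, hgZ, rfl⟩
  · obtain ⟨C, hC, hCB, hcov⟩ := CMT.s_Cpt F h2 D G hG1 hG.2
    refine ⟨lf (D.t0 D.bet) '' C, hC.image (continuous_lf _), ?_, ?_⟩
    · rintro _ ⟨z, hz, rfl⟩
      exact (lf_mem_Co D z).2 (hCB hz)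
    · intro Z hZ
      obtain ⟨g, hg, hgC⟩ := hcov _ (pr_mem_Ball D hZ)
      have hZ2 := Co_ne hZ
      have h3 := rho_two D G ⟨g, hg⟩ hZ2
      have h4 : (rho D G ⟨g, hg⟩ *ᵥ Z) 2 ≠ 0 := by
        rw [h3]
        exact mul_ne_zero hZ2 (B.num_two_ne_zero D (hiso ⟨g, hg⟩) (pr_mem_Ball D hZ))
      refine ⟨⟨g, hg⟩, ((rho D G ⟨g, hg⟩ *ᵥ Z) 2)⁻¹, inv_ne_zero h4, ?_⟩
      have h5 := lf_pr D.bet_pos h4
      rw [pr_rho D G ⟨g, hg⟩ hZ2] at h5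
      refine ⟨act D g (pr (D.t0 D.bet) Z), hgC, ?_⟩
      have h6 := congrArg (fun v => ((rho D G ⟨g, hg⟩ *ᵥ Z) 2)⁻¹ • v) h5
      simp only at h6
      rw [smul_smul, inv_mul_cancel₀ h4, one_smul] at h6
      exact h6.symm

end CMT.J3
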