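import Pool.Agent.Lib.CMT.J.Iface
import Pool.Agent.Lib.CMT.J3.Spec
import Pool.Agent.Lib.CMT.J3.Wirt
import Pool.Agent.Lib.CMT.J3.Tr
import Pool.Agent.Lib.CMT.J3.WeiEx

/-!
# PROJECT CMT, part J3 : (H1) from (H1) on the cone (helper97)

`H1.split` : a smooth function `F` on the cone with `∂_k ∂̄_i F = 0` is `p + conj q` on the chart
`z ↦ (z₁/r, z₂/r, 1)`, `p`, `q` holomorphic on the ball `|z₁|² + |z₂|² < r²`: the form
`∂₀F dz₁ + ∂₁F dz₂` is holomorphic and closed, `p` is its primitive on the (convex) ball, and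
`F - p` is antiholomorphic.

Main result: `pH1 : S_H1c → CMT.J.S_H1`.
-/

open scoped BigOperators ComplexConjugate
open MeasureTheory Matrix

noncomputable section

namespace CMT.J3
namespace H1

/-- The ball of radius `r`. -/
def Bl (r : ℝ) : Set (ℂ × ℂ) := {z | ‖z.1‖ ^ 2 + ‖z.2‖ ^ 2 < r ^ 2}

/-- The chart. -/
def zE (r : ℝ) (z : ℂ × ℂ) : V3 := ![((r : ℝ) : ℂ)⁻¹ * z.1, ((r : ℝ) : ℂ)⁻¹ * z.2, 1]

/-- The linear part of the chart. -/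
def zL (r : ℝ) : ℂ × ℂ →L[ℂ] V3 :=
  ContinuousLinearMap.pi ![((r : ℝ) : ℂ)⁻¹ • ContinuousLinearMap.fst ℂ ℂ ℂ,
    ((r : ℝ) : ℂ)⁻¹ • ContinuousLinearMap.snd ℂ ℂ ℂ, 0]

theorem NN_zE (r : ℝ) (z : ℂ × ℂ) :
    NN (zE r z) = 1 - (r ^ 2)⁻¹ * (‖z.1‖ ^ 2 + ‖z.2‖ ^ 2) := by
  have h0 : zE r z 0 = ((r : ℝ) : ℂ)⁻¹ * z.1 := rfl
  have h1 : zE r z 1 = ((r : ℝ) : ℂ)⁻¹ * z.2 := rfl
  have h2 : zE r z 2 = 1 := rfl
  unfold NN
  rw [h0, h1, h2, Complex.normSq_mul, Complex.normSq_mul, map_one, ← Complex.ofReal_inv,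
    Complex.normSq_ofReal, Complex.normSq_eq_norm_sq, Complex.normSq_eq_norm_sq]
  rw [← mul_inv, ← pow_two]
  ring

theorem zE_mem {r : ℝ} (hr : 0 < r) {z : ℂ × ℂ} (hz : z ∈ Bl r) : zE r z ∈ Co := by
  have hz' : ‖z.1‖ ^ 2 + ‖z.2‖ ^ 2 < r ^ 2 := hz
  change 0 < NN (zE r z)
  rw [NN_zE, sub_pos, inv_mul_lt_iff₀ (by positivity), mul_one]
  exact hz'

theorem isOpen_Bl (r : ℝ) : IsOpen (Bl r) := by
  unfold Bl
  exact isOpen_lt (by fun_prop) continuous_const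

theorem convex_Bl (r : ℝ) : Convex ℝ (Bl r) := by
  intro z hz w hw a b ha hb hab
  have hz' : ‖z.1‖ ^ 2 + ‖z.2‖ ^ 2 < r ^ 2 := hz
  have hw' : ‖w.1‖ ^ 2 + ‖w.2‖ ^ 2 < r ^ 2 := hw
  have key : ∀ x y : ℂ, ‖a • x + b • y‖ ^ 2 ≤ a * ‖x‖ ^ 2 + b * ‖y‖ ^ 2 := by
    intro x y
    have h1 : ‖a • x + b • y‖ ≤ a * ‖x‖ + b * ‖y‖ := by
      refine (norm_add_le _ _).trans (le_of_eq ?_)
      rw [norm_smul, norm_smul, Real.norm_of_nonneg ha, Real.norm_of_nonneg hb]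
    have h2 : ‖a • x + b • y‖ ^ 2 ≤ (a * ‖x‖ + b * ‖y‖) ^ 2 :=
      pow_le_pow_left₀ (norm_nonneg _) h1 2
    have h3 : a * ‖x‖ ^ 2 + b * ‖y‖ ^ 2 - (a * ‖x‖ + b * ‖y‖) ^ 2 =
        a * b * (‖x‖ - ‖y‖) ^ 2 := by
      have hb' : b = 1 - a := by linarith
      subst hb'
      ring
    have h4 : 0 ≤ a * b * (‖x‖ - ‖y‖) ^ 2 := by positivity
    linarith
  change ‖(a • z + b • w).1‖ ^ 2 + ‖(a • z + b • w).2‖ ^ 2 < r ^ 2
  have e1 : (a • z + b • w).1 = a • z.1 + b • w.1 := rfl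
  have e2 : (a • z + b • w).2 = a • z.2 + b • w.2 := rfl
  rw [e1, e2]
  have k1 := key z.1 w.1
  have k2 := key z.2 w.2
  have h5 : a * (‖z.1‖ ^ 2 + ‖z.2‖ ^ 2) + b * (‖w.1‖ ^ 2 + ‖w.2‖ ^ 2) < r ^ 2 := by
    rcases eq_or_lt_of_le ha with h | h
    · have hb1 : b = 1 := by linarith
      rw [← h, hb1]
      linarith
    · have i1 := mul_lt_mul_of_pos_left hz' h
      have i2 := mul_le_mul_of_nonneg_left hw'.le hb
      have i3 : a * r ^ 2 + b * r ^ 2 = r ^ 2 := by rw [← add_mul, hab, one_mul]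
      linarith
  linarith

theorem zL_apply (r : ℝ) (v : ℂ × ℂ) :
    zL r v = ![((r : ℝ) : ℂ)⁻¹ * v.1, ((r : ℝ) : ℂ)⁻¹ * v.2, 0] := by
  funext i
  fin_cases i <;> simp [zL]

theorem hasFDerivAt_zE (r : ℝ) (z : ℂ × ℂ) : HasFDerivAt (zE r) (zL r) z := by
  have h : zE r = fun w => zL r w + ![0, 0, 1] := by
    funext w i
    rw [zL_apply]
    fin_cases i <;> simp [zE]
  rw [h]
  exact (zL r).hasFDerivAt.add_const _

/-- The real derivative of `G ∘ zE`. -/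
theorem comp_real {r : ℝ} {G : V3 → ℂ} {z : ℂ × ℂ} (hG : DifferentiableAt ℝ G (zE r z)) :
    HasFDerivAt (fun w => G (zE r w))
      ((fderiv ℝ G (zE r z)).comp ((zL r).restrictScalars ℝ)) z :=
  hG.hasFDerivAt.comp z ((hasFDerivAt_zE r z).restrictScalars ℝ)

theorem comp_real_apply (r : ℝ) (G : V3 → ℂ) (z v : ℂ × ℂ) :
    ((fderiv ℝ G (zE r z)).comp ((zL r).restrictScalars ℝ)) v =
      (((r : ℝ) : ℂ)⁻¹ * v.1 * dz 0 G (zE r z) + ((r : ℝ) : ℂ)⁻¹ * v.2 * dz 1 G (zE r z)) +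
      (((r : ℝ) : ℂ)⁻¹ * conj v.1 * db 0 G (zE r z) +
        ((r : ℝ) : ℂ)⁻¹ * conj v.2 * db 1 G (zE r z)) := by
  have h1 : ((fderiv ℝ G (zE r z)).comp ((zL r).restrictScalars ℝ)) v =
      fderiv ℝ G (zE r z) (zL r v) := rfl
  rw [h1, fderiv_eq, Fin.sum_univ_three, zL_apply]
  have e0 : (![((r : ℝ) : ℂ)⁻¹ * v.1, ((r : ℝ) : ℂ)⁻¹ * v.2, 0] : V3) 0 = ((r : ℝ) : ℂ)⁻¹ * v.1 :=
    rfl
  have e1 : (![((r : ℝ) : ℂ)⁻¹ * v.1, ((r : ℝ) : ℂ)⁻¹ * v.2, 0] : V3) 1 = ((r : ℝ) : ℂ)⁻¹ * v.2 :=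
    rfl
  have e2 : (![((r : ℝ) : ℂ)⁻¹ * v.1, ((r : ℝ) : ℂ)⁻¹ * v.2, 0] : V3) 2 = 0 := rfl
  rw [e0, e1, e2]
  simp only [map_mul, map_inv₀, Complex.conj_ofReal, map_zero, zero_mul, add_zero]
  ring

/-- The holomorphic form. -/
def om (r : ℝ) (F : V3 → ℂ) (z : ℂ × ℂ) : ℂ × ℂ →L[ℂ] ℂ :=
  (((r : ℝ) : ℂ)⁻¹ * dz 0 F (zE r z)) • ContinuousLinearMap.fst ℂ ℂ ℂ +
    (((r : ℝ) : ℂ)⁻¹ * dz 1 F (zE r z)) • ContinuousLinearMap.snd ℂ ℂ ℂ

theorem om_apply (r : ℝ) (F : V3 → ℂ) (z v : ℂ × ℂ) :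
    om r F z v = ((r : ℝ) : ℂ)⁻¹ * v.1 * dz 0 F (zE r z) +
      ((r : ℝ) : ℂ)⁻¹ * v.2 * dz 1 F (zE r z) := by
  unfold om
  simp only [_root_.add_apply, _root_.smul_apply,
    ContinuousLinearMap.coe_fst', ContinuousLinearMap.coe_snd', smul_eq_mul]
  ring

/-- **The splitting.** -/
theorem split {F : V3 → ℂ} (hF : Sm F) (hdd : ∀ Z ∈ Co, ∀ k i, dz k (db i F) Z = 0) {r : ℝ}
    (hr : 0 < r) :
    ∃ p q : ℂ × ℂ → ℂ, DifferentiableOn ℂ p (Bl r) ∧ DifferentiableOn ℂ q (Bl r) ∧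
      ∀ z ∈ Bl r, p z + conj (q z) = F (zE r z) := by
  have hdb : ∀ Z ∈ Co, ∀ i k, db i (dz k F) Z = 0 := by
    intro Z hZ i k
    rw [← dz_db hF hZ k i]
    exact hdd Z hZ k i
  -- the coefficients
  have hA : ∀ k : Fin 3, ∀ z ∈ Bl r, HasFDerivAt (fun w => ((r : ℝ) : ℂ)⁻¹ * dz k F (zE r w))
      ((((r : ℝ) : ℂ)⁻¹ : ℂ) • ((fderiv ℝ (dz k F) (zE r z)).comp ((zL r).restrictScalars ℝ)))
      z := by
    intro k z hz
    exact (comp_real ((hF.dz k).diff (zE_mem hr hz))).const_mul _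
  have hω : ∀ z ∈ Bl r, HasFDerivAt (om r F)
      (((((r : ℝ) : ℂ)⁻¹ : ℂ) • ((fderiv ℝ (dz 0 F) (zE r z)).comp
          ((zL r).restrictScalars ℝ))).smulRight (ContinuousLinearMap.fst ℂ ℂ ℂ) +
        ((((r : ℝ) : ℂ)⁻¹ : ℂ) • ((fderiv ℝ (dz 1 F) (zE r z)).comp
          ((zL r).restrictScalars ℝ))).smulRight (ContinuousLinearMap.snd ℂ ℂ ℂ)) z := by
    intro z hz
    exact ((hA 0 z hz).smul_const (ContinuousLinearMap.fst ℂ ℂ ℂ)).add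
      ((hA 1 z hz).smul_const (ContinuousLinearMap.snd ℂ ℂ ℂ))
  obtain ⟨p, hp⟩ := (convex_Bl r).exists_forall_hasFDerivAt_of_fderiv_symmetric (isOpen_Bl r)
    (ω := om r F) (fun z hz => (hω z hz).differentiableAt.differentiableWithinAt) (by
      intro z hz x y
      have hZ := zE_mem hr hz
      rw [(hω z hz).fderiv]
      simp only [_root_.add_apply, ContinuousLinearMap.smulRight_apply,
        _root_.smul_apply, ContinuousLinearMap.coe_fst',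
        ContinuousLinearMap.coe_snd', smul_eq_mul]
      rw [comp_real_apply, comp_real_apply, comp_real_apply, comp_real_apply,
        hdb _ hZ 0 0, hdb _ hZ 1 0, hdb _ hZ 0 1, hdb _ hZ 1 1, dz_dz hF hZ 1 0]
      ring)
  refine ⟨p, fun z => conj (F (zE r z) - p z),
    fun z hz => (hp z hz).differentiableAt.differentiableWithinAt, ?_, ?_⟩
  · intro z hz
    refine DifferentiableAt.differentiableWithinAt ?_
    have h1 : HasFDerivAt (fun z => F (zE r z) - p z)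
        (((fderiv ℝ F (zE r z)).comp ((zL r).restrictScalars ℝ)) -
          (om r F z).restrictScalars ℝ) z :=
      (comp_real (hF.diff (zE_mem hr hz))).sub ((hp z hz).restrictScalars ℝ)
    have h2 := (Complex.conjCLE.toContinuousLinearMap.hasFDerivAt
      (x := F (zE r z) - p z)).comp z h1
    have h3 : HasFDerivAt (fun z => conj (F (zE r z) - p z))
        ((((r : ℝ) : ℂ)⁻¹ * conj (db 0 F (zE r z))) • ContinuousLinearMap.fst ℂ ℂ ℂ +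
          (((r : ℝ) : ℂ)⁻¹ * conj (db 1 F (zE r z))) • ContinuousLinearMap.snd ℂ ℂ ℂ) z := by
      refine hasFDerivAt_of_restrictScalars ℝ h2 ?_
      refine ContinuousLinearMap.ext fun v => ?_
      have e1 : ((Complex.conjCLE.toContinuousLinearMap).comp
          (((fderiv ℝ F (zE r z)).comp ((zL r).restrictScalars ℝ)) -
            (om r F z).restrictScalars ℝ)) v =
          conj (((fderiv ℝ F (zE r z)).comp ((zL r).restrictScalars ℝ)) v - om r F z v) := rfl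
      refine Eq.trans ?_ e1.symm
      rw [comp_real_apply, om_apply]
      simp only [ContinuousLinearMap.coe_restrictScalars', _root_.add_apply, _root_.smul_apply,
        ContinuousLinearMap.coe_fst', ContinuousLinearMap.coe_snd', smul_eq_mul, map_sub, map_add,
        map_mul, map_inv₀, Complex.conj_ofReal, Complex.conj_conj]
      ring
    exact h3.differentiableAt
  · intro z hz
    rw [Complex.conj_conj]
    ring

theorem zE_eq_hz (b : ℝ) (z : ℂ × ℂ) : zE (Real.sqrt b) z = hz b z := by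
  funext i
  fin_cases i
  · exact (div_eq_inv_mul _ _).symm
  · exact (div_eq_inv_mul _ _).symm
  · rfl

theorem Bl_eq (F : Type) [Field F] [NumberField F] (D : Dat F) :
    Bl (Real.sqrt (D.t0 D.bet)) = Ball D := by
  unfold Bl Ball
  rw [Real.sq_sqrt D.bet_pos.le]

end H1

/-- **(H1) from (H1) on the cone.** -/
theorem pH1 (h1 : S_H1c) : CMT.J.S_H1 := by
  intro F _ _ _ h2 D G hG c hc
  have hiso : ∀ g : G, IsIso D g.1 := fun g => (hG.1 g.2).1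
  have hL := lat_rho h2 D G hG
  obtain ⟨Φ, hΦ, hHg, hinv, hdd⟩ := h1 G (rho D G) hL (pWeiEx G (rho D G) hL)
    (fun g _ => c g) ⟨fun g => Or.inl ⟨rfl, c g, rfl⟩, fun g h _ => hc g h⟩
  obtain ⟨p, q, hp, hq, hpq⟩ := H1.split hΦ hdd (Real.sqrt_pos.2 D.bet_pos)
  rw [H1.Bl_eq] at hp hq hpq
  refine ⟨p, q, hp, hq, fun g z hz => ?_⟩
  have hgz : act D g.1 z ∈ Ball D := B.act_mem_Ball D (hiso g) hz
  have hn : num D g.1 z 2 ≠ 0 := B.num_two_ne_zero D (hiso g) hz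
  rw [hpq _ hgz, hpq _ hz, H1.zE_eq_hz, H1.zE_eq_hz]
  have e1 := hHg _ ((hz_mem D _).2 hgz) (num D g.1 z 2) hn
  rw [pow_zero, one_mul, ← rho_hz D G g z hn, hinv g _ ((hz_mem D _).2 hz)] at e1
  exact e1.symm

end CMT.J3
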