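import Pool.Agent.Lib.CMT.J3.Spec
import Pool.Agent.Lib.CMT.J3.Tr
import Pool.Agent.Lib.CMT.J3.Wirt
import Pool.Agent.Lib.CMT.J.Iface

/-!
# PROJECT CMT, part J3 : (H2) on the ball from (H2) on the cone (helper24)
-/

open scoped BigOperators ComplexConjugate ContDiff
open MeasureTheory Matrix

noncomputable section

namespace CMT.J3

open CMT

/-- The dual gradient `J ∇F`. -/
def vF (F : V3 → ℂ) (Z : V3) : V3 := fun i => ep i * dz i F Z

private theorem smul_Co {Z : V3} (hZ : Z ∈ Co) {c : ℂ} (hc : c ≠ 0) : c • Z ∈ Co := by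
  have h1 : NN (c • Z) = Complex.normSq c * NN Z := by
    simp only [NN, Pi.smul_apply, smul_eq_mul, Complex.normSq_mul]
    ring
  have h2 : 0 < NN Z := hZ
  change 0 < NN (c • Z)
  rw [h1]
  exact mul_pos (Complex.normSq_pos.mpr hc) h2

/-- `∂_j` of a complex linear function. -/
private theorem dzL (L : V3 →L[ℂ] ℂ) (j : Fin 3) (Z : V3) :
    dz j (fun W => L W) Z = L (Pi.single j 1) := by
  have h1 : HasFDerivAt (𝕜 := ℝ) (fun W => L W) (L.restrictScalars ℝ) Z :=
    (L.restrictScalars ℝ).hasFDerivAt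
  have h2 : (Pi.single j Complex.I : V3) = Complex.I • Pi.single j (1 : ℂ) := by
    funext i
    by_cases hij : i = j
    · subst hij; simp
    · simp [hij]
  simp only [dz, h1.fderiv, ContinuousLinearMap.coe_restrictScalars']
  rw [h2, L.map_smul, smul_eq_mul, ← mul_assoc, Complex.I_mul_I]
  ring

private theorem smL (L : V3 →L[ℂ] ℂ) : Sm (fun W => L W) := by
  exact ((L.restrictScalars ℝ).contDiff).contDiffOn

/-- The linear function `Z ↦ v · Z`. -/
private def lin (v : V3) : V3 →L[ℂ] ℂ := ∑ i, v i • ContinuousLinearMap.proj (R := ℂ) i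

private theorem lin_apply (v Z : V3) : lin v Z = ∑ i, v i * Z i := by
  simp [lin]

/-- `bb x y = (J x) · y`. -/
private theorem bb_eq (x y : V3) : bb x y = ∑ i, (ep i * x i) * y i := by
  have h0 : ep 0 = 1 := rfl
  have h1 : ep 1 = 1 := rfl
  have h2 : ep 2 = -1 := rfl
  simp only [bb, Fin.sum_univ_three, h0, h1, h2]
  ring

private theorem bb_mul (g : M3) (c : V3) (Z : V3) :
    bb c (g *ᵥ Z) = lin (gᵀ *ᵥ (diagonal ep *ᵥ c)) Z := by
  rw [bb_eq, lin_apply]
  have h1 : ∀ i, (diagonal ep *ᵥ c) i = ep i * c i := fun i => mulVec_diagonal _ _ _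
  have h2 : (∑ i, (ep i * c i) * (g *ᵥ Z) i) = (diagonal ep *ᵥ c) ⬝ᵥ (g *ᵥ Z) := by
    simp only [dotProduct, h1]
  have h3 : (∑ i, (gᵀ *ᵥ (diagonal ep *ᵥ c)) i * Z i) = (gᵀ *ᵥ (diagonal ep *ᵥ c)) ⬝ᵥ Z := rfl
  rw [h2, h3, mulVec_transpose, dotProduct_mulVec]

/-- The rule for the gradient. -/
theorem grad_rule (hGJ : S_GJ) {F : V3 → ℂ} (hF : Sm F) {g : M3} (hg : IsG g)
    (hCo : ∀ Z ∈ Co, g *ᵥ Z ∈ Co) (c : V3)
    (h : ∀ Z ∈ Co, F (g *ᵥ Z) = F Z + bb c (g *ᵥ Z)) {Z : V3} (hZ : Z ∈ Co) :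
    vF F (g *ᵥ Z) = g.map conj *ᵥ vF F Z + c := by
  have e1 : ∀ i, ep i * ep i = 1 := by intro i; fin_cases i <;> simp [ep]
  have e2 : ∀ i, conj (ep i) = ep i := by intro i; fin_cases i <;> simp [ep]
  have h1 : (gᵀ *ᵥ (fun i => dz i F (g *ᵥ Z))) =
      (fun j => dz j F Z) + gᵀ *ᵥ (diagonal ep *ᵥ c) := by
    funext j
    have h2 := dz_comp g hF (hCo Z hZ) j
    have h3 : dz j (fun W => F (g *ᵥ W)) Z =
        dz j (fun W => F W + lin (gᵀ *ᵥ (diagonal ep *ᵥ c)) W) Z := by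
      apply dz_congr _ hZ
      intro W hW
      rw [h W hW, bb_mul]
    rw [dz_add hF (smL _) hZ, dzL] at h3
    have h4 : lin (gᵀ *ᵥ (diagonal ep *ᵥ c)) (Pi.single j 1) =
        (gᵀ *ᵥ (diagonal ep *ᵥ c)) j := by
      rw [lin_apply]
      simp [Pi.single_apply]
    rw [h4] at h3
    rw [h2] at h3
    change ∑ i, gᵀ j i * dz i F (g *ᵥ Z) = dz j F Z + _
    simpa only [transpose_apply] using h3
  -- `conj(g) J gᵀ = J`
  have h5 : g.map conj * diagonal ep * gᵀ = diagonal ep := by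
    have h6 := congrArg transpose (hGJ g hg).2.1
    rw [transpose_mul, transpose_mul, diagonal_transpose, ← Matrix.mul_assoc] at h6
    have h7 : (gᴴ)ᵀ = g.map conj := by
      funext i j
      rfl
    rw [h7] at h6
    exact h6
  have h8 : diagonal ep * diagonal ep = (1 : M3) := by
    rw [diagonal_mul_diagonal, ← diagonal_one]
    congr 1
    funext i
    exact e1 i
  have h9 : ∀ u : V3, (fun i => ep i * u i) = diagonal ep *ᵥ u := by
    intro u
    funext i
    rw [mulVec_diagonal]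
  have h10 : vF F (g *ᵥ Z) = diagonal ep *ᵥ (fun i => dz i F (g *ᵥ Z)) := h9 _
  have h11 : vF F Z = diagonal ep *ᵥ (fun i => dz i F Z) := h9 _
  have h12 : (fun j => dz j F Z) =
      gᵀ *ᵥ ((fun i => dz i F (g *ᵥ Z)) - diagonal ep *ᵥ c) := by
    rw [mulVec_sub, h1, add_sub_cancel_right]
  rw [h11, h12, mulVec_mulVec, mulVec_mulVec, h5, mulVec_sub, mulVec_mulVec,
    h8, one_mulVec, h10, sub_add_cancel]

/-- The gradient of a function of degree one is homogeneous of degree zero. -/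
theorem grad_hg {F : V3 → ℂ} (hF : Sm F) (hh : Hg 1 F) {Z : V3} (hZ : Z ∈ Co) {c : ℂ}
    (hc : c ≠ 0) : vF F (c • Z) = vF F Z := by
  funext j
  have h0 : ∀ W : V3, (c • (1 : M3)) *ᵥ W = c • W := by
    intro W
    rw [smul_mulVec, one_mulVec]
  have h1 := dz_comp (c • (1 : M3)) hF (Z := Z) (by rw [h0]; exact smul_Co hZ hc) j
  have h2 : dz j (fun W => F ((c • (1 : M3)) *ᵥ W)) Z = dz j (fun W => F W * c) Z := by
    apply dz_congr _ hZ
    intro W hW
    rw [h0, hh W hW c hc, pow_one, mul_comm]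
  have h3 : dz j (fun W => F W * c) Z = dz j F Z * c := by
    simp only [dz]
    rw [fderiv_mul_const (hF.diff hZ)]
    simp only [_root_.smul_apply, smul_eq_mul]
    ring
  rw [h2, h3, h0] at h1
  have h5 : ∑ i, (c • (1 : M3)) i j * dz i F (c • Z) = c * dz j F (c • Z) := by
    simp [Matrix.smul_apply, Matrix.one_apply]
  rw [h5] at h1
  have h6 : dz j F Z = dz j F (c • Z) := by
    apply mul_left_cancel₀ hc
    rw [← h1]
    ring
  simp only [vF, h6]

/-- The derivatives of a holomorphic function are holomorphic. -/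
theorem grad_hol {F : V3 → ℂ} (hF : Sm F) (hd : ∀ Z ∈ Co, ∀ i, db i F Z = 0) (k : Fin 3) {Z : V3}
    (hZ : Z ∈ Co) : DifferentiableAt ℂ (dz k F) Z := by
  have h1 : ∀ j, db j (dz k F) Z = 0 := by
    intro j
    rw [← dz_db hF hZ k j]
    have h2 : dz k (db j F) Z = dz k (fun _ => 0) Z := dz_congr (fun W hW => hd W hW j) hZ k
    rw [h2]
    simp [dz]
  have h3 := ((hF.dz k).diff hZ).hasFDerivAt
  have h4 : (lin (fun i => dz i (dz k F) Z)).restrictScalars ℝ = fderiv ℝ (dz k F) Z := by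
    ext v
    rw [fderiv_eq]
    simp only [h1, mul_zero, add_zero, ContinuousLinearMap.coe_restrictScalars', lin_apply]
    exact Finset.sum_congr rfl (fun i _ => mul_comm _ _)
  have h5 := hasFDerivAt_of_restrictScalars ℝ h3 h4
  exact h5.differentiableAt

private theorem mapc_mul (A B : M3) : (A * B).map conj = A.map conj * B.map conj :=
  Matrix.map_mul (f := starRingEnd ℂ)

private theorem sc_conj (b : ℝ) : (sc b).map conj = sc b := by
  rw [sc, diagonal_map (map_zero _)]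
  congr 1
  funext i
  fin_cases i <;> simp

/-- **(H2)**, from (H2) on the cone. -/
theorem pH2 (hGJ : S_GJ) (hc : S_H2c)
    (hW : ∀ (G : Type) [Group G] (ρ : G →* M3), Lat ρ → ∃ χ : V3 → ℝ, Wei ρ χ) : J.S_H2 := by
  intro F _ _ _ h2F D G hG c hcoc
  have hLat := lat_rho h2F D G hG
  have hb := D.bet_pos
  -- the relation between `g` and `rho g`
  have hM : ∀ g : G, (mt D D.t0 g.1).map conj * sc (D.t0 D.bet) =
      sc (D.t0 D.bet) * (rho D G g).map conj := by
    intro g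
    have h1 : mt D D.t0 g.1 * sc (D.t0 D.bet) = sc (D.t0 D.bet) * rho D G g := by
      rw [rho_apply, ← Matrix.mul_assoc, ← Matrix.mul_assoc, sc_mul_sci hb, Matrix.one_mul]
    have h2 := congrArg (fun A : M3 => A.map conj) h1
    simp only [mapc_mul, sc_conj] at h2
    exact h2
  have hM' : ∀ g : G, sci (D.t0 D.bet) * (mt D D.t0 g.1).map conj =
      (rho D G g).map conj * sci (D.t0 D.bet) := by
    intro g
    calc sci (D.t0 D.bet) * (mt D D.t0 g.1).map conj
        = sci (D.t0 D.bet) * ((mt D D.t0 g.1).map conj * sc (D.t0 D.bet)) *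
            sci (D.t0 D.bet) := by
          rw [Matrix.mul_assoc, Matrix.mul_assoc, sc_mul_sci hb, Matrix.mul_one]
      _ = (rho D G g).map conj * sci (D.t0 D.bet) := by
          rw [hM g, ← Matrix.mul_assoc, sci_sc hb, Matrix.one_mul]
  -- the cocycle of linear forms
  have hcy : Cyc (rho D G) 1 (fun g Z => bb (sci (D.t0 D.bet) *ᵥ c g) (rho D G g *ᵥ Z)) := by
    refine ⟨?_, ?_⟩
    · intro g
      refine Or.inr ⟨rfl, (rho D G g)ᵀ *ᵥ (diagonal ep *ᵥ (sci (D.t0 D.bet) *ᵥ c g)), ?_⟩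
      funext Z
      rw [bb_mul, lin_apply]
    · intro g k Z
      have h1 : ∀ x y z : V3, bb (x + y) z = bb x z + bb y z := by
        intro x y z
        simp only [bb, Pi.add_apply]
        ring
      have h2 : ∀ x y : V3, bb ((rho D G g).map conj *ᵥ x) (rho D G g *ᵥ y) = bb x y := by
        intro x y
        have h3 : ∀ u w : V3, bb u w = u ⬝ᵥ (diagonal ep *ᵥ w) := by
          intro u w
          rw [bb_eq]
          simp only [dotProduct, mulVec_diagonal]
          exact Finset.sum_congr rfl (fun i _ => by ring)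
        have h4 : ((rho D G g).map conj)ᵀ = (rho D G g)ᴴ := rfl
        have h5 : (rho D G g).map conj *ᵥ x = x ᵥ* (rho D G g)ᴴ := by
          rw [← h4, vecMul_transpose]
        rw [h3, h3, h5, ← dotProduct_mulVec, mulVec_mulVec, mulVec_mulVec,
          (hGJ _ (hLat.isg g)).1]
      change bb (sci (D.t0 D.bet) *ᵥ c (g * k)) (rho D G (g * k) *ᵥ Z) =
        bb (sci (D.t0 D.bet) *ᵥ c g) (rho D G g *ᵥ (rho D G k *ᵥ Z)) +
          bb (sci (D.t0 D.bet) *ᵥ c k) (rho D G k *ᵥ Z)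
      rw [hcoc g k, mulVec_add, h1, map_mul, ← mulVec_mulVec]
      congr 1
      rw [mulVec_mulVec, hM' g, ← mulVec_mulVec, h2]
  obtain ⟨Φ, hΦ, hΦ1, hΦg, hΦd⟩ := hc G (rho D G) hLat (hW G (rho D G) hLat) _ hcy
  have hCo : ∀ g : G, ∀ Z ∈ Co, rho D G g *ᵥ Z ∈ Co := by
    intro g Z hZ
    have h1 := hLat.isg g Z Z
    have h2 : ∀ W : V3, ((NN W : ℝ) : ℂ) = -hh W W := by
      intro W
      simp only [NN, hh, Complex.ofReal_sub, ← Complex.mul_conj]
      ring
    have h3 : ((NN (rho D G g *ᵥ Z) : ℝ) : ℂ) = ((NN Z : ℝ) : ℂ) := by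
      rw [h2, h2, h1]
    have h4 : NN (rho D G g *ᵥ Z) = NN Z := by exact_mod_cast h3
    change 0 < NN (rho D G g *ᵥ Z)
    rw [h4]
    exact hZ
  refine ⟨fun z => sc (D.t0 D.bet) *ᵥ vF Φ (lf (D.t0 D.bet) z), ?_, ?_⟩
  · intro i z hzB
    have hZ : lf (D.t0 D.bet) z ∈ Co := (lf_mem_Co D z).mpr hzB
    apply DifferentiableAt.differentiableWithinAt
    have h1 : DifferentiableAt ℂ (lf (D.t0 D.bet)) z := by
      rw [differentiableAt_pi]
      intro j
      fin_cases j
      · have h0 : DifferentiableAt ℂ (fun w : ℂ × ℂ => w.1) z := differentiableAt_fst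
        change DifferentiableAt ℂ
          (fun w : ℂ × ℂ => w.1 / ((Real.sqrt (D.t0 D.bet) : ℝ) : ℂ)) z
        simp only [div_eq_mul_inv]
        exact h0.mul_const _
      · have h0 : DifferentiableAt ℂ (fun w : ℂ × ℂ => w.2) z := differentiableAt_snd
        change DifferentiableAt ℂ
          (fun w : ℂ × ℂ => w.2 / ((Real.sqrt (D.t0 D.bet) : ℝ) : ℂ)) z
        simp only [div_eq_mul_inv]
        exact h0.mul_const _
      · exact differentiableAt_const _
    have h2 : ∀ k, DifferentiableAt ℂ (fun w => dz k Φ (lf (D.t0 D.bet) w)) z := fun k =>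
      (grad_hol hΦ hΦd k hZ).comp z h1
    have h3 : (fun w => (sc (D.t0 D.bet) *ᵥ vF Φ (lf (D.t0 D.bet) w)) i) =
        fun w => ∑ k, sc (D.t0 D.bet) i k * (ep k * dz k Φ (lf (D.t0 D.bet) w)) := rfl
    rw [h3]
    exact DifferentiableAt.fun_sum (fun k _ => ((h2 k).const_mul _).const_mul _)
  · intro g z hzB
    have hZ : lf (D.t0 D.bet) z ∈ Co := (lf_mem_Co D z).mpr hzB
    have hiso : IsIso D g.1 := (hG.1 g.2).1
    have hzB' := B.act_mem_Ball D hiso hzB
    have hn := B.num_two_ne_zero D hiso hzB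
    have hZ' : lf (D.t0 D.bet) (act D g.1 z) ∈ Co := (lf_mem_Co D _).mpr hzB'
    have h1 := grad_rule hGJ hΦ (hLat.isg g) (hCo g) (sci (D.t0 D.bet) *ᵥ c g) (hΦg g) hZ
    rw [rho_lf D G g hiso hzB, grad_hg hΦ hΦ1 hZ' hn] at h1
    change sc (D.t0 D.bet) *ᵥ vF Φ (lf (D.t0 D.bet) (act D g.1 z)) =
      (mt D D.t0 g.1).map conj *ᵥ (sc (D.t0 D.bet) *ᵥ vF Φ (lf (D.t0 D.bet) z)) + c g
    rw [h1, mulVec_add, mulVec_mulVec, mulVec_mulVec, sc_mul_sci hb, one_mulVec, ← hM g,
      ← mulVec_mulVec]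

end CMT.J3
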