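import Pool.Agent.Lib.CMT.J3.Spec

/-!
# PROJECT CMT, part J3 : the kernel and the smoothness of averages
-/

set_option autoImplicit false

open scoped BigOperators ComplexConjugate ContDiff
open MeasureTheory Matrix Set Topology

noncomputable section

namespace CMT.J3

namespace Ker_aux

theorem contDiff_coord (i : Fin 3) : ContDiff ℝ ∞ (fun Z : V3 => Z i) := contDiff_apply ℝ ℂ i

theorem contDiff_normSq : ContDiff ℝ ∞ (fun z : ℂ => Complex.normSq z) := by
  have h : (fun z : ℂ => Complex.normSq z) =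
      fun z => Complex.reCLM z * Complex.reCLM z + Complex.imCLM z * Complex.imCLM z := by
    ext z
    exact Complex.normSq_apply z
  rw [h]
  exact (Complex.reCLM.contDiff.mul Complex.reCLM.contDiff).add
    (Complex.imCLM.contDiff.mul Complex.imCLM.contDiff)

theorem contDiff_NN : ContDiff ℝ ∞ NN :=
  ((contDiff_normSq.comp (contDiff_coord 2)).sub (contDiff_normSq.comp (contDiff_coord 0))).sub
    (contDiff_normSq.comp (contDiff_coord 1))

theorem continuous_NN : Continuous NN := contDiff_NN.continuous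

theorem contDiff_hh : ContDiff ℝ ∞ (fun q : V3 × V3 => hh q.1 q.2) := by
  have h1 : ∀ i : Fin 3, ContDiff ℝ ∞ (fun q : V3 × V3 => q.1 i) := fun i =>
    (contDiff_coord i).comp contDiff_fst
  have h2 : ∀ i : Fin 3, ContDiff ℝ ∞ (fun q : V3 × V3 => conj (q.2 i)) := fun i =>
    Complex.conjCLE.contDiff.comp ((contDiff_coord i).comp contDiff_snd)
  exact (((h1 0).mul (h2 0)).add ((h1 1).mul (h2 1))).sub ((h1 2).mul (h2 2))

theorem contDiff_th : ContDiff ℝ ∞ th :=
  (Real.smoothTransition.contDiff.comp (contDiff_id.sub contDiff_const)).mul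
    (Real.smoothTransition.contDiff.comp (contDiff_const.sub contDiff_id))

theorem contDiff_kk (T : ℝ) : ContDiff ℝ ∞ (kk T) :=
  Real.smoothTransition.contDiff.comp (contDiff_const.sub contDiff_id)

theorem isOpen_Co : IsOpen Co := isOpen_lt continuous_const continuous_NN

theorem th_eq_zero_of_le {x : ℝ} (hx : x ≤ 1) : th x = 0 := by
  unfold th
  rw [Real.smoothTransition.zero_of_nonpos (by linarith), zero_mul]

theorem th_eq_zero_of_ge {x : ℝ} (hx : 3 ≤ x) : th x = 0 := by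
  unfold th
  rw [Real.smoothTransition.zero_of_nonpos (x := 3 - x) (by linarith), mul_zero]

theorem kk_eq_zero_of_ge {T x : ℝ} (hx : T ≤ x) : kk T x = 0 := by
  unfold kk
  exact Real.smoothTransition.zero_of_nonpos (by linarith)

theorem Ke_ne_zero {T : ℝ} {p : ℕ} {Z W : V3} (h : Ke T p Z W ≠ 0) :
    tt Z W < T ∧ 1 < NN W ∧ NN W < 3 := by
  refine ⟨?_, ?_, ?_⟩
  · by_contra h1
    apply h
    unfold Ke
    rw [kk_eq_zero_of_ge (not_lt.1 h1), zero_mul, Complex.ofReal_zero, mul_zero]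
  · by_contra h1
    apply h
    unfold Ke
    rw [th_eq_zero_of_le (not_lt.1 h1), mul_zero, Complex.ofReal_zero, mul_zero]
  · by_contra h1
    apply h
    unfold Ke
    rw [th_eq_zero_of_ge (not_lt.1 h1), mul_zero, Complex.ofReal_zero, mul_zero]

theorem contDiffAt_Ke (T : ℝ) (p : ℕ) {Z W : V3} (hZ : Z ∈ Co) (hW : W ∈ Co) :
    ContDiffAt ℝ ∞ (fun q : V3 × V3 => Ke T p q.1 q.2) (Z, W) := by
  have hN1 : ContDiffAt ℝ ∞ (fun q : V3 × V3 => NN q.1) (Z, W) :=
    (contDiff_NN.comp contDiff_fst).contDiffAt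
  have hN2 : ContDiffAt ℝ ∞ (fun q : V3 × V3 => NN q.2) (Z, W) :=
    (contDiff_NN.comp contDiff_snd).contDiffAt
  have hh1 : ContDiffAt ℝ ∞ (fun q : V3 × V3 => hh q.1 q.2) (Z, W) := contDiff_hh.contDiffAt
  have ht : ContDiffAt ℝ ∞ (fun q : V3 × V3 => tt q.1 q.2) (Z, W) :=
    ((contDiff_normSq.comp contDiff_hh).contDiffAt).div (hN1.mul hN2) (mul_pos hZ hW).ne'
  have ho : ∀ {f : V3 × V3 → ℝ}, ContDiffAt ℝ ∞ f (Z, W) →
      ContDiffAt ℝ ∞ (fun q => ((f q : ℝ) : ℂ)) (Z, W) := fun h =>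
    Complex.ofRealCLM.contDiff.contDiffAt.comp _ h
  have hne : ((NN W : ℝ) : ℂ) ≠ 0 := by
    have : NN W ≠ 0 := ne_of_gt hW
    exact_mod_cast this
  have hq : ContDiffAt ℝ ∞ (fun q : V3 × V3 => -(hh q.1 q.2) / ((NN q.2 : ℝ) : ℂ)) (Z, W) := by
    have h1 : ContDiffAt ℝ ∞ (fun q : V3 × V3 => -(hh q.1 q.2) * (((NN q.2 : ℝ) : ℂ))⁻¹) (Z, W) :=
      hh1.neg.mul ((ho hN2).inv hne)
    simpa only [div_eq_mul_inv] using h1
  have hk1 : ContDiffAt ℝ ∞ (fun q : V3 × V3 => kk T (tt q.1 q.2)) (Z, W) :=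
    (contDiff_kk T).contDiffAt.comp (Z, W) ht
  have hk2 : ContDiffAt ℝ ∞ (fun q : V3 × V3 => th (NN q.2)) (Z, W) :=
    contDiff_th.contDiffAt.comp (Z, W) hN2
  exact (hq.pow p).mul (ho (hk1.mul hk2))

theorem pKeSm' (T : ℝ) (p : ℕ) :
    ContDiffOn ℝ ∞ (fun q : V3 × V3 => Ke T p q.1 q.2) (Co ×ˢ Set.univ) := by
  rintro ⟨Z, W⟩ ⟨hZ, -⟩
  refine ContDiffAt.contDiffWithinAt ?_
  rcases lt_or_ge 0 (NN W) with hW | hW
  · exact contDiffAt_Ke T p hZ hW
  · have hev : (fun q : V3 × V3 => Ke T p q.1 q.2) =ᶠ[𝓝 (Z, W)] fun _ => (0 : ℂ) := by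
      have ho : IsOpen {q : V3 × V3 | NN q.2 < 1} :=
        isOpen_lt (continuous_NN.comp continuous_snd) continuous_const
      filter_upwards [ho.mem_nhds (show (Z, W) ∈ {q : V3 × V3 | NN q.2 < 1} from
        lt_of_le_of_lt hW one_pos)] with q hq
      by_contra h
      exact absurd (Ke_ne_zero h).2.1 (not_lt.2 (le_of_lt hq))
    exact contDiffAt_const.congr_of_eventuallyEq hev

/-- For fixed `Z` the kernel is smooth in `W`. -/
theorem continuous_Ke (T : ℝ) (p : ℕ) {Z : V3} (hZ : Z ∈ Co) : Continuous (Ke T p Z) := by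
  have h : ContinuousOn (fun q : V3 × V3 => Ke T p q.1 q.2) (Co ×ˢ Set.univ) :=
    (pKeSm' T p).continuousOn
  have h2 : ContinuousOn (fun W : V3 => Ke T p Z W) Set.univ :=
    h.comp (f := fun W : V3 => (Z, W)) (Continuous.prodMk_right Z).continuousOn
      fun W _ => ⟨hZ, Set.mem_univ _⟩
  exact continuousOn_univ.1 h2

end Ker_aux

open Ker_aux

theorem pKeSm : S_KeSm := pKeSm'

theorem pKeCpt (h : S_HhLow) : S_KeCpt := by
  intro T p C hC hCo
  obtain ⟨δ, hδ, hlow⟩ := h C hC hCo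
  obtain ⟨M, hM⟩ := (hC.image continuous_NN).bddAbove
  refine ⟨Metric.closedBall 0 (Real.sqrt (|T| * |M| * 3) / δ) ∩ {W | 1 ≤ NN W},
    (isCompact_closedBall _ _).inter_right (isClosed_le continuous_const continuous_NN), ?_, ?_⟩
  · intro W hW
    have h1 : (1 : ℝ) ≤ NN W := hW.2
    exact lt_of_lt_of_le one_pos h1
  · intro Z hZ W hW
    by_contra hne
    apply hW
    obtain ⟨h1, h2, h3⟩ := Ke_ne_zero hne
    have hNZ : 0 < NN Z := hCo hZ
    have hNW : 0 < NN W := lt_trans one_pos h2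
    have hZM : NN Z ≤ |M| := (hM ⟨Z, hZ, rfl⟩).trans (le_abs_self M)
    refine ⟨?_, h2.le⟩
    rw [mem_closedBall_zero_iff, le_div_iff₀ hδ, mul_comm]
    refine (hlow Z hZ W hNW.le).trans (Real.le_sqrt_of_sq_le ?_)
    rw [← Complex.normSq_eq_norm_sq]
    unfold tt at h1
    rw [div_lt_iff₀ (mul_pos hNZ hNW)] at h1
    refine h1.le.trans ?_
    have h4 : NN Z * NN W ≤ |M| * 3 := mul_le_mul hZM h3.le hNW.le (abs_nonneg M)
    calc T * (NN Z * NN W) ≤ |T| * (NN Z * NN W) :=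
          mul_le_mul_of_nonneg_right (le_abs_self T) (mul_pos hNZ hNW).le
      _ ≤ |T| * (|M| * 3) := mul_le_mul_of_nonneg_left h4 (abs_nonneg T)
      _ = |T| * |M| * 3 := by ring

theorem pAvInt (h : S_HhLow) : S_AvInt := by
  intro T p Φ hΦ Z hZ
  obtain ⟨C', hC', hC'o, hv⟩ := pKeCpt h T p {Z} isCompact_singleton (by
    intro x hx
    rw [mem_singleton_iff] at hx
    rw [hx]
    exact hZ)
  have hsup : Function.support (fun W => Ke T p Z W * Φ W) ⊆ C' := by
    intro W hW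
    by_contra hn
    exact hW (by
      show Ke T p Z W * Φ W = 0
      rw [hv Z rfl W hn, zero_mul])
  rw [← integrableOn_iff_integrable_of_support_subset hsup]
  exact ((continuous_Ke T p hZ).continuousOn.mul (hΦ.mono hC'o)).integrableOn_compact hC'

theorem pAvSm (h : S_HhLow) : S_AvSm := by
  intro T p Φ hΦ Z₀ hZ₀
  refine ContDiffAt.contDiffWithinAt ?_
  obtain ⟨C, hC, hZC, hCo⟩ := exists_compact_subset isOpen_Co hZ₀
  obtain ⟨C', hC', hC'o, hv⟩ := pKeCpt h T p C hC hCo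
  have hf : LocallyIntegrable (C'.indicator Φ) (volume : Measure V3) := by
    refine Integrable.locallyIntegrable ?_
    rw [integrable_indicator_iff hC'.measurableSet]
    exact (hΦ.mono hC'o).integrableOn_compact hC'
  have hk : IsCompact ((fun x : V3 => -x) '' C') := hC'.image continuous_neg
  have hconv : ContDiffOn ℝ ∞ (fun q : V3 × V3 =>
      (convolution (C'.indicator Φ) (fun W => Ke T p q.1 (-W)) (ContinuousLinearMap.mul ℝ ℂ)
        volume) q.2) (interior C ×ˢ Set.univ) := by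
    have h1 : ContDiff ℝ ∞ (fun q : V3 × V3 => (q.1, -q.2)) :=
      contDiff_fst.prodMk contDiff_snd.neg
    have hg : ContDiffOn ℝ ∞ (fun q : V3 × V3 => Ke T p q.1 (-q.2)) (interior C ×ˢ Set.univ) :=
      (pKeSm' T p).comp (f := fun q : V3 × V3 => (q.1, -q.2)) h1.contDiffOn
        fun q hq => ⟨hCo (interior_subset hq.1), Set.mem_univ _⟩
    exact contDiffOn_convolution_right_with_param (𝕜 := ℝ) (n := ⊤) (μ := (volume : Measure V3))
      (f := C'.indicator Φ) (g := fun Z W => Ke T p Z (-W)) (ContinuousLinearMap.mul ℝ ℂ)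
      isOpen_interior hk (fun Z x hZ hx =>
        hv Z (interior_subset hZ) (-x) fun hx' => hx ⟨-x, hx', neg_neg x⟩) hf hg
  have h2 : ContDiffOn ℝ ∞ (fun Z : V3 =>
      (convolution (C'.indicator Φ) (fun W => Ke T p Z (-W)) (ContinuousLinearMap.mul ℝ ℂ)
        volume) 0) (interior C) := by
    have h3 : ContDiff ℝ ∞ (fun Z : V3 => (Z, (0 : V3))) := contDiff_id.prodMk contDiff_const
    exact hconv.comp (f := fun Z : V3 => (Z, (0 : V3))) h3.contDiffOn
      fun Z hZ => ⟨hZ, Set.mem_univ _⟩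
  refine (h2.contDiffAt (isOpen_interior.mem_nhds hZC)).congr_of_eventuallyEq ?_
  filter_upwards [isOpen_interior.mem_nhds hZC] with Z hZ
  unfold Av
  rw [convolution_def]
  refine integral_congr_ae (Filter.Eventually.of_forall fun W => ?_)
  show Ke T p Z W * Φ W = C'.indicator Φ W * Ke T p Z (-(0 - W))
  rw [zero_sub, neg_neg]
  by_cases hW : W ∈ C'
  · rw [indicator_of_mem hW, mul_comm]
  · rw [indicator_of_notMem hW, zero_mul, hv Z (interior_subset hZ) W hW, zero_mul]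

end CMT.J3
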