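import Pool.Agent.Lib.CMT.J3.Spec
import Pool.Agent.Lib.CMT.J3.FixA

/-!
# PROJECT CMT, part J3 : Neumann series in the space of sections (S_Neu)
-/

open scoped BigOperators ComplexConjugate ContDiff Topology
open MeasureTheory Matrix Filter

noncomputable section

namespace CMT.J3

theorem contNN : Continuous NN := by
  unfold NN
  fun_prop

theorem Sec.zero {G : Type*} [Group G] {ρ : G →* M3} {p : ℕ} : Sec ρ p (fun _ => 0) where
  cont := continuousOn_const
  hg _ _ _ _ := (mul_zero _).symm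
  inv _ _ _ := rfl

theorem Sec.add {G : Type*} [Group G] {ρ : G →* M3} {p : ℕ} {u v : V3 → ℂ} (hu : Sec ρ p u)
    (hv : Sec ρ p v) : Sec ρ p (fun W => u W + v W) where
  cont := hu.cont.add hv.cont
  hg Z hZ c hc := by
    show u (c • Z) + v (c • Z) = c ^ p * (u Z + v Z)
    rw [hu.hg Z hZ c hc, hv.hg Z hZ c hc, mul_add]
  inv g Z hZ := by rw [hu.inv g Z hZ, hv.inv g Z hZ]

theorem Sec.sub {G : Type*} [Group G] {ρ : G →* M3} {p : ℕ} {u v : V3 → ℂ} (hu : Sec ρ p u)
    (hv : Sec ρ p v) : Sec ρ p (fun W => u W - v W) where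
  cont := hu.cont.sub hv.cont
  hg Z hZ c hc := by
    show u (c • Z) - v (c • Z) = c ^ p * (u Z - v Z)
    rw [hu.hg Z hZ c hc, hv.hg Z hZ c hc, mul_sub]
  inv g Z hZ := by rw [hu.inv g Z hZ, hv.inv g Z hZ]

private theorem smul_mem_Co {Z : V3} (hZ : Z ∈ Co) {c : ℂ} (hc : c ≠ 0) : c • Z ∈ Co := by
  have h1 : NN (c • Z) = Complex.normSq c * NN Z := by
    unfold NN
    simp only [Pi.smul_apply, smul_eq_mul, Complex.normSq_mul]
    ring
  show 0 < NN (c • Z)
  rw [h1]
  exact mul_pos (Complex.normSq_pos.mpr hc) hZ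

theorem pNeu : S_Neu := by
  intro G _ ρ p A q hq0 hq1 hA hadd hbd u0 hu0 ⟨M, hM⟩
  set w : V3 → ℝ := fun Z => Real.sqrt (NN Z) ^ p with hw
  have hwc : ContinuousOn w Co := ((Real.continuous_sqrt.comp contNN).pow p).continuousOn
  have hwp : ∀ Z ∈ Co, 0 < w Z := fun Z hZ => pow_pos (Real.sqrt_pos.mpr hZ) p
  have hvS : ∀ n, Sec ρ p (A^[n] u0) := by
    intro n
    induction n with
    | zero => exact hu0
    | succ n ih =>
      rw [Function.iterate_succ_apply']
      exact hA _ ih
  have hvB : ∀ n, ∀ Z ∈ Co, ‖(A^[n] u0) Z‖ ≤ M * q ^ n * w Z := by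
    intro n
    induction n with
    | zero =>
      intro Z hZ
      rw [pow_zero, mul_one]
      exact hM Z hZ
    | succ n ih =>
      intro Z hZ
      rw [Function.iterate_succ_apply']
      have h1 := hbd _ (hvS n) (M * q ^ n) ih Z hZ
      refine h1.trans (le_of_eq ?_)
      rw [pow_succ]
      ring
  let S : ℕ → V3 → ℂ := fun n Z => ∑ j ∈ Finset.range n, (A^[j] u0) Z
  have hS0 : S 0 = fun _ => 0 := by
    funext Z
    simp [S]
  have hSs : ∀ n, S (n + 1) = fun Z => S n Z + (A^[n] u0) Z := by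
    intro n
    funext Z
    exact Finset.sum_range_succ _ n
  have hSS : ∀ n, Sec ρ p (S n) := by
    intro n
    induction n with
    | zero => rw [hS0]; exact Sec.zero
    | succ n ih => rw [hSs]; exact ih.add (hvS n)
  obtain ⟨U, hUc, hUt, hUb⟩ := tele hwc hwp hq0 hq1 S (fun n => (hSS n).cont) (C := M) (by
    intro n Z hZ
    rw [hSs n]
    have e : (fun Z => S n Z + (A^[n] u0) Z) Z - S n Z = (A^[n] u0) Z := by
      simp only [add_sub_cancel_left]
    rw [e]
    exact hvB n Z hZ)
  -- the limit, also defined outside of the cone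
  let V : V3 → ℂ := fun Z => limUnder atTop (fun n => S n Z)
  have hV : ∀ Z ∈ Co, V Z = U Z := fun Z hZ => (hUt Z hZ).limUnder_eq
  have hVS : Sec ρ p V := by
    refine ⟨hUc.congr hV, ?_, ?_⟩
    · intro Z hZ c hc
      have hcZ := smul_mem_Co hZ hc
      rw [hV _ hcZ, hV Z hZ]
      refine tendsto_nhds_unique (hUt _ hcZ) (((hUt Z hZ).const_mul (c ^ p)).congr fun n => ?_)
      exact ((hSS n).hg Z hZ c hc).symm
    · intro g Z hZ
      have e : (fun n => S n (ρ g *ᵥ Z)) = fun n => S n Z := by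
        funext n
        exact (hSS n).inv g Z hZ
      show limUnder atTop (fun n => S n (ρ g *ᵥ Z)) = limUnder atTop (fun n => S n Z)
      rw [e]
  have hVB : ∀ n, ∀ Z ∈ Co, ‖V Z - S n Z‖ ≤ M / (1 - q) * q ^ n * w Z := by
    intro n Z hZ
    rw [hV Z hZ]
    exact hUb n Z hZ
  refine ⟨V, hVS, ⟨M / (1 - q), fun Z hZ => ?_⟩, fun Z hZ => ?_⟩
  · have h := hVB 0 Z hZ
    rw [hS0, sub_zero, pow_zero, mul_one] at h
    exact h
  · have hA0 : ∀ Z ∈ Co, A (fun _ => 0) Z = 0 := by
      intro Z hZ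
      have h := hadd (fun _ => 0) (fun _ => 0) Sec.zero Sec.zero Z hZ
      have e : (fun W : V3 => (fun _ : V3 => (0 : ℂ)) W + (fun _ : V3 => (0 : ℂ)) W) = fun _ => 0 := by
        funext W
        simp
      rw [e] at h
      simpa using h
    have hAS : ∀ n, A (S n) Z = S (n + 1) Z - u0 Z := by
      intro n
      induction n with
      | zero =>
        have e1 : S 1 Z = u0 Z := by simp [S]
        rw [hS0, hA0 Z hZ, zero_add, e1, sub_self]
      | succ n ih =>
        rw [hSs n, hadd _ _ (hSS n) (hvS n) Z hZ, ih, ← Function.iterate_succ_apply' A n u0]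
        have e2 : S (n + 1 + 1) Z = S (n + 1) Z + (A^[n + 1] u0) Z := congrFun (hSs (n + 1)) Z
        rw [e2]
        ring
    have hAV : ∀ n, A V Z = S (n + 1) Z - u0 Z + A (fun W => V W - S n W) Z := by
      intro n
      have e : V = fun W => S n W + (fun W => V W - S n W) W := by
        funext W
        simp only [add_sub_cancel]
      have h := hadd (S n) (fun W => V W - S n W) (hSS n) (hVS.sub (hSS n)) Z hZ
      rw [← e, hAS n] at h
      exact h
    have hlim1 : Tendsto (fun n => S (n + 1) Z - u0 Z) atTop (𝓝 (V Z - u0 Z)) := by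
      rw [hV Z hZ]
      exact ((tendsto_add_atTop_iff_nat 1).mpr (hUt Z hZ)).sub_const _
    have hlim2 : Tendsto (fun n => A (fun W => V W - S n W) Z) atTop (𝓝 0) := by
      refine squeeze_zero_norm (a := fun n => q * (M / (1 - q) * q ^ n) * w Z) (fun n => ?_) ?_
      · exact hbd _ (hVS.sub (hSS n)) (M / (1 - q) * q ^ n) (hVB n) Z hZ
      · have h := (tendsto_pow_atTop_nhds_zero_of_lt_one hq0 hq1).const_mul
          (q * (M / (1 - q)) * w Z)
        rw [mul_zero] at h
        refine h.congr fun n => ?_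
        ring
    have hlim : Tendsto (fun _ : ℕ => A V Z) atTop (𝓝 (V Z - u0 Z + 0)) :=
      (hlim1.add hlim2).congr fun n => (hAV n).symm
    have h := tendsto_nhds_unique tendsto_const_nhds hlim
    rw [h]
    ring

end CMT.J3
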