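import Pool.Agent.Lib.CMT.J3.Spec

/-!
# PROJECT CMT, part J3 : positivity of tangential tensors (helper71)

`pPos1 : S_Pos1`, `pPos2 : S_Pos2`.
-/

open scoped BigOperators ComplexConjugate

noncomputable section

namespace CMT.J3

/-- `h = -NN`. -/
private def hq (q : V3) : ℝ :=
  Complex.normSq (q 0) + Complex.normSq (q 1) - Complex.normSq (q 2)

private theorem hq_eq (q : V3) : NN q = -hq q := by
  unfold hq NN
  ring

private theorem pz2 {Z : V3} (hZ : Z ∈ Co) : 0 < Complex.normSq (Z 2) := by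
  have h : 0 < NN Z := hZ
  unfold NN at h
  have h0 := Complex.normSq_nonneg (Z 0)
  have h1 := Complex.normSq_nonneg (Z 1)
  linarith

private theorem hq_id {Z q : V3}
    (h : conj (Z 0) * q 0 + conj (Z 1) * q 1 + conj (Z 2) * q 2 = 0) :
    Complex.normSq (Z 2) * hq q = NN Z * (Complex.normSq (q 0) + Complex.normSq (q 1)) +
      Complex.normSq (Z 1 * q 0 - Z 0 * q 1) := by
  have h1 : conj (Z 2) * q 2 = -(conj (Z 0) * q 0 + conj (Z 1) * q 1) := by linear_combination h
  have h2 := congrArg Complex.normSq h1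
  rw [Complex.normSq_mul, Complex.normSq_conj, Complex.normSq_neg] at h2
  have h3 : Complex.normSq (conj (Z 0) * q 0 + conj (Z 1) * q 1) +
      Complex.normSq (Z 1 * q 0 - Z 0 * q 1) =
      (Complex.normSq (Z 0) + Complex.normSq (Z 1)) *
        (Complex.normSq (q 0) + Complex.normSq (q 1)) := by
    simp only [Complex.normSq_apply, Complex.add_re, Complex.add_im, Complex.sub_re, Complex.sub_im,
      Complex.mul_re, Complex.mul_im, Complex.conj_re, Complex.conj_im]
    ring
  unfold hq NN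
  linear_combination (-1 : ℝ) * h2 - h3

private theorem hq_nonneg {Z q : V3} (hZ : Z ∈ Co)
    (h : conj (Z 0) * q 0 + conj (Z 1) * q 1 + conj (Z 2) * q 2 = 0) : 0 ≤ hq q := by
  have h1 := pz2 hZ
  have h2 := hq_id h
  have h3 : 0 < NN Z := hZ
  have h4 : 0 ≤ Complex.normSq (Z 2) * hq q := by
    rw [h2]
    have a := Complex.normSq_nonneg (q 0)
    have b := Complex.normSq_nonneg (q 1)
    have c := Complex.normSq_nonneg (Z 1 * q 0 - Z 0 * q 1)
    positivity
  exact nonneg_of_mul_nonneg_right h4 h1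

private theorem hq_zero {Z q : V3} (hZ : Z ∈ Co)
    (h : conj (Z 0) * q 0 + conj (Z 1) * q 1 + conj (Z 2) * q 2 = 0) (h0 : hq q ≤ 0) :
    q = 0 := by
  have h1 := pz2 hZ
  have h2 := hq_id h
  have h3 : 0 < NN Z := hZ
  have a := Complex.normSq_nonneg (q 0)
  have b := Complex.normSq_nonneg (q 1)
  have c := Complex.normSq_nonneg (Z 1 * q 0 - Z 0 * q 1)
  have h4 : Complex.normSq (Z 2) * hq q ≤ 0 := mul_nonpos_of_nonneg_of_nonpos h1.le h0
  have h5 : NN Z * (Complex.normSq (q 0) + Complex.normSq (q 1)) ≤ 0 := by linarith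
  have h6 : Complex.normSq (q 0) + Complex.normSq (q 1) ≤ 0 := by
    by_contra hc
    push Not at hc
    have := mul_pos h3 hc
    linarith
  have q0 : q 0 = 0 := Complex.normSq_eq_zero.1 (by linarith)
  have q1 : q 1 = 0 := Complex.normSq_eq_zero.1 (by linarith)
  rw [q0, q1, mul_zero, mul_zero, zero_add, zero_add] at h
  have hz2 : conj (Z 2) ≠ 0 := by
    intro hc
    rw [map_eq_zero] at hc
    rw [hc, map_zero] at h1
    exact lt_irrefl _ h1
  have q2 : q 2 = 0 := (mul_eq_zero.1 h).resolve_left hz2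
  funext j
  fin_cases j
  · exact q0
  · exact q1
  · exact q2

/-- Lagrange identity for `hq`. -/
private theorem hq_lagrange (a b : ℂ) (x y : V3) :
    hq (fun j => a * x j + b * y j) + hq (fun j => conj b * x j + -conj a * y j) =
      (Complex.normSq a + Complex.normSq b) * (hq x + hq y) := by
  unfold hq
  simp only [Complex.normSq_apply, Complex.add_re, Complex.add_im, Complex.mul_re, Complex.mul_im,
    Complex.conj_re, Complex.conj_im, Complex.neg_re, Complex.neg_im]
  ring

private theorem hq_smul (a : ℂ) (x : V3) : hq (fun j => a * x j) = Complex.normSq a * hq x := by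
  unfold hq
  simp only [Complex.normSq_mul]
  ring

/-- The identity for matrices. -/
private theorem hm_id {Z : V3} {m : M3} (h2 : ∀ j, Z 0 * m 0 j + Z 1 * m 1 j + Z 2 * m 2 j = 0) :
    Complex.normSq (Z 2) * (hq (m 0) + hq (m 1) - hq (m 2)) = NN Z * (hq (m 0) + hq (m 1)) +
      hq (fun j => conj (Z 1) * m 0 j + -conj (Z 0) * m 1 j) := by
  have h3 : (fun j => Z 2 * m 2 j) = fun j => -1 * (Z 0 * m 0 j + Z 1 * m 1 j) := by
    funext j
    linear_combination h2 j
  have h4 := hq_smul (Z 2) (m 2)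
  rw [h3, hq_smul (-1) (fun j => Z 0 * m 0 j + Z 1 * m 1 j)] at h4
  have h5 := hq_lagrange (Z 0) (Z 1) (m 0) (m 1)
  have h6 : Complex.normSq (-1) = 1 := by simp
  rw [h6, one_mul] at h4
  unfold NN
  linear_combination h4 - h5

/-- **`S_Pos1`.** -/
theorem pPos1 : S_Pos1 := by
  intro Z hZ u hu
  rw [Fin.sum_univ_three] at hu
  refine ⟨?_, fun h0 => ?_⟩
  · rw [hq_eq]
    have := hq_nonneg hZ hu
    linarith
  · rw [hq_eq] at h0
    exact hq_zero hZ hu (by linarith)

/-- **`S_Pos2`.** -/
theorem pPos2 : S_Pos2 := by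
  intro Z hZ A h2 h1
  have h2' : ∀ j, Z 0 * A 0 j + Z 1 * A 1 j + Z 2 * A 2 j = 0 := by
    intro j
    have := h2 j
    rwa [Fin.sum_univ_three] at this
  have h1' : ∀ k, conj (Z 0) * A k 0 + conj (Z 1) * A k 1 + conj (Z 2) * A k 2 = 0 := by
    intro k
    have := h1 k
    rwa [Fin.sum_univ_three] at this
  have hz := pz2 hZ
  have hN : 0 < NN Z := hZ
  have h3 := hm_id h2'
  have a := hq_nonneg hZ (h1' 0)
  have b := hq_nonneg hZ (h1' 1)
  have c : 0 ≤ hq (fun j => conj (Z 1) * A 0 j + -conj (Z 0) * A 1 j) := by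
    apply hq_nonneg hZ
    linear_combination conj (Z 1) * h1' 0 + -conj (Z 0) * h1' 1
  have e : NN (A 2) - NN (A 0) - NN (A 1) = hq (A 0) + hq (A 1) - hq (A 2) := by
    rw [hq_eq, hq_eq, hq_eq]
    ring
  rw [e]
  refine ⟨?_, fun h0 => ?_⟩
  · have h4 : 0 ≤ Complex.normSq (Z 2) * (hq (A 0) + hq (A 1) - hq (A 2)) := by
      rw [h3]
      positivity
    exact nonneg_of_mul_nonneg_right h4 hz
  · rw [h0, mul_zero] at h3
    have h5 : hq (A 0) + hq (A 1) ≤ 0 := by
      by_contra hc
      push Not at hc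
      have := mul_pos hN hc
      linarith
    have m0 : A 0 = 0 := hq_zero hZ (h1' 0) (by linarith)
    have m1 : A 1 = 0 := hq_zero hZ (h1' 1) (by linarith)
    have hz2 : Z 2 ≠ 0 := by
      intro hc
      rw [hc, map_zero] at hz
      exact lt_irrefl _ hz
    have m2 : A 2 = 0 := by
      funext j
      have h6 := h2' j
      rw [m0, m1] at h6
      simp only [Pi.zero_apply, mul_zero, zero_add] at h6
      exact (mul_eq_zero.1 h6).resolve_left hz2
    funext i
    fin_cases i
    · exact m0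
    · exact m1
    · exact m2

end CMT.J3
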