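import Pool.Agent.Lib.CMT.J3.Alg
import Pool.Agent.Lib.CMT.J3.Meas
import Pool.Agent.Lib.CMT.J3.Pos
import Pool.Agent.Lib.CMT.J3.Ker
import Pool.Agent.Lib.CMT.J3.Eig
import Pool.Agent.Lib.CMT.J3.Bd
import Pool.Agent.Lib.CMT.J3.Doe
import Pool.Agent.Lib.CMT.J3.Comm
import Pool.Agent.Lib.CMT.J3.BxG
import Pool.Agent.Lib.CMT.J3.Cas
import Pool.Agent.Lib.CMT.J3.Neu
import Pool.Agent.Lib.CMT.J3.F0
import Pool.Agent.Lib.CMT.J3.Ex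
import Pool.Agent.Lib.CMT.J3.Div
import Pool.Agent.Lib.CMT.J3.Boch
import Pool.Agent.Lib.CMT.J3.BEq
import Pool.Agent.Lib.CMT.J3.Fin
import Pool.Agent.Lib.CMT.J3.WeiEx
import Pool.Agent.Lib.CMT.J3.H1
import Pool.Agent.Lib.CMT.J3.H2

/-!
# PROJECT CMT, part J3 : the theorems (H1) and (H2) (assembly, helper34)
-/

namespace CMT.J3

theorem tKeCpt : S_KeCpt := pKeCpt pHhLow
theorem tAvInt : S_AvInt := pAvInt pHhLow
theorem tAvSm : S_AvSm := pAvSm pHhLow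
theorem tAvG : S_AvG := pAvG pMeas
theorem tEig : S_Eig := pEig pMeas pTrans tAvInt
theorem tAvBd : S_AvBd := pAvBd pMeas pTrans tAvInt
theorem tKaLa : S_KaLa := pKaLa pRCS tAvInt
theorem tDoe : S_Doe := pDoe tAvG pAvHg tAvInt tAvBd
theorem tComm : S_Comm := pComm tAvG tKeCpt tAvSm tAvInt
theorem tBxG : S_BxG := pBxG pGJ

theorem H2_of (hBx : S_BxAv) : CMT.J.S_H2 :=
  pH2 pGJ (pH2c (pEx1 tAvG pAvHg tAvSm tAvInt tEig tAvBd tKaLa pNeu pBdd pF0 hBx tBxG) pDiv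
    (pBEq pGJ) pB1 pPos1 pPos2) pWeiEx

theorem H1_of (hBx : S_BxAv) : CMT.J.S_H1 :=
  pH1 (pH1c (pEx0 tAvG pAvHg tAvSm tAvInt tEig tKaLa tDoe pNeu pBdd pF0 hBx tBxG) pDiv
    (pBEq pGJ) pB0 pPos2 tDoe)

theorem tBxAv : S_BxAv := pBxAv tComm pAvHg tAvSm tAvInt

/-- **(H2).** -/
theorem tH2 : CMT.J.S_H2 := H2_of tBxAv

/-- **(H1).** -/
theorem tH1 : CMT.J.S_H1 := H1_of tBxAv

end CMT.J3
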