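import Pool.Agent.Lib.CMT.J3.Defs

/-!
# PROJECT CMT, part J3, module PosA (helper26): positivity

`RR q = |q₀|² + |q₁|² - |q₂|²` is positive definite on the vectors with `∑ Z̄_j q_j = 0`, `Z` in the cone; the same for
matrices.
-/

open scoped BigOperators ComplexConjugate

noncomputable section

namespace CMT.J3

/-- `|q₀|² + |q₁|² - |q₂|²`. -/
def RR (q : V3) : ℝ := Complex.normSq (q 0) + Complex.normSq (q 1) - Complex.normSq (q 2)

/-- `∑_ij ε_i ε_j |m_ij|²`. -/
def RM (m : M3) : ℝ := RR (m 0) + RR (m 1) - RR (m 2)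

theorem RR_eq (q : V3) : RR q = -NN q := by
  unfold RR NN
  ring

/-- `q` is orthogonal to `Z`: `∑ Z̄_j q_j = 0`. -/
def Ort (Z q : V3) : Prop := ∑ j, conj (Z j) * q j = 0

theorem ort_iff (Z q : V3) : Ort Z q ↔ conj (Z 0) * q 0 + conj (Z 1) * q 1 + conj (Z 2) * q 2 = 0 := by
  unfold Ort
  rw [Fin.sum_univ_three]

theorem Ort.add {Z q r : V3} (h : Ort Z q) (h' : Ort Z r) (a b : ℂ) :
    Ort Z (fun j => a * q j + b * r j) := by
  rw [ort_iff] at *
  linear_combination a * h + b * h'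

/-- The identity behind the positivity. -/
theorem RR_id {Z q : V3} (h : Ort Z q) :
    Complex.normSq (Z 2) * RR q = NN Z * (Complex.normSq (q 0) + Complex.normSq (q 1)) +
      Complex.normSq (Z 1 * q 0 - Z 0 * q 1) := by
  rw [ort_iff] at h
  have h1 : conj (Z 2) * q 2 = -(conj (Z 0) * q 0 + conj (Z 1) * q 1) := by linear_combination h
  have h2 := congrArg Complex.normSq h1
  rw [Complex.normSq_mul, Complex.normSq_conj, Complex.normSq_neg] at h2
  have h3 : Complex.normSq (conj (Z 0) * q 0 + conj (Z 1) * q 1) +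
      Complex.normSq (Z 1 * q 0 - Z 0 * q 1) =
      (Complex.normSq (Z 0) + Complex.normSq (Z 1)) *
        (Complex.normSq (q 0) + Complex.normSq (q 1)) := by
    simp only [Complex.normSq_apply, Complex.add_re, Complex.add_im, Complex.sub_re, Complex.sub_im,
      Complex.mul_re, Complex.mul_im, Complex.conj_re, Complex.conj_im]
    ring
  unfold RR NN
  linear_combination (-1 : ℝ) * h2 - h3

theorem normSq_two_pos {Z : V3} (hZ : Z ∈ Co) : 0 < Complex.normSq (Z 2) := by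
  have h : 0 < NN Z := hZ
  unfold NN at h
  have h0 := Complex.normSq_nonneg (Z 0)
  have h1 := Complex.normSq_nonneg (Z 1)
  linarith

/-- **(P1)** -/
theorem RR_nonneg {Z q : V3} (hZ : Z ∈ Co) (h : Ort Z q) : 0 ≤ RR q := by
  have h1 := normSq_two_pos hZ
  have h2 := RR_id h
  have h3 : 0 < NN Z := hZ
  have h4 : 0 ≤ Complex.normSq (Z 2) * RR q := by
    rw [h2]
    have a := Complex.normSq_nonneg (q 0)
    have b := Complex.normSq_nonneg (q 1)
    have c := Complex.normSq_nonneg (Z 1 * q 0 - Z 0 * q 1)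
    positivity
  exact nonneg_of_mul_nonneg_right h4 h1

theorem eq_zero_of_RR {Z q : V3} (hZ : Z ∈ Co) (h : Ort Z q) (h0 : RR q ≤ 0) : q = 0 := by
  have h1 := normSq_two_pos hZ
  have h2 := RR_id h
  have h3 : 0 < NN Z := hZ
  have a := Complex.normSq_nonneg (q 0)
  have b := Complex.normSq_nonneg (q 1)
  have c := Complex.normSq_nonneg (Z 1 * q 0 - Z 0 * q 1)
  have h4 : Complex.normSq (Z 2) * RR q ≤ 0 := mul_nonpos_of_nonneg_of_nonpos h1.le h0
  have h5 : NN Z * (Complex.normSq (q 0) + Complex.normSq (q 1)) ≤ 0 := by linarith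
  have h6 : Complex.normSq (q 0) + Complex.normSq (q 1) ≤ 0 := by
    by_contra hc
    push Not at hc
    have := mul_pos h3 hc
    linarith
  have q0 : q 0 = 0 := Complex.normSq_eq_zero.1 (by linarith)
  have q1 : q 1 = 0 := Complex.normSq_eq_zero.1 (by linarith)
  rw [ort_iff, q0, q1, mul_zero, mul_zero, zero_add, zero_add] at h
  have hz2 : conj (Z 2) ≠ 0 := by
    intro hc
    rw [map_eq_zero] at hc
    rw [hc, map_zero] at h1
    exact lt_irrefl _ h1
  have q2 : q 2 = 0 := (mul_eq_zero.1 h).resolve_left hz2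
  funext j
  fin_cases j
  · exact q0
  · exact q1
  · exact q2

/-- Lagrange identity for `RR`. -/
theorem RR_lagrange (a b : ℂ) (x y : V3) :
    RR (fun j => a * x j + b * y j) + RR (fun j => conj b * x j + -conj a * y j) =
      (Complex.normSq a + Complex.normSq b) * (RR x + RR y) := by
  unfold RR
  simp only [Complex.normSq_apply, Complex.add_re, Complex.add_im, Complex.mul_re, Complex.mul_im,
    Complex.conj_re, Complex.conj_im, Complex.neg_re, Complex.neg_im]
  ring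

theorem RR_smul (a : ℂ) (x : V3) : RR (fun j => a * x j) = Complex.normSq a * RR x := by
  unfold RR
  simp only [Complex.normSq_mul]
  ring

/-- The identity for matrices. -/
theorem RM_id {Z : V3} {m : M3} (h2 : ∀ j, ∑ i, Z i * m i j = 0) :
    Complex.normSq (Z 2) * RM m = NN Z * (RR (m 0) + RR (m 1)) +
      RR (fun j => conj (Z 1) * m 0 j + -conj (Z 0) * m 1 j) := by
  have h3 : (fun j => Z 2 * m 2 j) = fun j => -1 * (Z 0 * m 0 j + Z 1 * m 1 j) := by
    funext j
    have := h2 j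
    rw [Fin.sum_univ_three] at this
    linear_combination this
  have h4 := RR_smul (Z 2) (m 2)
  rw [h3, RR_smul (-1) (fun j => Z 0 * m 0 j + Z 1 * m 1 j)] at h4
  have h5 := RR_lagrange (Z 0) (Z 1) (m 0) (m 1)
  have h6 : Complex.normSq (-1) = 1 := by simp
  rw [h6, one_mul] at h4
  unfold RM NN
  linear_combination h4 - h5

/-- **(P2)** -/
theorem RM_nonneg {Z : V3} {m : M3} (hZ : Z ∈ Co) (h1 : ∀ i, Ort Z (m i))
    (h2 : ∀ j, ∑ i, Z i * m i j = 0) : 0 ≤ RM m := by
  have hz := normSq_two_pos hZ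
  have hN : 0 < NN Z := hZ
  have h3 := RM_id h2
  have h4 : 0 ≤ Complex.normSq (Z 2) * RM m := by
    rw [h3]
    have a := RR_nonneg hZ (h1 0)
    have b := RR_nonneg hZ (h1 1)
    have c := RR_nonneg hZ ((h1 0).add (h1 1) (conj (Z 1)) (-conj (Z 0)))
    positivity
  exact nonneg_of_mul_nonneg_right h4 hz

theorem eq_zero_of_RM {Z : V3} {m : M3} (hZ : Z ∈ Co) (h1 : ∀ i, Ort Z (m i))
    (h2 : ∀ j, ∑ i, Z i * m i j = 0) (h0 : RM m ≤ 0) : m = 0 := by
  have hz := normSq_two_pos hZ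
  have hN : 0 < NN Z := hZ
  have h3 := RM_id h2
  have a := RR_nonneg hZ (h1 0)
  have b := RR_nonneg hZ (h1 1)
  have c := RR_nonneg hZ ((h1 0).add (h1 1) (conj (Z 1)) (-conj (Z 0)))
  have h4 : Complex.normSq (Z 2) * RM m ≤ 0 := mul_nonpos_of_nonneg_of_nonpos hz.le h0
  have h5 : RR (m 0) + RR (m 1) ≤ 0 := by
    by_contra hc
    push Not at hc
    have := mul_pos hN hc
    linarith
  have m0 : m 0 = 0 := eq_zero_of_RR hZ (h1 0) (by linarith)
  have m1 : m 1 = 0 := eq_zero_of_RR hZ (h1 1) (by linarith)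
  have hz2 : Z 2 ≠ 0 := by
    intro hc
    rw [hc, map_zero] at hz
    exact lt_irrefl _ hz
  ext i j
  have h6 := h2 j
  rw [Fin.sum_univ_three, congrFun m0 j, congrFun m1 j, Pi.zero_apply, mul_zero, mul_zero, zero_add,
    zero_add] at h6
  fin_cases i
  · exact congrFun m0 j
  · exact congrFun m1 j
  · exact (mul_eq_zero.1 h6).resolve_left hz2

/-- The correction of `m`. -/
def cor (Z q : V3) (m : M3) : M3 := fun i j => m i j + ep i * conj (Z i) * q j / ((NN Z : ℝ) : ℂ)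

theorem cor_ort {Z q : V3} {m : M3} (hq : Ort Z q) (h1 : ∀ i, Ort Z (m i)) (i : Fin 3) :
    Ort Z (cor Z q m i) := by
  have h := h1 i
  unfold Ort cor at *
  have e : ∀ j, conj (Z j) * (m i j + ep i * conj (Z i) * q j / ((NN Z : ℝ) : ℂ)) =
      conj (Z j) * m i j + (ep i * conj (Z i) / ((NN Z : ℝ) : ℂ)) * (conj (Z j) * q j) := by
    intro j
    ring
  rw [Finset.sum_congr rfl fun j _ => e j, Finset.sum_add_distrib, ← Finset.mul_sum, h, hq, mul_zero,
    add_zero]

theorem NN_eq (Z : V3) : ((NN Z : ℝ) : ℂ) = Z 2 * conj (Z 2) - Z 0 * conj (Z 0) - Z 1 * conj (Z 1) := by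
  unfold NN
  simp only [Complex.ofReal_sub, Complex.mul_conj]

theorem cor_sum {Z q : V3} {m : M3} (hZ : Z ∈ Co) (h2 : ∀ j, ∑ i, Z i * m i j = q j) (j : Fin 3) :
    ∑ i, Z i * cor Z q m i j = 0 := by
  have hN : ((NN Z : ℝ) : ℂ) ≠ 0 := Complex.ofReal_ne_zero.2 (ne_of_gt hZ)
  have h := h2 j
  have hNe := NN_eq Z
  unfold cor ep
  rw [Fin.sum_univ_three] at h ⊢
  simp only [Matrix.cons_val_zero, Matrix.cons_val_one, Matrix.cons_val]
  have e : Z 0 * (m 0 j + 1 * conj (Z 0) * q j / ((NN Z : ℝ) : ℂ)) +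
      Z 1 * (m 1 j + 1 * conj (Z 1) * q j / ((NN Z : ℝ) : ℂ)) +
      Z 2 * (m 2 j + -1 * conj (Z 2) * q j / ((NN Z : ℝ) : ℂ)) =
      (Z 0 * m 0 j + Z 1 * m 1 j + Z 2 * m 2 j) -
        (Z 2 * conj (Z 2) - Z 0 * conj (Z 0) - Z 1 * conj (Z 1)) / ((NN Z : ℝ) : ℂ) * q j := by
    ring
  rw [e, h, ← hNe, div_self hN, one_mul, sub_self]

/-- The norm of the correction. -/
theorem RM_cor {Z q : V3} {m : M3} (hZ : Z ∈ Co) (h2 : ∀ j, ∑ i, Z i * m i j = q j) :
    RM (cor Z q m) = RM m + RR q / NN Z := by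
  have hN : NN Z ≠ 0 := ne_of_gt hZ
  have hre : ∀ j, (q j).re = (Z 0 * m 0 j).re + (Z 1 * m 1 j).re + (Z 2 * m 2 j).re ∧
      (q j).im = (Z 0 * m 0 j).im + (Z 1 * m 1 j).im + (Z 2 * m 2 j).im := by
    intro j
    have h := h2 j
    rw [Fin.sum_univ_three] at h
    rw [← h]
    simp
  -- one entry
  have hent : ∀ (e : ℝ) (i j : Fin 3), Complex.normSq (m i j + (e : ℂ) * conj (Z i) * q j / ((NN Z : ℝ) : ℂ)) =
      Complex.normSq (m i j) + 2 * e / NN Z * ((Z i * m i j).re * (q j).re + (Z i * m i j).im * (q j).im) +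
        e ^ 2 * Complex.normSq (Z i) * Complex.normSq (q j) / NN Z ^ 2 := by
    intro e i j
    have e1 : (e : ℂ) * conj (Z i) * q j / ((NN Z : ℝ) : ℂ) =
        ((e / NN Z : ℝ) : ℂ) * (conj (Z i) * q j) := by
      push_cast
      ring
    rw [e1]
    simp only [Complex.normSq_apply, Complex.add_re, Complex.add_im, Complex.mul_re, Complex.mul_im,
      Complex.conj_re, Complex.conj_im, Complex.ofReal_re, Complex.ofReal_im, zero_mul, sub_zero,
      add_zero]
    field_simp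
    ring
  have hcol : ∀ j, Complex.normSq (cor Z q m 0 j) + Complex.normSq (cor Z q m 1 j) -
      Complex.normSq (cor Z q m 2 j) = Complex.normSq (m 0 j) + Complex.normSq (m 1 j) -
        Complex.normSq (m 2 j) + Complex.normSq (q j) / NN Z := by
    intro j
    have a0 := hent 1 0 j
    have a1 := hent 1 1 j
    have a2 := hent (-1) 2 j
    obtain ⟨r1, r2⟩ := hre j
    have c0 : cor Z q m 0 j = m 0 j + ((1 : ℝ) : ℂ) * conj (Z 0) * q j / ((NN Z : ℝ) : ℂ) := by
      simp [cor, ep]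
    have c1 : cor Z q m 1 j = m 1 j + ((1 : ℝ) : ℂ) * conj (Z 1) * q j / ((NN Z : ℝ) : ℂ) := by
      simp [cor, ep]
    have c2 : cor Z q m 2 j = m 2 j + ((-1 : ℝ) : ℂ) * conj (Z 2) * q j / ((NN Z : ℝ) : ℂ) := by
      simp [cor, ep]
    rw [c0, c1, c2, a0, a1, a2]
    have hq : Complex.normSq (q j) = (q j).re * (q j).re + (q j).im * (q j).im := Complex.normSq_apply _
    have hNN : Complex.normSq (Z 0) + Complex.normSq (Z 1) - Complex.normSq (Z 2) = -NN Z := by
      unfold NN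
      ring
    have e2 : (2 : ℝ) * 1 / NN Z * ((Z 0 * m 0 j).re * (q j).re + (Z 0 * m 0 j).im * (q j).im) +
        2 * 1 / NN Z * ((Z 1 * m 1 j).re * (q j).re + (Z 1 * m 1 j).im * (q j).im) -
        2 * (-1) / NN Z * ((Z 2 * m 2 j).re * (q j).re + (Z 2 * m 2 j).im * (q j).im) =
        2 * Complex.normSq (q j) / NN Z := by
      rw [hq]
      have : (2 : ℝ) * 1 / NN Z * ((Z 0 * m 0 j).re * (q j).re + (Z 0 * m 0 j).im * (q j).im) +
          2 * 1 / NN Z * ((Z 1 * m 1 j).re * (q j).re + (Z 1 * m 1 j).im * (q j).im) -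
          2 * (-1) / NN Z * ((Z 2 * m 2 j).re * (q j).re + (Z 2 * m 2 j).im * (q j).im) =
          2 / NN Z * (((Z 0 * m 0 j).re + (Z 1 * m 1 j).re + (Z 2 * m 2 j).re) * (q j).re +
            ((Z 0 * m 0 j).im + (Z 1 * m 1 j).im + (Z 2 * m 2 j).im) * (q j).im) := by ring
      rw [this, ← r1, ← r2]
      ring
    have e3 : (1 : ℝ) ^ 2 * Complex.normSq (Z 0) * Complex.normSq (q j) / NN Z ^ 2 +
        1 ^ 2 * Complex.normSq (Z 1) * Complex.normSq (q j) / NN Z ^ 2 -
        (-1) ^ 2 * Complex.normSq (Z 2) * Complex.normSq (q j) / NN Z ^ 2 =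
        -(Complex.normSq (q j) / NN Z) := by
      have : (1 : ℝ) ^ 2 * Complex.normSq (Z 0) * Complex.normSq (q j) / NN Z ^ 2 +
          1 ^ 2 * Complex.normSq (Z 1) * Complex.normSq (q j) / NN Z ^ 2 -
          (-1) ^ 2 * Complex.normSq (Z 2) * Complex.normSq (q j) / NN Z ^ 2 =
          (Complex.normSq (Z 0) + Complex.normSq (Z 1) - Complex.normSq (Z 2)) *
            Complex.normSq (q j) / NN Z ^ 2 := by ring
      rw [this, hNN]
      field_simp
    linear_combination e2 + e3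
  have h0 := hcol 0
  have h1 := hcol 1
  have h3 := hcol 2
  unfold RM RR
  linear_combination h0 + h1 - h3

/-- **(P3)** -/
theorem RM_ge {Z q : V3} {m : M3} (hZ : Z ∈ Co) (h1 : ∀ i, Ort Z (m i))
    (h2 : ∀ j, ∑ i, Z i * m i j = q j) (hq : Ort Z q) :
    RR q / NN Z ≤ RM m + 2 * (RR q / NN Z) := by
  have h := RM_nonneg hZ (cor_ort hq h1) (cor_sum hZ h2)
  rw [RM_cor hZ h2] at h
  linarith

/-- `q` is orthogonal automatically. -/
theorem ort_of_sum {Z q : V3} {m : M3} (h1 : ∀ i, Ort Z (m i)) (h2 : ∀ j, ∑ i, Z i * m i j = q j) :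
    Ort Z q := by
  unfold Ort at *
  have e : ∀ j, conj (Z j) * q j = ∑ i, Z i * (conj (Z j) * m i j) := by
    intro j
    rw [← h2 j, Finset.mul_sum]
    exact Finset.sum_congr rfl fun i _ => by ring
  rw [Finset.sum_congr rfl fun j _ => e j, Finset.sum_comm]
  refine Finset.sum_eq_zero fun i _ => ?_
  rw [← Finset.mul_sum, h1 i, mul_zero]

end CMT.J3
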