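import Pool.Agent.Lib.CMT.D.Chi

/-!
# Theorem CM, part J3: smooth weights and smooth sections with a given cocycle (abstract)
-/

set_option autoImplicit false

open Set Topology ContDiff

noncomputable section

namespace CMT.J3

open CMT.D

variable {G E : Type*} [Group G] [NormedAddCommGroup E] [NormedSpace ℝ E] {W : Type*} [NormedAddCommGroup W]
  [NormedSpace ℝ W]

/-- A locally finite sum of smooth functions is smooth. -/
theorem smooth_finsum [FiniteDimensional ℝ E] {U : Set E} {ρ : G → E → E} (h : PdAct U ρ) (hU : IsOpen U)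
    (hs : ∀ g, ContDiffOn ℝ ∞ (ρ g) U) {u : E → ℝ} (hus : ContDiff ℝ ∞ u) (hu : HasCompactSupport u)
    (huU : tsupport u ⊆ U) {l : G → E → W} (hl : ∀ g, ContDiffOn ℝ ∞ (l g) U) :
    ContDiffOn ℝ ∞ (fun z => ∑ᶠ g : G, u (ρ g z) • l g z) U := by
  intro z hz
  obtain ⟨V, hV, hzV, hVU⟩ := exists_compact_subset hU hz
  have hfin := h.finSupp hu huU hV hVU
  have hon : ContDiffOn ℝ ∞ (fun z => ∑ g ∈ hfin.toFinset, u (ρ g z) • l g z) U :=
    ContDiffOn.sum fun g _ => (hus.comp_contDiffOn (hs g)).smul (hl g)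
  have he : ∀ w ∈ V, ∑ᶠ g : G, u (ρ g w) • l g w = ∑ g ∈ hfin.toFinset, u (ρ g w) • l g w := by
    intro w hw
    refine finsum_eq_sum_of_support_subset _ ?_
    intro g hg
    rw [Function.mem_support] at hg
    have h1 : u (ρ g w) ≠ 0 := by
      intro h2
      rw [h2, zero_smul] at hg
      exact hg rfl
    exact_mod_cast hfin.mem_toFinset.2 ⟨w, hw, subset_tsupport u h1⟩
  have hev : (fun z => ∑ᶠ g : G, u (ρ g z) • l g z) =ᶠ[𝓝 z] fun z => ∑ g ∈ hfin.toFinset, u (ρ g z) • l g z := by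
    filter_upwards [isOpen_interior.mem_nhds hzV] with w hw
    exact he w (interior_subset hw)
  exact ((hon.contDiffAt (hU.mem_nhds hz)).congr_of_eventuallyEq hev).contDiffWithinAt

/-- **Smooth weights exist.** -/
theorem exists_smooth_wt [FiniteDimensional ℝ E] {U : Set E} {ρ : G → E → E} (h : PdAct U ρ)
    (hU : IsOpen U) (hs : ∀ g, ContDiffOn ℝ ∞ (ρ g) U) (C : Set E) (hC : IsCompact C) (hCU : C ⊆ U)
    (hcov : ∀ z ∈ U, ∃ g, ρ g z ∈ C) : ∃ χ : E → ℝ, ContDiff ℝ ∞ χ ∧ IsWt U ρ χ := by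
  obtain ⟨K, hK, hCK, hKU⟩ := exists_compact_between hC hU hCU
  obtain ⟨f, hfs, hfsm, hfr⟩ := (isOpen_interior (s := K)).exists_contDiff_support_eq (n := ⊤)
  have hf0' : ∀ z, 0 ≤ f z := fun z => (hfr (mem_range_self z)).1
  have hsub : tsupport f ⊆ K := by
    refine closure_minimal ?_ hK.isClosed
    rw [hfs]
    exact interior_subset
  have hfU : tsupport f ⊆ U := hsub.trans hKU
  have hfc : HasCompactSupport f := HasCompactSupport.of_support_subset_isCompact hK (subset_closure.trans hsub)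
  have hpos : ∀ z ∈ U, 0 < avg ρ f z := by
    intro z hz
    obtain ⟨g, hg⟩ := hcov z hz
    refine h.avg_pos hfc hfU hf0' hz ⟨g, ?_⟩
    have h1 : ρ g z ∈ Function.support f := by
      rw [hfs]
      exact hCK hg
    exact lt_of_le_of_ne (hf0' _) (Ne.symm h1)
  have hct : tsupport (fun z => f z / avg ρ f z) ⊆ tsupport f := by
    refine closure_mono ?_
    intro z hz hz'
    exact hz (by simp only [hz', zero_div])
  have havg : ContDiffOn ℝ ∞ (avg ρ f) U := by
    have h1 := smooth_finsum (W := ℝ) h hU hs hfsm hfc hfU (l := fun _ _ => (1 : ℝ)) (fun g => contDiffOn_const)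
    refine h1.congr fun z hz => ?_
    unfold avg
    simp only [smul_eq_mul, mul_one]
  have hon : ContDiffOn ℝ ∞ (fun z => f z / avg ρ f z) U :=
    hfsm.contDiffOn.div havg fun z hz => (hpos z hz).ne'
  have hsm : ContDiff ℝ ∞ (fun z => f z / avg ρ f z) := by
    rw [contDiff_iff_contDiffAt]
    intro z
    by_cases hz : z ∈ U
    · exact hon.contDiffAt (hU.mem_nhds hz)
    · have h2 : z ∈ (tsupport (fun z => f z / avg ρ f z))ᶜ := fun hh => hz (hfU (hct hh))
      have h3 : (fun z => f z / avg ρ f z) =ᶠ[𝓝 z] fun _ => 0 := by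
        filter_upwards [(isClosed_tsupport _).isOpen_compl.mem_nhds h2] with w hw
        by_contra h5
        exact hw (subset_tsupport _ h5)
      exact contDiffAt_const.congr_of_eventuallyEq h3
  refine ⟨fun z => f z / avg ρ f z, hsm, hsm.continuous, ?_, hct.trans hfU, ?_, ?_⟩
  · exact HasCompactSupport.of_support_subset_isCompact hfc (subset_closure.trans hct)
  · intro z
    exact div_nonneg (hf0' z) (finsum_nonneg fun g => hf0' _)
  · intro z hz
    have e : ∀ g : G, f (ρ g z) / avg ρ f (ρ g z) = f (ρ g z) / avg ρ f z := by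
      intro g
      rw [h.avg_inv _ g hz]
    have hfz := h.finZ hfc hfU hz
    have h1 : HasSum (fun g : G => f (ρ g z)) (avg ρ f z) := by
      have e2 : avg ρ f z = ∑ g ∈ hfz.toFinset, f (ρ g z) := finsum_eq_sum _ hfz
      rw [e2]
      refine hasSum_sum_of_ne_finset_zero ?_
      intro g hg
      by_contra hne
      exact hg (hfz.mem_toFinset.2 hne)
    have h2 := h1.div_const (avg ρ f z)
    rw [div_self (hpos z hz).ne'] at h2
    simp only [e]
    exact h2

/-- The section attached to a cocycle `l` for the factor `B`. -/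
def sec0 (ρ : G → E → E) (χ : E → ℝ) (l : G → E → W) (z : E) : W := -∑ᶠ g : G, χ (ρ g z) • l g z

theorem sec0_smooth [FiniteDimensional ℝ E] {U : Set E} {ρ : G → E → E} (h : PdAct U ρ) (hU : IsOpen U)
    (hs : ∀ g, ContDiffOn ℝ ∞ (ρ g) U) {χ : E → ℝ} (hχs : ContDiff ℝ ∞ χ) (hχ : IsWt U ρ χ) {l : G → E → W}
    (hl : ∀ g, ContDiffOn ℝ ∞ (l g) U) : ContDiffOn ℝ ∞ (sec0 ρ χ l) U :=
  (smooth_finsum h hU hs hχs hχ.comp hχ.supp hl).neg

/-- `B h z • F0 (ρ h z) = F0 z + l h z`. -/
theorem sec0_coc {𝕜 : Type*} [NormedField 𝕜] [NormedSpace 𝕜 W] [NormedAlgebra ℝ 𝕜] [IsScalarTower ℝ 𝕜 W]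
    {U : Set E} {ρ : G → E → E} (h : PdAct U ρ) {χ : E → ℝ} (hχ : IsWt U ρ χ)
    {B : G → E → 𝕜} {l : G → E → W}
    (hl : ∀ g g', ∀ z ∈ U, l (g * g') z = B g' z • l g (ρ g' z) + l g' z) (g' : G) {z : E} (hz : z ∈ U) :
    B g' z • sec0 ρ χ l (ρ g' z) = sec0 ρ χ l z + l g' z := by
  classical
  have hfz := h.finZ hχ.comp hχ.supp hz
  have hz' := h.maps g' z hz
  have hfz' := h.finZ hχ.comp hχ.supp hz'
  have hsum : ∑ᶠ g : G, χ (ρ g z) = 1 := by
    have h1 := hχ.sum z hz
    rw [finsum_eq_sum _ hfz]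
    refine (hasSum_sum_of_ne_finset_zero ?_).unique h1
    intro g hg
    by_contra hne
    exact hg (hfz.mem_toFinset.2 hne)
  have e1 : B g' z • sec0 ρ χ l (ρ g' z) = -∑ᶠ g : G, χ (ρ g (ρ g' z)) • (B g' z • l g (ρ g' z)) := by
    unfold sec0
    rw [smul_neg]
    congr 1
    have hs1 : (Function.support fun g : G => χ (ρ g (ρ g' z)) • l g (ρ g' z)).Finite := by
      refine hfz'.subset ?_
      intro g hg
      rw [Function.mem_support] at hg ⊢
      intro h2
      rw [h2, zero_smul] at hg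
      exact hg rfl
    rw [smul_finsum' (B g' z) hs1]
    refine finsum_congr fun g => ?_
    rw [smul_comm]
  have e2 : ∀ g : G, χ (ρ g (ρ g' z)) • (B g' z • l g (ρ g' z)) =
      χ (ρ (Equiv.mulRight g' g) z) • l (Equiv.mulRight g' g) z - χ (ρ (Equiv.mulRight g' g) z) • l g' z := by
    intro g
    rw [Equiv.coe_mulRight, ← h.mul _ _ z hz, ← smul_sub, hl g g' z hz, add_sub_cancel_right]
  have hs2 : (Function.support fun g : G => χ (ρ g z) • l g z).Finite := by
    refine hfz.subset ?_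
    intro g hg
    rw [Function.mem_support] at hg ⊢
    intro h2
    rw [h2, zero_smul] at hg
    exact hg rfl
  have hs3 : (Function.support fun g : G => χ (ρ g z) • l g' z).Finite := by
    refine hfz.subset ?_
    intro g hg
    rw [Function.mem_support] at hg ⊢
    intro h2
    rw [h2, zero_smul] at hg
    exact hg rfl
  rw [e1, finsum_congr e2,
    finsum_comp_equiv (Equiv.mulRight g') (f := fun g => χ (ρ g z) • l g z - χ (ρ g z) • l g' z),
    finsum_sub_distrib hs2 hs3, ← finsum_smul, hsum, one_smul]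
  unfold sec0
  abel

end CMT.J3
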