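import Pool.Agent.Lib.CMT.D.Chi
import Pool.Agent.Lib.CMT.G.Idx

/-!
# Theorem CM, part J3: the divergence theorem on a quotient, by a weight

`X` open in a finite dimensional real space `E`, a group acting on `X` by `A g` with derivative `Dg g z`, `J g z = |det|`. Let `V` be a
vector field with `J g z • V (A g z) = Dg g z (V z)`. Then `∫ χ div V = 0` for every smooth weight `χ`.
-/

set_option autoImplicit false

open Set Topology ContDiff MeasureTheory

noncomputable section

namespace CMT.J3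

open CMT.D Pool.Agent.CMT.G

variable {E : Type*} [NormedAddCommGroup E] [NormedSpace ℝ E] [FiniteDimensional ℝ E] [MeasurableSpace E]
  [BorelSpace E] {μ : Measure E} [μ.IsAddHaarMeasure] {Γ : Type*} [Group Γ]

variable {X : Set E} {A : Γ → E → E} {J : Γ → E → ℝ} {χ : E → ℝ}

/-- Change of variables, real functions. -/
theorem comp_real (hA : Ac X A J) (g : Γ) (F : E → ℝ) :
    ∫ w in X, F w ∂μ = ∫ z in X, J g z * F (A g z) ∂μ := by
  have h : ∀ z, ∃ D : E →L[ℝ] E, z ∈ X → (HasFDerivAt (A g) D z ∧ |D.det| = J g z) := by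
    intro z
    by_cases hz : z ∈ X
    · obtain ⟨D, hD⟩ := hA.der g z hz
      exact ⟨D, fun _ => hD⟩
    · exact ⟨0, fun h => absurd h hz⟩
  choose D hD using h
  have h1 := integral_image_eq_integral_abs_det_fderiv_smul μ hA.op.measurableSet
    (fun z hz => (hD z hz).1.hasFDerivWithinAt) (hA.injOn g) F
  rw [hA.image g] at h1
  rw [h1]
  refine setIntegral_congr_fun hA.op.measurableSet fun z hz => ?_
  show |(D z).det| • F (A g z) = J g z * F (A g z)
  rw [(hD z hz).2, smul_eq_mul]

theorem comp_integrable (hA : Ac X A J) (g : Γ) {F : E → ℝ} (hF : IntegrableOn F X μ) :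
    IntegrableOn (fun z => J g z * F (A g z)) X μ := by
  have h : ∀ z, ∃ D : E →L[ℝ] E, z ∈ X → (HasFDerivAt (A g) D z ∧ |D.det| = J g z) := by
    intro z
    by_cases hz : z ∈ X
    · obtain ⟨D, hD⟩ := hA.der g z hz
      exact ⟨D, fun _ => hD⟩
    · exact ⟨0, fun h => absurd h hz⟩
  choose D hD using h
  have h1 := integrableOn_image_iff_integrableOn_abs_det_fderiv_smul μ hA.op.measurableSet
    (fun z hz => (hD z hz).1.hasFDerivWithinAt) (hA.injOn g) F
  rw [hA.image g] at h1
  refine (h1.1 hF).congr_fun (fun z hz => ?_) hA.op.measurableSet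
  show |(D z).det| • F (A g z) = J g z * F (A g z)
  rw [(hD z hz).2, smul_eq_mul]

/-- A function `u · f` with `u` continuous of compact support in `X` and `f` continuous on `X` is continuous with compact support. -/
theorem cont_mul (hX : IsOpen X) {u f : E → ℝ} (hu : Continuous u) (hc : HasCompactSupport u) (hs : tsupport u ⊆ X)
    (hf : ContinuousOn f X) : Continuous (fun z => u z * f z) ∧ HasCompactSupport (fun z => u z * f z) := by
  refine ⟨?_, hc.mul_right⟩
  rw [continuous_iff_continuousAt]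
  intro z
  by_cases hz : z ∈ X
  · exact hu.continuousAt.mul (hf.continuousAt (hX.mem_nhds hz))
  · have h2 : z ∈ (tsupport u)ᶜ := fun h => hz (hs h)
    have h3 : (fun z => u z * f z) =ᶠ[nhds z] fun _ => 0 := by
      filter_upwards [(isClosed_tsupport u).isOpen_compl.mem_nhds h2] with w hw
      have h4 : u w = 0 := by
        by_contra h5
        exact hw (subset_tsupport _ h5)
      rw [h4, zero_mul]
    exact h3.continuousAt

theorem integrable_real (hX : IsOpen X) {u f : E → ℝ} (hu : Continuous u) (hc : HasCompactSupport u)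
    (hs : tsupport u ⊆ X) (hf : ContinuousOn f X) : Integrable (fun z => u z * f z) μ :=
  (cont_mul hX hu hc hs hf).1.integrable_of_hasCompactSupport (cont_mul hX hu hc hs hf).2

/-- Integration by parts. -/
theorem parts (hX : IsOpen X) (hχ : ContDiff ℝ 1 χ) (hc : HasCompactSupport χ) (hs : tsupport χ ⊆ X) {f : E → ℝ}
    (hf : ContDiffOn ℝ 1 f X) (v : E) :
    ∫ z, χ z * fderiv ℝ f z v ∂μ = -∫ z, fderiv ℝ χ z v * f z ∂μ := by
  have hdf : ContinuousOn (fun z => fderiv ℝ f z v) X := by
    have h1 := hf.continuousOn_fderiv_of_isOpen hX le_rfl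
    exact h1.clm_apply continuousOn_const
  have hdχ : Continuous (fun z => fderiv ℝ χ z v) := (hχ.continuous_fderiv one_ne_zero).clm_apply continuous_const
  have hdc : HasCompactSupport (fun z => fderiv ℝ χ z v) := by
    refine HasCompactSupport.of_support_subset_isCompact hc ?_
    intro z hz
    by_contra h1
    rw [Function.mem_support] at hz
    apply hz
    rw [fderiv_of_notMem_tsupport (𝕜 := ℝ) h1]
    rfl
  have hds : tsupport (fun z => fderiv ℝ χ z v) ⊆ X := by
    refine (closure_minimal ?_ (isClosed_tsupport χ)).trans hs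
    intro z hz
    by_contra h1
    rw [Function.mem_support] at hz
    apply hz
    rw [fderiv_of_notMem_tsupport (𝕜 := ℝ) h1]
    rfl
  refine integral_mul_fderiv_eq_neg_fderiv_mul_of_integrable ?_ ?_ ?_ ?_ ?_
  · exact integrable_real hX hdχ hdc hds hf.continuousOn
  · exact integrable_real hX hχ.continuous hc hs hdf
  · exact integrable_real hX hχ.continuous hc hs hf.continuousOn
  · exact fun x _ => (hχ.differentiable one_ne_zero) x
  · exact fun x hx => (hf.contDiffAt (hX.mem_nhds (hs hx))).differentiableAt one_ne_zero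

/-- **The divergence theorem.** -/
theorem stokes (hA : Ac X A J) (hP : PdAct X A) {Dg : Γ → E → E →L[ℝ] E}
    (hD : ∀ g, ∀ z ∈ X, HasFDerivAt (A g) (Dg g z) z)
    (hχs : ContDiff ℝ 1 χ) (hχ : IsWt X A χ) {V : E → E} (hV : ContDiffOn ℝ 1 V X)
    (hlaw : ∀ g, ∀ z ∈ X, J g z • V (A g z) = Dg g z (V z))
    {ι : Type*} [Fintype ι] (e : ι → E) (c : ι → E →L[ℝ] ℝ) (hec : ∀ v : E, ∑ i, c i v • e i = v) :
    ∫ z, χ z * ∑ i, c i (fderiv ℝ V z (e i)) ∂μ = 0 := by
  classical
  have hX := hA.op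
  -- integration by parts
  have hfd : ∀ i, ContDiffOn ℝ 1 (fun z => c i (V z)) X := fun i => (c i).contDiff.comp_contDiffOn hV
  have hcd : ∀ i, ∀ z ∈ X, c i (fderiv ℝ V z (e i)) = fderiv ℝ (fun z => c i (V z)) z (e i) := by
    intro i z hz
    have h1 : DifferentiableAt ℝ V z := (hV.contDiffAt (hX.mem_nhds hz)).differentiableAt one_ne_zero
    have h2 : HasFDerivAt (fun z => c i (V z)) ((c i).comp (fderiv ℝ V z)) z := (c i).hasFDerivAt.comp z h1.hasFDerivAt
    rw [h2.fderiv]
    rfl
  have h1 : ∫ z, χ z * ∑ i, c i (fderiv ℝ V z (e i)) ∂μ = -∫ z, fderiv ℝ χ z (V z) ∂μ := by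
    have e1 : ∀ z, χ z * ∑ i, c i (fderiv ℝ V z (e i)) = ∑ i, χ z * fderiv ℝ (fun z => c i (V z)) z (e i) := by
      intro z
      by_cases hz : z ∈ X
      · rw [Finset.mul_sum]
        exact Finset.sum_congr rfl fun i _ => by rw [hcd i z hz]
      · have h0 : χ z = 0 := by
          by_contra h5
          exact hz (hχ.supp (subset_tsupport _ h5))
        simp [h0]
    have e2 : ∀ z, fderiv ℝ χ z (V z) = ∑ i, fderiv ℝ χ z (e i) * c i (V z) := by
      intro z
      conv_lhs => rw [← hec (V z)]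
      rw [map_sum]
      refine Finset.sum_congr rfl fun i _ => ?_
      rw [map_smul, smul_eq_mul, mul_comm]
    simp_rw [e1, e2]
    have hint : ∀ i, Integrable (fun z => χ z * fderiv ℝ (fun z => c i (V z)) z (e i)) μ := fun i =>
      integrable_real hX hχ.cont hχ.comp hχ.supp (((hfd i).continuousOn_fderiv_of_isOpen hX le_rfl).clm_apply continuousOn_const)
    have hint2 : ∀ i, Integrable (fun z => fderiv ℝ χ z (e i) * c i (V z)) μ := by
      intro i
      have hz0 : ∀ z, fderiv ℝ χ z (e i) ≠ 0 → z ∈ tsupport χ := by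
        intro z hz
        by_contra h1
        apply hz
        rw [fderiv_of_notMem_tsupport (𝕜 := ℝ) h1]
        rfl
      refine integrable_real hX ((hχs.continuous_fderiv one_ne_zero).clm_apply continuous_const) ?_ ?_ (hfd i).continuousOn
      · exact HasCompactSupport.of_support_subset_isCompact hχ.comp fun z hz => hz0 z hz
      · exact (closure_minimal (fun z hz => hz0 z hz) (isClosed_tsupport χ)).trans hχ.supp
    rw [integral_finsetSum _ fun i _ => hint i, integral_finsetSum _ fun i _ => hint2 i, ← Finset.sum_neg_distrib]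
    exact Finset.sum_congr rfl fun i _ => parts hX hχs hχ.comp hχ.supp (hfd i) (e i)
  rw [h1, neg_eq_zero]
  -- the finite set of group elements
  have hfin := hP.fin (tsupport χ) hχ.comp hχ.supp
  set S := hfin.toFinset with hS
  have hmem : ∀ g, g ∈ S ↔ ∃ z ∈ tsupport χ, A g z ∈ tsupport χ := fun g => by
    rw [hS, Set.Finite.mem_toFinset]
    rfl
  have hinvS : ∀ g, g ∈ S → g⁻¹ ∈ S := by
    intro g hg
    obtain ⟨z, hz, hgz⟩ := (hmem g).1 hg
    refine (hmem _).2 ⟨A g z, hgz, ?_⟩
    rw [hA.inv_act g (hχ.supp hz)]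
    exact hz
  have hsum : ∀ z ∈ tsupport χ, ∑ g ∈ S, χ (A g z) = 1 := by
    intro z hz
    refine (hasSum_sum_of_ne_finset_zero ?_).unique (hχ.sum z (hχ.supp hz))
    intro g hg
    by_contra h2
    exact hg ((hmem g).2 ⟨z, hz, subset_tsupport _ h2⟩)
  have hsum' : ∀ z ∈ tsupport χ, ∑ g ∈ S, χ (A g⁻¹ z) = 1 := by
    intro z hz
    rw [← hsum z hz]
    refine Finset.sum_bij' (fun g _ => g⁻¹) (fun g _ => g⁻¹) (fun g hg => hinvS g hg) (fun g hg => hinvS g hg) ?_ ?_ ?_
    · intro g _; exact inv_inv g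
    · intro g _; exact inv_inv g
    · intro g _; rfl
  have hd0 : ∀ z, z ∉ tsupport χ → fderiv ℝ χ z (V z) = 0 := by
    intro z hz
    rw [fderiv_of_notMem_tsupport (𝕜 := ℝ) hz]
    rfl
  have hdX : ∀ z, z ∉ X → fderiv ℝ χ z (V z) = 0 := fun z hz => hd0 z fun h => hz (hχ.supp h)
  have h2 : ∫ z, fderiv ℝ χ z (V z) ∂μ = ∫ z in X, fderiv ℝ χ z (V z) ∂μ := by
    rw [setIntegral_eq_integral_of_forall_compl_eq_zero]
    exact fun z hz => hdX z hz
  have hdV : ContinuousOn (fun z => fderiv ℝ χ z (V z)) X :=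
    ((hχs.continuous_fderiv one_ne_zero).continuousOn).clm_apply hV.continuousOn
  -- integrability of the terms
  have hti : ∀ g, Integrable (fun z => χ (A g z) * fderiv ℝ χ z (V z)) μ := by
    intro g
    have hcg : ContinuousOn (fun z => χ (A g z) * fderiv ℝ χ z (V z)) X :=
      (hχ.cont.comp_continuousOn (hA.contOn g)).mul hdV
    have h5 : IntegrableOn (fun z => χ (A g z) * fderiv ℝ χ z (V z)) (tsupport χ) μ :=
      (hcg.mono hχ.supp).integrableOn_compact hχ.comp
    refine (integrableOn_iff_integrable_of_support_subset ?_).1 h5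
    intro z hz
    by_contra h7
    rw [Function.mem_support] at hz
    exact hz (by rw [hd0 z h7, mul_zero])
  have h3 : ∫ z in X, fderiv ℝ χ z (V z) ∂μ = ∑ g ∈ S, ∫ z in X, χ (A g z) * fderiv ℝ χ z (V z) ∂μ := by
    rw [← integral_finsetSum _ fun g _ => (hti g).integrableOn]
    refine setIntegral_congr_fun hX.measurableSet fun z hz => ?_
    show fderiv ℝ χ z (V z) = ∑ g ∈ S, χ (A g z) * fderiv ℝ χ z (V z)
    by_cases hzs : z ∈ tsupport χ
    · rw [← Finset.sum_mul, hsum z hzs, one_mul]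
    · simp only [hd0 z hzs, mul_zero, Finset.sum_const_zero]
  have h45 : ∀ g, ∀ z ∈ X, J g⁻¹ z * (χ (A g (A g⁻¹ z)) * fderiv ℝ χ (A g⁻¹ z) (V (A g⁻¹ z))) =
      χ z * fderiv ℝ (fun w => χ (A g⁻¹ w)) z (V z) := by
    intro g z hz
    rw [hA.act_inv g hz]
    have h5 : HasFDerivAt (fun w => χ (A g⁻¹ w)) ((fderiv ℝ χ (A g⁻¹ z)).comp (Dg g⁻¹ z)) z :=
      ((hχs.differentiable one_ne_zero) (A g⁻¹ z)).hasFDerivAt.comp z (hD g⁻¹ z hz)
    rw [h5.fderiv, ContinuousLinearMap.comp_apply, ← hlaw g⁻¹ z hz, map_smul, smul_eq_mul]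
    ring
  have h4 : ∀ g ∈ S, ∫ z in X, χ (A g z) * fderiv ℝ χ z (V z) ∂μ =
      ∫ z in X, χ z * fderiv ℝ (fun w => χ (A g⁻¹ w)) z (V z) ∂μ := by
    intro g _
    rw [comp_real hA g⁻¹]
    exact setIntegral_congr_fun hX.measurableSet fun z hz => h45 g z hz
  have hti' : ∀ g, IntegrableOn (fun z => χ z * fderiv ℝ (fun w => χ (A g⁻¹ w)) z (V z)) X μ := fun g =>
    (comp_integrable hA g⁻¹ (hti g).integrableOn).congr_fun (fun z hz => h45 g z hz) hX.measurableSet
  rw [h2, h3, Finset.sum_congr rfl h4, ← integral_finsetSum _ fun g _ => hti' g]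
  · have h5 : ∀ z ∈ X, ∑ g ∈ S, χ z * fderiv ℝ (fun w => χ (A g⁻¹ w)) z (V z) = 0 := by
      intro z hz
      rw [← Finset.mul_sum]
      by_cases hz0 : χ z = 0
      · rw [hz0, zero_mul]
      · have h6 : ∑ g ∈ S, fderiv ℝ (fun w => χ (A g⁻¹ w)) z (V z) =
            fderiv ℝ (fun w => ∑ g ∈ S, χ (A g⁻¹ w)) z (V z) := by
          rw [fderiv_fun_sum]
          · simp
          · intro g _
            exact ((hχs.differentiable one_ne_zero) (A g⁻¹ z)).comp z (hD g⁻¹ z hz).differentiableAt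
        have h7 : (fun w => ∑ g ∈ S, χ (A g⁻¹ w)) =ᶠ[𝓝 z] fun _ => 1 := by
          have h8 : ∀ᶠ w in 𝓝 z, χ w ≠ 0 := hχ.cont.continuousAt.eventually_ne hz0
          filter_upwards [h8] with w hw
          exact hsum' w (subset_tsupport _ hw)
        rw [h6, h7.fderiv_eq]
        simp
    rw [setIntegral_congr_fun hX.measurableSet (g := fun _ => (0 : ℝ)) fun z hz => h5 z hz]
    simp

end CMT.J3
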